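import Pool.Agent.SP4.Bound

/-!
Existence of the best polytope, from the existence for a bounded number of facets.
-/

open MeasureTheory Set Filter Topology
open scoped ENNReal InnerProductSpace

namespace SP4

open Melzak (E IsPolytope IsKFace zeta)

variable {d : ℕ} [NeZero d]

/-- Maximality among all irredundant systems. -/
def MaxAll (a b : ℝ) {m : ℕ} (n : Fin m → E d) (h : Fin m → ℝ) : Prop :=
  ∀ (m' : ℕ) (n' : Fin m' → E d) (h' : Fin m' → ℝ), Good n' h' →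
    vol n' h' * Lam a b n h ^ d ≤ vol n h * Lam a b n' h' ^ d

lemma bs_trans {V1 V2 V3 L1 L2 L3 : ℝ} (hL2 : 0 < L2) (hV : 0 ≤ V1) (h1 : 0 ≤ L1)
    (h3 : 0 ≤ L3) (h12 : V1 * L2 ^ d ≤ V2 * L1 ^ d) (h23 : V2 * L3 ^ d ≤ V3 * L2 ^ d) :
    V1 * L3 ^ d ≤ V3 * L1 ^ d := by
  have e1 : V1 * L2 ^ d * L3 ^ d ≤ V2 * L1 ^ d * L3 ^ d :=
    mul_le_mul_of_nonneg_right h12 (by positivity)
  have e2 : V2 * L3 ^ d * L1 ^ d ≤ V3 * L2 ^ d * L1 ^ d :=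
    mul_le_mul_of_nonneg_right h23 (by positivity)
  have hp : 0 < L2 ^ d := by positivity
  have e3 : L2 ^ d * (V1 * L3 ^ d) ≤ L2 ^ d * (V3 * L1 ^ d) := by
    calc L2 ^ d * (V1 * L3 ^ d) = V1 * L2 ^ d * L3 ^ d := by ring
      _ ≤ V2 * L1 ^ d * L3 ^ d := e1
      _ = V2 * L3 ^ d * L1 ^ d := by ring
      _ ≤ V3 * L2 ^ d * L1 ^ d := e2
      _ = L2 ^ d * (V3 * L1 ^ d) := by ring
  exact le_of_mul_le_mul_left e3 hp

theorem bs_card (hd : 3 ≤ d) {a b : ℝ} (ha : 0 < a) (hb : 0 ≤ b) (hab : b < a * d)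
    (hdm : ∀ (m : ℕ) (n : Fin m → E d) (h : Fin m → ℝ), Good n h →
      (d : ℝ) * mm (Poly n h) ≤ ∑ i, mm (Fac n h i))
    {m₀ : ℕ} {n₀ : Fin m₀ → E d} {h₀ : Fin m₀ → ℝ} (hg₀ : Good n₀ h₀)
    {m : ℕ} {n : Fin m → E d} {h : Fin m → ℝ} (hg : Good n h) (hmax : MaxN a b n h)
    (h0 : vol n₀ h₀ * Lam a b n h ^ d ≤ vol n h * Lam a b n₀ h₀ ^ d) :
    (m : ℝ) ^ (d - 2) * vol n₀ h₀ ≤
      (d : ℝ) ^ (d - 1) * (Lam a b n₀ h₀ / ((a * d - b) * (cst d).toReal)) ^ d := by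
  have h1 := card_le_of (by omega) ha hb hab hg hmax (fun h' hg' => hdm m n h' hg')
  rw [Fintype.card_fin] at h1
  have hV := hg.vol_pos
  have hV0 := hg₀.vol_pos
  have hc : 0 < (cst d).toReal := cst_toReal_pos
  have habp : 0 < a * d - b := by linarith
  rw [div_pow] at h1 ⊢
  set K : ℝ := ((a * d - b) * (cst d).toReal) ^ d with hK
  have hKp : 0 < K := by positivity
  have h2 : (m : ℝ) ^ (d - 2) * vol n h * K ≤ (d : ℝ) ^ (d - 1) * Lam a b n h ^ d := by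
    rw [mul_div_assoc', le_div_iff₀ hKp] at h1
    exact h1
  rw [mul_div_assoc', le_div_iff₀ hKp]
  have e1 : (m : ℝ) ^ (d - 2) * vol n h * K * vol n₀ h₀ ≤
      (d : ℝ) ^ (d - 1) * Lam a b n h ^ d * vol n₀ h₀ :=
    mul_le_mul_of_nonneg_right h2 hV0.le
  have e2 : (d : ℝ) ^ (d - 1) * (vol n₀ h₀ * Lam a b n h ^ d) ≤
      (d : ℝ) ^ (d - 1) * (vol n h * Lam a b n₀ h₀ ^ d) :=
    mul_le_mul_of_nonneg_left h0 (by positivity)
  have e3 : vol n h * ((m : ℝ) ^ (d - 2) * vol n₀ h₀ * K) ≤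
      vol n h * ((d : ℝ) ^ (d - 1) * Lam a b n₀ h₀ ^ d) := by
    calc vol n h * ((m : ℝ) ^ (d - 2) * vol n₀ h₀ * K)
        = (m : ℝ) ^ (d - 2) * vol n h * K * vol n₀ h₀ := by ring
      _ ≤ (d : ℝ) ^ (d - 1) * Lam a b n h ^ d * vol n₀ h₀ := e1
      _ = (d : ℝ) ^ (d - 1) * (vol n₀ h₀ * Lam a b n h ^ d) := by ring
      _ ≤ (d : ℝ) ^ (d - 1) * (vol n h * Lam a b n₀ h₀ ^ d) := e2
      _ = vol n h * ((d : ℝ) ^ (d - 1) * Lam a b n₀ h₀ ^ d) := by ring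
  exact le_of_mul_le_mul_left e3 hV

theorem exists_best_of (hd : 3 ≤ d) {a b : ℝ} (ha : 0 < a) (hb : 0 ≤ b) (hab : b < a * d)
    (hdm : ∀ (m : ℕ) (n : Fin m → E d) (h : Fin m → ℝ), Good n h →
      (d : ℝ) * mm (Poly n h) ≤ ∑ i, mm (Fac n h i))
    (hsome : ∃ (m : ℕ) (n : Fin m → E d) (h : Fin m → ℝ), Good n h)
    (hfix : ∀ N : ℕ, (∃ m ≤ N, ∃ (n : Fin m → E d) (h : Fin m → ℝ), Good n h) →
      ∃ m ≤ N, ∃ (n : Fin m → E d) (h : Fin m → ℝ), Good n h ∧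
        ∀ m' ≤ N, ∀ (n' : Fin m' → E d) (h' : Fin m' → ℝ), Good n' h' →
          vol n' h' * Lam a b n h ^ d ≤ vol n h * Lam a b n' h' ^ d) :
    ∃ (m : ℕ) (n : Fin m → E d) (h : Fin m → ℝ), Good n h ∧ MaxAll a b n h := by
  obtain ⟨m₀, n₀, h₀, hg₀⟩ := hsome
  have habp : 0 < a * d - b := by linarith
  have hLpos : ∀ (m : ℕ) (n : Fin m → E d) (h : Fin m → ℝ), Good n h → 0 < Lam a b n h :=
    fun m n h hg => (mul_pos habp hg.mm_pos).trans_le (Lam_ge_of ha (hdm m n h hg))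
  set B : ℝ := (d : ℝ) ^ (d - 1) * (Lam a b n₀ h₀ / ((a * d - b) * (cst d).toReal)) ^ d / vol n₀ h₀
    with hB
  have hV0 := hg₀.vol_pos
  obtain ⟨N₁, hN₁⟩ := exists_nat_ge B
  have hbound : ∀ (m : ℕ) (n : Fin m → E d) (h : Fin m → ℝ), Good n h → MaxN a b n h →
      vol n₀ h₀ * Lam a b n h ^ d ≤ vol n h * Lam a b n₀ h₀ ^ d → m ≤ N₁ := by
    intro m n h hg hmax h0
    have h1 := bs_card hd ha hb hab hdm hg₀ hg hmax h0
    rcases Nat.eq_zero_or_pos m with hm | hm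
    · omega
    have h2 : (m : ℝ) ^ (d - 2) ≤ B := by
      rw [hB, le_div_iff₀ hV0]
      exact h1
    have h3 : (m : ℝ) ≤ (m : ℝ) ^ (d - 2) := by
      have h4 : (m : ℝ) ^ 1 ≤ (m : ℝ) ^ (d - 2) :=
        pow_le_pow_right₀ (by exact_mod_cast hm) (by omega)
      rwa [pow_one] at h4
    exact_mod_cast h3.trans (h2.trans hN₁)
  obtain ⟨m, hm, n, h, hg, hmax⟩ := hfix (max m₀ N₁) ⟨m₀, le_max_left _ _, n₀, h₀, hg₀⟩
  refine ⟨m, n, h, hg, fun m' n' h' hg' => ?_⟩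
  by_cases hm' : m' ≤ max m₀ N₁
  · exact hmax m' hm' n' h' hg'
  · push Not at hm'
    have hm0 : m₀ ≤ m' := (le_max_left _ _).trans hm'.le
    obtain ⟨m2, hm2, n2, h2, hg2, hmax2⟩ := hfix m' ⟨m₀, hm0, n₀, h₀, hg₀⟩
    have h5 : m2 ≤ N₁ := hbound m2 n2 h2 hg2 (fun h'' hg'' => hmax2 m2 hm2 n2 h'' hg'')
      (hmax2 m₀ hm0 n₀ h₀ hg₀)
    exact bs_trans (hLpos _ _ _ hg2) hg'.vol_pos.le (hLpos _ _ _ hg').le (hLpos _ _ _ hg).le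
      (hmax2 m' le_rfl n' h' hg') (hmax m2 (h5.trans (le_max_right _ _)) n2 h2 hg2)

end SP4
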