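import Pool.Agent.SP4.Poly
import Pool.Agent.SP4.Slab

/-!
Choice of an inscribed polytope with the same normals all of whose facets are large.
-/

open MeasureTheory Set Filter Topology
open scoped ENNReal InnerProductSpace

namespace SP4

open Melzak (E IsPolytope IsKFace zeta IsBody)

set_option linter.unusedSectionVars false

variable {d : ℕ} [NeZero d]

variable {ι : Type*}

lemma cq_isClosed_poly (n : ι → E d) (h : ι → ℝ) : IsClosed (Poly n h) := by
  unfold Poly
  rw [ofPred_forall]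
  exact isClosed_iInter fun i => isClosed_le (by fun_prop) continuous_const

lemma cq_poly_mono (n : ι → E d) {q h : ι → ℝ} (hq : ∀ i, q i ≤ h i) : Poly n q ⊆ Poly n h :=
  fun _ hx i => (hx i).trans (hq i)

lemma cq_isCompact (n : ι → E d) {q h : ι → ℝ} (hq : ∀ i, q i ≤ h i)
    (hb : Bornology.IsBounded (Poly n h)) : IsCompact (Poly n q) :=
  Metric.isCompact_of_isClosed_isBounded (cq_isClosed_poly n q) (hb.subset (cq_poly_mono n hq))

/-- Upper semicontinuity of the volume in the support numbers. -/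
lemma cq_usc [Fintype ι] {n : ι → E d} {h : ι → ℝ} (hb : Bornology.IsBounded (Poly n h))
    (s : Set (ι → ℝ)) (hs : ∀ q ∈ s, ∀ i, q i ≤ h i) :
    UpperSemicontinuousOn (fun q => (volume (Poly n q)).toReal) s := by
  intro q hq y hy
  -- the sets `Poly n (q + ε) ∩ Poly n h` decrease to `Poly n q`
  have hfin : volume (Poly n h) ≠ ∞ := hb.measure_lt_top.ne
  set A : ℕ → Set (E d) := fun k => Poly n (fun i => q i + 1 / ((k : ℝ) + 1)) ∩ Poly n h with hA
  have hanti : Antitone A := by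
    intro k l hkl x hx
    refine ⟨fun i => (hx.1 i).trans ?_, hx.2⟩
    have : 1 / ((l : ℝ) + 1) ≤ 1 / ((k : ℝ) + 1) := Nat.one_div_le_one_div hkl
    linarith
  have hinter : ⋂ k, A k = Poly n q := by
    ext x
    simp only [hA, mem_iInter, mem_inter_iff]
    constructor
    · intro hx i
      have h1 : Tendsto (fun k : ℕ => q i + 1 / ((k : ℝ) + 1)) atTop (𝓝 (q i + 0)) :=
        tendsto_const_nhds.add tendsto_one_div_add_atTop_nhds_zero_nat
      rw [add_zero] at h1
      exact ge_of_tendsto' h1 (fun k => (hx k).1 i)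
    · intro hx k
      refine ⟨fun i => (hx i).trans ?_, cq_poly_mono n (hs q hq) hx⟩
      have : 0 < 1 / ((k : ℝ) + 1) := by positivity
      linarith
  have hmeas : ∀ k, NullMeasurableSet (A k) volume := fun k =>
    ((cq_isClosed_poly _ _).inter (cq_isClosed_poly _ _)).measurableSet.nullMeasurableSet
  have hlim := tendsto_measure_iInter_atTop (μ := volume) hmeas hanti
    ⟨0, ((measure_mono inter_subset_right).trans_lt hfin.lt_top).ne⟩
  rw [hinter] at hlim
  have hlim2 := (ENNReal.tendsto_toReal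
    ((measure_mono (cq_poly_mono n (hs q hq))).trans_lt hfin.lt_top).ne).comp hlim
  obtain ⟨k, hk⟩ := (hlim2.eventually_lt_const hy).exists
  have hopen : {q' : ι → ℝ | ∀ i, q' i < q i + 1 / ((k : ℝ) + 1)} ∈ 𝓝 q := by
    have hop : IsOpen {q' : ι → ℝ | ∀ i, q' i < q i + 1 / ((k : ℝ) + 1)} := by
      rw [ofPred_forall]
      exact isOpen_iInter_of_finite fun i => isOpen_lt (by fun_prop) continuous_const
    refine hop.mem_nhds ?_
    intro i
    have : 0 < 1 / ((k : ℝ) + 1) := by positivity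
    linarith
  filter_upwards [self_mem_nhdsWithin, mem_nhdsWithin_of_mem_nhds hopen] with q' hq's hq'
  refine lt_of_le_of_lt ?_ hk
  apply ENNReal.toReal_mono ((measure_mono inter_subset_right).trans_lt hfin.lt_top).ne
  apply measure_mono
  intro x hx
  exact ⟨fun i => (hx i).trans (hq' i).le, cq_poly_mono n (hs q' hq's) hx⟩

/-- a hyperplane has volume zero -/
lemma cq_hyperplane {ν : E d} (hν : ‖ν‖ = 1) {S : Set (E d)} {a D : ℝ} (hD : 0 ≤ D)
    (h1 : ∀ x ∈ S, ⟪ν, x⟫_ℝ = a) (h3 : ∀ x ∈ S, ∀ y ∈ S, dist x y ≤ D) : volume S = 0 := by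
  have h := volume_slab hν (S := S) (q := a) (δ := 0) (ρ := D) le_rfl hD
    (fun x hx => by rw [h1 x hx]; linarith) (fun x hx => (h1 x hx).le) h3
  simpa using h

/-- Step (d): an inscribed polytope with the same normals whose facets all have diameter >= ρ₀. -/
lemma choose_q [Fintype ι] (hd : 2 ≤ d) {n : ι → E d} {h : ι → ℝ} (hg : Good n h) {D ρ₀ : ℝ}
    (hD : 0 < D) (hdiam : ∀ x ∈ Poly n h, ∀ y ∈ Poly n h, dist x y ≤ D) (hρ₀ : 0 < ρ₀)
    (hV : ENNReal.ofReal (ρ₀ ^ (d - 1) * (Fintype.card ι * D)) < volume (Poly n h)) :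
    ∃ q : ι → ℝ, (∀ i, q i ≤ h i) ∧
      ∀ i, ∃ x ∈ Fac n q i, ∃ y ∈ Fac n q i, ρ₀ ≤ dist x y := by
  classical
  set β : ℝ := ρ₀ ^ (d - 1) with hβdef
  have hβ : 0 < β := by positivity
  have hfin : volume (Poly n h) ≠ ∞ := hg.bdd.measure_lt_top.ne
  set Bx : Set (ι → ℝ) := Set.pi univ fun i => Icc (h i - D) (h i) with hBx
  have hBc : IsCompact Bx := isCompact_univ_pi fun i => isCompact_Icc
  have hBne : Bx.Nonempty := ⟨h, fun i _ => ⟨by linarith, le_rfl⟩⟩
  have hBle : ∀ q ∈ Bx, ∀ i, q i ≤ h i := fun q hq i => (hq i (mem_univ i)).2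
  set g : (ι → ℝ) → ℝ := fun q => (volume (Poly n q)).toReal + (-(β * ∑ i, q i)) with hgdef
  have hgusc : UpperSemicontinuousOn g Bx := by
    apply (cq_usc hg.bdd Bx hBle).add
    exact (by fun_prop : Continuous fun q : ι → ℝ => -(β * ∑ i, q i)).continuousOn.upperSemicontinuousOn
  obtain ⟨q, hqB, hqmax⟩ := hgusc.exists_isMaxOn hBne hBc
  have hqle := hBle q hqB
  have hqge : ∀ i, h i - D ≤ q i := fun i => (hqB i (mem_univ i)).1
  have hfinq : ∀ q' ∈ Bx, volume (Poly n q') ≠ ∞ := fun q' hq' =>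
    ((measure_mono (cq_poly_mono n (hBle q' hq'))).trans_lt hfin.lt_top).ne
  -- the volume of `Q` is positive
  have hVQ : 0 < (volume (Poly n q)).toReal := by
    have h1 : g h ≤ g q := hqmax (show h ∈ Bx from fun i _ => ⟨by linarith, le_rfl⟩)
    have h2 : β * (Fintype.card ι * D) < (volume (Poly n h)).toReal :=
      (ENNReal.ofReal_lt_iff_lt_toReal (by positivity) hfin).mp hV
    have h3 : ∑ i, h i - ∑ i, q i ≤ Fintype.card ι * D := by
      rw [← Finset.sum_sub_distrib]
      calc ∑ i, (h i - q i) ≤ ∑ _i : ι, D := Finset.sum_le_sum fun i _ => by linarith [hqge i]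
        _ = Fintype.card ι * D := by simp
    simp only [hgdef] at h1
    have h4 : β * (∑ i, h i - ∑ i, q i) ≤ β * (Fintype.card ι * D) :=
      mul_le_mul_of_nonneg_left h3 hβ.le
    nlinarith
  have hVQ' : volume (Poly n q) ≠ 0 := by
    intro h0
    rw [h0] at hVQ
    simp at hVQ
  have hQdist : ∀ x ∈ Poly n q, ∀ y ∈ Poly n q, dist x y ≤ D := fun x hx y hy =>
    hdiam x (cq_poly_mono n hqle hx) y (cq_poly_mono n hqle hy)
  -- the lower bound is not attained
  have hqgt : ∀ i, h i - D < q i := by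
    intro i
    rcases (hqge i).eq_or_lt with he | hlt
    · exfalso
      apply hVQ'
      obtain ⟨y, hy1, hy2⟩ := hg.irr i
      have hyP : y ∈ Poly n h := by
        intro j
        by_cases hj : j = i
        · rw [hj, hy1]
        · exact (hy2 j hj).le
      apply cq_hyperplane (hg.unit i) (a := h i - D) hD.le _ hQdist
      intro x hx
      have hxP := cq_poly_mono n hqle hx
      apply le_antisymm
      · rw [he]; exact hx i
      · have h4 : ⟪n i, y - x⟫_ℝ ≤ ‖n i‖ * ‖y - x‖ := real_inner_le_norm _ _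
        rw [hg.unit i, one_mul, inner_sub_right, hy1, ← dist_eq_norm] at h4
        linarith [hdiam y hyP x hxP]
    · exact hlt
  refine ⟨q, hqle, fun i => ?_⟩
  -- the slabs
  set δ0 : ℝ := q i - (h i - D) with hδ0
  have hδ0pos : 0 < δ0 := by have := hqgt i; linarith
  have hslab : ∀ δ, 0 < δ → δ ≤ δ0 → ∃ p : E d × E d, p.1 ∈ Poly n q ∧ p.2 ∈ Poly n q ∧
      q i - δ ≤ ⟪n i, p.1⟫_ℝ ∧ q i - δ ≤ ⟪n i, p.2⟫_ℝ ∧ ρ₀ ≤ dist p.1 p.2 := by
    intro δ hδ hδ1
    by_contra hcon
    push Not at hcon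
    set S : Set (E d) := Poly n q ∩ {x | q i - δ ≤ ⟪n i, x⟫_ℝ} with hS
    have hSc : IsCompact S := (cq_isCompact n hqle hg.bdd).inter_right
      (isClosed_le continuous_const (by fun_prop))
    -- volume lower bound
    set q' : ι → ℝ := Function.update q i (q i - δ) with hq'
    have hq'B : q' ∈ Bx := by
      intro j _
      by_cases hj : j = i
      · subst hj
        simp only [hq', Function.update_self]
        exact ⟨by linarith, by linarith [hqle j]⟩
      · simp only [hq', Function.update_of_ne hj]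
        exact ⟨hqge j, hqle j⟩
    have h1 : g q' ≤ g q := hqmax hq'B
    have hsum : ∑ j, q' j = ∑ j, q j - δ := by
      rw [hq', Finset.sum_update_of_mem (Finset.mem_univ i)]
      rw [← Finset.sum_sdiff (Finset.subset_univ {i}), Finset.sum_singleton]
      ring
    have hcover : Poly n q ⊆ Poly n q' ∪ S := by
      intro x hx
      by_cases hxi : ⟪n i, x⟫_ℝ ≤ q i - δ
      · left
        intro j
        by_cases hj : j = i
        · subst hj
          simpa only [hq', Function.update_self] using hxi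
        · simpa only [hq', Function.update_of_ne hj] using hx j
      · right
        exact ⟨hx, (not_le.mp hxi).le⟩
    have hVS : (volume (Poly n q)).toReal ≤ (volume (Poly n q')).toReal + (volume S).toReal := by
      have hSfin : volume S ≠ ∞ := hSc.measure_lt_top.ne
      rw [← ENNReal.toReal_add (hfinq q' hq'B) hSfin]
      apply ENNReal.toReal_mono (ENNReal.add_ne_top.mpr ⟨hfinq q' hq'B, hSfin⟩)
      exact (measure_mono hcover).trans (measure_union_le _ _)
    have hSvol : β * δ ≤ (volume S).toReal := by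
      simp only [hgdef, hsum] at h1
      nlinarith
    have hSne : S.Nonempty := by
      by_contra hne
      rw [Set.not_nonempty_iff_eq_empty] at hne
      rw [hne] at hSvol
      simp only [measure_empty, ENNReal.toReal_zero] at hSvol
      have := mul_pos hβ hδ
      linarith
    -- the diameter of the slab
    have hdc : Continuous (fun p : E d × E d => dist p.1 p.2) := continuous_dist
    obtain ⟨p, hp, hpmax⟩ := (hSc.prod hSc).exists_isMaxOn (hSne.prod hSne) hdc.continuousOn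
    have hρ : dist p.1 p.2 < ρ₀ := hcon p hp.1.1 hp.2.1 hp.1.2 hp.2.2
    have hpm : ∀ x ∈ S, ∀ y ∈ S, dist x y ≤ dist p.1 p.2 := by
      intro x hx y hy
      have hxy : (x, y) ∈ S ×ˢ S := ⟨hx, hy⟩
      exact isMaxOn_iff.mp hpmax (x, y) hxy
    have hvol := volume_slab (hg.unit i) (S := S) (q := q i) (δ := δ) (ρ := dist p.1 p.2) hδ.le
      dist_nonneg (fun x hx => hx.2) (fun x hx => hx.1 i) hpm
    have hvol2 : (volume S).toReal ≤ δ * dist p.1 p.2 ^ (d - 1) :=
      ENNReal.toReal_le_of_le_ofReal (by positivity) hvol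
    have h5 : dist p.1 p.2 ^ (d - 1) < β :=
      pow_lt_pow_left₀ hρ dist_nonneg (by omega)
    nlinarith
  -- compactness
  have hseq : ∀ k : ℕ, ∃ p : E d × E d, p.1 ∈ Poly n q ∧ p.2 ∈ Poly n q ∧
      q i - δ0 / ((k : ℝ) + 1) ≤ ⟪n i, p.1⟫_ℝ ∧ q i - δ0 / ((k : ℝ) + 1) ≤ ⟪n i, p.2⟫_ℝ ∧
        ρ₀ ≤ dist p.1 p.2 := by
    intro k
    apply hslab _ (by positivity)
    exact div_le_self hδ0pos.le (by have : (0 : ℝ) ≤ k := by positivity
                                    linarith)
  choose p hp1 hp2 hp3 hp4 hp5 using hseq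
  have hQc := cq_isCompact n hqle hg.bdd
  obtain ⟨a, ha, φ, hφ, hlim⟩ := (hQc.prod hQc).tendsto_subseq
    (x := p) (fun k => ⟨hp1 k, hp2 k⟩)
  have hz : Tendsto (fun k : ℕ => q i - δ0 / ((φ k : ℝ) + 1)) atTop (𝓝 (q i)) := by
    have h1 : Tendsto (fun k : ℕ => δ0 / ((k : ℝ) + 1)) atTop (𝓝 0) := by
      have := (tendsto_one_div_add_atTop_nhds_zero_nat (𝕜 := ℝ)).const_mul δ0
      rw [mul_zero] at this
      refine this.congr fun k => ?_
      rw [mul_one_div]
    have h2 := (h1.comp hφ.tendsto_atTop).const_sub (q i)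
    simpa using h2
  have hl1 : Tendsto (fun k => ⟪n i, (p (φ k)).1⟫_ℝ) atTop (𝓝 ⟪n i, a.1⟫_ℝ) :=
    ((by fun_prop : Continuous fun x : E d × E d => ⟪n i, x.1⟫_ℝ).tendsto a).comp hlim
  have hl2 : Tendsto (fun k => ⟪n i, (p (φ k)).2⟫_ℝ) atTop (𝓝 ⟪n i, a.2⟫_ℝ) :=
    ((by fun_prop : Continuous fun x : E d × E d => ⟪n i, x.2⟫_ℝ).tendsto a).comp hlim
  have hl3 : Tendsto (fun k => dist (p (φ k)).1 (p (φ k)).2) atTop (𝓝 (dist a.1 a.2)) :=
    (continuous_dist.tendsto a).comp hlim
  have g1 : q i ≤ ⟪n i, a.1⟫_ℝ := le_of_tendsto_of_tendsto' hz hl1 (fun k => hp3 (φ k))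
  have g2 : q i ≤ ⟪n i, a.2⟫_ℝ := le_of_tendsto_of_tendsto' hz hl2 (fun k => hp4 (φ k))
  have g3 : ρ₀ ≤ dist a.1 a.2 := ge_of_tendsto' hl3 (fun k => hp5 (φ k))
  exact ⟨a.1, ⟨ha.1, le_antisymm (ha.1 i) g1⟩, a.2, ⟨ha.2, le_antisymm (ha.2 i) g2⟩, g3⟩

end SP4
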