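import Pool.Agent.SP4.Key
import Pool.Agent.SP4.ChooseQ

/-!
A maximiser has a bounded number of facets.
-/

open MeasureTheory Set Filter Topology
open scoped ENNReal InnerProductSpace

namespace SP4

open Melzak (E IsPolytope IsKFace zeta)

variable {d : ℕ} [NeZero d] {ι : Type*}

lemma card_le_of [Fintype ι] (hd : 2 ≤ d) {a b : ℝ} (ha : 0 < a) (hb : 0 ≤ b)
    (hab : b < a * d) {n : ι → E d} {h : ι → ℝ} (hg : Good n h) (hmax : MaxN a b n h)
    (hdm : ∀ h' : ι → ℝ, Good n h' → (d : ℝ) * mm (Poly n h') ≤ ∑ i, mm (Fac n h' i)) :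
    (Fintype.card ι : ℝ) ^ (d - 2) * vol n h ≤
      (d : ℝ) ^ (d - 1) * (Lam a b n h / ((a * d - b) * (cst d).toReal)) ^ d := by
  classical
  have habp : 0 < a * d - b := by linarith
  have hc : 0 < (cst d).toReal := cst_toReal_pos
  have hd0 : (0 : ℝ) < d := by exact_mod_cast (show 0 < d by omega)
  have hLpos : ∀ h' : ι → ℝ, Good n h' → 0 < Lam a b n h' := fun h' hg' =>
    (mul_pos habp hg'.mm_pos).trans_le (Lam_ge_of ha (hdm h' hg'))
  have hLp := hLpos h hg
  have hVp := hg.vol_pos
  set L : ℝ := Lam a b n h with hL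
  set V : ℝ := vol n h with hV
  set c : ℝ := (cst d).toReal with hcdef
  set D : ℝ := L / ((a * d - b) * c) with hD
  have hDp : 0 < D := by positivity
  have hLge : (a * d - b) * mm (Poly n h) ≤ L := Lam_ge_of ha (hdm h hg)
  rcases Nat.eq_zero_or_pos (Fintype.card ι) with h0 | hm
  · -- no constraints: impossible, the polyhedron would be unbounded
    exfalso
    have hemp : IsEmpty ι := Fintype.card_eq_zero_iff.1 h0
    have h1 := hdm h hg
    simp only [Finset.univ_eq_empty, Finset.sum_empty] at h1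
    have h2 := hg.mm_pos
    nlinarith
  have hmp : (0 : ℝ) < Fintype.card ι := by exact_mod_cast hm
  set m : ℝ := (Fintype.card ι : ℝ) with hmdef
  have hdiam : ∀ x ∈ Poly n h, ∀ y ∈ Poly n h, dist x y ≤ D := by
    intro x hx y hy
    have h1 := hg.dist_le hx hy
    rw [hD, le_div_iff₀ (by positivity)]
    calc dist x y * ((a * d - b) * c) = (a * d - b) * (c * dist x y) := by ring
      _ ≤ (a * d - b) * mm (Poly n h) := mul_le_mul_of_nonneg_left h1 habp.le
      _ ≤ L := hLge
  -- the key estimate for every theta < 1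
  have hkey : ∀ θ : ℝ, 0 < θ → θ < 1 → m ^ (d - 2) * (θ * V) ≤ (d : ℝ) ^ (d - 1) * D ^ d := by
    intro θ hθ0 hθ1
    set β : ℝ := θ * V / (m * D) with hβ
    have hβp : 0 < β := by positivity
    have hd1 : (d - 1 : ℕ) ≠ 0 := by omega
    set ρ : ℝ := β ^ (1 / ((d - 1 : ℕ) : ℝ)) with hρ
    have hρp : 0 < ρ := Real.rpow_pos_of_pos hβp _
    have hρd : ρ ^ (d - 1) = β := by
      rw [hρ, ← Real.rpow_natCast, ← Real.rpow_mul hβp.le, one_div,
        inv_mul_cancel₀ (by exact_mod_cast hd1), Real.rpow_one]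
    have hVc : ENNReal.ofReal (ρ ^ (d - 1) * (Fintype.card ι * D)) < volume (Poly n h) := by
      rw [ENNReal.ofReal_lt_iff_lt_toReal (by positivity) hg.volume_ne_top, hρd]
      have e : β * (Fintype.card ι * D) = θ * V := by
        rw [hβ, ← hmdef]
        field_simp
      rw [e]
      change θ * V < V
      nlinarith
    obtain ⟨q, hq, hfac⟩ := choose_q hd hg hDp hdiam hρp hVc
    have hne : ∀ i, (Fac n q i).Nonempty := fun i => by
      obtain ⟨x, hx, _⟩ := hfac i
      exact ⟨x, hx⟩
    have hk := key_of (by omega) ha hb hg hmax hLpos hq hne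
    rw [← hL] at hk
    have hQb : Bornology.IsBounded (Poly n q) := hg.bdd.subset fun x hx i => (hx i).trans (hq i)
    have hlong : ∀ i, c * ρ ≤ mm (Fac n q i) := by
      intro i
      obtain ⟨x, hx, y, hy, hxy⟩ := hfac i
      have hseg : segment ℝ x y ⊆ Fac n q i := (convex_Fac n q i).segment_subset hx hy
      refine le_trans ?_ (mm_mono hseg (hQb.subset (Fac_subset n q i)))
      rw [mm_segment]
      exact mul_le_mul_of_nonneg_left hxy hc.le
    have hsum : m * (c * ρ) ≤ ∑ i, mm (Fac n q i) := by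
      rw [hmdef, ← nsmul_eq_mul]
      exact Finset.card_nsmul_le_sum _ _ _ (fun i _ => hlong i)
    -- a m c rho ≤ L + b mm(P) ≤ L a d / (a d - b)
    have h1 : a * (m * (c * ρ)) ≤ L + b * mm (Poly n h) :=
      (mul_le_mul_of_nonneg_left hsum ha.le).trans hk
    have h2 : (a * d - b) * (a * (m * (c * ρ))) ≤ a * d * L := by
      have e1 := mul_le_mul_of_nonneg_left h1 habp.le
      have e2 := mul_le_mul_of_nonneg_left hLge hb
      nlinarith
    have h3 : m * ρ ≤ d * D := by
      rw [hD, mul_div_assoc', le_div_iff₀ (by positivity)]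
      have e3 : a * (m * ρ * ((a * d - b) * c)) ≤ a * (d * L) := by
        calc a * (m * ρ * ((a * d - b) * c)) = (a * d - b) * (a * (m * (c * ρ))) := by ring
          _ ≤ a * d * L := h2
          _ = a * (d * L) := by ring
      exact le_of_mul_le_mul_left e3 ha
    have h4 : (m * ρ) ^ (d - 1) ≤ (d * D) ^ (d - 1) :=
      pow_le_pow_left₀ (by positivity) h3 _
    rw [mul_pow, hρd, mul_pow] at h4
    have h5 : m ^ (d - 1) * β = m ^ (d - 2) * (θ * V) / D := by
      have e4 : m ^ (d - 1) = m ^ (d - 2) * m := by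
        rw [← pow_succ]
        congr 1
        omega
      rw [hβ, e4]
      field_simp
    rw [h5, div_le_iff₀ hDp] at h4
    calc m ^ (d - 2) * (θ * V) ≤ (d : ℝ) ^ (d - 1) * D ^ (d - 1) * D := h4
      _ = (d : ℝ) ^ (d - 1) * D ^ d := by
        have e5 : D ^ d = D ^ (d - 1) * D := by
          rw [← pow_succ]
          congr 1
          omega
        rw [e5]
        ring
  -- let theta tend to 1
  by_contra hcon
  push Not at hcon
  set A : ℝ := (d : ℝ) ^ (d - 1) * D ^ d with hA
  have hpos : 0 < m ^ (d - 2) * V := by positivity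
  have hA0 : 0 < A := by positivity
  set θ : ℝ := (A / (m ^ (d - 2) * V) + 1) / 2 with hθ
  have hr : A / (m ^ (d - 2) * V) < 1 := by rw [div_lt_one hpos]; exact hcon
  have hr0 : 0 < A / (m ^ (d - 2) * V) := by positivity
  have h1 := hkey θ (by rw [hθ]; linarith) (by rw [hθ]; linarith)
  have h2 : A / (m ^ (d - 2) * V) < θ := by rw [hθ]; linarith
  rw [div_lt_iff₀ hpos] at h2
  nlinarith

end SP4
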