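import Pool.Agent.SP4.Irred

/-!
Boxes; the unit cube.
-/

open MeasureTheory Set Filter Topology
open scoped ENNReal InnerProductSpace

namespace SP4

open Melzak (E)

variable {d : ℕ}

/-- The box with the sides from lo k to hi k. -/
def cubBox (lo hi : Fin d → ℝ) : Set (E d) := {x | ∀ k, x k ∈ Icc (lo k) (hi k)}

private lemma cub_inner (x u : E d) : ⟪x, u⟫_ℝ = ∑ k, x k * u k := by
  rw [PiLp.inner_apply]
  refine Finset.sum_congr rfl fun k _ => ?_
  simp [mul_comm]

private lemma cub_preimage (lo hi : Fin d → ℝ) :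
    cubBox lo hi = (WithLp.ofLp : E d → (Fin d → ℝ)) ⁻¹'
      (Set.pi univ (fun k => Icc (lo k) (hi k))) := by
  ext x
  rw [mem_preimage, Set.mem_univ_pi]
  rfl

lemma convex_cubBox (lo hi : Fin d → ℝ) : Convex ℝ (cubBox lo hi) := by
  intro x hx y hy a b ha hb hab k
  have h := convex_Icc (lo k) (hi k) (hx k) (hy k) ha hb hab
  simpa using h

lemma volume_cubBox (lo hi : Fin d → ℝ) :
    volume (cubBox lo hi) = ∏ k, ENNReal.ofReal (hi k - lo k) := by
  rw [cub_preimage, (PiLp.volume_preserving_ofLp (Fin d)).measure_preimage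
    (MeasurableSet.univ_pi fun _ => measurableSet_Icc).nullMeasurableSet, volume_pi, Measure.pi_pi]
  simp only [Real.volume_Icc]

private lemma cub_image {lo hi : Fin d → ℝ} (h : ∀ k, lo k ≤ hi k) (u : E d) :
    (fun x : E d => ⟪x, u⟫_ℝ) '' cubBox lo hi =
      Icc (∑ k, ((lo k + hi k) / 2 * u k - (hi k - lo k) / 2 * |u k|))
        (∑ k, ((lo k + hi k) / 2 * u k + (hi k - lo k) / 2 * |u k|)) := by
  apply Subset.antisymm
  · rintro _ ⟨x, hx, rfl⟩
    simp only
    rw [cub_inner]
    have key : ∀ k, |x k * u k - (lo k + hi k) / 2 * u k| ≤ (hi k - lo k) / 2 * |u k| := by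
      intro k
      have h1 := hx k
      rw [mem_Icc] at h1
      rw [← sub_mul, abs_mul]
      refine mul_le_mul_of_nonneg_right ?_ (abs_nonneg _)
      rw [abs_le]
      constructor <;> linarith
    constructor
    · refine Finset.sum_le_sum fun k _ => ?_
      have := (abs_le.1 (key k)).1
      linarith
    · refine Finset.sum_le_sum fun k _ => ?_
      have := (abs_le.1 (key k)).2
      linarith
  · have hex : ∀ σ : ℝ, |σ| ≤ 1 → (∑ k, ((lo k + hi k) / 2 * u k + σ * ((hi k - lo k) / 2 * |u k|))) ∈
        (fun x : E d => ⟪x, u⟫_ℝ) '' cubBox lo hi := by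
      intro σ hσ
      have hsg : ∀ k, ∃ ε : ℝ, |ε| ≤ 1 ∧ ε * u k = |u k| := by
        intro k
        rcases le_total 0 (u k) with h0 | h0
        · exact ⟨1, by simp, by rw [one_mul, abs_of_nonneg h0]⟩
        · exact ⟨-1, by simp, by rw [neg_one_mul, abs_of_nonpos h0]⟩
      choose ε hε1 hε2 using hsg
      refine ⟨WithLp.toLp 2 fun k => (lo k + hi k) / 2 + σ * ε k * ((hi k - lo k) / 2), ?_, ?_⟩
      · intro k
        have h1 : |σ * ε k| ≤ 1 := by
          rw [abs_mul]
          exact mul_le_one₀ hσ (abs_nonneg _) (hε1 k)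
        have h2 : 0 ≤ (hi k - lo k) / 2 := by have := h k; linarith
        rw [abs_le] at h1
        rw [mem_Icc]
        simp only
        constructor <;> nlinarith [h k, h1.1, h1.2]
      · simp only
        rw [cub_inner]
        refine Finset.sum_congr rfl fun k _ => ?_
        simp only
        rw [← hε2 k]
        ring
    have hconv : Convex ℝ ((fun x : E d => ⟪x, u⟫_ℝ) '' cubBox lo hi) := by
      have := (convex_cubBox lo hi).linear_image (innerₛₗ ℝ u)
      have e : (fun x : E d => ⟪x, u⟫_ℝ) '' cubBox lo hi = (innerₛₗ ℝ u) '' cubBox lo hi := by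
        apply Set.image_congr
        intro x _
        simp [real_inner_comm]
      rw [e]
      exact this
    have h1 := hex (-1) (by simp)
    have h2 := hex 1 (by simp)
    have e1 : (∑ k, ((lo k + hi k) / 2 * u k + (-1) * ((hi k - lo k) / 2 * |u k|))) =
        ∑ k, ((lo k + hi k) / 2 * u k - (hi k - lo k) / 2 * |u k|) :=
      Finset.sum_congr rfl fun k _ => by ring
    have e2 : (∑ k, ((lo k + hi k) / 2 * u k + 1 * ((hi k - lo k) / 2 * |u k|))) =
        ∑ k, ((lo k + hi k) / 2 * u k + (hi k - lo k) / 2 * |u k|) :=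
      Finset.sum_congr rfl fun k _ => by ring
    rw [e1] at h1
    rw [e2] at h2
    exact hconv.ordConnected.out h1 h2

lemma wid_cubBox {lo hi : Fin d → ℝ} (h : ∀ k, lo k ≤ hi k) (u : E d) :
    wid u (cubBox lo hi) = ∑ k, ENNReal.ofReal (hi k - lo k) * ENNReal.ofReal |u k| := by
  unfold wid
  rw [cub_image h, Real.volume_Icc, ← Finset.sum_sub_distrib]
  have e : ∀ k, (lo k + hi k) / 2 * u k + (hi k - lo k) / 2 * |u k| -
      ((lo k + hi k) / 2 * u k - (hi k - lo k) / 2 * |u k|) = (hi k - lo k) * |u k| := fun k => by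
    ring
  simp only [e]
  rw [ENNReal.ofReal_sum_of_nonneg fun k _ =>
    mul_nonneg (sub_nonneg.2 (h k)) (abs_nonneg _)]
  refine Finset.sum_congr rfl fun k _ => ?_
  rw [ENNReal.ofReal_mul (sub_nonneg.2 (h k))]

private lemma cub_segment (k : Fin d) :
    segment ℝ (0 : E d) (EuclideanSpace.single k (1 : ℝ)) = cubBox 0 (Pi.single k 1) := by
  apply Subset.antisymm
  · rw [segment_subset_iff]
    rintro a b ha hb hab j
    simp only [Pi.zero_apply, smul_zero, zero_add, PiLp.smul_apply, PiLp.single_apply, smul_eq_mul,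
      Pi.single_apply, mul_ite, mul_one, mul_zero]
    split_ifs
    · exact ⟨hb, by linarith⟩
    · exact ⟨le_rfl, le_rfl⟩
  · intro x hx
    have hk := hx k
    rw [mem_Icc, Pi.zero_apply, Pi.single_eq_same] at hk
    refine ⟨1 - x k, x k, by linarith, hk.1, by ring, ?_⟩
    ext j
    simp only [smul_zero, zero_add, PiLp.smul_apply, PiLp.single_apply, smul_eq_mul]
    by_cases hj : j = k
    · rw [hj, if_pos rfl, mul_one]
    · have h1 := hx j
      rw [mem_Icc, Pi.zero_apply, Pi.single_eq_of_ne hj] at h1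
      rw [if_neg hj, mul_zero]
      exact le_antisymm h1.1 h1.2

lemma lintegral_coord [NeZero d] (k : Fin d) :
    ∫⁻ u : E d in Metric.ball (0 : E d) 1, ENNReal.ofReal |u k| = cst d := by
  have h1 : MM (cubBox (0 : Fin d → ℝ) (Pi.single k 1)) =
      ∫⁻ u : E d in Metric.ball (0 : E d) 1, ENNReal.ofReal |u k| := by
    unfold MM
    apply lintegral_congr
    intro u
    rw [wid_cubBox, Finset.sum_eq_single k]
    · simp
    · intro j _ hj
      simp [Pi.single_eq_of_ne hj]
    · intro hk
      exact absurd (Finset.mem_univ k) hk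
    · intro j
      by_cases hj : j = k
      · rw [hj]; simp
      · simp [Pi.single_eq_of_ne hj]
  rw [← h1, ← cub_segment, MM_segment]
  simp [edist_dist]

lemma MM_cubBox [NeZero d] {lo hi : Fin d → ℝ} (h : ∀ k, lo k ≤ hi k) :
    MM (cubBox lo hi) = (∑ k, ENNReal.ofReal (hi k - lo k)) * cst d := by
  unfold MM
  simp only [wid_cubBox h]
  rw [lintegral_finsetSum _ (fun k _ => by fun_prop), Finset.sum_mul]
  refine Finset.sum_congr rfl fun k _ => ?_
  rw [lintegral_const_mul _ (by fun_prop), lintegral_coord]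

/-- The normals of the cube. -/
private noncomputable def cubN (d : ℕ) : Fin d ⊕ Fin d → E d :=
  Sum.elim (fun k => EuclideanSpace.single k 1) (fun k => EuclideanSpace.single k (-1))

private noncomputable def cubH (d : ℕ) : Fin d ⊕ Fin d → ℝ := fun _ => 1 / 2

private lemma cub_inl (k : Fin d) (x : E d) : ⟪cubN d (Sum.inl k), x⟫_ℝ = x k := by
  simp [cubN, EuclideanSpace.inner_single_left]

private lemma cub_inr (k : Fin d) (x : E d) : ⟪cubN d (Sum.inr k), x⟫_ℝ = - x k := by
  simp [cubN, EuclideanSpace.inner_single_left]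

private lemma cub_poly : Poly (cubN d) (cubH d) = cubBox (fun _ => -(1 / 2)) (fun _ => 1 / 2) := by
  ext x
  constructor
  · intro hx k
    have h1 := hx (Sum.inl k)
    have h2 := hx (Sum.inr k)
    rw [cub_inl] at h1
    rw [cub_inr] at h2
    unfold cubH at h1 h2
    exact ⟨by linarith, h1⟩
  · rintro hx (k | k)
    · rw [cub_inl]
      exact (hx k).2
    · rw [cub_inr]
      have := (hx k).1
      unfold cubH
      linarith

private lemma cub_fac_inl (k : Fin d) : Fac (cubN d) (cubH d) (Sum.inl k) =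
    cubBox (Function.update (fun _ => -(1 / 2)) k (1 / 2)) (fun _ => 1 / 2) := by
  unfold Fac
  rw [cub_poly]
  ext x
  rw [mem_ofPred_eq, cub_inl]
  constructor
  · rintro ⟨h1, h2⟩ j
    by_cases hj : j = k
    · rw [hj, Function.update_self, h2]
      exact ⟨le_rfl, le_rfl⟩
    · rw [Function.update_of_ne hj]
      exact h1 j
  · intro h1
    refine ⟨fun j => ?_, ?_⟩
    · have h2 := h1 j
      by_cases hj : j = k
      · rw [hj, Function.update_self] at h2
        rw [hj]
        exact ⟨le_trans (by norm_num) h2.1, h2.2⟩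
      · rw [Function.update_of_ne hj] at h2
        exact h2
    · have h2 := h1 k
      rw [Function.update_self] at h2
      exact le_antisymm h2.2 h2.1

private lemma cub_fac_inr (k : Fin d) : Fac (cubN d) (cubH d) (Sum.inr k) =
    cubBox (fun _ => -(1 / 2)) (Function.update (fun _ => 1 / 2) k (-(1 / 2))) := by
  unfold Fac
  rw [cub_poly]
  ext x
  rw [mem_ofPred_eq, cub_inr]
  constructor
  · rintro ⟨h1, h2⟩ j
    have h3 : x k = -(1 / 2) := by unfold cubH at h2; linarith
    by_cases hj : j = k
    · rw [hj, Function.update_self, h3]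
      exact ⟨le_rfl, le_rfl⟩
    · rw [Function.update_of_ne hj]
      exact h1 j
  · intro h1
    refine ⟨fun j => ?_, ?_⟩
    · have h2 := h1 j
      by_cases hj : j = k
      · rw [hj, Function.update_self] at h2
        rw [hj]
        exact ⟨h2.1, le_trans h2.2 (by norm_num)⟩
      · rw [Function.update_of_ne hj] at h2
        exact h2
    · have h2 := h1 k
      rw [Function.update_self] at h2
      have h3 := le_antisymm h2.2 h2.1
      rw [h3]
      unfold cubH
      ring

private lemma cub_good : Good (cubN d) (cubH d) := by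
  refine ⟨?_, ?_, ?_, ?_⟩
  · rintro (k | k)
    · simp [cubN]
    · simp [cubN]
  · rintro (k | k)
    · refine ⟨EuclideanSpace.single k (1 / 2), ?_, ?_⟩
      · rw [cub_inl]; simp [cubH]
      · rintro (j | j) hj
        · have hjk : j ≠ k := fun h => hj (by rw [h])
          rw [cub_inl]; simp [cubH, hjk]
        · rw [cub_inr]
          by_cases hjk : j = k
          · simp [cubH, hjk]
          · simp [cubH, hjk]
    · refine ⟨EuclideanSpace.single k (-(1 / 2)), ?_, ?_⟩
      · rw [cub_inr]; simp [cubH]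
      · rintro (j | j) hj
        · rw [cub_inl]
          by_cases hjk : j = k
          · simp [cubH, hjk]
          · simp [cubH, hjk]
        · have hjk : j ≠ k := fun h => hj (by rw [h])
          rw [cub_inr]; simp [cubH, hjk]
  · rw [cub_poly, isBounded_iff_forall_norm_le]
    refine ⟨d, fun x hx => ?_⟩
    calc ‖x‖ = ‖∑ k, EuclideanSpace.single k (x k)‖ := by
          congr 1
          ext j
          simp [Finset.sum_apply, Pi.single_apply]
      _ ≤ ∑ k, ‖(EuclideanSpace.single k (x k) : E d)‖ := norm_sum_le _ _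
      _ ≤ ∑ _k : Fin d, (1 : ℝ) := by
          refine Finset.sum_le_sum fun k _ => ?_
          have h1 := hx k
          rw [mem_Icc] at h1
          rw [PiLp.norm_single, Real.norm_eq_abs, abs_le]
          constructor <;> linarith
      _ = d := by simp
  · refine ⟨0, fun i => ?_⟩
    rw [inner_zero_right]
    unfold cubH
    norm_num

private lemma cub_volume : volume (Poly (cubN d) (cubH d)) = 1 := by
  rw [cub_poly, volume_cubBox]
  norm_num

private lemma cub_MM [NeZero d] : MM (Poly (cubN d) (cubH d)) = d * cst d := by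
  rw [cub_poly, MM_cubBox fun _ => by norm_num]
  norm_num

private lemma cub_MM_Fac [NeZero d] (i : Fin d ⊕ Fin d) :
    MM (Fac (cubN d) (cubH d) i) = ((d - 1 : ℕ) : ℝ≥0∞) * cst d := by
  rcases i with k | k
  · rw [cub_fac_inl, MM_cubBox]
    · congr 1
      rw [← Finset.add_sum_erase _ _ (Finset.mem_univ k), Function.update_self]
      rw [Finset.sum_congr rfl (g := fun _ => (1 : ℝ≥0∞))]
      · simp
      · intro j hj
        rw [Function.update_of_ne (Finset.ne_of_mem_erase hj)]
        norm_num
    · intro j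
      by_cases hj : j = k
      · rw [hj, Function.update_self]
      · rw [Function.update_of_ne hj]; norm_num
  · rw [cub_fac_inr, MM_cubBox]
    · congr 1
      rw [← Finset.add_sum_erase _ _ (Finset.mem_univ k), Function.update_self]
      rw [Finset.sum_congr rfl (g := fun _ => (1 : ℝ≥0∞))]
      · simp
      · intro j hj
        rw [Function.update_of_ne (Finset.ne_of_mem_erase hj)]
        norm_num
    · intro j
      by_cases hj : j = k
      · rw [hj, Function.update_self]
      · rw [Function.update_of_ne hj]; norm_num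

/-- The unit cube. -/
lemma exists_cube (d : ℕ) [NeZero d] : ∃ (n : Fin (d + d) → E d) (h : Fin (d + d) → ℝ), Good n h ∧
    volume (Poly n h) = 1 ∧ MM (Poly n h) = d * cst d ∧
    ∀ i, MM (Fac n h i) = ((d - 1 : ℕ) : ℝ≥0∞) * cst d := by
  have e : Fin (d + d) ≃ Fin d ⊕ Fin d := finSumFinEquiv.symm
  have hP : Poly (cubN d ∘ e) (cubH d ∘ e) = Poly (cubN d) (cubH d) := by
    ext x
    constructor
    · intro hx i
      have := hx (e.symm i)
      simpa using this
    · intro hx i
      exact hx (e i)
  refine ⟨cubN d ∘ e, cubH d ∘ e, cub_good.reindex e, ?_, ?_, fun i => ?_⟩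
  · rw [hP, cub_volume]
  · rw [hP, cub_MM]
  · have hF : Fac (cubN d ∘ e) (cubH d ∘ e) i = Fac (cubN d) (cubH d) (e i) := by
      unfold Fac
      rw [hP]
      rfl
    rw [hF, cub_MM_Fac]

lemma exists_cube_Lam (d : ℕ) [NeZero d] : ∃ (n : Fin (d + d) → E d) (h : Fin (d + d) → ℝ),
    Good n h ∧ vol n h = 1 ∧
    ∀ a b : ℝ, Lam a b n h = (2 * a * (d - 1) - b) * d * (cst d).toReal := by
  obtain ⟨n, h, hg, hv, hP, hF⟩ := exists_cube d
  refine ⟨n, h, hg, ?_, fun a b => ?_⟩
  · unfold vol
    rw [hv, ENNReal.toReal_one]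
  · have hd : 1 ≤ d := NeZero.one_le
    unfold Lam mm
    simp only [hF, hP, ENNReal.toReal_mul, ENNReal.toReal_natCast, Finset.sum_const,
      Finset.card_univ, Fintype.card_fin, nsmul_eq_mul]
    push_cast [Nat.cast_sub hd]
    ring

lemma exists_some (hd : 1 ≤ d) :
    ∃ (m : ℕ) (n : Fin m → E d) (h : Fin m → ℝ), Good n h := by
  have : NeZero d := ⟨by omega⟩
  obtain ⟨n, h, hg, -⟩ := exists_cube d
  exact ⟨_, n, h, hg⟩

lemma exists_cube_four : ∃ (n : Fin 8 → E 4) (h : Fin 8 → ℝ), Good n h ∧ vol n h = 1 ∧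
    Lam 2 4 n h = 32 * (cst 4).toReal := by
  obtain ⟨n, h, hg, hv, hL⟩ := exists_cube_Lam 4
  refine ⟨n, h, hg, hv, ?_⟩
  rw [hL]
  norm_num

end SP4
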