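import Pool.Agent.Helper27.Melzak.Defs

/-!
# MP_90631d_gt : simple extremal polytopes (theorem S4)

Definitions in the Euclidean space of dimension d.
-/

open MeasureTheory Set Filter Topology
open scoped ENNReal InnerProductSpace

namespace SP4

open Melzak (E IsPolytope IsKFace zeta)

variable {d : ℕ} {ι : Type*}

/-- The polyhedron given by a system of inequalities. -/
def Poly (n : ι → E d) (h : ι → ℝ) : Set (E d) := {x | ∀ i, ⟪n i, x⟫_ℝ ≤ h i}

/-- The points of the polyhedron at which the constraint number i is active. -/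
def Fac (n : ι → E d) (h : ι → ℝ) (i : ι) : Set (E d) := {x | x ∈ Poly n h ∧ ⟪n i, x⟫_ℝ = h i}

/-- The points of the polyhedron at which all the constraints of t are active. -/
def FacT (n : ι → E d) (h : ι → ℝ) (t : Finset ι) : Set (E d) :=
  {x | x ∈ Poly n h ∧ ∀ i ∈ t, ⟪n i, x⟫_ℝ = h i}

/-- An irredundant representation of a bounded polyhedron with interior points. -/
structure Good (n : ι → E d) (h : ι → ℝ) : Prop where
  unit : ∀ i, ‖n i‖ = 1
  irr : ∀ i, ∃ y, ⟪n i, y⟫_ℝ = h i ∧ ∀ j, j ≠ i → ⟪n j, y⟫_ℝ < h j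
  bdd : Bornology.IsBounded (Poly n h)
  slater : ∃ z, ∀ i, ⟪n i, z⟫_ℝ < h i

/-- Lebesgue measure of the projection of C to the line spanned by u (scaled by the norm of u). -/
noncomputable def wid (u : E d) (C : Set (E d)) : ℝ≥0∞ :=
  volume ((fun x : E d => ⟪x, u⟫_ℝ) '' C)

/-- Integral of the width over the unit ball of directions. -/
noncomputable def MM (C : Set (E d)) : ℝ≥0∞ := ∫⁻ u in Metric.ball (0 : E d) 1, wid u C

/-- MM of a unit segment. -/
noncomputable def cst (d : ℕ) [NeZero d] : ℝ≥0∞ :=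
  ∫⁻ u in Metric.ball (0 : E d) 1,
    ENNReal.ofReal |⟪EuclideanSpace.single (0 : Fin d) (1 : ℝ), u⟫_ℝ|

/-- The real number MM C. -/
noncomputable def mm (C : Set (E d)) : ℝ := (MM C).toReal

/-- The functional a * (sum of the MM of the facets) - b * MM of the polytope. -/
noncomputable def Lam [Fintype ι] (a b : ℝ) (n : ι → E d) (h : ι → ℝ) : ℝ :=
  a * ∑ i, mm (Fac n h i) - b * mm (Poly n h)

/-- The volume as a real number. -/
noncomputable def vol (n : ι → E d) (h : ι → ℝ) : ℝ := (volume (Poly n h)).toReal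

/-- The active normals are independent at every point. -/
def Simp (n : ι → E d) (h : ι → ℝ) : Prop :=
  ∀ x ∈ Poly n h, LinearIndependent ℝ (fun i : {i // ⟪n i, x⟫_ℝ = h i} => n i)

/-- Maximality of vol / Lam ^ d among the irredundant systems with the same normals. -/
def MaxN [Fintype ι] (a b : ℝ) (n : ι → E d) (h : ι → ℝ) : Prop :=
  ∀ h' : ι → ℝ, Good n h' → vol n h' * Lam a b n h ^ d ≤ vol n h * Lam a b n h' ^ d

/-- A d-polytope is simple: every vertex lies in exactly d facets. -/
def IsSimple (P : Set (E d)) : Prop :=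
  ∀ v ∈ P.extremePoints ℝ, {F : Set (E d) | IsKFace (d - 1) P F ∧ v ∈ F}.encard = d

end SP4
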