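import Pool.Agent.SP4.Poly
import Pool.Agent.Helper27.Melzak.Final

/-!
# MP_90631d_gt : dimension three

The definitions of the directory SP4 at d = 3 agree with those of Helper27/Melzak; the formula for
the 1-content; a polytope attaining the constant gamma 3 3 is a maximiser among all 3-polytopes.
-/

open MeasureTheory Set Filter Topology
open scoped ENNReal InnerProductSpace

namespace SP4

open Melzak (E IsPolytope IsKFace zeta)

variable {ι : Type*}

lemma d3_poly (n : ι → E 3) (h : ι → ℝ) : Poly n h = Melzak.Poly n h := rfl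

lemma d3_fac (n : ι → E 3) (h : ι → ℝ) (i : ι) : Fac n h i = Melzak.Fac n h i := rfl

lemma d3_wid (u : E 3) (C : Set (E 3)) : wid u C = Melzak.wid u C := rfl

lemma d3_MM (C : Set (E 3)) : MM C = Melzak.MM C := rfl

lemma d3_cst : cst 3 = Melzak.cst := rfl

theorem good_iff3 {n : ι → E 3} {h : ι → ℝ} : Good n h ↔ Melzak.Good n h :=
  ⟨fun g => ⟨g.unit, g.irr, g.bdd, g.slater⟩, fun g => ⟨g.unit, g.irr, g.bdd, g.slater⟩⟩

theorem zeta_one3 [Fintype ι] {n : ι → E 3} {h : ι → ℝ} (hg : Good n h) :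
    Melzak.cst * zeta 1 (Poly n h) = ∑ i, MM (Fac n h i) :=
  (good_iff3.1 hg).zeta_one

private lemma d3_isBody {P : Set (E 3)} (hP : IsPolytope P) : Melzak.IsBody P := by
  obtain ⟨m, n, h, rfl⟩ := hP.halfspaces
  exact ⟨isCompact_Poly (n := n) (h := h) hP.bounded, convex_Poly n h, hP.nonempty_interior⟩

/-- Every 3-polytope satisfies the inequality with the constant gamma 3 3. -/
theorem volume_le_gamma {P : Set (E 3)} (hP : IsPolytope P) :
    volume P ≤ (Melzak.gamma 3 3 * zeta 1 P) ^ 3 := by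
  obtain ⟨hz0, hzt⟩ := Melzak.zeta_one_ne hP
  have hbody := d3_isBody hP
  have h1 : Melzak.zetaLim 1 P ≤ zeta 1 P := by
    unfold Melzak.zetaLim
    refine iInf_le_of_le (fun _ => P) (iInf_le_of_le (fun _ => hP) (iInf_le_of_le ?_ ?_))
    · simp only [Metric.hausdorffEDist_self]
      exact tendsto_const_nhds
    · simp
  have h2 : volume P ≤ Melzak.zetaLim 3 P := by
    unfold Melzak.zetaLim
    refine le_iInf fun Q => le_iInf fun hQ => le_iInf fun hc => ?_
    refine (Melzak.volume_le_liminf hbody hQ hc).trans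
      (liminf_le_liminf (Eventually.of_forall fun n => ?_))
    rw [Melzak.zeta_three (hQ n)]
  have h3 : Melzak.zetaLim 1 P < ∞ := lt_of_le_of_lt h1 hzt.lt_top
  have h4 : Melzak.zetaLim 3 P ^ (1 / ((3 : ℕ) : ℝ)) / Melzak.zetaLim 1 P ≤ Melzak.gamma 3 3 := by
    unfold Melzak.gamma
    exact le_iSup_of_le P (le_iSup_of_le hbody (le_iSup_of_le h3 le_rfl))
  have h5 : volume P ^ (1 / (3 : ℝ)) / zeta 1 P ≤ Melzak.gamma 3 3 := by
    refine le_trans ?_ h4
    apply ENNReal.div_le_div _ h1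
    norm_num
    exact ENNReal.rpow_le_rpow h2 (by norm_num)
  rw [ENNReal.div_le_iff hz0 hzt] at h5
  calc volume P = (volume P ^ (1 / (3 : ℝ))) ^ 3 := by
        rw [← ENNReal.rpow_natCast, ← ENNReal.rpow_mul]
        norm_num
    _ ≤ (Melzak.gamma 3 3 * zeta 1 P) ^ 3 := by gcongr

/-- A 3-polytope attaining the constant is a maximiser among all 3-polytopes. -/
theorem best_of_gamma {P : Set (E 3)} (hP : IsPolytope P)
    (h : zeta 3 P ^ (1 / (3 : ℝ)) = Melzak.gamma 3 3 * zeta 1 P) :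
    ∀ P' : Set (E 3), IsPolytope P' → volume P' * zeta 1 P ^ 3 ≤ volume P * zeta 1 P' ^ 3 := by
  intro P' hP'
  rw [Melzak.zeta_three hP] at h
  have h2 : volume P = (Melzak.gamma 3 3 * zeta 1 P) ^ 3 := by
    rw [← h, ← ENNReal.rpow_natCast, ← ENNReal.rpow_mul]
    norm_num
  calc volume P' * zeta 1 P ^ 3 ≤ (Melzak.gamma 3 3 * zeta 1 P') ^ 3 * zeta 1 P ^ 3 := by
        gcongr
        exact volume_le_gamma hP'
    _ = (Melzak.gamma 3 3 * zeta 1 P) ^ 3 * zeta 1 P' ^ 3 := by ring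
    _ = volume P * zeta 1 P' ^ 3 := by rw [← h2]

end SP4
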