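import Pool.Agent.SP4.Poly

/-!
Row E2: the edges of a simple polytope are the intersections of `d - 1` facets; the 1-content.
-/

open MeasureTheory Set Filter Topology
open scoped ENNReal InnerProductSpace

namespace SP4

open Melzak (E IsPolytope IsKFace zeta)

variable {d : ℕ} {ι : Type*}

/-! ### Elementary facts -/

lemma convex_FacT (n : ι → E d) (h : ι → ℝ) (t : Finset ι) : Convex ℝ (FacT n h t) := by
  intro x hx y hy a b ha hb hab
  refine ⟨convex_Poly n h hx.1 hy.1 ha hb hab, fun i hi => ?_⟩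
  rw [inner_add_right, inner_smul_right, inner_smul_right, hx.2 i hi, hy.2 i hi, ← add_mul, hab,
    one_mul]

lemma isClosed_FacT (n : ι → E d) (h : ι → ℝ) (t : Finset ι) : IsClosed (FacT n h t) := by
  have : FacT n h t = Poly n h ∩ ⋂ i ∈ t, {x | ⟪n i, x⟫_ℝ = h i} := by
    ext x; simp [FacT]
  rw [this]
  exact (isClosed_Poly n h).inter
    (isClosed_biInter fun i _ => isClosed_eq (by fun_prop) continuous_const)

lemma FacT_subset (n : ι → E d) (h : ι → ℝ) (t : Finset ι) : FacT n h t ⊆ Poly n h :=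
  fun _ hx => hx.1

lemma isCompact_FacT {n : ι → E d} {h : ι → ℝ} (hb : Bornology.IsBounded (Poly n h))
    (t : Finset ι) : IsCompact (FacT n h t) :=
  Metric.isCompact_of_isClosed_isBounded (isClosed_FacT n h t) (hb.subset (FacT_subset n h t))

/-- A point of a convex subset of the polyhedron with the smallest set of active constraints. -/
private lemma e2_min_active [Fintype ι] {n : ι → E d} {h : ι → ℝ} {F : Set (E d)}
    (hF : F ⊆ Poly n h) (hc : Convex ℝ F) (hne : F.Nonempty) :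
    ∃ x₀ ∈ F, ∀ x ∈ F, ∀ i, ⟪n i, x₀⟫_ℝ = h i → ⟪n i, x⟫_ℝ = h i := by
  classical
  obtain ⟨x₀, hx₀, hmin⟩ := WellFounded.has_min
    (measure fun x : E d => (Finset.univ.filter (fun i => ⟪n i, x⟫_ℝ = h i)).card).wf F hne
  refine ⟨x₀, hx₀, fun x hx i hi => ?_⟩
  by_contra hxi
  have hm : (1 / 2 : ℝ) • x₀ + (1 / 2 : ℝ) • x ∈ F := hc hx₀ hx (by norm_num) (by norm_num)
    (by norm_num)
  apply hmin _ hm
  change (Finset.univ.filter (fun i => ⟪n i, (1 / 2 : ℝ) • x₀ + (1 / 2 : ℝ) • x⟫_ℝ = h i)).card <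
    (Finset.univ.filter (fun i => ⟪n i, x₀⟫_ℝ = h i)).card
  apply Finset.card_lt_card
  rw [Finset.ssubset_iff_of_subset]
  · refine ⟨i, by simpa using hi, ?_⟩
    simp only [Finset.mem_filter, Finset.mem_univ, true_and]
    rw [inner_add_right, inner_smul_right, inner_smul_right, hi]
    intro h3
    exact hxi (by linarith)
  · intro j hj
    simp only [Finset.mem_filter, Finset.mem_univ, true_and] at hj ⊢
    rw [inner_add_right, inner_smul_right, inner_smul_right] at hj
    have h1 := hF hx₀ j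
    have h2 := hF hx j
    linarith

/-- Small moves in directions orthogonal to the active normals stay in the polyhedron. -/
private lemma e2_move [Fintype ι] {n : ι → E d} {h : ι → ℝ} {x₀ v : E d} (hx : x₀ ∈ Poly n h)
    (hd : ∀ i, ⟪n i, x₀⟫_ℝ = h i → ⟪n i, v⟫_ℝ = 0) :
    ∃ ε : ℝ, 0 < ε ∧ x₀ + ε • v ∈ Poly n h ∧ x₀ - ε • v ∈ Poly n h := by
  have hev : ∀ i, ∀ᶠ ε : ℝ in 𝓝[>] 0,
      ⟪n i, x₀ + ε • v⟫_ℝ ≤ h i ∧ ⟪n i, x₀ - ε • v⟫_ℝ ≤ h i := by
    intro i
    by_cases hi : ⟪n i, x₀⟫_ℝ = h i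
    · refine Eventually.of_forall fun ε => ?_
      rw [inner_add_right, inner_sub_right, inner_smul_right, hd i hi, hi]
      simp
    · have hlt : ⟪n i, x₀⟫_ℝ < h i := lt_of_le_of_ne (hx i) hi
      have c1 : Continuous fun ε : ℝ => ⟪n i, x₀ + ε • v⟫_ℝ := by fun_prop
      have c2 : Continuous fun ε : ℝ => ⟪n i, x₀ - ε • v⟫_ℝ := by fun_prop
      have e1 : ∀ᶠ ε : ℝ in 𝓝 0, ⟪n i, x₀ + ε • v⟫_ℝ < h i :=
        c1.continuousAt.eventually_lt continuousAt_const (by simpa using hlt)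
      have e2 : ∀ᶠ ε : ℝ in 𝓝 0, ⟪n i, x₀ - ε • v⟫_ℝ < h i :=
        c2.continuousAt.eventually_lt continuousAt_const (by simpa using hlt)
      filter_upwards [nhdsWithin_le_nhds e1, nhdsWithin_le_nhds e2] with ε h1 h2
      exact ⟨h1.le, h2.le⟩
  have hall := (eventually_all.2 hev).and (self_mem_nhdsWithin : Ioi (0 : ℝ) ∈ 𝓝[>] 0)
  obtain ⟨ε, h1, h2⟩ := hall.exists
  exact ⟨ε, h2, fun i => (h1 i).1, fun i => (h1 i).2⟩

/-- An exposed face is determined by the active constraints of a generic point. -/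
private lemma e2_face [Fintype ι] {n : ι → E d} {h : ι → ℝ} {F : Set (E d)}
    (hF : F.Nonempty) (hexp : IsExposed ℝ (Poly n h) F) :
    ∃ x₀ ∈ F, F = {x | x ∈ Poly n h ∧ ∀ i, ⟪n i, x₀⟫_ℝ = h i → ⟪n i, x⟫_ℝ = h i} ∧
      ∀ v : E d, v ∈ vectorSpan ℝ F ↔ ∀ i, ⟪n i, x₀⟫_ℝ = h i → ⟪n i, v⟫_ℝ = 0 := by
  have hsub : F ⊆ Poly n h := hexp.subset
  obtain ⟨x₀, hx₀, hmin⟩ := e2_min_active hsub (hexp.convex (convex_Poly n h)) hF
  have hFeq : F = {x | x ∈ Poly n h ∧ ∀ i, ⟪n i, x₀⟫_ℝ = h i → ⟪n i, x⟫_ℝ = h i} := by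
    obtain ⟨l, hl⟩ := hexp hF
    apply Set.Subset.antisymm
    · intro x hx
      exact ⟨hsub hx, hmin x hx⟩
    · rintro x ⟨hxP, hxa⟩
      obtain ⟨ε, hε, -, h2⟩ := e2_move (v := x - x₀) (hsub hx₀) (by
        intro i hi
        rw [inner_sub_right, hxa i hi, hi, sub_self])
      rw [hl] at hx₀ ⊢
      refine ⟨hxP, fun y hy => (hx₀.2 y hy).trans ?_⟩
      have h3 := hx₀.2 _ h2
      rw [map_sub, map_smul, map_sub, smul_eq_mul] at h3
      have : 0 ≤ ε * (l x - l x₀) := by linarith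
      have := nonneg_of_mul_nonneg_right this hε
      linarith
  refine ⟨x₀, hx₀, hFeq, fun v => ⟨fun hd i hi => ?_, fun hd => ?_⟩⟩
  · rw [vectorSpan_def] at hd
    have : Submodule.span ℝ (F -ᵥ F) ≤ LinearMap.ker (innerₛₗ ℝ (n i)) := by
      rw [Submodule.span_le]
      rintro _ ⟨x, hx, y, hy, rfl⟩
      simp [vsub_eq_sub, inner_sub_right, hmin x hx i hi, hmin y hy i hi]
    simpa using this hd
  · obtain ⟨ε, hε, h1, -⟩ := e2_move (hsub hx₀) hd
    have hmem : x₀ + ε • v ∈ F := by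
      rw [hFeq]
      refine ⟨h1, fun i hi => ?_⟩
      rw [inner_add_right, inner_smul_right, hd i hi, hi]
      simp
    have h3 : (x₀ + ε • v) -ᵥ x₀ ∈ vectorSpan ℝ F := vsub_mem_vectorSpan ℝ hmem hx₀
    have h4 : ε⁻¹ • ((x₀ + ε • v) -ᵥ x₀) ∈ vectorSpan ℝ F := Submodule.smul_mem _ _ h3
    simpa [vsub_eq_sub, smul_smul, hε.ne'] using h4

/-- the orthogonal complement of independent vectors -/
private lemma e2_finrank {κ : Type*} [Fintype κ] {w : κ → E d} (hw : LinearIndependent ℝ w) :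
    Module.finrank ℝ ((Submodule.span ℝ (Set.range w))ᗮ : Submodule ℝ (E d)) + Fintype.card κ
      = d := by
  have h1 := finrank_span_eq_card hw
  have h2 : Module.finrank ℝ (Submodule.span ℝ (Set.range w)) +
      Module.finrank ℝ ((Submodule.span ℝ (Set.range w))ᗮ : Submodule ℝ (E d)) = d := by
    rw [Submodule.finrank_add_finrank_orthogonal]; simp
  omega

private lemma e2_mem_orth {κ : Type*} {w : κ → E d} {v : E d} :
    v ∈ (Submodule.span ℝ (Set.range w))ᗮ ↔ ∀ k, ⟪w k, v⟫_ℝ = 0 := by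
  constructor
  · intro hv k
    exact (Submodule.mem_orthogonal _ v).1 hv _ (Submodule.subset_span ⟨k, rfl⟩)
  · intro hv
    rw [Submodule.mem_orthogonal]
    intro x hx
    induction hx using Submodule.span_induction with
    | mem x hx =>
      obtain ⟨k, rfl⟩ := hx
      exact hv k
    | zero => simp
    | add x y _ _ hx hy => rw [inner_add_left, hx, hy, add_zero]
    | smul a x _ hx => rw [inner_smul_left, hx, mul_zero]

/-- the normals of a set of facets with a common point are independent -/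
private lemma e2_indep {n : ι → E d} {h : ι → ℝ} (hs : Simp n h) {t : Finset ι} {a : E d}
    (ha : a ∈ FacT n h t) : LinearIndependent ℝ (fun i : t => n i) := by
  have h1 := hs a ha.1
  let f : t → {i // ⟪n i, a⟫_ℝ = h i} := fun i => ⟨i.1, ha.2 i.1 i.2⟩
  have hf : Function.Injective f := by
    intro i j hij
    have h2 : (f i).1 = (f j).1 := by rw [hij]
    exact Subtype.ext h2
  exact h1.comp f hf

private lemma e2_vectorSpan_le {n : ι → E d} {h : ι → ℝ} (t : Finset ι) :
    vectorSpan ℝ (FacT n h t) ≤ (Submodule.span ℝ (Set.range (fun i : t => n i)))ᗮ := by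
  intro v hv
  rw [e2_mem_orth]
  intro k
  rw [vectorSpan_def] at hv
  have : Submodule.span ℝ (FacT n h t -ᵥ FacT n h t) ≤ LinearMap.ker (innerₛₗ ℝ (n k)) := by
    rw [Submodule.span_le]
    rintro _ ⟨x, hx, y, hy, rfl⟩
    simp [vsub_eq_sub, inner_sub_right, hx.2 k.1 k.2, hy.2 k.1 k.2]
  simpa using this hv

/-- A 1-face is the intersection of `d - 1` facets. -/
private lemma e2_one_face [Fintype ι] {n : ι → E d} {h : ι → ℝ} (hs : Simp n h)
    {F : Set (E d)} (hF : IsKFace 1 (Poly n h) F) :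
    ∃ t : Finset ι, t.card + 1 = d ∧ F = FacT n h t := by
  classical
  obtain ⟨hne, hexp, hrk⟩ := hF
  obtain ⟨x₀, hx₀, hFeq, hspan⟩ := e2_face hne hexp
  refine ⟨Finset.univ.filter fun i => ⟪n i, x₀⟫_ℝ = h i, ?_, ?_⟩
  · have h1 := hs x₀ (hexp.subset hx₀)
    have h2 := e2_finrank h1
    have h3 : vectorSpan ℝ F = (Submodule.span ℝ
        (Set.range (fun i : {i // ⟪n i, x₀⟫_ℝ = h i} => n i)))ᗮ := by
      ext v
      rw [hspan, e2_mem_orth]
      exact ⟨fun hv k => hv k.1 k.2, fun hv i hi => hv ⟨i, hi⟩⟩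
    rw [← h3, hrk, Fintype.card_subtype] at h2
    omega
  · rw [hFeq]
    ext x
    simp [FacT]

/-- Conversely, a nondegenerate intersection of `d - 1` facets is a 1-face. -/
private lemma e2_one_face' {n : ι → E d} {h : ι → ℝ} (hs : Simp n h)
    {t : Finset ι} (ht : t.card + 1 = d) {a b : E d} (ha : a ∈ FacT n h t)
    (hb : b ∈ FacT n h t) (hab : a ≠ b) : IsKFace 1 (Poly n h) (FacT n h t) := by
  refine ⟨⟨a, ha⟩, ?_, ?_⟩
  · intro _
    refine ⟨innerSL ℝ (∑ i ∈ t, n i), ?_⟩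
    have key : ∀ y ∈ Poly n h, ⟪∑ i ∈ t, n i, y⟫_ℝ ≤ ∑ i ∈ t, h i := by
      intro y hy
      rw [sum_inner]
      exact Finset.sum_le_sum fun i _ => hy i
    ext x
    constructor
    · rintro ⟨h1, h2⟩
      refine ⟨h1, fun y hy => ?_⟩
      simp only [innerSL_apply_apply]
      refine (key y hy).trans (le_of_eq ?_)
      rw [sum_inner]
      exact (Finset.sum_congr rfl fun i hi => h2 i hi).symm
    · rintro ⟨h1, h2⟩
      have h3 := h2 a ha.1
      simp only [innerSL_apply_apply] at h3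
      have h4 : ⟪∑ i ∈ t, n i, a⟫_ℝ = ∑ i ∈ t, h i := by
        rw [sum_inner]
        exact Finset.sum_congr rfl fun i hi => ha.2 i hi
      rw [h4, sum_inner] at h3
      have h5 : ∑ i ∈ t, ⟪n i, x⟫_ℝ = ∑ i ∈ t, h i :=
        le_antisymm (Finset.sum_le_sum fun i _ => h1 i) h3
      refine ⟨h1, fun i hi => ?_⟩
      exact (Finset.sum_eq_sum_iff_of_le fun i _ => h1 i).1 h5 i hi
  · have h1 := e2_finrank (e2_indep hs ha)
    rw [Fintype.card_coe] at h1
    have h2 := Submodule.finrank_mono (e2_vectorSpan_le (n := n) (h := h) t)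
    have hge : Module.finrank ℝ (vectorSpan ℝ (FacT n h t)) ≠ 0 := by
      intro h0
      rw [Submodule.finrank_eq_zero] at h0
      have hm : a -ᵥ b ∈ vectorSpan ℝ (FacT n h t) := vsub_mem_vectorSpan ℝ ha hb
      rw [h0, Submodule.mem_bot, vsub_eq_sub, sub_eq_zero] at hm
      exact hab hm
    omega

/-- The facets cutting out an edge are unique. -/
private lemma e2_unique {n : ι → E d} {h : ι → ℝ} (hs : Simp n h) {t t' : Finset ι}
    (ht : t.card + 1 = d) (ht' : t'.card + 1 = d) {a b : E d} (ha : a ∈ FacT n h t)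
    (hb : b ∈ FacT n h t) (ha' : a ∈ FacT n h t') (hb' : b ∈ FacT n h t') (hab : a ≠ b) :
    t = t' := by
  classical
  have hsub : t' ⊆ t := by
    intro i hi
    by_contra hit
    have hm : a ∈ FacT n h (insert i t) :=
      ⟨ha.1, fun k hk => by
        rcases Finset.mem_insert.1 hk with rfl | hk
        · exact ha'.2 _ hi
        · exact ha.2 k hk⟩
    have h1 := e2_finrank (e2_indep hs hm)
    rw [Fintype.card_coe, Finset.card_insert_of_notMem hit] at h1
    have h2 : Module.finrank ℝ ((Submodule.span ℝ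
        (Set.range (fun j : (insert i t : Finset ι) => n j)))ᗮ : Submodule ℝ (E d)) = 0 := by
      omega
    rw [Submodule.finrank_eq_zero] at h2
    have h3 : a - b ∈ (Submodule.span ℝ
        (Set.range (fun j : (insert i t : Finset ι) => n j)))ᗮ := by
      rw [e2_mem_orth]
      rintro ⟨k, hk⟩
      rw [inner_sub_right]
      rcases Finset.mem_insert.1 hk with rfl | hk'
      · rw [ha'.2 _ hi, hb'.2 _ hi, sub_self]
      · rw [ha.2 k hk', hb.2 k hk', sub_self]
    rw [h2, Submodule.mem_bot, sub_eq_zero] at h3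
    exact hab h3
  exact (Finset.eq_of_subset_of_card_le hsub (by omega)).symm

/-! ### One-dimensional measure -/

private lemma e2_HE_one : (μHE[1] : Measure (E d)) = μH[1] := by
  have h1 : (μHE[1] : Measure ℝ) = volume := by
    have := InnerProductSpace.euclideanHausdorffMeasure_eq_volume (V := ℝ)
    simpa using this
  have h2 := MeasureTheory.Measure.euclideanHausdorffMeasure_def (X := ℝ) 1
  have h3 : (Measure.addHaarScalarFactor (volume : Measure (EuclideanSpace ℝ (Fin 1)))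
      μH[((1 : ℕ) : ℝ)]) = 1 := by
    have h4 : (μHE[1] : Measure ℝ) (Icc 0 1) = (volume : Measure ℝ) (Icc 0 1) := by rw [h1]
    rw [h2, Measure.smul_apply] at h4
    have h5 : (μH[((1 : ℕ) : ℝ)] : Measure ℝ) = volume := by
      rw [Nat.cast_one]; exact hausdorffMeasure_real
    rw [h5, Real.volume_Icc] at h4
    simp only [sub_zero, ENNReal.ofReal_one] at h4
    rw [ENNReal.smul_def, smul_eq_mul, mul_one] at h4
    exact_mod_cast h4
  rw [MeasureTheory.Measure.euclideanHausdorffMeasure_def, h3, one_smul, Nat.cast_one]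

lemma HE_segment (a b : E d) : μHE[1] (segment ℝ a b) = edist a b := by
  rw [e2_HE_one, hausdorffMeasure_segment]

/-- A compact convex collinear set is a segment. -/
private lemma e2_segment {G : Set (E d)} (hG : IsCompact G) (hc : Convex ℝ G) (hne : G.Nonempty)
    (hcol : Collinear ℝ G) : ∃ a ∈ G, ∃ b ∈ G, G = segment ℝ a b := by
  obtain ⟨⟨a, b⟩, ⟨ha, hb⟩, hmax⟩ := (hG.prod hG).exists_isMaxOn (hne.prod hne)
    (f := fun p : E d × E d => dist p.1 p.2) (by fun_prop)
  simp only at ha hb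
  refine ⟨a, ha, b, hb, ?_⟩
  have hmax' : ∀ x ∈ G, ∀ y ∈ G, dist x y ≤ dist a b := fun x hx y hy => hmax (a := (x, y)) ⟨hx, hy⟩
  apply Set.Subset.antisymm _ (hc.segment_subset ha hb)
  intro x hx
  by_cases hab : a = b
  · subst hab
    have := hmax' x hx a ha
    rw [dist_self] at this
    have hxa : x = a := dist_le_zero.1 this
    rw [hxa]
    exact left_mem_segment ℝ a a
  obtain ⟨v, hv⟩ := (collinear_iff_of_mem ha).1 hcol
  obtain ⟨rb, hrb⟩ := hv b hb
  obtain ⟨rx, hrx⟩ := hv x hx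
  simp only [vadd_eq_add] at hrb hrx
  have hrb0 : rb ≠ 0 := by
    rintro rfl
    apply hab
    rw [hrb]; simp
  have hxab : x = a + (rx / rb) • (b - a) := by
    rw [hrb, hrx, add_sub_cancel_right, smul_smul, div_mul_cancel₀ _ hrb0, add_comm]
  set t := rx / rb with ht
  have hd : 0 < dist a b := dist_pos.2 hab
  have h1 : dist a x = |t| * dist a b := by
    rw [hxab, dist_eq_norm, dist_eq_norm, sub_add_cancel_left, norm_neg, norm_smul,
      Real.norm_eq_abs, norm_sub_rev b a]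
  have h2 : dist x b = |1 - t| * dist a b := by
    rw [hxab, dist_eq_norm, dist_eq_norm, ← Real.norm_eq_abs, ← norm_smul]
    congr 1
    rw [sub_smul, one_smul, smul_sub, smul_sub]
    abel
  have h3 := hmax' a ha x hx
  have h4 := hmax' x hx b hb
  rw [h1] at h3
  rw [h2] at h4
  have h5 : |t| ≤ 1 := by
    by_contra hcon
    push Not at hcon
    nlinarith
  have h6 : |1 - t| ≤ 1 := by
    by_contra hcon
    push Not at hcon
    nlinarith
  rw [abs_le] at h5 h6
  rw [hxab, segment_eq_image']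
  exact ⟨t, ⟨by linarith, by linarith⟩, rfl⟩

/-- the intersection of `d - 1` facets of a simple polytope is empty or a segment -/
lemma FacT_segment {n : ι → E d} {h : ι → ℝ} (hb : Bornology.IsBounded (Poly n h))
    (hs : Simp n h) {t : Finset ι} (ht : t.card + 1 = d) (hne : (FacT n h t).Nonempty) :
    ∃ a ∈ FacT n h t, ∃ b ∈ FacT n h t, FacT n h t = segment ℝ a b := by
  refine e2_segment (isCompact_FacT hb t) (convex_FacT n h t) hne ?_
  obtain ⟨a, ha⟩ := hne
  rw [collinear_iff_finrank_le_one]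
  have h1 := e2_finrank (e2_indep hs ha)
  rw [Fintype.card_coe] at h1
  have h2 := Submodule.finrank_mono (e2_vectorSpan_le (n := n) (h := h) t)
  omega

/-- the edges of a simple polytope -/
lemma zeta_one_sum [Fintype ι] {n : ι → E d} {h : ι → ℝ}
    (hb : Bornology.IsBounded (Poly n h)) (hs : Simp n h) (hd : 1 ≤ d) :
    zeta 1 (Poly n h) = ∑ t ∈ Finset.powersetCard (d - 1) Finset.univ, μHE[1] (FacT n h t) := by
  classical
  have hcard : ∀ t : Finset ι, t ∈ Finset.powersetCard (d - 1) (Finset.univ : Finset ι) ↔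
      t.card + 1 = d := by
    intro t
    rw [Finset.mem_powersetCard]
    constructor
    · rintro ⟨-, h1⟩; omega
    · intro h1; exact ⟨Finset.subset_univ _, by omega⟩
  set S : Finset (Finset ι) := (Finset.powersetCard (d - 1) Finset.univ).filter
    (fun t => ∃ a ∈ FacT n h t, ∃ b ∈ FacT n h t, a ≠ b) with hS
  have hmemS : ∀ t : Finset ι, t ∈ S ↔
      t.card + 1 = d ∧ ∃ a ∈ FacT n h t, ∃ b ∈ FacT n h t, a ≠ b := by
    intro t; rw [hS, Finset.mem_filter, hcard]
  let f : S → {F : Set (E d) // IsKFace 1 (Poly n h) F} := fun t => ⟨FacT n h t, by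
    obtain ⟨h1, a, ha, b, hb, hab⟩ := (hmemS t).1 t.2
    exact e2_one_face' hs h1 ha hb hab⟩
  have hf : Function.Bijective f := by
    constructor
    · rintro ⟨t, ht⟩ ⟨t', ht'⟩ htt
      have htt' : FacT n h t = FacT n h t' := congrArg Subtype.val htt
      obtain ⟨h1, a, ha, b, hb, hab⟩ := (hmemS t).1 ht
      have h2 := ((hmemS t').1 ht').1
      exact Subtype.ext (e2_unique hs h1 h2 ha hb (by rw [htt'] at ha; exact ha)
        (by rw [htt'] at hb; exact hb) hab)
    · rintro ⟨F, hF⟩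
      obtain ⟨t, ht, hFt⟩ := e2_one_face hs hF
      have hnt : ∃ a ∈ F, ∃ b ∈ F, a ≠ b := by
        by_contra hcon
        push Not at hcon
        have : vectorSpan ℝ F = ⊥ := vectorSpan_of_subsingleton ℝ (fun a ha b hb => hcon a ha b hb)
        have h3 := hF.2.2
        rw [this] at h3
        simp at h3
      rw [hFt] at hnt
      exact ⟨⟨t, (hmemS _).2 ⟨ht, hnt⟩⟩, Subtype.ext hFt.symm⟩
  have h1 : zeta 1 (Poly n h) = ∑' t : S, μHE[1] (FacT n h t) := by
    unfold zeta
    rw [← (Equiv.ofBijective f hf).tsum_eq]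
    rfl
  rw [h1, Finset.tsum_subtype S (fun t => μHE[1] (FacT n h t))]
  apply Finset.sum_subset
  · exact Finset.filter_subset _ _
  · intro t ht htS
    rw [hcard] at ht
    rcases Set.eq_empty_or_nonempty (FacT n h t) with he | hne
    · rw [he]; simp
    · obtain ⟨a, ha, b, hb', hab⟩ := FacT_segment hb hs ht hne
      have hab' : a = b := by
        by_contra hcon
        exact htS ((hmemS t).2 ⟨ht, a, ha, b, hb', hcon⟩)
      rw [hab, HE_segment, hab', edist_self]

/-! ### the 1-content and the averaged widths -/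

lemma MM_FacT [NeZero d] {n : ι → E d} {h : ι → ℝ} (hb : Bornology.IsBounded (Poly n h))
    (hs : Simp n h) {t : Finset ι} (ht : t.card + 1 = d) :
    cst d * μHE[1] (FacT n h t) = MM (FacT n h t) := by
  rcases Set.eq_empty_or_nonempty (FacT n h t) with he | hne
  · rw [he]
    simp [MM, wid]
  · obtain ⟨a, -, b, -, hab⟩ := FacT_segment hb hs ht hne
    rw [hab, HE_segment, MM_segment]

/-- `cst * zeta 1 P` is the sum of the averaged widths of the intersections of `d - 1` facets -/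
lemma zeta_one_MM [Fintype ι] [NeZero d] {n : ι → E d} {h : ι → ℝ}
    (hb : Bornology.IsBounded (Poly n h)) (hs : Simp n h) :
    cst d * zeta 1 (Poly n h) =
      ∑ t ∈ Finset.powersetCard (d - 1) Finset.univ, MM (FacT n h t) := by
  have hd : 1 ≤ d := Nat.one_le_iff_ne_zero.2 (NeZero.ne d)
  rw [zeta_one_sum hb hs hd, Finset.mul_sum]
  refine Finset.sum_congr rfl fun t ht => MM_FacT hb hs ?_
  have := (Finset.mem_powersetCard.1 ht).2
  omega

/-- integrating a count of sections -/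
lemma wid_sum {κ : Type*} (S : Finset κ) {C : κ → Set (E d)} (hC : ∀ k ∈ S, IsCompact (C k))
    (u : E d) : ∑ k ∈ S, wid u (C k) =
      ∫⁻ s, ∑ k ∈ S, ((fun x : E d => ⟪x, u⟫_ℝ) '' (C k)).indicator (1 : ℝ → ℝ≥0∞) s := by
  have hm : ∀ k ∈ S, MeasurableSet ((fun x : E d => ⟪x, u⟫_ℝ) '' (C k)) :=
    fun k hk => measurableSet_image_of_isCompact (hC k hk) u
  rw [lintegral_finsetSum' _ (fun k hk => (measurable_one.indicator (hm k hk)).aemeasurable)]
  exact Finset.sum_congr rfl fun k hk => (lintegral_indicator_one (hm k hk)).symm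

lemma sum_indicator_eq {κ : Type*} (S : Finset κ) (A : κ → Set ℝ) (s : ℝ)
    [DecidablePred fun k => s ∈ A k] :
    ∑ k ∈ S, (A k).indicator (1 : ℝ → ℝ≥0∞) s = ((S.filter fun k => s ∈ A k).card : ℝ≥0∞) := by
  classical
  rw [Finset.card_filter, Nat.cast_sum]
  refine Finset.sum_congr rfl fun k _ => ?_
  by_cases hk : s ∈ A k
  · rw [indicator_of_mem hk, if_pos hk]; simp
  · rw [indicator_of_notMem hk, if_neg hk]; simp

/-- `cst * zeta 1 P` is the sum of the averaged widths of the intersections of `d - 1` facets. -/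
theorem zeta_one_simp [Fintype ι] [NeZero d] (_hd : 2 ≤ d) {n : ι → E d} {h : ι → ℝ}
    (hg : Good n h) (hs : Simp n h) :
    cst d * zeta 1 (Poly n h) =
      ∑ t ∈ (Finset.univ : Finset ι).powersetCard (d - 1), MM (FacT n h t) :=
  zeta_one_MM hg.bdd hs

open Classical in
/-- The edge formula, from the count of the sections. -/
lemma edge_of_count [Fintype ι] {n : ι → E 4} {h : ι → ℝ}
    (hb : Bornology.IsBounded (Poly n h))
    (hE1 : ∀ u : E 4, ∀ᵐ s : ℝ,
      (((Finset.univ : Finset ι).powersetCard 3).filter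
        (fun t => s ∈ (fun x : E 4 => ⟪x, u⟫_ℝ) '' FacT n h t)).card +
        4 * (if s ∈ (fun x : E 4 => ⟪x, u⟫_ℝ) '' Poly n h then 1 else 0) =
      2 * (Finset.univ.filter (fun i => s ∈ (fun x : E 4 => ⟪x, u⟫_ℝ) '' Fac n h i)).card) :
    ∑ t ∈ (Finset.univ : Finset ι).powersetCard 3, MM (FacT n h t) + 4 * MM (Poly n h) =
      2 * ∑ i, MM (Fac n h i) := by
  have hcF : ∀ i, IsCompact (Fac n h i) := fun i => isCompact_Fac hb i
  have hcP : IsCompact (Poly n h) := isCompact_Poly hb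
  have key : ∀ u : E 4, ∑ t ∈ Finset.powersetCard 3 Finset.univ, wid u (FacT n h t) +
      4 * wid u (Poly n h) = 2 * ∑ i, wid u (Fac n h i) := by
    intro u
    have hmP : MeasurableSet ((fun x : E 4 => ⟪x, u⟫_ℝ) '' Poly n h) :=
      measurableSet_image_of_isCompact hcP u
    have e2 : wid u (Poly n h) =
        ∫⁻ s, ((fun x : E 4 => ⟪x, u⟫_ℝ) '' (Poly n h)).indicator (1 : ℝ → ℝ≥0∞) s :=
      (lintegral_indicator_one hmP).symm
    have hmt : Measurable fun s : ℝ => ∑ t ∈ Finset.powersetCard 3 (Finset.univ : Finset ι),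
        ((fun x : E 4 => ⟪x, u⟫_ℝ) '' (FacT n h t)).indicator (1 : ℝ → ℝ≥0∞) s :=
      Finset.measurable_sum _ fun t _ =>
        measurable_one.indicator (measurableSet_image_of_isCompact (isCompact_FacT hb t) u)
    have hmi : Measurable fun s : ℝ => ∑ i,
        ((fun x : E 4 => ⟪x, u⟫_ℝ) '' (Fac n h i)).indicator (1 : ℝ → ℝ≥0∞) s :=
      Finset.measurable_sum _ fun i _ =>
        measurable_one.indicator (measurableSet_image_of_isCompact (hcF i) u)
    rw [wid_sum _ (fun t _ => isCompact_FacT hb t), wid_sum _ (fun i _ => hcF i), e2,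
      ← lintegral_const_mul _ (measurable_one.indicator hmP), ← lintegral_add_left hmt,
      ← lintegral_const_mul _ hmi]
    refine lintegral_congr_ae ?_
    filter_upwards [hE1 u] with s hsE
    rw [sum_indicator_eq, sum_indicator_eq]
    have hP : ((fun x : E 4 => ⟪x, u⟫_ℝ) '' (Poly n h)).indicator (1 : ℝ → ℝ≥0∞) s =
        ((if s ∈ (fun x : E 4 => ⟪x, u⟫_ℝ) '' Poly n h then 1 else 0 : ℕ) : ℝ≥0∞) := by
      by_cases hk : s ∈ (fun x : E 4 => ⟪x, u⟫_ℝ) '' Poly n h
      · rw [indicator_of_mem hk, if_pos hk]; simp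
      · rw [indicator_of_notMem hk, if_neg hk]; simp
    rw [hP]
    exact_mod_cast hsE
  unfold MM
  rw [← lintegral_finsetSum _ (fun t _ => measurable_wid (isCompact_FacT hb t) (convex_FacT n h t)),
    ← lintegral_finsetSum _ (fun i _ => measurable_wid (hcF i) (convex_Fac n h i)),
    ← lintegral_const_mul _ (measurable_wid hcP (convex_Poly n h)),
    ← lintegral_const_mul, ← lintegral_add_left]
  · exact lintegral_congr fun u => key u
  · exact Finset.measurable_sum _ fun t _ =>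
      measurable_wid (isCompact_FacT hb t) (convex_FacT n h t)
  · exact Finset.measurable_sum _ fun i _ => measurable_wid (hcF i) (convex_Fac n h i)

private lemma e2_move' [Fintype ι] {n : ι → E d} {h : ι → ℝ} {x₀ v : E d} (hx : x₀ ∈ Poly n h)
    (hd : ∀ i, ⟪n i, x₀⟫_ℝ = h i → ⟪n i, v⟫_ℝ ≤ 0) :
    ∃ ε : ℝ, 0 < ε ∧ x₀ + ε • v ∈ Poly n h := by
  have hev : ∀ i, ∀ᶠ ε : ℝ in 𝓝[>] 0, ⟪n i, x₀ + ε • v⟫_ℝ ≤ h i := by
    intro i
    by_cases hi : ⟪n i, x₀⟫_ℝ = h i
    · filter_upwards [self_mem_nhdsWithin] with ε hε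
      rw [inner_add_right, inner_smul_right, hi]
      have : ε * ⟪n i, v⟫_ℝ ≤ 0 := mul_nonpos_of_nonneg_of_nonpos (le_of_lt hε) (hd i hi)
      linarith
    · have hlt : ⟪n i, x₀⟫_ℝ < h i := lt_of_le_of_ne (hx i) hi
      have c1 : Continuous fun ε : ℝ => ⟪n i, x₀ + ε • v⟫_ℝ := by fun_prop
      have e1 : ∀ᶠ ε : ℝ in 𝓝 0, ⟪n i, x₀ + ε • v⟫_ℝ < h i :=
        c1.continuousAt.eventually_lt continuousAt_const (by simpa using hlt)
      filter_upwards [nhdsWithin_le_nhds e1] with ε h1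
      exact h1.le
  have hall := (eventually_all.2 hev).and (self_mem_nhdsWithin : Ioi (0 : ℝ) ∈ 𝓝[>] 0)
  obtain ⟨ε, h1, h2⟩ := hall.exists
  exact ⟨ε, h2, h1⟩

/-- A bounded simple polyhedron has an edge of positive length. -/
lemma exists_edge [Fintype ι] {n : ι → E d} {h : ι → ℝ}
    (hb : Bornology.IsBounded (Poly n h)) (hs : Simp n h) (hd : 1 ≤ d)
    (hne : (Poly n h).Nonempty) :
    ∃ t : Finset ι, t.card + 1 = d ∧ ∃ a ∈ FacT n h t, ∃ b ∈ FacT n h t, a ≠ b := by
  classical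
  obtain ⟨v, hv⟩ := (isCompact_Poly hb).extremePoints_nonempty hne
  have hvP : v ∈ Poly n h := hv.1
  set A : Finset ι := Finset.univ.filter fun i => ⟪n i, v⟫_ℝ = h i with hA
  have hvA : v ∈ FacT n h A := ⟨hvP, fun i hi => (Finset.mem_filter.1 hi).2⟩
  have hbot : ∀ w : E d, (∀ i ∈ A, ⟪n i, w⟫_ℝ = 0) → w = 0 := by
    intro w hw
    have hw' : ∀ i, ⟪n i, v⟫_ℝ = h i → ⟪n i, w⟫_ℝ = 0 := fun i hi =>
      hw i (Finset.mem_filter.2 ⟨Finset.mem_univ _, hi⟩)
    obtain ⟨ε, hε, h1, h2⟩ := e2_move hvP hw'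
    have h3 : v + ε • w = v := by
      refine hv.2 h1 h2 ?_
      refine ⟨1 / 2, 1 / 2, by norm_num, by norm_num, by norm_num, ?_⟩
      rw [smul_add, smul_sub]
      module
    have h4 : ε • w = 0 := by simpa using h3
    exact (smul_eq_zero.1 h4).resolve_left hε.ne'
  have hcard : A.card = d := by
    have h1 := e2_finrank (e2_indep hs hvA)
    rw [Fintype.card_coe] at h1
    have h2 : (Submodule.span ℝ (Set.range fun i : A => n i))ᗮ = ⊥ := by
      rw [Submodule.eq_bot_iff]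
      intro w hw
      rw [e2_mem_orth] at hw
      exact hbot w fun i hi => hw ⟨i, hi⟩
    rw [h2, finrank_bot] at h1
    omega
  obtain ⟨i₀, hi₀⟩ : A.Nonempty := Finset.card_pos.1 (by omega)
  have hsub : A.erase i₀ ⊆ A := Finset.erase_subset _ _
  have hvA' : v ∈ FacT n h (A.erase i₀) := ⟨hvP, fun i hi => hvA.2 i (hsub hi)⟩
  have hcard' : (A.erase i₀).card + 1 = d := by
    rw [Finset.card_erase_of_mem hi₀, hcard]; omega
  obtain ⟨w, hw, hw0⟩ : ∃ w : E d, (∀ i ∈ A.erase i₀, ⟪n i, w⟫_ℝ = 0) ∧ ⟪n i₀, w⟫_ℝ < 0 := by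
    have h1 := e2_finrank (e2_indep hs hvA')
    rw [Fintype.card_coe] at h1
    have h2 : (Submodule.span ℝ (Set.range fun i : (A.erase i₀ : Finset ι) => n i))ᗮ ≠ ⊥ := by
      intro h3
      rw [h3, finrank_bot] at h1
      omega
    obtain ⟨w, hw, hw0⟩ := Submodule.exists_mem_ne_zero_of_ne_bot h2
    rw [e2_mem_orth] at hw
    have hw' : ∀ i ∈ A.erase i₀, ⟪n i, w⟫_ℝ = 0 := fun i hi => hw ⟨i, hi⟩
    have h4 : ⟪n i₀, w⟫_ℝ ≠ 0 := by
      intro h5
      apply hw0
      apply hbot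
      intro i hi
      by_cases hii : i = i₀
      · rw [hii]; exact h5
      · exact hw' i (Finset.mem_erase.2 ⟨hii, hi⟩)
    rcases lt_or_gt_of_ne h4 with h5 | h5
    · exact ⟨w, hw', h5⟩
    · refine ⟨-w, fun i hi => ?_, ?_⟩
      · rw [inner_neg_right, hw' i hi, neg_zero]
      · rw [inner_neg_right]; linarith
  obtain ⟨ε, hε, h1⟩ := e2_move' (v := w) hvP (by
    intro i hi
    by_cases hii : i = i₀
    · rw [hii]; exact hw0.le
    · exact (hw i (Finset.mem_erase.2
        ⟨hii, Finset.mem_filter.2 ⟨Finset.mem_univ _, hi⟩⟩)).le)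
  refine ⟨A.erase i₀, hcard', v, hvA', v + ε • w, ⟨h1, fun i hi => ?_⟩, ?_⟩
  · rw [inner_add_right, inner_smul_right, hw i hi, hvA'.2 i hi]; simp
  · intro h2
    have h3 : ε • w = 0 := by simpa using h2.symm
    have h4 : w = 0 := (smul_eq_zero.1 h3).resolve_left hε.ne'
    rw [h4, inner_zero_right] at hw0
    exact lt_irrefl _ hw0

lemma zeta_one_ne_top [Fintype ι] {n : ι → E d} {h : ι → ℝ}
    (hb : Bornology.IsBounded (Poly n h)) (hs : Simp n h) (hd : 1 ≤ d) :
    zeta 1 (Poly n h) ≠ ∞ := by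
  rw [zeta_one_sum hb hs hd]
  refine ENNReal.sum_ne_top.2 fun t ht => ?_
  have ht' : t.card + 1 = d := by
    have := (Finset.mem_powersetCard.1 ht).2
    omega
  rcases Set.eq_empty_or_nonempty (FacT n h t) with he | hne
  · rw [he]; simp
  · obtain ⟨a, -, b, -, hab⟩ := FacT_segment hb hs ht' hne
    rw [hab, HE_segment]
    exact edist_ne_top a b

lemma zeta_one_ne_zero [Fintype ι] {n : ι → E d} {h : ι → ℝ}
    (hb : Bornology.IsBounded (Poly n h)) (hs : Simp n h) (hd : 1 ≤ d)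
    (hne : (Poly n h).Nonempty) : zeta 1 (Poly n h) ≠ 0 := by
  obtain ⟨t, ht, a, ha, b, hb', hab⟩ := exists_edge hb hs hd hne
  rw [zeta_one_sum hb hs hd]
  intro h0
  rw [Finset.sum_eq_zero_iff] at h0
  have h1 := h0 t (Finset.mem_powersetCard.2 ⟨Finset.subset_univ _, by omega⟩)
  have h2 : μHE[1] (segment ℝ a b) ≤ μHE[1] (FacT n h t) :=
    measure_mono ((convex_FacT n h t).segment_subset ha hb')
  rw [h1, HE_segment, nonpos_iff_eq_zero, edist_eq_zero] at h2
  exact hab h2

end SP4
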