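import Pool.Agent.SP4.Poly

/-!
Every nonempty hyperplane section of a bounded polyhedron in d-space meets at least d facets.
-/

open MeasureTheory Set Filter Topology
open scoped ENNReal InnerProductSpace

namespace SP4

open Melzak (E)

variable {d : ℕ} {ι : Type*}

/-- A nonzero direction orthogonal to u in which fewer than d given functionals do not increase. -/
lemma exists_dir_le (hd : 2 ≤ d) (u : E d) (n : ι → E d) {J : Finset ι} (hJ : J.card < d) :
    ∃ w : E d, w ≠ 0 ∧ ⟪u, w⟫_ℝ = 0 ∧ ∀ j ∈ J, ⟪n j, w⟫_ℝ ≤ 0 := by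
  classical
  let Φ : E d →ₗ[ℝ] (J → ℝ) × ℝ :=
    LinearMap.prod (LinearMap.pi fun j : J => innerₛₗ ℝ (n j)) (innerₛₗ ℝ u)
  have hΦ1 : ∀ w, ∀ j : J, (Φ w).1 j = ⟪n j, w⟫_ℝ := fun w j => rfl
  have hΦ2 : ∀ w, (Φ w).2 = ⟪u, w⟫_ℝ := fun w => rfl
  by_cases hinj : Function.Injective Φ
  · have hdim : Module.finrank ℝ ((J → ℝ) × ℝ) = J.card + 1 := by
      rw [Module.finrank_prod, Module.finrank_pi, Module.finrank_self, Fintype.card_coe]
    have hle := LinearMap.finrank_le_finrank_of_injective hinj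
    have hE : Module.finrank ℝ (E d) = d := by simp
    rw [hdim, hE] at hle
    have hcard : J.card + 1 = d := by omega
    have heq : Module.finrank ℝ (E d) = Module.finrank ℝ ((J → ℝ) × ℝ) := by
      rw [hdim, hE, hcard]
    have hsurj : Function.Surjective Φ :=
      (LinearMap.injective_iff_surjective_of_finrank_eq_finrank heq).1 hinj
    obtain ⟨w, hw⟩ := hsurj (fun _ => -1, 0)
    have hJne : J.Nonempty := by
      rw [← Finset.card_pos]; omega
    obtain ⟨j, hj⟩ := hJne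
    have h1 : ∀ j ∈ J, ⟪n j, w⟫_ℝ = -1 := by
      intro j hj
      have := hΦ1 w ⟨j, hj⟩
      rw [hw] at this
      exact this.symm
    refine ⟨w, ?_, ?_, ?_⟩
    · rintro rfl
      have := h1 j hj
      rw [inner_zero_right] at this
      norm_num at this
    · rw [← hΦ2, hw]
    · intro j hj
      rw [h1 j hj]
      norm_num
  · rw [← LinearMap.ker_eq_bot] at hinj
    obtain ⟨w, hw, hw0⟩ := (Submodule.ne_bot_iff _).1 hinj
    rw [LinearMap.mem_ker] at hw
    refine ⟨w, hw0, ?_, ?_⟩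
    · rw [← hΦ2, hw]; rfl
    · intro j hj
      have := hΦ1 w ⟨j, hj⟩
      rw [hw] at this
      exact this.symm.le

/-- Every nonempty section of a bounded polyhedron by a level set of a functional meets at least
d facets. (u = 0 is allowed: then the section is the polyhedron.) -/
lemma level_count [Fintype ι] (hd : 2 ≤ d) {n : ι → E d} {h : ι → ℝ}
    (hb : Bornology.IsBounded (Poly n h)) (u : E d) {s : ℝ}
    (hs : s ∈ (fun x : E d => ⟪x, u⟫_ℝ) '' Poly n h)
    [DecidablePred fun i => s ∈ (fun x : E d => ⟪x, u⟫_ℝ) '' Fac n h i] :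
    d ≤ (Finset.univ.filter fun i => s ∈ (fun x : E d => ⟪x, u⟫_ℝ) '' Fac n h i).card := by
  classical
  by_contra hcon
  push Not at hcon
  obtain ⟨w, hw0, hwu, hwn⟩ := exists_dir_le hd u n hcon
  obtain ⟨x, hx, hxs⟩ := hs
  obtain ⟨j, τ, -, hj, hm, ha⟩ := exists_exit hb hx hw0
  have hmem : j ∈ Finset.univ.filter fun i => s ∈ (fun x : E d => ⟪x, u⟫_ℝ) '' Fac n h i := by
    rw [Finset.mem_filter]
    refine ⟨Finset.mem_univ _, x + τ • w, ⟨hm, ha⟩, ?_⟩
    simp only at hxs ⊢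
    rw [inner_add_left, inner_smul_left, real_inner_comm u w, hwu, hxs]
    simp
  exact absurd (hwn j hmem) (not_le.2 hj)

/-- The same for a facet: every nonempty section of the facet i meets at least d - 1 others. -/
lemma level_count_Fac [Fintype ι] [DecidableEq ι] (hd : 3 ≤ d) {n : ι → E d} {h : ι → ℝ}
    (hb : Bornology.IsBounded (Poly n h)) (u : E d) (i : ι) {s : ℝ}
    (hs : s ∈ (fun x : E d => ⟪x, u⟫_ℝ) '' Fac n h i)
    [DecidablePred fun j => s ∈ (fun x : E d => ⟪x, u⟫_ℝ) '' (Fac n h i ∩ Fac n h j)] :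
    d - 1 ≤ ((Finset.univ.erase i).filter
      fun j => s ∈ (fun x : E d => ⟪x, u⟫_ℝ) '' (Fac n h i ∩ Fac n h j)).card := by
  classical
  set J := (Finset.univ.erase i).filter
      fun j => s ∈ (fun x : E d => ⟪x, u⟫_ℝ) '' (Fac n h i ∩ Fac n h j) with hJ
  by_contra hcon
  push Not at hcon
  obtain ⟨x, hx, hxs⟩ := hs
  -- a direction orthogonal to u and to n i
  obtain ⟨w, hw0, hwu, hwi, hwn⟩ : ∃ w : E d, w ≠ 0 ∧ ⟪u, w⟫_ℝ = 0 ∧ ⟪n i, w⟫_ℝ = 0 ∧
      ∀ j ∈ J, ⟪n j, w⟫_ℝ ≤ 0 := by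
    let Φ : E d →ₗ[ℝ] (J → ℝ) × (ℝ × ℝ) :=
      LinearMap.prod (LinearMap.pi fun j : J => innerₛₗ ℝ (n j))
        (LinearMap.prod (innerₛₗ ℝ u) (innerₛₗ ℝ (n i)))
    have hΦ1 : ∀ w, ∀ j : J, (Φ w).1 j = ⟪n j, w⟫_ℝ := fun w j => rfl
    have hΦ2 : ∀ w, (Φ w).2.1 = ⟪u, w⟫_ℝ := fun w => rfl
    have hΦ3 : ∀ w, (Φ w).2.2 = ⟪n i, w⟫_ℝ := fun w => rfl
    by_cases hinj : Function.Injective Φ
    · have hdim : Module.finrank ℝ ((J → ℝ) × (ℝ × ℝ)) = J.card + 2 := by
        rw [Module.finrank_prod, Module.finrank_prod, Module.finrank_pi, Module.finrank_self,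
          Fintype.card_coe]
      have hle := LinearMap.finrank_le_finrank_of_injective hinj
      have hE : Module.finrank ℝ (E d) = d := by simp
      rw [hdim, hE] at hle
      have hcard : J.card + 2 = d := by omega
      have heq : Module.finrank ℝ (E d) = Module.finrank ℝ ((J → ℝ) × (ℝ × ℝ)) := by
        rw [hdim, hE, hcard]
      have hsurj : Function.Surjective Φ :=
        (LinearMap.injective_iff_surjective_of_finrank_eq_finrank heq).1 hinj
      obtain ⟨w, hw⟩ := hsurj (fun _ => -1, (0, 0))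
      have hJne : J.Nonempty := by
        rw [← Finset.card_pos]; omega
      obtain ⟨j, hj⟩ := hJne
      have h1 : ∀ j ∈ J, ⟪n j, w⟫_ℝ = -1 := by
        intro j hj
        have := hΦ1 w ⟨j, hj⟩
        rw [hw] at this
        exact this.symm
      refine ⟨w, ?_, ?_, ?_, ?_⟩
      · rintro rfl
        have := h1 j hj
        rw [inner_zero_right] at this
        norm_num at this
      · rw [← hΦ2, hw]
      · rw [← hΦ3, hw]
      · intro j hj
        rw [h1 j hj]
        norm_num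
    · rw [← LinearMap.ker_eq_bot] at hinj
      obtain ⟨w, hw, hw0⟩ := (Submodule.ne_bot_iff _).1 hinj
      rw [LinearMap.mem_ker] at hw
      refine ⟨w, hw0, ?_, ?_, ?_⟩
      · rw [← hΦ2, hw]; rfl
      · rw [← hΦ3, hw]; rfl
      · intro j hj
        have := hΦ1 w ⟨j, hj⟩
        rw [hw] at this
        exact this.symm.le
  obtain ⟨j, τ, -, hj, hm, ha⟩ := exists_exit hb hx.1 hw0
  have hji : j ≠ i := by
    rintro rfl
    rw [hwi] at hj
    exact lt_irrefl _ hj
  have hmem : j ∈ J := by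
    rw [hJ, Finset.mem_filter]
    refine ⟨Finset.mem_erase.2 ⟨hji, Finset.mem_univ _⟩, x + τ • w, ⟨⟨hm, ?_⟩, ⟨hm, ha⟩⟩, ?_⟩
    · rw [inner_add_right, inner_smul_right, hwi, hx.2, mul_zero, add_zero]
    · simp only at hxs ⊢
      rw [inner_add_left, inner_smul_left, real_inner_comm u w, hwu, hxs]
      simp
  exact absurd (hwn j hmem) (not_le.2 hj)

private lemma lv_wid {C : Set (E d)} (hC : IsCompact C) (u : E d) :
    wid u C = ∫⁻ s, ((fun x : E d => ⟪x, u⟫_ℝ) '' C).indicator 1 s :=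
  (lintegral_indicator_one (measurableSet_image_of_isCompact hC u)).symm

/-- The sum of the widths of the facets is at least d times the width. -/
lemma d_mul_wid_le [Fintype ι] (hd : 2 ≤ d) {n : ι → E d} {h : ι → ℝ}
    (hb : Bornology.IsBounded (Poly n h)) (u : E d) :
    (d : ℝ≥0∞) * wid u (Poly n h) ≤ ∑ i, wid u (Fac n h i) := by
  classical
  have hm : ∀ j, MeasurableSet ((fun x : E d => ⟪x, u⟫_ℝ) '' (Fac n h j)) :=
    fun j => measurableSet_image_of_isCompact (isCompact_Fac hb j) u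
  have hm' : MeasurableSet ((fun x : E d => ⟪x, u⟫_ℝ) '' Poly n h) :=
    measurableSet_image_of_isCompact (isCompact_Poly hb) u
  have e1 : ∀ j, wid u (Fac n h j) =
      ∫⁻ s, ((fun x : E d => ⟪x, u⟫_ℝ) '' (Fac n h j)).indicator 1 s := fun j =>
    lv_wid (isCompact_Fac hb j) u
  have e2 : wid u (Poly n h) =
      ∫⁻ s, ((fun x : E d => ⟪x, u⟫_ℝ) '' (Poly n h)).indicator 1 s :=
    lv_wid (isCompact_Poly hb) u
  simp only [e1]
  rw [e2, ← lintegral_finsetSum _ (fun j _ => measurable_one.indicator (hm j)),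
    ← lintegral_const_mul _ (measurable_one.indicator hm')]
  refine lintegral_mono fun s => ?_
  by_cases hsP : s ∈ (fun x : E d => ⟪x, u⟫_ℝ) '' Poly n h
  · rw [indicator_of_mem hsP]
    have h1 := level_count hd hb u hsP
    simp only [Pi.one_apply, mul_one]
    calc (d : ℝ≥0∞) ≤ ((Finset.univ.filter fun i =>
          s ∈ (fun x : E d => ⟪x, u⟫_ℝ) '' Fac n h i).card : ℝ≥0∞) := by exact_mod_cast h1
      _ = ∑ j, ((fun x : E d => ⟪x, u⟫_ℝ) '' (Fac n h j)).indicator (1 : ℝ → ℝ≥0∞) s := by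
          rw [Finset.card_filter, Nat.cast_sum]
          refine Finset.sum_congr rfl fun j _ => ?_
          by_cases hj : s ∈ (fun x : E d => ⟪x, u⟫_ℝ) '' Fac n h j
          · rw [if_pos hj, indicator_of_mem hj]; simp
          · rw [if_neg hj, indicator_of_notMem hj]; simp
  · rw [indicator_of_notMem hsP, mul_zero]
    exact bot_le

/-- Integrated form. -/
lemma d_mul_MM_le [Fintype ι] (hd : 2 ≤ d) {n : ι → E d} {h : ι → ℝ}
    (hb : Bornology.IsBounded (Poly n h)) :
    (d : ℝ≥0∞) * MM (Poly n h) ≤ ∑ i, MM (Fac n h i) := by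
  unfold MM
  rw [← lintegral_finsetSum, ← lintegral_const_mul]
  · exact lintegral_mono fun u => d_mul_wid_le hd hb u
  · exact measurable_wid (isCompact_Poly hb) (convex_Poly n h)
  · intro j _
    exact measurable_wid (isCompact_Fac hb j) (convex_Fac n h j)

/-- The diameter in terms of the widths of the facets. -/
lemma cst_mul_edist_le [Fintype ι] [NeZero d] (hd : 2 ≤ d) {n : ι → E d} {h : ι → ℝ}
    (hb : Bornology.IsBounded (Poly n h)) {x y : E d} (hx : x ∈ Poly n h) (hy : y ∈ Poly n h) :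
    cst d * edist x y ≤ MM (Poly n h) ∧ (d : ℝ≥0∞) * (cst d * edist x y) ≤ ∑ i, MM (Fac n h i) := by
  have h2 : MM (segment ℝ x y) ≤ MM (Poly n h) :=
    MM_mono ((convex_Poly n h).segment_subset hx hy)
  rw [MM_segment] at h2
  refine ⟨h2, le_trans ?_ (d_mul_MM_le hd hb)⟩
  gcongr

open Classical in
lemma Good.level_count [Fintype ι] {n : ι → E d} {h : ι → ℝ} (hg : Good n h) (hd : 2 ≤ d)
    (u : E d) {s : ℝ} (hs : s ∈ (fun x : E d => ⟪x, u⟫_ℝ) '' Poly n h) :
    d ≤ (Finset.univ.filter (fun i => s ∈ (fun x : E d => ⟪x, u⟫_ℝ) '' Fac n h i)).card :=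
  SP4.level_count hd hg.bdd u hs

lemma Good.d_le [Fintype ι] {n : ι → E d} {h : ι → ℝ} (hg : Good n h) (hd : 2 ≤ d) (u : E d) :
    (d : ℝ≥0∞) * wid u (Poly n h) ≤ ∑ i, wid u (Fac n h i) :=
  d_mul_wid_le hd hg.bdd u

lemma Good.d_le_mm [Fintype ι] {n : ι → E d} {h : ι → ℝ} (hg : Good n h) (hd : 2 ≤ d) :
    (d : ℝ) * mm (Poly n h) ≤ ∑ i, mm (Fac n h i) := by
  have h1 := d_mul_MM_le hd hg.bdd
  have h2 : ∀ i, MM (Fac n h i) ≠ ∞ := fun i =>
    MM_ne_top (hg.bdd.subset (Fac_subset n h i))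
  unfold mm
  rw [← ENNReal.toReal_sum fun i _ => h2 i]
  have h3 : ∑ i, MM (Fac n h i) ≠ ∞ := ENNReal.sum_ne_top.2 fun i _ => h2 i
  have h4 := ENNReal.toReal_mono h3 h1
  rwa [ENNReal.toReal_mul, ENNReal.toReal_natCast] at h4

end SP4
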