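import Pool.Agent.SP4.Poly

/-!
Lower semicontinuity of the sum of the MM of the facets under convergence of the representations.
-/

open MeasureTheory Set Filter Topology
open scoped ENNReal InnerProductSpace

namespace SP4

open Melzak (E IsPolytope IsKFace zeta)

variable {d : ℕ}

/-- The local statement: near a strict point of a facet of the limit the approximating polyhedra
have a facet at the same level. -/
lemma lsc_local_level {m : ℕ} {nk : ℕ → Fin m → E d} {hk : ℕ → Fin m → ℝ} {n : Fin m → E d}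
    {h : Fin m → ℝ} (hn : Tendsto nk atTop (𝓝 n)) (hh : Tendsto hk atTop (𝓝 h))
    (hgk : ∀ k, Good (nk k) (hk k)) {a : Fin m} {u y v : E d} (hvu : ⟪v, u⟫_ℝ = 0)
    (hav : ⟪n a, v⟫_ℝ = 1) (hya : ⟪n a, y⟫_ℝ = h a)
    (hy : ∀ j, (n j ≠ n a ∨ h j ≠ h a) → ⟪n j, y⟫_ℝ < h j) :
    ∀ᶠ k in atTop, ∃ i, (n i = n a ∧ h i = h a) ∧
      ⟪y, u⟫_ℝ ∈ (fun x : E d => ⟪x, u⟫_ℝ) '' Fac (nk k) (hk k) i := by
  have hv0 : v ≠ 0 := by
    rintro rfl
    rw [inner_zero_right] at hav
    exact zero_ne_one hav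
  -- choose epsilon
  have hε : ∀ᶠ ε : ℝ in 𝓝[>] 0, ∀ j, (n j ≠ n a ∨ h j ≠ h a) →
      ⟪n j, y⟫_ℝ + ε * |⟪n j, v⟫_ℝ| < h j := by
    rw [eventually_all]
    intro j
    by_cases hj : n j ≠ n a ∨ h j ≠ h a
    · have h1 : Tendsto (fun ε : ℝ => ⟪n j, y⟫_ℝ + ε * |⟪n j, v⟫_ℝ|) (𝓝 0)
          (𝓝 (⟪n j, y⟫_ℝ + 0 * |⟪n j, v⟫_ℝ|)) := by
        apply Continuous.tendsto
        fun_prop
      rw [zero_mul, add_zero] at h1
      have h2 := (h1.eventually (gt_mem_nhds (hy j hj))).filter_mono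
        (nhdsWithin_le_nhds (s := Ioi (0 : ℝ)))
      filter_upwards [h2] with ε hε _ using hε
    · filter_upwards with ε hj' using absurd hj' hj
  obtain ⟨ε, hε1, hε0⟩ := (hε.and self_mem_nhdsWithin).exists
  have hε0' : 0 < ε := hε0
  -- convergence of the values
  have hconv : ∀ (x : E d) (j : Fin m),
      Tendsto (fun k => ⟪nk k j, x⟫_ℝ - hk k j) atTop (𝓝 (⟪n j, x⟫_ℝ - h j)) := by
    intro x j
    have h1 : Tendsto (fun k => nk k j) atTop (𝓝 (n j)) := (tendsto_pi_nhds.1 hn) j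
    have h2 : Tendsto (fun k => hk k j) atTop (𝓝 (h j)) := (tendsto_pi_nhds.1 hh) j
    exact (h1.inner tendsto_const_nhds).sub h2
  have hA : ∀ᶠ k in atTop, ∀ j, (n j ≠ n a ∨ h j ≠ h a) →
      ⟪nk k j, y + (-ε) • v⟫_ℝ < hk k j ∧ ⟪nk k j, y + ε • v⟫_ℝ < hk k j := by
    rw [eventually_all]
    intro j
    by_cases hj : n j ≠ n a ∨ h j ≠ h a
    · have h1 := hε1 j hj
      have h2 := abs_le.1 (le_refl |⟪n j, v⟫_ℝ|)
      have c1 : ⟪n j, y + (-ε) • v⟫_ℝ - h j < 0 := by
        rw [inner_add_right, inner_smul_right]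
        nlinarith
      have c2 : ⟪n j, y + ε • v⟫_ℝ - h j < 0 := by
        rw [inner_add_right, inner_smul_right]
        nlinarith
      filter_upwards [(hconv (y + (-ε) • v) j).eventually (gt_mem_nhds c1),
        (hconv (y + ε • v) j).eventually (gt_mem_nhds c2)] with k e1 e2 _
      exact ⟨by linarith, by linarith⟩
    · filter_upwards with ε hj' using absurd hj' hj
  have hB : ∀ᶠ k in atTop, ∀ j, (n j = n a ∧ h j = h a) →
      ⟪nk k j, y + (-ε) • v⟫_ℝ < hk k j ∧ hk k j < ⟪nk k j, y + ε • v⟫_ℝ := by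
    rw [eventually_all]
    intro j
    by_cases hj : n j = n a ∧ h j = h a
    · have c1 : ⟪n j, y + (-ε) • v⟫_ℝ - h j < 0 := by
        rw [inner_add_right, inner_smul_right, hj.1, hj.2, hya, hav]
        linarith
      have c2 : 0 < ⟪n j, y + ε • v⟫_ℝ - h j := by
        rw [inner_add_right, inner_smul_right, hj.1, hj.2, hya, hav]
        linarith
      filter_upwards [(hconv (y + (-ε) • v) j).eventually (gt_mem_nhds c1),
        (hconv (y + ε • v) j).eventually (lt_mem_nhds c2)] with k e1 e2 _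
      exact ⟨by linarith, by linarith⟩
    · filter_upwards with ε hj' using absurd hj' hj
  filter_upwards [hA, hB] with k hAk hBk
  have hstart : y + (-ε) • v ∈ Poly (nk k) (hk k) := by
    intro j
    by_cases hj : n j = n a ∧ h j = h a
    · exact (hBk j hj).1.le
    · exact (hAk j (by tauto)).1.le
  obtain ⟨j, τ, hτ0, hpos, hmem, hact⟩ := exists_exit (hgk k).bdd hstart hv0
  have hτ : τ ≤ 2 * ε := by
    by_contra hc
    push Not at hc
    have h1 := (hBk a ⟨rfl, rfl⟩).2
    have h2 := hmem a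
    have h3 := (hBk a ⟨rfl, rfl⟩).1
    rw [inner_add_right, inner_smul_right] at h1 h2 h3
    rw [inner_add_right, inner_smul_right] at h2
    have h4 : 0 < ⟪nk k a, v⟫_ℝ := by nlinarith
    nlinarith
  have hj : n j = n a ∧ h j = h a := by
    by_contra hj
    have h1 := hAk j (by tauto)
    rw [inner_add_right, inner_smul_right, inner_add_right, inner_smul_right] at hact
    have h2 := h1.2
    rw [inner_add_right, inner_smul_right] at h2
    nlinarith
  refine ⟨j, hj, y + (-ε) • v + τ • v, ⟨hmem, hact⟩, ?_⟩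
  simp only [inner_add_left, inner_smul_left, hvu]
  simp

/-- Lower semicontinuity of the sum of the MM of the facets under convergence. -/
lemma lsc_sum {m : ℕ} {nk : ℕ → Fin m → E d} {hk : ℕ → Fin m → ℝ} {n : Fin m → E d}
    {h : Fin m → ℝ} (hn : Tendsto nk atTop (𝓝 n)) (hh : Tendsto hk atTop (𝓝 h))
    (hgk : ∀ k, Good (nk k) (hk k))
    (J : Finset (Fin m)) (hJ : Good (fun i : J => n i) (fun i : J => h i))
    (hJP : Poly (fun i : J => n i) (fun i : J => h i) = Poly n h)
    (hJs : ∀ a ∈ J, ∀ j, (n j ≠ n a ∨ h j ≠ h a) → ∀ y ∈ Poly n h, ⟪n a, y⟫_ℝ = h a →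
        (∀ b ∈ J, b ≠ a → ⟪n b, y⟫_ℝ < h b) → ⟪n j, y⟫_ℝ < h j) :
    ∑ i : J, MM (Fac (fun i : J => n i) (fun i : J => h i) i) ≤
      liminf (fun k => ∑ i, MM (Fac (nk k) (hk k) i)) atTop := by
  classical
  set nJ : J → E d := fun i => n i with hnJ
  set hJ' : J → ℝ := fun i => h i with hhJ
  have hmeasJ : ∀ i : J, Measurable fun u => wid u (Fac nJ hJ' i) := fun i =>
    measurable_wid (isCompact_Fac hJ.bdd i) (convex_Fac _ _ i)
  have hmeask : ∀ k, ∀ i, Measurable fun u => wid u (Fac (nk k) (hk k) i) := fun k i =>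
    measurable_wid (isCompact_Fac (hgk k).bdd i) (convex_Fac _ _ i)
  -- pointwise inequality in the direction
  have hpt : ∀ u : E d, ∑ i : J, wid u (Fac nJ hJ' i) ≤
      liminf (fun k => ∑ i, wid u (Fac (nk k) (hk k) i)) atTop := by
    intro u
    have hmJ : ∀ j : J, MeasurableSet ((fun x : E d => ⟪x, u⟫_ℝ) '' (Fac nJ hJ' j)) :=
      fun j => measurableSet_image_of_isCompact (isCompact_Fac hJ.bdd j) u
    have hmk : ∀ k j, MeasurableSet ((fun x : E d => ⟪x, u⟫_ℝ) '' (Fac (nk k) (hk k) j)) :=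
      fun k j => measurableSet_image_of_isCompact (isCompact_Fac (hgk k).bdd j) u
    have e1 : ∀ j : J, wid u (Fac nJ hJ' j) =
        ∫⁻ s, ((fun x : E d => ⟪x, u⟫_ℝ) '' (Fac nJ hJ' j)).indicator 1 s := fun j =>
      (lintegral_indicator_one (hmJ j)).symm
    have e2 : ∀ k j, wid u (Fac (nk k) (hk k) j) =
        ∫⁻ s, ((fun x : E d => ⟪x, u⟫_ℝ) '' (Fac (nk k) (hk k) j)).indicator 1 s := fun k j =>
      (lintegral_indicator_one (hmk k j)).symm
    simp only [e1, e2]
    rw [← lintegral_finsetSum _ (fun j _ => measurable_one.indicator (hmJ j))]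
    have e3 : (fun k => ∑ i, ∫⁻ s, ((fun x : E d => ⟪x, u⟫_ℝ) ''
        (Fac (nk k) (hk k) i)).indicator (1 : ℝ → ℝ≥0∞) s) = fun k => ∫⁻ s, ∑ i,
        ((fun x : E d => ⟪x, u⟫_ℝ) '' (Fac (nk k) (hk k) i)).indicator (1 : ℝ → ℝ≥0∞) s := by
      funext k
      rw [← lintegral_finsetSum _ (fun j _ => measurable_one.indicator (hmk k j))]
    rw [e3]
    refine le_trans (lintegral_mono_ae ?_) (lintegral_liminf_le fun k =>
      Finset.measurable_sum _ fun j _ => measurable_one.indicator (hmk k j))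
    filter_upwards [hJ.ae_level u] with s hs
    -- eventually every facet seen in the limit is seen in the approximation
    have hev : ∀ᶠ k in atTop, ∀ a : J, s ∈ (fun x : E d => ⟪x, u⟫_ℝ) '' (Fac nJ hJ' a) →
        ∃ i, (n i = n a ∧ h i = h a) ∧ s ∈ (fun x : E d => ⟪x, u⟫_ℝ) '' Fac (nk k) (hk k) i := by
      rw [eventually_all]
      intro a
      by_cases ha : s ∈ (fun x : E d => ⟪x, u⟫_ℝ) '' (Fac nJ hJ' a)
      · have hint := hs a ha
        obtain ⟨y, hy1, hy2, hy3⟩ := hJ.exists_strict_level u a hint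
        have hyP : y ∈ Poly n h := by
          rw [← hJP]
          intro b
          by_cases hb : b = a
          · rw [hb]; exact hy1.le
          · exact (hy2 b hb).le
        have hystr : ∀ j, (n j ≠ n a ∨ h j ≠ h a) → ⟪n j, y⟫_ℝ < h j := by
          intro j hj
          refine hJs a a.2 j hj y hyP hy1 ?_
          intro b hb hba
          exact hy2 ⟨b, hb⟩ (fun hh => hba (congrArg Subtype.val hh))
        -- the direction
        have hv : ∃ v : E d, ⟪v, u⟫_ℝ = 0 ∧ ⟪n a, v⟫_ℝ = 1 := by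
          obtain ⟨c, e, hcd, himg⟩ := image_eq_Icc (isCompact_Fac hJ.bdd a) (convex_Fac nJ hJ' a)
            (hJ.nonempty_Fac a) u
          rw [himg, interior_Icc] at hint
          obtain ⟨z, hz, hz'⟩ : c ∈ (fun x : E d => ⟪x, u⟫_ℝ) '' Fac nJ hJ' a := by
            rw [himg]; exact ⟨le_rfl, hcd⟩
          simp only at hz'
          have hz2 : ⟪n a, z⟫_ℝ = h a := hz.2
          have hy1' : ⟪n a, y⟫_ℝ = h a := hy1
          have hδ : ⟪y - z, u⟫_ℝ ≠ 0 := by
            rw [inner_sub_left, hy3, hz']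
            have := hint.1
            intro hh
            linarith
          have h1 : ⟪n a, y - z⟫_ℝ = 0 := by rw [inner_sub_right, hz2, hy1', sub_self]
          have hnn : ⟪n a, n a⟫_ℝ = 1 := by
            rw [real_inner_self_eq_norm_sq]
            have := hJ.unit a
            simp only [hnJ] at this
            rw [this]
            norm_num
          refine ⟨n a - (⟪n a, u⟫_ℝ / ⟪y - z, u⟫_ℝ) • (y - z), ?_, ?_⟩
          · rw [inner_sub_left, inner_smul_left]
            simp only [RCLike.conj_to_real]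
            rw [div_mul_cancel₀ _ hδ, sub_self]
          · rw [inner_sub_right, inner_smul_right, h1, mul_zero, sub_zero, hnn]
        obtain ⟨v, hv1, hv2⟩ := hv
        have := lsc_local_level hn hh hgk (a := (a : Fin m)) hv1 hv2 hy1 hystr
        rw [hy3] at this
        filter_upwards [this] with k hk _ using hk
      · filter_upwards with k hh using absurd hh ha
    refine le_liminf_of_le (by isBoundedDefault) ?_
    filter_upwards [hev] with k hk1
    -- injection
    set A : Finset J := Finset.univ.filter fun a : J =>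
      s ∈ (fun x : E d => ⟪x, u⟫_ℝ) '' (Fac nJ hJ' a) with hA
    have hsum : ∑ i : J, ((fun x : E d => ⟪x, u⟫_ℝ) '' (Fac nJ hJ' i)).indicator
        (1 : ℝ → ℝ≥0∞) s = A.card := by
      rw [Finset.card_eq_sum_ones, Nat.cast_sum, hA, Finset.sum_filter]
      refine Finset.sum_congr rfl fun i _ => ?_
      by_cases hi : s ∈ (fun x : E d => ⟪x, u⟫_ℝ) '' (Fac nJ hJ' i)
      · rw [indicator_of_mem hi, if_pos hi]; simp
      · rw [indicator_of_notMem hi, if_neg hi]
    set B : Finset (Fin m) := Finset.univ.filter fun i =>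
      s ∈ (fun x : E d => ⟪x, u⟫_ℝ) '' (Fac (nk k) (hk k) i) with hB
    have hsumB : ∑ i, ((fun x : E d => ⟪x, u⟫_ℝ) '' (Fac (nk k) (hk k) i)).indicator
        (1 : ℝ → ℝ≥0∞) s = B.card := by
      rw [Finset.card_eq_sum_ones, Nat.cast_sum, hB, Finset.sum_filter]
      refine Finset.sum_congr rfl fun i _ => ?_
      by_cases hi : s ∈ (fun x : E d => ⟪x, u⟫_ℝ) '' (Fac (nk k) (hk k) i)
      · rw [indicator_of_mem hi, if_pos hi]; simp
      · rw [indicator_of_notMem hi, if_neg hi]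
    rw [hsum, hsumB]
    norm_cast
    have hk2 : ∀ a : J, ∃ i, s ∈ (fun x : E d => ⟪x, u⟫_ℝ) '' (Fac nJ hJ' a) →
        (n i = n a ∧ h i = h a) ∧ s ∈ (fun x : E d => ⟪x, u⟫_ℝ) '' Fac (nk k) (hk k) i := by
      intro a
      by_cases ha : s ∈ (fun x : E d => ⟪x, u⟫_ℝ) '' (Fac nJ hJ' a)
      · obtain ⟨i, hi⟩ := hk1 a ha
        exact ⟨i, fun _ => hi⟩
      · exact ⟨a, fun h => absurd h ha⟩
    choose φ hφ using hk2
    refine Finset.card_le_card_of_injOn φ ?_ ?_
    · intro a ha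
      rw [Finset.mem_coe, hA, Finset.mem_filter] at ha
      rw [Finset.mem_coe, hB, Finset.mem_filter]
      exact ⟨Finset.mem_univ _, (hφ a ha.2).2⟩
    · intro a ha b hb hab
      rw [Finset.mem_coe, hA, Finset.mem_filter] at ha hb
      have h1 := (hφ a ha.2).1
      have h2 := (hφ b hb.2).1
      rw [hab] at h1
      by_contra hne
      obtain ⟨y, hy1, hy2⟩ := hJ.irr a
      have h3 := hy2 b (Ne.symm hne)
      have h4 : nJ b = nJ a := h2.1.symm.trans h1.1
      have h5 : hJ' b = hJ' a := h2.2.symm.trans h1.2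
      rw [h4, h5, hy1] at h3
      exact lt_irrefl _ h3
  -- integrate
  have e4 : ∑ i : J, MM (Fac nJ hJ' i) =
      ∫⁻ u in Metric.ball (0 : E d) 1, ∑ i : J, wid u (Fac nJ hJ' i) := by
    rw [lintegral_finsetSum _ (fun j _ => hmeasJ j)]
    rfl
  have e5 : (fun k => ∑ i, MM (Fac (nk k) (hk k) i)) =
      fun k => ∫⁻ u in Metric.ball (0 : E d) 1, ∑ i, wid u (Fac (nk k) (hk k) i) := by
    funext k
    rw [lintegral_finsetSum _ (fun j _ => hmeask k j)]
    rfl
  rw [e4, e5]
  exact le_trans (lintegral_mono hpt) (lintegral_liminf_le fun k =>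
    Finset.measurable_sum _ fun j _ => hmeask k j)

end SP4
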