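import Pool.Agent.SP4.Poly

/-!
Upper semicontinuity of MM of the polyhedra under convergence of the representations.
-/

open MeasureTheory Set Filter Topology
open scoped ENNReal InnerProductSpace

namespace SP4

open Melzak (E IsPolytope IsKFace zeta)

variable {d : ℕ}

/-- Limits of points of the approximating polyhedra belong to the limit polyhedron. -/
lemma usc_mem {m : ℕ} {nk : ℕ → Fin m → E d} {hk : ℕ → Fin m → ℝ} {n : Fin m → E d}
    {h : Fin m → ℝ} (hn : Tendsto nk atTop (𝓝 n)) (hh : Tendsto hk atTop (𝓝 h))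
    {φ : ℕ → ℕ} (hφ : Tendsto φ atTop atTop) {x : ℕ → E d} {x0 : E d}
    (hx : ∀ k, x k ∈ Poly (nk (φ k)) (hk (φ k))) (hx0 : Tendsto x atTop (𝓝 x0)) :
    x0 ∈ Poly n h := by
  intro j
  exact le_of_tendsto_of_tendsto' ((((tendsto_pi_nhds.1 hn) j).comp hφ).inner hx0)
    (((tendsto_pi_nhds.1 hh) j).comp hφ) (fun k => hx k j)

/-- The end points of the width. -/
lemma usc_points {C : Set (E d)} (hc : IsCompact C) (hcv : Convex ℝ C) (hne : C.Nonempty)
    (u : E d) : ∃ x ∈ C, ∃ y ∈ C, wid u C = ENNReal.ofReal (⟪y, u⟫_ℝ - ⟪x, u⟫_ℝ) := by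
  obtain ⟨a, b, hab, himg⟩ := image_eq_Icc hc hcv hne u
  obtain ⟨x, hx, hx'⟩ : a ∈ (fun x : E d => ⟪x, u⟫_ℝ) '' C := by
    rw [himg]; exact ⟨le_rfl, hab⟩
  obtain ⟨y, hy, hy'⟩ : b ∈ (fun x : E d => ⟪x, u⟫_ℝ) '' C := by
    rw [himg]; exact ⟨hab, le_rfl⟩
  refine ⟨x, hx, y, hy, ?_⟩
  unfold wid
  simp only at hx' hy'
  rw [himg, Real.volume_Icc, hx', hy']

/-- The width of a convex set is at least the width of any two of its points. -/
lemma usc_le_wid {C : Set (E d)} (hcv : Convex ℝ C) {x y : E d} (hx : x ∈ C) (hy : y ∈ C)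
    (u : E d) : ENNReal.ofReal (⟪y, u⟫_ℝ - ⟪x, u⟫_ℝ) ≤ wid u C := by
  unfold wid
  rw [← Real.volume_Icc]
  apply measure_mono
  have hcont : Continuous fun x : E d => ⟪x, u⟫_ℝ := by fun_prop
  have h2 : IsPreconnected ((fun x : E d => ⟪x, u⟫_ℝ) '' C) :=
    hcv.isPreconnected.image _ hcont.continuousOn
  exact h2.Icc_subset ⟨x, hx, rfl⟩ ⟨y, hy, rfl⟩

/-- Upper semicontinuity of the width. -/
lemma usc_wid {m : ℕ} {nk : ℕ → Fin m → E d} {hk : ℕ → Fin m → ℝ} {n : Fin m → E d}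
    {h : Fin m → ℝ} (hn : Tendsto nk atTop (𝓝 n)) (hh : Tendsto hk atTop (𝓝 h))
    (hball : ∀ k, Poly (nk k) (hk k) ⊆ Metric.closedBall 0 1)
    (hne : ∀ k, (Poly (nk k) (hk k)).Nonempty) (u : E d) :
    limsup (fun k => wid u (Poly (nk k) (hk k))) atTop ≤ wid u (Poly n h) := by
  by_contra hcon
  push Not at hcon
  obtain ⟨c, hc1, hc2⟩ := exists_between hcon
  have hfr := frequently_lt_of_lt_limsup (by isBoundedDefault) hc2
  obtain ⟨φ, hφ, hφc⟩ := Filter.extraction_of_frequently_atTop hfr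
  have hcomp : ∀ k, IsCompact (Poly (nk k) (hk k)) := fun k =>
    isCompact_Poly (Metric.isBounded_closedBall.subset (hball k))
  have hpts : ∀ k, ∃ x ∈ Poly (nk k) (hk k), ∃ y ∈ Poly (nk k) (hk k),
      wid u (Poly (nk k) (hk k)) = ENNReal.ofReal (⟪y, u⟫_ℝ - ⟪x, u⟫_ℝ) := fun k =>
    usc_points (hcomp k) (convex_Poly _ _) (hne k) u
  choose x hx y hy hw using hpts
  obtain ⟨z, -, ψ, hψ, hlim⟩ := ((isCompact_closedBall (0 : E d) 1).prod
    (isCompact_closedBall (0 : E d) 1)).tendsto_subseq (x := fun k => (x (φ k), y (φ k)))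
    (fun k => ⟨hball _ (hx _), hball _ (hy _)⟩)
  have hφψ : Tendsto (φ ∘ ψ) atTop atTop := hφ.tendsto_atTop.comp hψ.tendsto_atTop
  have h1 : Tendsto (fun k => x (φ (ψ k))) atTop (𝓝 z.1) :=
    (continuous_fst.tendsto _).comp hlim
  have h2 : Tendsto (fun k => y (φ (ψ k))) atTop (𝓝 z.2) :=
    (continuous_snd.tendsto _).comp hlim
  have h3 : z.1 ∈ Poly n h := usc_mem hn hh hφψ (fun k => hx _) h1
  have h4 : z.2 ∈ Poly n h := usc_mem hn hh hφψ (fun k => hy _) h2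
  have h5 : Tendsto (fun k => ENNReal.ofReal (⟪y (φ (ψ k)), u⟫_ℝ - ⟪x (φ (ψ k)), u⟫_ℝ)) atTop
      (𝓝 (ENNReal.ofReal (⟪z.2, u⟫_ℝ - ⟪z.1, u⟫_ℝ))) :=
    ENNReal.tendsto_ofReal ((h2.inner tendsto_const_nhds).sub (h1.inner tendsto_const_nhds))
  have h6 : c ≤ ENNReal.ofReal (⟪z.2, u⟫_ℝ - ⟪z.1, u⟫_ℝ) := by
    refine ge_of_tendsto' h5 fun k => ?_
    rw [← hw]
    exact (hφc _).le
  exact absurd (h6.trans (usc_le_wid (convex_Poly n h) h3 h4 u)) (not_le.2 hc1)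

/-- Upper semicontinuity of MM. -/
lemma usc_MM {m : ℕ} {nk : ℕ → Fin m → E d} {hk : ℕ → Fin m → ℝ} {n : Fin m → E d}
    {h : Fin m → ℝ} (hn : Tendsto nk atTop (𝓝 n)) (hh : Tendsto hk atTop (𝓝 h))
    (hball : ∀ k, Poly (nk k) (hk k) ⊆ Metric.closedBall 0 1)
    (hne : ∀ k, (Poly (nk k) (hk k)).Nonempty) :
    limsup (fun k => MM (Poly (nk k) (hk k))) atTop ≤ MM (Poly n h) := by
  have hcomp : ∀ k, IsCompact (Poly (nk k) (hk k)) := fun k =>
    isCompact_Poly (Metric.isBounded_closedBall.subset (hball k))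
  unfold MM
  refine le_trans (limsup_lintegral_le (fun _ => ENNReal.ofReal (1 - (-1)))
    (fun k => measurable_wid (hcomp k) (convex_Poly _ _)) (fun k => ?_) ?_)
    (lintegral_mono fun u => usc_wid hn hh hball hne u)
  · rw [Filter.EventuallyLE, ae_restrict_iff' Metric.isOpen_ball.measurableSet]
    refine Eventually.of_forall fun u hu => ?_
    rw [← Real.volume_Icc]
    apply measure_mono
    rintro _ ⟨x, hx, rfl⟩
    simp only
    rw [mem_Icc, ← abs_le]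
    have h2 := hball k hx
    rw [mem_closedBall_zero_iff] at h2
    rw [mem_ball_zero_iff] at hu
    calc |⟪x, u⟫_ℝ| ≤ ‖x‖ * ‖u‖ := abs_real_inner_le_norm x u
      _ ≤ 1 * 1 := mul_le_mul h2 hu.le (norm_nonneg _) zero_le_one
      _ = 1 := one_mul 1
  · rw [lintegral_const]
    refine ENNReal.mul_ne_top ENNReal.ofReal_ne_top ?_
    rw [Measure.restrict_apply MeasurableSet.univ, univ_inter]
    exact measure_ball_lt_top.ne

end SP4
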