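import Pool.Agent.SP4.Scale
import Pool.Agent.SP4.Lsc
import Pool.Agent.SP4.Usc
import Pool.Agent.SP4.Irred
import Pool.Agent.SP4.Level

/-!
Existence of maximisers of vol / Lam ^ d for a bounded number of facets.
-/

open MeasureTheory Set Filter Topology
open scoped ENNReal InnerProductSpace

namespace SP4

open Melzak (E IsPolytope IsKFace zeta)

variable {d : ℕ} {ι : Type*}

/-- The ratio. -/
noncomputable def exRat [Fintype ι] (a b : ℝ) (n : ι → E d) (h : ι → ℝ) : ℝ :=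
  vol n h / Lam a b n h ^ d

lemma ex_Lam_ge [Fintype ι] (hd : 2 ≤ d) {a b : ℝ} (ha : 0 < a) {n : ι → E d} {h : ι → ℝ}
    (hg : Good n h) : (a * d - b) * mm (Poly n h) ≤ Lam a b n h := by
  have h1 := hg.d_le_mm hd
  have h2 := mul_le_mul_of_nonneg_left h1 ha.le
  unfold Lam
  linarith

lemma ex_Lam_pos [NeZero d] [Fintype ι] (hd : 2 ≤ d) {a b : ℝ} (ha : 0 < a) (hab : b < a * d)
    {n : ι → E d} {h : ι → ℝ} (hg : Good n h) : 0 < Lam a b n h :=
  (mul_pos (sub_pos.2 hab) hg.mm_pos).trans_le (ex_Lam_ge hd ha hg)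

/-- Normalisation: Lam = (a d - b) cst, the origin inside. -/
lemma ex_normalise [NeZero d] [Fintype ι] (hd : 2 ≤ d) {a b : ℝ} (ha : 0 < a) (hab : b < a * d)
    {n : ι → E d} {h : ι → ℝ} (hg : Good n h) :
    ∃ h' : ι → ℝ, Good n h' ∧ exRat a b n h' = exRat a b n h ∧
      Lam a b n h' = (a * d - b) * (cst d).toReal ∧ (0 : E d) ∈ Poly n h' := by
  obtain ⟨z, hz⟩ := hg.slater
  have hL : 0 < Lam a b n h := ex_Lam_pos hd ha hab hg
  have hc : 0 < (a * d - b) * (cst d).toReal := mul_pos (sub_pos.2 hab) cst_toReal_pos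
  set t : ℝ := (a * d - b) * (cst d).toReal / Lam a b n h with htdef
  have ht : 0 < t := div_pos hc hL
  refine ⟨_, (hg.translate (-z)).smul ht, ?_, ?_, ?_⟩
  · unfold exRat
    rw [vol_smul _ _ ht, Lam_smul _ _ _ _ ht, vol_translate, Lam_translate, mul_pow,
      mul_div_mul_left _ _ (pow_pos ht d).ne']
  · rw [Lam_smul _ _ _ _ ht, Lam_translate, htdef, div_mul_cancel₀ _ hL.ne']
  · intro i
    simp only [inner_zero_right, inner_neg_right]
    have := hz i
    apply mul_nonneg ht.le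
    linarith

lemma ex_ball [NeZero d] [Fintype ι] (hd : 2 ≤ d) {a b : ℝ} (ha : 0 < a) (hab : b < a * d)
    {n : ι → E d} {h : ι → ℝ} (hg : Good n h)
    (hL : Lam a b n h = (a * d - b) * (cst d).toReal) (h0 : (0 : E d) ∈ Poly n h) :
    mm (Poly n h) ≤ (cst d).toReal ∧ Poly n h ⊆ Metric.closedBall 0 1 := by
  have h1 : mm (Poly n h) ≤ (cst d).toReal := by
    have h2 := ex_Lam_ge (b := b) hd ha hg
    rw [hL] at h2
    exact le_of_mul_le_mul_left h2 (sub_pos.2 hab)
  refine ⟨h1, fun x hx => ?_⟩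
  have h2 := (hg.dist_le hx h0).trans h1
  have h3 : 0 < (cst d).toReal := cst_toReal_pos
  rw [Metric.mem_closedBall]
  by_contra hcon
  push Not at hcon
  nlinarith

/-- Continuity of the volume from above. -/
lemma ex_vol_limit {m : ℕ} (n : Fin m → E d) (h : Fin m → ℝ) {c : ℝ≥0∞}
    (hc : ∀ ε : ℝ, 0 < ε → c ≤ volume {x : E d | x ∈ Metric.closedBall (0 : E d) 1 ∧
      ∀ i, ⟪n i, x⟫_ℝ ≤ h i + ε}) :
    c ≤ volume {x : E d | x ∈ Metric.closedBall (0 : E d) 1 ∧ ∀ i, ⟪n i, x⟫_ℝ ≤ h i} := by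
  set s : ℕ → Set (E d) := fun k => {x : E d | x ∈ Metric.closedBall (0 : E d) 1 ∧
      ∀ i, ⟪n i, x⟫_ℝ ≤ h i + 1 / ((k : ℝ) + 1)} with hs
  have hclosed : ∀ k, IsClosed (s k) := by
    intro k
    have : s k = Metric.closedBall (0 : E d) 1 ∩ ⋂ i, {x | ⟪n i, x⟫_ℝ ≤ h i + 1 / ((k : ℝ) + 1)} := by
      ext x; simp [hs]
    rw [this]
    exact Metric.isClosed_closedBall.inter
      (isClosed_iInter fun i => isClosed_le (by fun_prop) continuous_const)
  have hanti : Antitone s := by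
    intro k l hkl x hx
    refine ⟨hx.1, fun i => (hx.2 i).trans ?_⟩
    have : (1 : ℝ) / ((l : ℝ) + 1) ≤ 1 / ((k : ℝ) + 1) := by
      apply one_div_le_one_div_of_le (by positivity)
      have : (k : ℝ) ≤ l := by exact_mod_cast hkl
      linarith
    linarith
  have hInter : ⋂ k, s k = {x : E d | x ∈ Metric.closedBall (0 : E d) 1 ∧
      ∀ i, ⟪n i, x⟫_ℝ ≤ h i} := by
    ext x
    simp only [mem_iInter, hs, Set.mem_ofPred_eq]
    constructor
    · intro hx
      refine ⟨(hx 0).1, fun i => ?_⟩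
      have h1 : Tendsto (fun k : ℕ => h i + 1 / ((k : ℝ) + 1)) atTop (𝓝 (h i + 0)) :=
        tendsto_const_nhds.add tendsto_one_div_add_atTop_nhds_zero_nat
      rw [add_zero] at h1
      exact ge_of_tendsto' h1 fun k => (hx k).2 i
    · rintro ⟨hx1, hx2⟩ k
      refine ⟨hx1, fun i => (hx2 i).trans ?_⟩
      have : (0 : ℝ) ≤ 1 / ((k : ℝ) + 1) := by positivity
      linarith
  have hfin : ∃ k, volume (s k) ≠ ∞ := by
    refine ⟨0, ?_⟩
    have h1 : volume (s 0) ≤ volume (Metric.closedBall (0 : E d) 1) :=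
      measure_mono fun x hx => hx.1
    exact (h1.trans_lt measure_closedBall_lt_top).ne
  have ht := tendsto_measure_iInter_atTop (μ := (volume : Measure (E d)))
    (fun k => (hclosed k).measurableSet.nullMeasurableSet) hanti hfin
  rw [hInter] at ht
  refine ge_of_tendsto' ht fun k => hc _ (by positivity)

/-- A polyhedron of positive volume has a strict point. -/
lemma ex_slater {n : ι → E d} {h : ι → ℝ} (hu : ∀ i, ‖n i‖ = 1) (hv : 0 < volume (Poly n h)) :
    ∃ z, ∀ i, ⟪n i, z⟫_ℝ < h i := by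
  have h1 : (interior (Poly n h)).Nonempty := by
    by_contra hcon
    rw [Set.not_nonempty_iff_eq_empty] at hcon
    have h2 : Poly n h ⊆ frontier (Poly n h) := by
      intro x hx
      rw [frontier, hcon, sdiff_empty]
      exact subset_closure hx
    have h3 : volume (frontier (Poly n h)) = 0 := (convex_Poly n h).addHaar_frontier volume
    have h4 := measure_mono_null h2 h3
    exact hv.ne' h4
  obtain ⟨z, hz⟩ := h1
  obtain ⟨ε, hε, hball⟩ := Metric.mem_nhds_iff.1 (mem_interior_iff_mem_nhds.1 hz)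
  refine ⟨z, fun i => ?_⟩
  have h2 : z + (ε / 2) • n i ∈ Metric.ball z ε := by
    rw [Metric.mem_ball, dist_eq_norm, add_sub_cancel_left, norm_smul, hu i, mul_one,
      Real.norm_of_nonneg (by positivity)]
    linarith
  have h3 := hball h2 i
  rw [inner_add_right, inner_smul_right, real_inner_self_eq_norm_sq, hu i] at h3
  linarith

lemma ex_max_fixed [NeZero d] (hd : 2 ≤ d) {a b : ℝ} (ha : 0 < a) (hb : 0 ≤ b)
    (hab : b < a * d) (m : ℕ) (hne : ∃ (n : Fin m → E d) (h : Fin m → ℝ), Good n h) :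
    ∃ m' ≤ m, ∃ (n' : Fin m' → E d) (h' : Fin m' → ℝ), Good n' h' ∧
      ∀ (n : Fin m → E d) (h : Fin m → ℝ), Good n h → exRat a b n h ≤ exRat a b n' h' := by
  classical
  set L0 : ℝ := (a * d - b) * (cst d).toReal with hL0
  have hL0pos : 0 < L0 := mul_pos (sub_pos.2 hab) cst_toReal_pos
  set T : Set ℝ := {r | ∃ (n : Fin m → E d) (h : Fin m → ℝ), Good n h ∧ exRat a b n h = r} with hT
  have hTne : T.Nonempty := by
    obtain ⟨n, h, hg⟩ := hne
    exact ⟨_, n, h, hg, rfl⟩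
  have hTb : BddAbove T := by
    refine ⟨(volume (Metric.closedBall (0 : E d) 1)).toReal / L0 ^ d, ?_⟩
    rintro r ⟨n, h, hg, rfl⟩
    obtain ⟨h', hg', hr, hL, h0⟩ := ex_normalise hd ha hab hg
    rw [← hr]
    unfold exRat
    rw [hL]
    gcongr
    exact ENNReal.toReal_mono measure_closedBall_lt_top.ne
      (measure_mono (ex_ball hd ha hab hg' hL h0).2)
  obtain ⟨r, -, hr, hrT⟩ := exists_seq_tendsto_sSup hTne hTb
  set S := sSup T with hS
  have hSpos : 0 < S := by
    obtain ⟨n, h, hg⟩ := hne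
    have h1 : exRat a b n h ≤ S := le_csSup hTb ⟨n, h, hg, rfl⟩
    exact (div_pos hg.vol_pos (pow_pos (ex_Lam_pos hd ha hab hg) d)).trans_le h1
  -- normalised sequence
  have hseq : ∀ k, ∃ p : (Fin m → E d) × (Fin m → ℝ), Good p.1 p.2 ∧
      exRat a b p.1 p.2 = r k ∧ Lam a b p.1 p.2 = L0 ∧ (0 : E d) ∈ Poly p.1 p.2 := by
    intro k
    obtain ⟨n, h, hg, hgr⟩ := hrT k
    obtain ⟨h', h1, h2, h3, h4⟩ := ex_normalise hd ha hab hg
    exact ⟨(n, h'), h1, h2.trans hgr, h3, h4⟩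
  choose p hpg hpr hpL hp0 using hseq
  have hball : ∀ k, ∀ x ∈ Poly (p k).1 (p k).2, ‖x‖ ≤ 1 := by
    intro k x hx
    have := (ex_ball hd ha hab (hpg k) (hpL k) (hp0 k)).2 hx
    rwa [mem_closedBall_zero_iff] at this
  have hmmle : ∀ k, mm (Poly (p k).1 (p k).2) ≤ (cst d).toReal := fun k =>
    (ex_ball hd ha hab (hpg k) (hpL k) (hp0 k)).1
  have hvol : ∀ k, volume (Poly (p k).1 (p k).2) = ENNReal.ofReal (r k * L0 ^ d) := by
    intro k
    rw [← hpr k]
    unfold exRat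
    rw [hpL k, div_mul_cancel₀ _ (pow_pos hL0pos d).ne']
    unfold vol
    rw [ENNReal.ofReal_toReal (hpg k).volume_ne_top]
  have hcomp : IsCompact ((Metric.closedBall (0 : (Fin m → E d) × (Fin m → ℝ)) 1) ×ˢ
      (Icc (0 : ℝ) (cst d).toReal)) := (isCompact_closedBall _ _).prod isCompact_Icc
  have hpmem : ∀ k, (p k, mm (Poly (p k).1 (p k).2)) ∈
      (Metric.closedBall (0 : (Fin m → E d) × (Fin m → ℝ)) 1) ×ˢ (Icc (0 : ℝ) (cst d).toReal) := by
    intro k
    refine ⟨?_, mm_nonneg _, hmmle k⟩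
    rw [mem_closedBall_zero_iff, Prod.norm_def, max_le_iff]
    constructor
    · rw [pi_norm_le_iff_of_nonneg zero_le_one]
      exact fun i => ((hpg k).unit i).le
    · rw [pi_norm_le_iff_of_nonneg zero_le_one]
      intro i
      obtain ⟨y, hy, hy'⟩ := (hpg k).irr i
      have hyP : y ∈ Poly (p k).1 (p k).2 := by
        intro j
        by_cases hj : j = i
        · rw [hj]; exact hy.le
        · exact (hy' j hj).le
      change ‖(p k).2 i‖ ≤ 1
      rw [← hy]
      calc ‖⟪(p k).1 i, y⟫_ℝ‖ ≤ ‖(p k).1 i‖ * ‖y‖ := norm_inner_le_norm _ _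
        _ ≤ 1 * 1 := by
            gcongr
            · exact ((hpg k).unit i).le
            · exact hball k y hyP
        _ = 1 := one_mul 1
  obtain ⟨⟨⟨n, h⟩, μ⟩, -, φ, hφ, hlim⟩ := hcomp.tendsto_subseq hpmem
  have hn : Tendsto (fun k => (p (φ k)).1) atTop (𝓝 n) :=
    ((continuous_fst.comp continuous_fst).tendsto _).comp hlim
  have hh : Tendsto (fun k => (p (φ k)).2) atTop (𝓝 h) :=
    ((continuous_snd.comp continuous_fst).tendsto _).comp hlim
  have hμ : Tendsto (fun k => mm (Poly (p (φ k)).1 (p (φ k)).2)) atTop (𝓝 μ) :=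
    (continuous_snd.tendsto _).comp hlim
  have hunit : ∀ i, ‖n i‖ = 1 := by
    intro i
    have h1 : Tendsto (fun k => ‖(p (φ k)).1 i‖) atTop (𝓝 ‖n i‖) :=
      ((tendsto_pi_nhds.1 hn) i).norm
    have h2 : (fun k => ‖(p (φ k)).1 i‖) = fun _ => (1 : ℝ) := by
      funext k; exact (hpg (φ k)).unit i
    rw [h2] at h1
    exact tendsto_nhds_unique h1 tendsto_const_nhds |>.symm ▸ rfl
  have hconv : ∀ (x : E d) (j : Fin m),
      Tendsto (fun k => ⟪(p (φ k)).1 j, x⟫_ℝ - (p (φ k)).2 j) atTop (𝓝 (⟪n j, x⟫_ℝ - h j)) := by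
    intro x j
    exact (((tendsto_pi_nhds.1 hn) j).inner tendsto_const_nhds).sub ((tendsto_pi_nhds.1 hh) j)
  -- volume of the limit
  have hrφ : Tendsto (fun k => ENNReal.ofReal (r (φ k) * L0 ^ d)) atTop
      (𝓝 (ENNReal.ofReal (S * L0 ^ d))) :=
    ENNReal.tendsto_ofReal ((hr.comp hφ.tendsto_atTop).mul_const _)
  have hV0 : ENNReal.ofReal (S * L0 ^ d) ≤ volume {x : E d | x ∈ Metric.closedBall (0 : E d) 1 ∧
      ∀ i, ⟪n i, x⟫_ℝ ≤ h i} := by
    apply ex_vol_limit
    intro ε hε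
    refine le_of_tendsto hrφ ?_
    have h1 : ∀ᶠ k in atTop, ∀ i, ‖(p (φ k)).1 i - n i‖ < ε / 2 := by
      rw [eventually_all]
      intro i
      have h2 : Tendsto (fun k => ‖(p (φ k)).1 i - n i‖) atTop (𝓝 0) := by
        have := (((tendsto_pi_nhds.1 hn) i).sub_const (n i)).norm
        simpa using this
      exact h2.eventually (gt_mem_nhds (half_pos hε))
    have h2 : ∀ᶠ k in atTop, ∀ i, (p (φ k)).2 i < h i + ε / 2 := by
      rw [eventually_all]
      intro i
      exact ((tendsto_pi_nhds.1 hh) i).eventually (gt_mem_nhds (by linarith))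
    filter_upwards [h1, h2] with k hk1 hk2
    rw [← hvol (φ k)]
    refine measure_mono fun x hx => ?_
    have hx1 := hball (φ k) x hx
    refine ⟨by rw [mem_closedBall_zero_iff]; exact hx1, fun i => ?_⟩
    have e1 : ⟪n i, x⟫_ℝ = ⟪(p (φ k)).1 i, x⟫_ℝ - ⟪(p (φ k)).1 i - n i, x⟫_ℝ := by
      rw [inner_sub_left]; ring
    have e2 : |⟪(p (φ k)).1 i - n i, x⟫_ℝ| ≤ ε / 2 * 1 := by
      refine (abs_real_inner_le_norm _ _).trans ?_
      gcongr
      exact (hk1 i).le
    have e3 := abs_le.1 e2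
    have e4 := hx i
    have e5 := hk2 i
    rw [e1]
    linarith [e3.1]
  have hVpos : 0 < ENNReal.ofReal (S * L0 ^ d) :=
    ENNReal.ofReal_pos.2 (mul_pos hSpos (pow_pos hL0pos d))
  have hV1 : ENNReal.ofReal (S * L0 ^ d) ≤ volume (Poly n h) := by
    refine hV0.trans (measure_mono ?_)
    rintro x ⟨-, hx⟩
    exact hx
  -- Slater point
  obtain ⟨z, hz⟩ := ex_slater hunit (hVpos.trans_le hV1)
  -- boundedness
  have hbd : ∀ x ∈ Poly n h, x ∈ Metric.closedBall (0 : E d) 1 := by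
    intro x hx
    by_contra hxn
    rw [mem_closedBall_zero_iff, not_le] at hxn
    have hcont : Tendsto (fun θ : ℝ => ‖z + θ • (x - z)‖) (𝓝[<] 1) (𝓝 ‖z + (1 : ℝ) • (x - z)‖) := by
      apply Tendsto.mono_left _ nhdsWithin_le_nhds
      apply Continuous.tendsto
      fun_prop
    have h1 : ‖z + (1 : ℝ) • (x - z)‖ = ‖x‖ := by simp
    rw [h1] at hcont
    have h2 := hcont.eventually (lt_mem_nhds hxn)
    have h3 : ∀ᶠ θ : ℝ in 𝓝[<] 1, 0 < θ :=
      nhdsWithin_le_nhds (lt_mem_nhds zero_lt_one)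
    obtain ⟨θ, ⟨hθ1, hθ0⟩, hθ2⟩ := ((h2.and h3).and self_mem_nhdsWithin).exists
    have hθ3 : θ < 1 := hθ2
    have hstr : ∀ i, ⟪n i, z + θ • (x - z)⟫_ℝ - h i < 0 := by
      intro i
      rw [inner_add_right, inner_smul_right, inner_sub_right]
      have a1 := hz i
      have a2 := hx i
      nlinarith
    have h4 : ∀ᶠ k in atTop, ∀ i, ⟪(p (φ k)).1 i, z + θ • (x - z)⟫_ℝ - (p (φ k)).2 i < 0 := by
      rw [eventually_all]
      intro i
      exact (hconv _ i).eventually (gt_mem_nhds (hstr i))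
    obtain ⟨k, hk⟩ := h4.exists
    have := hball (φ k) (z + θ • (x - z)) (fun i => by linarith [hk i])
    linarith
  have hbdd : Bornology.IsBounded (Poly n h) :=
    Metric.isBounded_closedBall.subset hbd
  obtain ⟨J, hJg, hJP, hJs⟩ := exists_subfamily hunit hbdd ⟨z, hz⟩
  -- MM of the limit from above
  have husc : μ ≤ mm (Poly n h) := by
    have h1 := usc_MM hn hh (fun k x hx => by
      rw [mem_closedBall_zero_iff]; exact hball (φ k) x hx) (fun k => ⟨0, hp0 (φ k)⟩)
    have h2 : Tendsto (fun k => MM (Poly (p (φ k)).1 (p (φ k)).2)) atTop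
        (𝓝 (ENNReal.ofReal μ)) := by
      have h3 := ENNReal.tendsto_ofReal hμ
      refine h3.congr fun k => ?_
      unfold mm
      rw [ENNReal.ofReal_toReal (MM_ne_top (hpg (φ k)).bdd)]
    rw [h2.limsup_eq] at h1
    exact (ENNReal.ofReal_le_iff_le_toReal (MM_ne_top hbdd)).1 h1
  -- the sum over the facets from below
  have hlsc : ∑ i : J, mm (Fac (fun i : J => n i) (fun i : J => h i) i) ≤ (L0 + b * μ) / a := by
    have h1 := lsc_sum hn hh (fun k => hpg (φ k)) J hJg hJP hJs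
    have h2 : Tendsto (fun k => ∑ i, MM (Fac (p (φ k)).1 (p (φ k)).2 i)) atTop
        (𝓝 (ENNReal.ofReal ((L0 + b * μ) / a))) := by
      have h3 := ENNReal.tendsto_ofReal (((hμ.const_mul b).const_add L0).div_const a)
      refine h3.congr fun k => ?_
      have h4 := hpL (φ k)
      unfold Lam at h4
      have h5 : (L0 + b * mm (Poly (p (φ k)).1 (p (φ k)).2)) / a =
          ∑ i, mm (Fac (p (φ k)).1 (p (φ k)).2 i) := by
        rw [div_eq_iff ha.ne']
        linarith
      rw [h5]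
      unfold mm
      rw [← ENNReal.toReal_sum (fun i _ => (hpg (φ k)).MM_ne_top_fac i), ENNReal.ofReal_toReal]
      exact ENNReal.sum_ne_top.2 fun i _ => (hpg (φ k)).MM_ne_top_fac i
    rw [h2.liminf_eq] at h1
    have h6 : 0 ≤ (L0 + b * μ) / a := by
      have h7 : 0 ≤ μ := ge_of_tendsto' hμ fun k => mm_nonneg _
      positivity
    have h8 := ENNReal.toReal_mono ENNReal.ofReal_ne_top h1
    rw [ENNReal.toReal_ofReal h6, ENNReal.toReal_sum (fun i _ => hJg.MM_ne_top_fac i)] at h8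
    exact h8
  have hLJ : Lam a b (fun i : J => n i) (fun i : J => h i) ≤ L0 := by
    unfold Lam
    rw [hJP]
    rw [le_div_iff₀ ha] at hlsc
    nlinarith [mul_le_mul_of_nonneg_left husc hb]
  have hLJpos : 0 < Lam a b (fun i : J => n i) (fun i : J => h i) := ex_Lam_pos hd ha hab hJg
  have hratJ : S ≤ exRat a b (fun i : J => n i) (fun i : J => h i) := by
    unfold exRat
    rw [le_div_iff₀ (pow_pos hLJpos d)]
    calc S * Lam a b (fun i : J => n i) (fun i : J => h i) ^ d ≤ S * L0 ^ d := by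
          gcongr
      _ ≤ vol (fun i : J => n i) (fun i : J => h i) := by
          unfold vol
          rw [hJP]
          exact (ENNReal.ofReal_le_iff_le_toReal hbdd.measure_lt_top.ne).1 hV1
  have e := (Fintype.equivFin J).symm
  have hcard : Fintype.card J ≤ m := by
    rw [Fintype.card_coe]
    simpa using Finset.card_le_univ J
  refine ⟨Fintype.card J, hcard, _, _, hJg.reindex e, ?_⟩
  intro n1 h1 hg1
  have h2 : exRat a b ((fun i : J => n i) ∘ e) ((fun i : J => h i) ∘ e) =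
      exRat a b (fun i : J => n i) (fun i : J => h i) := by
    unfold exRat
    rw [vol_reindex, Lam_reindex]
  rw [h2]
  have hle : exRat a b n1 h1 ≤ S := le_csSup hTb (show exRat a b n1 h1 ∈ T from ⟨n1, h1, hg1, rfl⟩)
  exact hle.trans hratJ

lemma ex_max [NeZero d] (hd : 2 ≤ d) {a b : ℝ} (ha : 0 < a) (hb : 0 ≤ b) (hab : b < a * d)
    (N : ℕ) (hN : ∃ m ≤ N, ∃ (n : Fin m → E d) (h : Fin m → ℝ), Good n h) :
    ∃ m ≤ N, ∃ (n : Fin m → E d) (h : Fin m → ℝ), Good n h ∧
      ∀ m' ≤ N, ∀ (n' : Fin m' → E d) (h' : Fin m' → ℝ), Good n' h' →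
        exRat a b n' h' ≤ exRat a b n h := by
  classical
  induction N with
  | zero =>
    obtain ⟨m, hm, hne⟩ := hN
    obtain rfl : m = 0 := by omega
    obtain ⟨m', hm', n, h, hg, hle⟩ := ex_max_fixed hd ha hb hab 0 hne
    refine ⟨m', hm', n, h, hg, ?_⟩
    intro m1 hm1 n1 h1 hg1
    obtain rfl : m1 = 0 := by omega
    exact hle n1 h1 hg1
  | succ N ih =>
    by_cases h1 : ∃ m ≤ N, ∃ (n : Fin m → E d) (h : Fin m → ℝ), Good n h
    · obtain ⟨m, hm, n, h, hg, hmax⟩ := ih h1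
      by_cases h2 : ∃ (n : Fin (N + 1) → E d) (h : Fin (N + 1) → ℝ), Good n h
      · obtain ⟨m', hm', n', h', hg', hmax'⟩ := ex_max_fixed hd ha hb hab (N + 1) h2
        rcases le_total (exRat a b n h) (exRat a b n' h') with hc | hc
        · refine ⟨m', hm', n', h', hg', ?_⟩
          intro m1 hm1 n1 h1 hg1
          rcases Nat.lt_or_ge m1 (N + 1) with hlt | hge
          · exact (hmax m1 (by omega) n1 h1 hg1).trans hc
          · obtain rfl : m1 = N + 1 := by omega
            exact hmax' n1 h1 hg1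
        · refine ⟨m, by omega, n, h, hg, ?_⟩
          intro m1 hm1 n1 h1 hg1
          rcases Nat.lt_or_ge m1 (N + 1) with hlt | hge
          · exact hmax m1 (by omega) n1 h1 hg1
          · obtain rfl : m1 = N + 1 := by omega
            exact (hmax' n1 h1 hg1).trans hc
      · refine ⟨m, by omega, n, h, hg, ?_⟩
        intro m1 hm1 n1 h1 hg1
        rcases Nat.lt_or_ge m1 (N + 1) with hlt | hge
        · exact hmax m1 (by omega) n1 h1 hg1
        · obtain rfl : m1 = N + 1 := by omega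
          exact absurd ⟨n1, h1, hg1⟩ h2
    · have h2 : ∃ (n : Fin (N + 1) → E d) (h : Fin (N + 1) → ℝ), Good n h := by
        obtain ⟨m, hm, hne⟩ := hN
        rcases Nat.lt_or_ge m (N + 1) with hlt | hge
        · exact absurd ⟨m, by omega, hne⟩ h1
        · obtain rfl : m = N + 1 := by omega
          exact hne
      obtain ⟨m', hm', n', h', hg', hmax'⟩ := ex_max_fixed hd ha hb hab (N + 1) h2
      refine ⟨m', hm', n', h', hg', ?_⟩
      intro m1 hm1 n1 h3 hg1
      rcases Nat.lt_or_ge m1 (N + 1) with hlt | hge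
      · exact absurd ⟨m1, by omega, n1, h3, hg1⟩ h1
      · obtain rfl : m1 = N + 1 := by omega
        exact hmax' n1 h3 hg1

/-- Existence of maximisers of vol / Lam ^ d among the systems with at most N facets. -/
lemma exists_max (hd : 3 ≤ d) {a b : ℝ} (ha : 0 < a) (hb : 0 ≤ b) (hab : b < a * d) (N : ℕ)
    (hN : ∃ m ≤ N, ∃ (n : Fin m → E d) (h : Fin m → ℝ), Good n h) :
    ∃ m ≤ N, ∃ (n : Fin m → E d) (h : Fin m → ℝ), Good n h ∧
      ∀ m' ≤ N, ∀ (n' : Fin m' → E d) (h' : Fin m' → ℝ), Good n' h' →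
        vol n' h' * Lam a b n h ^ d ≤ vol n h * Lam a b n' h' ^ d := by
  have : NeZero d := ⟨by omega⟩
  obtain ⟨m, hm, n, h, hg, hmax⟩ := ex_max (by omega) ha hb hab N hN
  refine ⟨m, hm, n, h, hg, ?_⟩
  intro m' hm' n' h' hg'
  have h1 := hmax m' hm' n' h' hg'
  unfold exRat at h1
  rwa [div_le_div_iff₀ (pow_pos (ex_Lam_pos (by omega) ha hab hg') d)
    (pow_pos (ex_Lam_pos (by omega) ha hab hg) d)] at h1

end SP4
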