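import Pool.Agent.SP4.Final

/-!
Every edge of a 4-polytope lies in at least three facets.
-/

open MeasureTheory Set Filter Topology
open scoped ENNReal InnerProductSpace

namespace SP4

open Melzak (E IsPolytope IsKFace zeta)

lemma three_le_ncard {Q : Set (E 4)} (hQ : IsPolytope Q) {e : Set (E 4)} (he : IsKFace 1 Q e) :
    3 ≤ {F : Set (E 4) | IsKFace 3 Q F ∧ e ⊆ F}.ncard := by
  obtain ⟨m, n, h, hg, rfl⟩ := exists_good hQ
  obtain ⟨x, hx, rfl, hrk⟩ := (e4_face_iff 1 e).1 he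
  rw [e4_ncard hg hx]
  have h1 := e4_finrank_orth n (e4_act n h x)
  have h2 := e4_finrank_le n (e4_act n h x)
  omega

/-- The weighted edge length is at least the edge length. -/
theorem zeta_le_zetaW {Q : Set (E 4)} (hQ : IsPolytope Q) : zeta 1 Q ≤ zetaW Q := by
  unfold zeta zetaW
  refine ENNReal.tsum_le_tsum fun e => ?_
  have h1 := three_le_ncard hQ e.2
  have h2 : (1 : ℝ≥0∞) ≤
      (({F : Set (E 4) | IsKFace 3 Q F ∧ (e : Set (E 4)) ⊆ F}.ncard - 2 : ℕ) : ℝ≥0∞) := by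
    exact_mod_cast (by omega : 1 ≤ {F : Set (E 4) | IsKFace 3 Q F ∧ (e : Set (E 4)) ⊆ F}.ncard - 2)
  calc μHE[1] (e : Set (E 4)) = 1 * μHE[1] (e : Set (E 4)) := (one_mul _).symm
    _ ≤ _ := mul_le_mul_left h2 _

end SP4
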