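import Pool.Agent.SP4.Poly

/-!
# MP_90631d_gt : facets and extreme points of a polytope in terms of an irredundant representation

Row E3 of the proof of the theorem on simple polytopes.

* `facet_iff`: the facets of the polytope of a good system are the sets `Fac n h i`;
* `card_facets`: their number;
* `mem_extremePoints_iff`: a point of the polytope is extreme iff its active normals span;
* `isSimple_iff`: every extreme point lies in exactly d facets iff the active normals are
  linearly independent at every point of the polytope;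
* `zeta_top`: the d-content of a d-polytope is its volume.
-/

open MeasureTheory Set Filter Topology
open scoped ENNReal InnerProductSpace

namespace SP4

open Melzak (E IsPolytope IsKFace zeta)

variable {d : ℕ} {ι : Type*}

/-- A point of a convex subset of the polyhedron with the smallest set of active constraints. -/
lemma fc_min_active [Fintype ι] {n : ι → E d} {h : ι → ℝ} {F : Set (E d)}
    (hF : F ⊆ Poly n h) (hc : Convex ℝ F) (hne : F.Nonempty) :
    ∃ x₀ ∈ F, ∀ x ∈ F, ∀ i, ⟪n i, x₀⟫_ℝ = h i → ⟪n i, x⟫_ℝ = h i := by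
  classical
  obtain ⟨x₀, hx₀, hmin⟩ := WellFounded.has_min
    (measure fun x : E d => (Finset.univ.filter (fun i => ⟪n i, x⟫_ℝ = h i)).card).wf F hne
  refine ⟨x₀, hx₀, fun x hx i hi => ?_⟩
  by_contra hxi
  have hm : (1 / 2 : ℝ) • x₀ + (1 / 2 : ℝ) • x ∈ F := hc hx₀ hx (by norm_num) (by norm_num)
    (by norm_num)
  apply hmin _ hm
  change (Finset.univ.filter (fun i => ⟪n i, (1 / 2 : ℝ) • x₀ + (1 / 2 : ℝ) • x⟫_ℝ = h i)).card <
    (Finset.univ.filter (fun i => ⟪n i, x₀⟫_ℝ = h i)).card
  apply Finset.card_lt_card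
  rw [Finset.ssubset_iff_of_subset]
  · refine ⟨i, by simpa using hi, ?_⟩
    simp only [Finset.mem_filter, Finset.mem_univ, true_and]
    rw [inner_add_right, inner_smul_right, inner_smul_right, hi]
    intro h3
    exact hxi (by linarith)
  · intro j hj
    simp only [Finset.mem_filter, Finset.mem_univ, true_and] at hj ⊢
    rw [inner_add_right, inner_smul_right, inner_smul_right] at hj
    have h1 := hF hx₀ j
    have h2 := hF hx j
    linarith

/-- Small moves in directions orthogonal to the active normals stay in the polyhedron. -/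
lemma fc_move [Finite ι] {n : ι → E d} {h : ι → ℝ} {x₀ w : E d} (hx : x₀ ∈ Poly n h)
    (hw : ∀ i, ⟪n i, x₀⟫_ℝ = h i → ⟪n i, w⟫_ℝ = 0) :
    ∃ ε : ℝ, 0 < ε ∧ x₀ + ε • w ∈ Poly n h ∧ x₀ - ε • w ∈ Poly n h := by
  have hev : ∀ i, ∀ᶠ ε : ℝ in 𝓝[>] 0,
      ⟪n i, x₀ + ε • w⟫_ℝ ≤ h i ∧ ⟪n i, x₀ - ε • w⟫_ℝ ≤ h i := by
    intro i
    by_cases hi : ⟪n i, x₀⟫_ℝ = h i
    · refine Eventually.of_forall fun ε => ?_
      rw [inner_add_right, inner_sub_right, inner_smul_right, hw i hi, hi]
      simp
    · have hlt : ⟪n i, x₀⟫_ℝ < h i := lt_of_le_of_ne (hx i) hi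
      have c1 : Continuous fun ε : ℝ => ⟪n i, x₀ + ε • w⟫_ℝ := by fun_prop
      have c2 : Continuous fun ε : ℝ => ⟪n i, x₀ - ε • w⟫_ℝ := by fun_prop
      have e1 : ∀ᶠ ε : ℝ in 𝓝 0, ⟪n i, x₀ + ε • w⟫_ℝ < h i :=
        c1.continuousAt.eventually_lt continuousAt_const (by simpa using hlt)
      have e2 : ∀ᶠ ε : ℝ in 𝓝 0, ⟪n i, x₀ - ε • w⟫_ℝ < h i :=
        c2.continuousAt.eventually_lt continuousAt_const (by simpa using hlt)
      filter_upwards [nhdsWithin_le_nhds e1, nhdsWithin_le_nhds e2] with ε h1 h2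
      exact ⟨h1.le, h2.le⟩
  have hall := (eventually_all.2 hev).and (self_mem_nhdsWithin : Ioi (0 : ℝ) ∈ 𝓝[>] 0)
  obtain ⟨ε, h1, h2⟩ := hall.exists
  exact ⟨ε, h2, fun i => (h1 i).1, fun i => (h1 i).2⟩

/-- An exposed face is determined by the active constraints of a generic point; the direction of
its affine hull is the orthogonal complement of the active normals of that point. -/
lemma fc_face [Fintype ι] {n : ι → E d} {h : ι → ℝ} {F : Set (E d)}
    (hF : F.Nonempty) (hexp : IsExposed ℝ (Poly n h) F) :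
    ∃ x₀ ∈ F, F = {x | x ∈ Poly n h ∧ ∀ i, ⟪n i, x₀⟫_ℝ = h i → ⟪n i, x⟫_ℝ = h i} ∧
      ∀ w : E d, w ∈ vectorSpan ℝ F ↔ ∀ i, ⟪n i, x₀⟫_ℝ = h i → ⟪n i, w⟫_ℝ = 0 := by
  have hsub : F ⊆ Poly n h := hexp.subset
  obtain ⟨x₀, hx₀, hmin⟩ := fc_min_active hsub (hexp.convex (convex_Poly n h)) hF
  have hFeq : F = {x | x ∈ Poly n h ∧ ∀ i, ⟪n i, x₀⟫_ℝ = h i → ⟪n i, x⟫_ℝ = h i} := by
    obtain ⟨l, hl⟩ := hexp hF
    apply Set.Subset.antisymm
    · intro x hx
      exact ⟨hsub hx, hmin x hx⟩
    · rintro x ⟨hxP, hxa⟩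
      obtain ⟨ε, hε, -, h2⟩ := fc_move (w := x - x₀) (hsub hx₀) (by
        intro i hi
        rw [inner_sub_right, hxa i hi, hi, sub_self])
      rw [hl] at hx₀ ⊢
      refine ⟨hxP, fun y hy => (hx₀.2 y hy).trans ?_⟩
      have h3 := hx₀.2 _ h2
      rw [map_sub, map_smul, map_sub, smul_eq_mul] at h3
      have : 0 ≤ ε * (l x - l x₀) := by linarith
      have := nonneg_of_mul_nonneg_right this hε
      linarith
  refine ⟨x₀, hx₀, hFeq, fun w => ⟨fun hw i hi => ?_, fun hw => ?_⟩⟩
  · rw [vectorSpan_def] at hw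
    have : Submodule.span ℝ (F -ᵥ F) ≤ LinearMap.ker (innerₛₗ ℝ (n i)) := by
      rw [Submodule.span_le]
      rintro _ ⟨x, hx, y, hy, rfl⟩
      simp [vsub_eq_sub, inner_sub_right, hmin x hx i hi, hmin y hy i hi]
    simpa using this hw
  · obtain ⟨ε, hε, h1, -⟩ := fc_move (hsub hx₀) hw
    have hmem : x₀ + ε • w ∈ F := by
      rw [hFeq]
      refine ⟨h1, fun i hi => ?_⟩
      rw [inner_add_right, inner_smul_right, hw i hi, hi]
      simp
    have h3 : (x₀ + ε • w) -ᵥ x₀ ∈ vectorSpan ℝ F := vsub_mem_vectorSpan ℝ hmem hx₀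
    have h4 : ε⁻¹ • ((x₀ + ε • w) -ᵥ x₀) ∈ vectorSpan ℝ F := Submodule.smul_mem _ _ h3
    simpa [vsub_eq_sub, smul_smul, hε.ne'] using h4

/-- Two normals of a good system active at a common point are linearly independent. -/
lemma fc_indep_pair {n : ι → E d} {h : ι → ℝ} (hg : Good n h) {i j : ι} (hij : i ≠ j)
    {b : E d} (hi : ⟪n i, b⟫_ℝ = h i) (hj : ⟪n j, b⟫_ℝ = h j) :
    LinearIndependent ℝ ![n i, n j] := by
  rw [LinearIndependent.pair_iff]
  intro s t hst
  obtain ⟨yi, hyi, hyi'⟩ := hg.irr i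
  obtain ⟨yj, hyj, hyj'⟩ := hg.irr j
  have h2 : s * ⟪n i, yi - b⟫_ℝ + t * ⟪n j, yi - b⟫_ℝ = 0 := by
    have : ⟪s • n i + t • n j, yi - b⟫_ℝ = 0 := by rw [hst, inner_zero_left]
    rw [inner_add_left, inner_smul_left, inner_smul_left] at this
    simpa using this
  have h3 : s * ⟪n i, yj - b⟫_ℝ + t * ⟪n j, yj - b⟫_ℝ = 0 := by
    have : ⟪s • n i + t • n j, yj - b⟫_ℝ = 0 := by rw [hst, inner_zero_left]
    rw [inner_add_left, inner_smul_left, inner_smul_left] at this
    simpa using this
  rw [inner_sub_right, inner_sub_right, hyi, hi, sub_self, mul_zero, zero_add, hj] at h2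
  rw [inner_sub_right, inner_sub_right, hyj, hj, sub_self, mul_zero, add_zero, hi] at h3
  have k2 := hyi' j hij.symm
  have k3 := hyj' i hij
  constructor
  · rcases mul_eq_zero.1 h3 with h | h
    · exact h
    · exact absurd h (by linarith)
  · rcases mul_eq_zero.1 h2 with h | h
    · exact h
    · exact absurd h (by linarith)

/-- A subspace orthogonal to two independent vectors has codimension at least two. -/
lemma fc_finrank_pair {v w : E d} (hvw : LinearIndependent ℝ ![v, w])
    {W : Submodule ℝ (E d)} (hv : ∀ x ∈ W, ⟪v, x⟫_ℝ = 0) (hw : ∀ x ∈ W, ⟪w, x⟫_ℝ = 0) :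
    Module.finrank ℝ W + 2 ≤ d := by
  set K : Submodule ℝ (E d) := Submodule.span ℝ (Set.range ![v, w]) with hK
  have h1 : Module.finrank ℝ K = 2 := by
    rw [hK, finrank_span_eq_card hvw]; simp
  have h2 : Module.finrank ℝ K + Module.finrank ℝ Kᗮ = d := by
    rw [Submodule.finrank_add_finrank_orthogonal]; simp
  have h3 : W ≤ Kᗮ := by
    intro x hx
    rw [Submodule.mem_orthogonal]
    intro y hy
    rw [hK] at hy
    induction hy using Submodule.span_induction with
    | mem y hy =>
      obtain ⟨k, rfl⟩ := hy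
      fin_cases k
      · simpa using hv x hx
      · simpa using hw x hx
    | zero => simp
    | add y z _ _ hy hz => rw [inner_add_left, hy, hz, add_zero]
    | smul a y _ hy => rw [inner_smul_left, hy, mul_zero]
  have h4 := Submodule.finrank_mono h3
  omega

lemma Fac_injective {n : ι → E d} {h : ι → ℝ} (hg : Good n h) :
    Function.Injective (Fac n h) := by
  intro i j hij
  by_contra hne
  obtain ⟨y, hy, hy'⟩ := hg.irr i
  have hyP : y ∈ Poly n h := by
    intro k
    by_cases hk : k = i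
    · rw [hk]; exact hy.le
    · exact (hy' k hk).le
  have h1 : y ∈ Fac n h j := by
    rw [← hij]; exact ⟨hyP, hy⟩
  exact (hy' j (Ne.symm hne)).ne h1.2

/-- The set `Fac n h i` of a good system is a facet. -/
lemma Good.isKFace_Fac [Finite ι] {n : ι → E d} {h : ι → ℝ} (hg : Good n h) (i : ι) :
    IsKFace (d - 1) (Poly n h) (Fac n h i) := by
  obtain ⟨y, hy, hy'⟩ := hg.irr i
  have hyP : y ∈ Poly n h := by
    intro k
    by_cases hk : k = i
    · rw [hk]; exact hy.le
    · exact (hy' k hk).le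
  have hyF : y ∈ Fac n h i := ⟨hyP, hy⟩
  refine ⟨⟨y, hyF⟩, ?_, ?_⟩
  · intro _
    refine ⟨innerSL ℝ (n i), ?_⟩
    ext x
    constructor
    · rintro ⟨h1, h2⟩
      refine ⟨h1, fun z hz => ?_⟩
      simp only [innerSL_apply_apply]
      rw [h2]
      exact hz i
    · rintro ⟨h1, h2⟩
      have h3 := h2 y hyP
      simp only [innerSL_apply_apply] at h3
      rw [hy] at h3
      exact ⟨h1, le_antisymm (h1 i) h3⟩
  · have hspan : vectorSpan ℝ (Fac n h i) = (ℝ ∙ n i)ᗮ := by
      apply le_antisymm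
      · rw [vectorSpan_def, Submodule.span_le]
        rintro _ ⟨x, hx, z, hz, rfl⟩
        rw [SetLike.mem_coe, Submodule.mem_orthogonal_singleton_iff_inner_right]
        simp only [vsub_eq_sub, inner_sub_right, hx.2, hz.2, sub_self]
      · intro w hw
        rw [Submodule.mem_orthogonal_singleton_iff_inner_right] at hw
        obtain ⟨ε, hε, h1, -⟩ := fc_move (w := w) hyP (by
          intro j hj
          by_cases hji : j = i
          · rw [hji]; exact hw
          · exact absurd hj (hy' j hji).ne)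
        have hmem : y + ε • w ∈ Fac n h i := by
          refine ⟨h1, ?_⟩
          rw [inner_add_right, inner_smul_right, hw, hy]
          simp
        have h3 : (y + ε • w) -ᵥ y ∈ vectorSpan ℝ (Fac n h i) := vsub_mem_vectorSpan ℝ hmem hyF
        have h4 : ε⁻¹ • ((y + ε • w) -ᵥ y) ∈ vectorSpan ℝ (Fac n h i) := Submodule.smul_mem _ _ h3
        simpa [vsub_eq_sub, smul_smul, hε.ne'] using h4
    have h2 : Module.finrank ℝ (ℝ ∙ n i) + Module.finrank ℝ (ℝ ∙ n i)ᗮ = d := by
      rw [Submodule.finrank_add_finrank_orthogonal]; simp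
    have h1 : Module.finrank ℝ (ℝ ∙ n i) = 1 := by
      apply finrank_span_singleton
      intro h0
      have := hg.unit i
      rw [h0, norm_zero] at this
      exact zero_ne_one this
    rw [hspan]
    omega

/-- The facets of the polytope of a good system are the sets `Fac n h i`. -/
theorem facet_iff [Fintype ι] (hd : 1 ≤ d) {n : ι → E d} {h : ι → ℝ} (hg : Good n h)
    (F : Set (E d)) : IsKFace (d - 1) (Poly n h) F ↔ ∃ i, F = Fac n h i := by
  constructor
  · rintro ⟨hne, hexp, hrk⟩
    obtain ⟨x₀, hx₀, hFeq, hspan⟩ := fc_face hne hexp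
    by_cases hex1 : ∃ i, ⟪n i, x₀⟫_ℝ = h i
    · obtain ⟨i, hi⟩ := hex1
      refine ⟨i, ?_⟩
      have honly : ∀ k, ⟪n k, x₀⟫_ℝ = h k → k = i := by
        intro k hk
        by_contra hcon
        have := fc_finrank_pair (W := vectorSpan ℝ F) (fc_indep_pair hg (Ne.symm hcon) hi hk)
          (fun w hw => (hspan w).1 hw i hi) (fun w hw => (hspan w).1 hw k hk)
        omega
      rw [hFeq]
      ext x
      constructor
      · rintro ⟨h1, h2⟩
        exact ⟨h1, h2 i hi⟩
      · rintro ⟨h1, h2⟩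
        refine ⟨h1, fun k hk => ?_⟩
        rw [honly k hk]; exact h2
    · exfalso
      push Not at hex1
      have : vectorSpan ℝ F = ⊤ := by
        rw [Submodule.eq_top_iff']
        intro w
        rw [hspan]
        intro j hj
        exact absurd hj (hex1 j)
      rw [this] at hrk
      simp at hrk
      omega
  · rintro ⟨i, rfl⟩
    exact hg.isKFace_Fac i

lemma facets_eq_range [Fintype ι] (hd : 1 ≤ d) {n : ι → E d} {h : ι → ℝ} (hg : Good n h) :
    {F | IsKFace (d - 1) (Poly n h) F} = Set.range (Fac n h) := by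
  ext F
  rw [Set.mem_ofPred_eq, facet_iff hd hg F, Set.mem_range]
  exact ⟨fun ⟨i, hi⟩ => ⟨i, hi.symm⟩, fun ⟨i, hi⟩ => ⟨i, hi.symm⟩⟩

/-- The number of facets. -/
theorem card_facets [Fintype ι] (hd : 1 ≤ d) {n : ι → E d} {h : ι → ℝ} (hg : Good n h) :
    {F | IsKFace (d - 1) (Poly n h) F}.encard = Fintype.card ι := by
  rw [facets_eq_range hd hg, ← Set.image_univ, (Fac_injective hg).encard_image, Set.encard_univ,
    ENat.card_eq_coe_fintype_card]

/-- The number of facets through a point of the polytope. -/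
lemma facets_through [Fintype ι] (hd : 1 ≤ d) {n : ι → E d} {h : ι → ℝ} (hg : Good n h)
    {v : E d} (hv : v ∈ Poly n h) :
    {F | IsKFace (d - 1) (Poly n h) F ∧ v ∈ F}.encard = {i | ⟪n i, v⟫_ℝ = h i}.encard := by
  have : {F | IsKFace (d - 1) (Poly n h) F ∧ v ∈ F} = Fac n h '' {i | ⟪n i, v⟫_ℝ = h i} := by
    ext F
    rw [Set.mem_ofPred_eq, facet_iff hd hg F, Set.mem_image]
    constructor
    · rintro ⟨⟨i, rfl⟩, hi⟩
      exact ⟨i, hi.2, rfl⟩
    · rintro ⟨i, hi, rfl⟩
      exact ⟨⟨i, rfl⟩, hv, hi⟩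
  rw [this, (Fac_injective hg).encard_image]

/-- The span of the active normals at a point. -/
def actSpan (n : ι → E d) (h : ι → ℝ) (v : E d) : Submodule ℝ (E d) :=
  Submodule.span ℝ (n '' {i | ⟪n i, v⟫_ℝ = h i})

lemma mem_actSpan_orth {n : ι → E d} {h : ι → ℝ} {v w : E d} :
    w ∈ (actSpan n h v)ᗮ ↔ ∀ i, ⟪n i, v⟫_ℝ = h i → ⟪n i, w⟫_ℝ = 0 := by
  rw [Submodule.mem_orthogonal]
  constructor
  · intro hw i hi
    exact hw _ (Submodule.subset_span ⟨i, hi, rfl⟩)
  · intro hw y hy
    unfold actSpan at hy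
    induction hy using Submodule.span_induction with
    | mem y hy =>
      obtain ⟨i, hi, rfl⟩ := hy
      exact hw i hi
    | zero => simp
    | add y z _ _ hy hz => rw [inner_add_left, hy, hz, add_zero]
    | smul a y _ hy => rw [inner_smul_left, hy, mul_zero]

/-- A point of a polyhedron is extreme iff the active normals span the space. -/
lemma mem_extremePoints_iff [Finite ι] {n : ι → E d} {h : ι → ℝ} {v : E d} :
    v ∈ (Poly n h).extremePoints ℝ ↔ v ∈ Poly n h ∧ actSpan n h v = ⊤ := by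
  constructor
  · intro hv
    refine ⟨hv.1, ?_⟩
    rw [← Submodule.orthogonal_eq_bot_iff, Submodule.eq_bot_iff]
    intro w hw
    rw [mem_actSpan_orth] at hw
    obtain ⟨ε, hε, h1, h2⟩ := fc_move hv.1 hw
    have h3 : v ∈ openSegment ℝ (v + ε • w) (v - ε • w) := by
      refine ⟨1 / 2, 1 / 2, by norm_num, by norm_num, by norm_num, ?_⟩
      module
    have h4 := hv.2 h1 h2 h3
    have h5 : ε • w = 0 := by simpa using h4
    rcases smul_eq_zero.1 h5 with h | h
    · exact absurd h hε.ne'
    · exact h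
  · rintro ⟨hv, htop⟩
    refine ⟨hv, ?_⟩
    rintro a ha b hb ⟨s, t, hs, ht, hst, rfl⟩
    have key : ∀ i, ⟪n i, s • a + t • b⟫_ℝ = h i → ⟪n i, a⟫_ℝ = h i ∧ ⟪n i, b⟫_ℝ = h i := by
      intro i hi
      rw [inner_add_right, inner_smul_right, inner_smul_right] at hi
      have h1 := ha i
      have h2 := hb i
      have e : h i = s * h i + t * h i := by rw [← add_mul, hst, one_mul]
      constructor <;> nlinarith
    have hab : a - b ∈ (actSpan n h (s • a + t • b))ᗮ := by
      rw [mem_actSpan_orth]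
      intro i hi
      rw [inner_sub_right, (key i hi).1, (key i hi).2, sub_self]
    rw [htop, Submodule.top_orthogonal_eq_bot, Submodule.mem_bot, sub_eq_zero] at hab
    rw [hab, ← add_smul, hst, one_smul]

/-- Every point of a bounded polyhedron has an extreme point with more active constraints. -/
lemma fc_extreme_above [Finite ι] {n : ι → E d} {h : ι → ℝ}
    (hb : Bornology.IsBounded (Poly n h)) {x : E d} (hx : x ∈ Poly n h) :
    ∃ v ∈ (Poly n h).extremePoints ℝ, ∀ i, ⟪n i, x⟫_ℝ = h i → ⟪n i, v⟫_ℝ = h i := by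
  classical
  have := Fintype.ofFinite ι
  set S : Set (E d) := {v | v ∈ Poly n h ∧ ∀ i, ⟪n i, x⟫_ℝ = h i → ⟪n i, v⟫_ℝ = h i} with hS
  have hne : S.Nonempty := ⟨x, hx, fun i hi => hi⟩
  obtain ⟨v, hv, hmin⟩ := WellFounded.has_min
    (measure fun x : E d => (Finset.univ.filter (fun i => ⟪n i, x⟫_ℝ ≠ h i)).card).wf S hne
  refine ⟨v, ?_, hv.2⟩
  rw [mem_extremePoints_iff]
  refine ⟨hv.1, ?_⟩
  rw [← Submodule.orthogonal_eq_bot_iff, Submodule.eq_bot_iff]
  intro w hw
  by_contra hw0
  rw [mem_actSpan_orth] at hw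
  obtain ⟨j, τ, hτ, hjw, hmem, hj⟩ := exists_exit hb hv.1 hw0
  have hact : ∀ i, ⟪n i, v⟫_ℝ = h i → ⟪n i, v + τ • w⟫_ℝ = h i := by
    intro i hi
    rw [inner_add_right, inner_smul_right, hw i hi, hi]
    simp
  refine hmin (v + τ • w) ⟨hmem, fun i hi => hact i (hv.2 i hi)⟩ ?_
  change (Finset.univ.filter (fun i => ⟪n i, v + τ • w⟫_ℝ ≠ h i)).card <
    (Finset.univ.filter (fun i => ⟪n i, v⟫_ℝ ≠ h i)).card
  apply Finset.card_lt_card
  rw [Finset.ssubset_iff_of_subset]
  · refine ⟨j, ?_, ?_⟩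
    · simp only [Finset.mem_filter, Finset.mem_univ, true_and]
      intro h1
      rw [hw j h1] at hjw
      exact lt_irrefl _ hjw
    · simpa using hj
  · intro i hi
    simp only [Finset.mem_filter, Finset.mem_univ, true_and] at hi ⊢
    exact fun h1 => hi (hact i h1)

/-- A polytope is simple iff the active normals are linearly independent at every point. -/
theorem isSimple_iff [Fintype ι] (hd : 1 ≤ d) {n : ι → E d} {h : ι → ℝ} (hg : Good n h) :
    IsSimple (Poly n h) ↔ Simp n h := by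
  classical
  have hcard : ∀ v : E d, {i | ⟪n i, v⟫_ℝ = h i}.encard =
      (Fintype.card {i // ⟪n i, v⟫_ℝ = h i} : ℕ∞) := by
    intro v
    rw [Set.encard, ENat.card_eq_coe_fintype_card]
    rfl
  have hrange : ∀ v : E d, Submodule.span ℝ (Set.range
      (fun i : {i // ⟪n i, v⟫_ℝ = h i} => n i)) = actSpan n h v := by
    intro v
    unfold actSpan
    congr 1
    ext y
    constructor
    · rintro ⟨⟨i, hi⟩, rfl⟩
      exact ⟨i, hi, rfl⟩
    · rintro ⟨i, hi, rfl⟩
      exact ⟨⟨i, hi⟩, rfl⟩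
  constructor
  · intro hS x hx
    obtain ⟨v, hv, hxv⟩ := fc_extreme_above hg.bdd hx
    have h1 := hS v hv
    rw [facets_through hd hg hv.1, hcard v] at h1
    have h2 : Fintype.card {i // ⟪n i, v⟫_ℝ = h i} = d := by exact_mod_cast h1
    have h3 : LinearIndependent ℝ (fun i : {i // ⟪n i, v⟫_ℝ = h i} => n i) := by
      apply linearIndependent_of_top_le_span_of_card_eq_finrank
      · rw [hrange v, (mem_extremePoints_iff.1 hv).2]
      · rw [h2]; simp
    let f : {i // ⟪n i, x⟫_ℝ = h i} → {i // ⟪n i, v⟫_ℝ = h i} := fun i => ⟨i.1, hxv i.1 i.2⟩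
    have hf : Function.Injective f := by
      intro i j hij
      apply Subtype.ext
      have := congrArg Subtype.val hij
      exact this
    exact h3.comp f hf
  · intro hS v hv
    rw [facets_through hd hg hv.1, hcard v]
    have h3 := hS v hv.1
    have h4 := finrank_span_eq_card h3
    rw [hrange v, (mem_extremePoints_iff.1 hv).2] at h4
    simp only [finrank_top, finrank_euclideanSpace, Fintype.card_fin] at h4
    rw [← h4]

/-- The d-content of a d-polytope is its volume. -/
theorem zeta_top {P : Set (E d)} (hP : IsPolytope P) : zeta d P = volume P := by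
  have hspan : vectorSpan ℝ P = ⊤ := by
    have h1 : affineSpan ℝ (interior P) = ⊤ :=
      isOpen_interior.affineSpan_eq_top hP.nonempty_interior
    have h2 : affineSpan ℝ P = ⊤ := by
      rw [eq_top_iff, ← h1]
      exact affineSpan_mono ℝ interior_subset
    rw [← direction_affineSpan, h2, AffineSubspace.direction_top]
  have hPface : IsKFace d P P := by
    refine ⟨hP.nonempty_interior.mono interior_subset, ?_, ?_⟩
    · intro _
      refine ⟨0, ?_⟩
      ext x
      simp
    · rw [hspan]; simp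
  have huniq : ∀ F, IsKFace d P F → F = P := by
    rintro F ⟨hne, hexp, hrk⟩
    obtain ⟨l, hl⟩ := hexp hne
    have htop : vectorSpan ℝ F = ⊤ := Submodule.eq_top_of_finrank_eq (by rw [hrk]; simp)
    have hl0 : l = 0 := by
      have hker : vectorSpan ℝ F ≤ LinearMap.ker (l : E d →ₗ[ℝ] ℝ) := by
        rw [vectorSpan_def, Submodule.span_le]
        rintro _ ⟨x, hx, y, hy, rfl⟩
        rw [hl] at hx hy
        simp only [vsub_eq_sub, SetLike.mem_coe, LinearMap.mem_ker, ContinuousLinearMap.coe_coe,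
          map_sub]
        have := hx.2 y hy.1
        have := hy.2 x hx.1
        linarith
      rw [htop, top_le_iff, LinearMap.ker_eq_top] at hker
      ext x
      have := congrArg (fun g : E d →ₗ[ℝ] ℝ => g x) hker
      simpa using this
    rw [hl, hl0]
    ext x
    simp
  unfold zeta
  rw [tsum_eq_single (⟨P, hPface⟩ : {F : Set (E d) // IsKFace d P F})]
  · rw [EuclideanSpace.euclideanHausdorffMeasure_eq_volume]
  · rintro ⟨F, hF⟩ hne
    exact absurd (Subtype.ext (huniq F hF)) hne

end SP4
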