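import Pool.Agent.Helper27.Melzak.Defs

/-!
# Simple polytopes: sums of maxima of a generic functional over the faces of a given codimension

Fc n h I is the face of {x | <n i, x> <= h i} on which the constraints of I are active. A system is
simple (SP) when at most d constraints are active at any point. For a generic functional u the
maximum of u over a nonempty face Fc n h I is attained at exactly one vertex t (a set of d active
constraints), characterised by I ⊆ t and c t i > 0 for i in t, i not in I, where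
u = sum_(i in t) c t i • n i.
-/

open MeasureTheory Set Filter Topology
open scoped ENNReal InnerProductSpace

namespace SP4
namespace SA

open Melzak

variable {d : ℕ} {K : Type*} [Fintype K] [DecidableEq K]

def Fc (n : K → E d) (h : K → ℝ) (I : Finset K) : Set (E d) :=
  {x | (∀ i, ⟪n i, x⟫_ℝ ≤ h i) ∧ ∀ i ∈ I, ⟪n i, x⟫_ℝ = h i}

structure SP (n : K → E d) (h : K → ℝ) : Prop where
  le : ∀ t : Finset K, (Fc n h t).Nonempty → t.card ≤ d
  bdd : Bornology.IsBounded (Fc n h ∅)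

omit [Fintype K] [DecidableEq K] in
lemma Fc_mono (n : K → E d) (h : K → ℝ) {I J : Finset K} (hIJ : I ⊆ J) : Fc n h J ⊆ Fc n h I :=
  fun _ hx => ⟨hx.1, fun i hi => hx.2 i (hIJ hi)⟩

omit [Fintype K] [DecidableEq K] in
lemma isClosed_Fc (n : K → E d) (h : K → ℝ) (I : Finset K) : IsClosed (Fc n h I) := by
  have : Fc n h I = (⋂ i, {x | ⟪n i, x⟫_ℝ ≤ h i}) ∩ ⋂ i ∈ I, {x | ⟪n i, x⟫_ℝ = h i} := by
    ext x; simp [Fc]
  rw [this]
  refine IsClosed.inter (isClosed_iInter fun i => isClosed_le (by fun_prop) continuous_const) ?_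
  exact isClosed_biInter fun i _ => isClosed_eq (by fun_prop) continuous_const

omit [Fintype K] [DecidableEq K] in
lemma convex_Fc (n : K → E d) (h : K → ℝ) (I : Finset K) : Convex ℝ (Fc n h I) := by
  intro x hx y hy a b ha hb hab
  refine ⟨fun i => ?_, fun i hi => ?_⟩
  · rw [inner_add_right, inner_smul_right, inner_smul_right]
    have h1 := mul_le_mul_of_nonneg_left (hx.1 i) ha
    have h2 := mul_le_mul_of_nonneg_left (hy.1 i) hb
    have h3 : a * h i + b * h i = h i := by rw [← add_mul, hab, one_mul]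
    linarith
  · rw [inner_add_right, inner_smul_right, inner_smul_right, hx.2 i hi, hy.2 i hi, ← add_mul, hab,
      one_mul]

omit [Fintype K] [DecidableEq K] in
lemma isCompact_Fc {n : K → E d} {h : K → ℝ} (hb : Bornology.IsBounded (Fc n h ∅)) (I : Finset K) :
    IsCompact (Fc n h I) :=
  Metric.isCompact_of_isClosed_isBounded (isClosed_Fc n h I)
    (hb.subset (Fc_mono n h (Finset.empty_subset I)))

omit [Fintype K] [DecidableEq K] in
/-- Small moves into directions which do not violate the active constraints. -/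
lemma exists_move [Finite K] (n : K → E d) (h : K → ℝ) {x e : E d} (hx : ∀ i, ⟪n i, x⟫_ℝ ≤ h i)
    (he : ∀ i, ⟪n i, x⟫_ℝ = h i → ⟪n i, e⟫_ℝ ≤ 0) :
    ∃ ε : ℝ, 0 < ε ∧ ∀ i, ⟪n i, x + ε • e⟫_ℝ ≤ h i := by
  have key : ∀ i, ∀ᶠ ε in 𝓝[>] (0 : ℝ), ⟪n i, x + ε • e⟫_ℝ ≤ h i := by
    intro i
    rcases eq_or_lt_of_le (hx i) with h1 | h1
    · filter_upwards [self_mem_nhdsWithin] with ε hε
      rw [inner_add_right, inner_smul_right, h1]
      have := he i h1
      have hε' : 0 < ε := hε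
      nlinarith
    · have hcont : Continuous (fun ε : ℝ => ⟪n i, x + ε • e⟫_ℝ) := by fun_prop
      have h2 : ∀ᶠ ε in 𝓝 (0 : ℝ), ⟪n i, x + ε • e⟫_ℝ < h i := by
        apply hcont.continuousAt.eventually_lt_const
        simpa using h1
      exact (h2.filter_mono nhdsWithin_le_nhds).mono fun ε hε => hε.le
  have h3 : ∀ᶠ ε in 𝓝[>] (0 : ℝ), 0 < ε ∧ ∀ i, ⟪n i, x + ε • e⟫_ℝ ≤ h i :=
    (show ∀ᶠ ε in 𝓝[>] (0 : ℝ), 0 < ε from self_mem_nhdsWithin).and (eventually_all.2 key)
  exact h3.exists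

omit [DecidableEq K] in
/-- A ray starting in a bounded polyhedron leaves it through a constraint. -/
lemma exists_exit {n : K → E d} {h : K → ℝ} (hb : Bornology.IsBounded (Fc n h ∅))
    {y w : E d} (hy : y ∈ Fc n h ∅) (hw : w ≠ 0) :
    ∃ j, ∃ τ : ℝ, 0 ≤ τ ∧ 0 < ⟪n j, w⟫_ℝ ∧ y + τ • w ∈ Fc n h ∅ ∧ ⟪n j, y + τ • w⟫_ℝ = h j := by
  classical
  have hne : (Finset.univ.filter fun j => 0 < ⟪n j, w⟫_ℝ).Nonempty := by
    by_contra hc
    rw [Finset.not_nonempty_iff_eq_empty, Finset.filter_eq_empty_iff] at hc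
    obtain ⟨R, hR⟩ := hb.exists_norm_le
    have hmem : ∀ τ : ℝ, 0 ≤ τ → y + τ • w ∈ Fc n h ∅ := by
      intro τ hτ
      refine ⟨fun j => ?_, fun j hj => absurd hj (Finset.notMem_empty j)⟩
      have h1 := hc (Finset.mem_univ j)
      push Not at h1
      rw [inner_add_right, inner_smul_right]
      nlinarith [hy.1 j]
    have hwn : 0 < ‖w‖ := norm_pos_iff.2 hw
    have h2 := hR _ (hmem ((R + ‖y‖ + 1) / ‖w‖) (by
      have : 0 ≤ R := (norm_nonneg _).trans (hR y hy)
      positivity))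
    have h3 : ‖((R + ‖y‖ + 1) / ‖w‖) • w‖ ≤ ‖y + ((R + ‖y‖ + 1) / ‖w‖) • w‖ + ‖y‖ := by
      have := norm_sub_le (y + ((R + ‖y‖ + 1) / ‖w‖) • w) y
      simpa using this
    have h4 : ‖((R + ‖y‖ + 1) / ‖w‖) • w‖ = R + ‖y‖ + 1 := by
      have : 0 ≤ R := (norm_nonneg _).trans (hR y hy)
      rw [norm_smul, Real.norm_of_nonneg (by positivity), div_mul_cancel₀ _ hwn.ne']
    linarith
  obtain ⟨j, hj, hmin⟩ := Finset.exists_min_image _
    (fun j => (h j - ⟪n j, y⟫_ℝ) / ⟪n j, w⟫_ℝ) hne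
  rw [Finset.mem_filter] at hj
  have hj2 := hj.2
  have hτ0 : 0 ≤ (h j - ⟪n j, y⟫_ℝ) / ⟪n j, w⟫_ℝ := by
    have := hy.1 j
    exact div_nonneg (by linarith) hj2.le
  refine ⟨j, (h j - ⟪n j, y⟫_ℝ) / ⟪n j, w⟫_ℝ, hτ0, hj2,
    ⟨?_, fun j hj => absurd hj (Finset.notMem_empty j)⟩, ?_⟩
  · intro l
    rw [inner_add_right, inner_smul_right]
    by_cases hl : 0 < ⟪n l, w⟫_ℝ
    · have := hmin l (Finset.mem_filter.2 ⟨Finset.mem_univ _, hl⟩)
      rw [le_div_iff₀ hl] at this
      linarith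
    · push Not at hl
      nlinarith [hy.1 l]
  · rw [inner_add_right, inner_smul_right, div_mul_cancel₀ _ hj2.ne']
    ring

omit [Fintype K] [DecidableEq K] in
lemma exists_orth {S : Submodule ℝ (E d)} {g : E d} (hg : g ∉ S) :
    ∃ e : E d, (∀ v ∈ S, ⟪v, e⟫_ℝ = 0) ∧ 0 < ⟪g, e⟫_ℝ := by
  by_contra hcon
  push Not at hcon
  apply hg
  rw [← Submodule.orthogonal_orthogonal S, Submodule.mem_orthogonal']
  intro e he
  rw [Submodule.mem_orthogonal] at he
  have h1 := hcon e he
  have h2 := hcon (-e) (fun v hv => by rw [inner_neg_right, he v hv, neg_zero])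
  rw [inner_neg_right] at h2
  linarith

/-- Every nonempty face contains a vertex at which exactly d constraints with independent normals
are active. -/
lemma SP.exists_top {n : K → E d} {h : K → ℝ} (hs : SP n h) {I : Finset K}
    (hne : (Fc n h I).Nonempty) :
    ∃ t : Finset K, I ⊆ t ∧ (Fc n h t).Nonempty ∧ t.card = d ∧
      LinearIndependent ℝ (fun i : t => n i) := by
  classical
  obtain ⟨t, ht, hmax⟩ := Finset.exists_max_image
    (Finset.univ.filter fun t : Finset K => I ⊆ t ∧ (Fc n h t).Nonempty) (fun t => t.card)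
    ⟨I, by simp [hne]⟩
  simp only [Finset.mem_filter, Finset.mem_univ, true_and] at ht hmax
  obtain ⟨hIt, y, hy⟩ := ht
  have htop : Submodule.span ℝ (Set.range (fun i : t => n i)) = ⊤ := by
    by_contra hcon
    obtain ⟨g, hg⟩ : ∃ g : E d, g ∉ Submodule.span ℝ (Set.range (fun i : t => n i)) := by
      by_contra h1
      push Not at h1
      exact hcon (Submodule.eq_top_iff'.2 h1)
    obtain ⟨e, he1, he2⟩ := exists_orth hg
    have he0 : e ≠ 0 := by
      rintro rfl
      rw [inner_zero_right] at he2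
      exact lt_irrefl _ he2
    obtain ⟨j, τ, -, hj, hmem, hact⟩ := exists_exit hs.bdd (Fc_mono n h (Finset.empty_subset t) hy)
      he0
    have hjt : j ∉ t := by
      intro hjt
      rw [he1 _ (Submodule.subset_span ⟨⟨j, hjt⟩, rfl⟩)] at hj
      exact lt_irrefl _ hj
    have h1 := hmax (insert j t) ⟨hIt.trans (Finset.subset_insert _ _), y + τ • e, hmem.1, by
      intro i hi
      rcases Finset.mem_insert.1 hi with rfl | hi
      · exact hact
      · rw [inner_add_right, inner_smul_right, hy.2 i hi,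
          he1 _ (Submodule.subset_span ⟨⟨i, hi⟩, rfl⟩), mul_zero, add_zero]⟩
    rw [Finset.card_insert_of_notMem hjt] at h1
    omega
  have h1 := hs.le t ⟨y, hy⟩
  have h2 : d ≤ t.card := by
    have h3 := finrank_range_le_card (R := ℝ) (fun i : t => n i)
    rw [Set.finrank, htop, finrank_top, finrank_euclideanSpace_fin, Fintype.card_coe] at h3
    exact h3
  have h3 : t.card = d := le_antisymm h1 h2
  refine ⟨t, hIt, ⟨y, hy⟩, h3, ?_⟩
  exact linearIndependent_of_top_le_span_of_card_eq_finrank htop.ge (by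
    rw [finrank_euclideanSpace_fin, Fintype.card_coe, h3])

lemma SP.indep {n : K → E d} {h : K → ℝ} (hs : SP n h) {I : Finset K}
    (hne : (Fc n h I).Nonempty) : LinearIndependent ℝ (fun i : I => n i) := by
  obtain ⟨t, hIt, -, -, hli⟩ := hs.exists_top hne
  exact hli.comp (fun i : I => (⟨i, hIt i.2⟩ : t)) (fun i j hij => by
    have := congrArg (fun k : t => (k : K)) hij
    exact Subtype.ext this)

/-- Generic functionals. -/
def Gen (n : K → E d) (u : E d) : Prop :=
  ∀ t : Finset K, t.card < d → u ∉ Submodule.span ℝ (Set.range (fun i : t => n i))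

omit [Fintype K] [DecidableEq K] in
lemma Gen.neg {n : K → E d} {u : E d} (hg : Gen n u) : Gen n (-u) := fun t ht hcon =>
  hg t ht (by rw [← neg_neg u]; exact Submodule.neg_mem _ hcon)

omit [Fintype K] [DecidableEq K] in
lemma sum_mem_span (n : K → E d) (t : Finset K) (c : K → ℝ) :
    ∑ i ∈ t, c i • n i ∈ Submodule.span ℝ (Set.range (fun i : t => n i)) :=
  Submodule.sum_mem _ fun i hi => Submodule.smul_mem _ _ (Submodule.subset_span ⟨⟨i, hi⟩, rfl⟩)

omit [Fintype K] in
lemma coef_ne_zero {n : K → E d} {u : E d} (hg : Gen n u) {t : Finset K} (ht : t.card = d)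
    {c : K → ℝ} (hc : ∑ i ∈ t, c i • n i = u) {i : K} (hi : i ∈ t) : c i ≠ 0 := by
  intro h0
  have h1 : (t.erase i).card < d := by
    rw [Finset.card_erase_of_mem hi]
    have := Finset.card_pos.2 ⟨i, hi⟩
    omega
  apply hg _ h1
  rw [← hc, ← Finset.add_sum_erase t _ hi, h0, zero_smul, zero_add]
  exact sum_mem_span n _ c

/-- Vertices. -/
noncomputable def Vt (n : K → E d) (h : K → ℝ) : Finset (Finset K) := by
  classical exact Finset.univ.filter (fun t => t.card = d ∧ (Fc n h t).Nonempty)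

/-- Faces of codimension k. -/
noncomputable def Ek (n : K → E d) (h : K → ℝ) (k : ℕ) : Finset (Finset K) := by
  classical exact (Finset.univ.powersetCard k).filter (fun I => (Fc n h I).Nonempty)

omit [DecidableEq K] in
lemma mem_Vt {n : K → E d} {h : K → ℝ} {t : Finset K} :
    t ∈ Vt n h ↔ t.card = d ∧ (Fc n h t).Nonempty := by
  simp [Vt]

omit [DecidableEq K] in
lemma mem_Ek {n : K → E d} {h : K → ℝ} {k : ℕ} {I : Finset K} :
    I ∈ Ek n h k ↔ I.card = k ∧ (Fc n h I).Nonempty := by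
  simp [Ek, Finset.mem_powersetCard]

/-- The coefficients of u in the basis of the normals at a vertex. -/
lemma exists_coef {n : K → E d} {h : K → ℝ} (hs : SP n h) (u : E d) :
    ∃ c : Finset K → K → ℝ, ∀ t ∈ Vt n h, ∑ i ∈ t, c t i • n i = u := by
  have : ∀ t : Finset K, ∃ c : K → ℝ, t ∈ Vt n h → ∑ i ∈ t, c i • n i = u := by
    intro t
    by_cases ht : t ∈ Vt n h
    · rw [mem_Vt] at ht
      have hli := hs.indep ht.2
      have htop := hli.span_eq_top_of_card_eq_finrank' (by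
        rw [finrank_euclideanSpace_fin, Fintype.card_coe, ht.1])
      have hmem : u ∈ Submodule.span ℝ (Set.range (fun i : t => n i)) := by rw [htop]; trivial
      rw [Submodule.mem_span_range_iff_exists_fun] at hmem
      obtain ⟨a, ha⟩ := hmem
      refine ⟨fun l => if hl : l ∈ t then a ⟨l, hl⟩ else 0, fun _ => ?_⟩
      rw [← ha, ← Finset.sum_coe_sort t]
      refine Finset.sum_congr rfl fun i _ => ?_
      simp only [i.2, dif_pos]
    · exact ⟨0, fun h => absurd h ht⟩
  choose c hc using this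
  exact ⟨c, hc⟩

/-- Existence of the maximal vertex of a face. -/
lemma exists_vertex {n : K → E d} {h : K → ℝ} {u : E d} (hs : SP n h) (hg : Gen n u)
    {c : Finset K → K → ℝ} (hc : ∀ t ∈ Vt n h, ∑ i ∈ t, c t i • n i = u)
    {I : Finset K} (hne : (Fc n h I).Nonempty) :
    ∃ t ∈ Vt n h, I ⊆ t ∧ ∀ i ∈ t, c t i < 0 → i ∈ I := by
  obtain ⟨x, hx, hmax⟩ := (isCompact_Fc hs.bdd I).exists_isMaxOn hne
    (f := fun x => ⟪u, x⟫_ℝ) (by fun_prop)
  set A : Finset K := Finset.univ.filter (fun i => ⟪n i, x⟫_ℝ = h i) with hA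
  have hmemA : ∀ i, i ∈ A ↔ ⟪n i, x⟫_ℝ = h i := by intro i; simp [hA]
  have hxA : x ∈ Fc n h A := ⟨hx.1, fun i hi => (hmemA i).1 hi⟩
  have hAd : A.card ≤ d := hs.le A ⟨x, hxA⟩
  have hIA : I ⊆ A := fun i hi => (hmemA i).2 (hx.2 i hi)
  have hmove : ∀ e : E d, (∀ i ∈ A, ⟪n i, e⟫_ℝ ≤ 0) → (∀ i ∈ I, ⟪n i, e⟫_ℝ = 0) →
      0 < ⟪u, e⟫_ℝ → False := by
    intro e h1 h2 h3
    obtain ⟨ε, hε, hε'⟩ := exists_move n h hx.1 (e := e) (fun i hi => h1 i ((hmemA i).2 hi))
    have h4 : x + ε • e ∈ Fc n h I := by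
      refine ⟨hε', fun i hi => ?_⟩
      rw [inner_add_right, inner_smul_right, h2 i hi, hx.2 i hi]
      ring
    have h5 : ⟪u, x + ε • e⟫_ℝ ≤ ⟪u, x⟫_ℝ := hmax h4
    rw [inner_add_right, inner_smul_right] at h5
    nlinarith
  have hA2 : A.card = d := by
    by_contra hcon
    have h1 : A.card < d := by omega
    obtain ⟨e, he1, he2⟩ := exists_orth (hg A h1)
    exact hmove e (fun k hk => (he1 _ (Submodule.subset_span ⟨⟨k, hk⟩, rfl⟩)).le)
      (fun k hk => he1 _ (Submodule.subset_span ⟨⟨k, hIA hk⟩, rfl⟩)) he2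
  have hAV : A ∈ Vt n h := mem_Vt.2 ⟨hA2, x, hxA⟩
  refine ⟨A, hAV, hIA, fun i hi hci => ?_⟩
  by_contra hiI
  -- the normal number i is not in the span of the other normals
  have hli := hs.indep (I := A) ⟨x, hxA⟩
  have hni : n i ∉ Submodule.span ℝ (Set.range (fun j : (A.erase i : Finset K) => n j)) := by
    have h1 := hli.notMem_span_image (s := {j : A | (j : K) ≠ i}) (x := ⟨i, hi⟩) (by simp)
    intro h2
    apply h1
    refine Submodule.span_mono ?_ h2
    rintro _ ⟨j, rfl⟩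
    have hj := Finset.mem_erase.1 j.2
    exact ⟨⟨j, hj.2⟩, hj.1, rfl⟩
  obtain ⟨e, he1, he2⟩ := exists_orth hni
  have he0 : ∀ l ∈ A.erase i, ⟪n l, e⟫_ℝ = 0 := fun l hl =>
    he1 _ (Submodule.subset_span ⟨⟨l, hl⟩, rfl⟩)
  refine hmove (-e) (fun l hl => ?_) (fun l hl => ?_) ?_
  · rw [inner_neg_right]
    by_cases hli : l = i
    · rw [hli]; linarith
    · rw [he0 l (Finset.mem_erase.2 ⟨hli, hl⟩)]; simp
  · rw [inner_neg_right, he0 l (Finset.mem_erase.2 ⟨fun hcon => hiI (hcon ▸ hl), hIA hl⟩), neg_zero]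
  · rw [inner_neg_right, ← hc A hAV, sum_inner, ← Finset.add_sum_erase A _ hi]
    have : ∑ l ∈ A.erase i, ⟪c A l • n l, e⟫_ℝ = 0 := by
      apply Finset.sum_eq_zero
      intro l hl
      rw [real_inner_smul_left, he0 l hl, mul_zero]
    rw [this, add_zero, real_inner_smul_left]
    nlinarith

/-- The active set at a vertex. -/
lemma SP.active_of_Vt {n : K → E d} {h : K → ℝ} (hs : SP n h) {t : Finset K} (ht : t ∈ Vt n h)
    {x : E d} (hx : x ∈ Fc n h t) {i : K} (hi : ⟪n i, x⟫_ℝ = h i) : i ∈ t := by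
  by_contra hcon
  have h1 := hs.le (insert i t) ⟨x, hx.1, fun j hj => by
    rcases Finset.mem_insert.1 hj with rfl | hj
    · exact hi
    · exact hx.2 j hj⟩
  rw [Finset.card_insert_of_notMem hcon, (mem_Vt.1 ht).1] at h1
  omega

omit [Fintype K] [DecidableEq K] in
lemma inner_diff {n : K → E d} {h : K → ℝ} {u : E d} {t : Finset K} {c : K → ℝ}
    (hc : ∑ i ∈ t, c i • n i = u) {x x' : E d} (hx : x ∈ Fc n h t) :
    ⟪u, x'⟫_ℝ - ⟪u, x⟫_ℝ = ∑ i ∈ t, c i * (⟪n i, x'⟫_ℝ - h i) := by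
  rw [← inner_sub_right, ← hc, sum_inner]
  refine Finset.sum_congr rfl fun i hi => ?_
  rw [real_inner_smul_left, inner_sub_right, hx.2 i hi]

omit [Fintype K] [DecidableEq K] in
/-- A vertex with the sign condition maximises u over the face. -/
lemma le_of_vertex {n : K → E d} {h : K → ℝ} {u : E d} {t I : Finset K} {c : K → ℝ}
    (hc : ∑ i ∈ t, c i • n i = u) (htc : ∀ i ∈ t, c i < 0 → i ∈ I)
    {x x' : E d} (hx : x ∈ Fc n h t) (hx' : x' ∈ Fc n h I) :
    (∀ i ∈ t, c i * (⟪n i, x'⟫_ℝ - h i) ≤ 0) ∧ ⟪u, x'⟫_ℝ ≤ ⟪u, x⟫_ℝ := by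
  have h2 : ∀ i ∈ t, c i * (⟪n i, x'⟫_ℝ - h i) ≤ 0 := by
    intro i hi
    by_cases hiI : i ∈ I
    · rw [hx'.2 i hiI, sub_self, mul_zero]
    · have h3 : 0 ≤ c i := not_lt.1 fun hcon => hiI (htc i hi hcon)
      exact mul_nonpos_of_nonneg_of_nonpos h3 (sub_nonpos.2 (hx'.1 i))
  refine ⟨h2, ?_⟩
  have h3 := inner_diff hc hx (x' := x')
  have h4 := Finset.sum_nonpos h2
  linarith

/-- Uniqueness of the maximal vertex. -/
lemma unique_vertex {n : K → E d} {h : K → ℝ} {u : E d} (hs : SP n h) (hg : Gen n u)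
    {c : Finset K → K → ℝ} (hc : ∀ t ∈ Vt n h, ∑ i ∈ t, c t i • n i = u)
    {I t t' : Finset K} (ht : t ∈ Vt n h) (hIt : I ⊆ t) (htc : ∀ i ∈ t, c t i < 0 → i ∈ I)
    (ht' : t' ∈ Vt n h) (hIt' : I ⊆ t') (htc' : ∀ i ∈ t', c t' i < 0 → i ∈ I) : t = t' := by
  obtain ⟨x, hx⟩ := (mem_Vt.1 ht).2
  obtain ⟨x', hx'⟩ := (mem_Vt.1 ht').2
  have h1 := le_of_vertex (hc t ht) htc hx (Fc_mono n h hIt' hx')
  have h2 := le_of_vertex (hc t' ht') htc' hx' (Fc_mono n h hIt hx)
  have h3 := inner_diff (hc t ht) hx (x' := x')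
  have h4 : ∑ i ∈ t, c t i * (⟪n i, x'⟫_ℝ - h i) = 0 :=
    le_antisymm (Finset.sum_nonpos h1.1) (by linarith [h2.2])
  have h5 := (Finset.sum_eq_zero_iff_of_nonpos h1.1).1 h4
  have h6 : t ⊆ t' := by
    intro i hi
    rcases mul_eq_zero.1 (h5 i hi) with h7 | h7
    · exact absurd h7 (coef_ne_zero hg (mem_Vt.1 ht).1 (hc t ht) hi)
    · exact hs.active_of_Vt ht' hx' (by linarith)
  exact Finset.eq_of_subset_of_card_le h6 (by rw [(mem_Vt.1 ht).1, (mem_Vt.1 ht').1])

/-- The maximum of a functional over a set. -/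
noncomputable def mx (u : E d) (C : Set (E d)) : ℝ := sSup ((fun x => ⟪x, u⟫_ℝ) '' C)

/-- A point of the face. -/
noncomputable def pt (n : K → E d) (h : K → ℝ) (t : Finset K) : E d := by
  classical exact if ht : (Fc n h t).Nonempty then ht.choose else 0

omit [Fintype K] [DecidableEq K] in
lemma pt_mem {n : K → E d} {h : K → ℝ} {t : Finset K} (ht : (Fc n h t).Nonempty) :
    pt n h t ∈ Fc n h t := by
  unfold pt
  rw [dif_pos ht]
  exact ht.choose_spec

omit [DecidableEq K] in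
lemma mx_eq {n : K → E d} {h : K → ℝ} {u : E d}
    {c : Finset K → K → ℝ} (hc : ∀ t ∈ Vt n h, ∑ i ∈ t, c t i • n i = u)
    {I t : Finset K} (ht : t ∈ Vt n h) (hIt : I ⊆ t) (htc : ∀ i ∈ t, c t i < 0 → i ∈ I) :
    mx u (Fc n h I) = ⟪pt n h t, u⟫_ℝ := by
  have h1 := pt_mem (mem_Vt.1 ht).2
  have h2 : IsGreatest ((fun x => ⟪x, u⟫_ℝ) '' Fc n h I) ⟪pt n h t, u⟫_ℝ := by
    refine ⟨⟨_, Fc_mono n h hIt h1, rfl⟩, ?_⟩
    rintro _ ⟨x, hx, rfl⟩
    have := (le_of_vertex (hc t ht) htc h1 hx).2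
    simpa only [real_inner_comm] using this
  exact h2.csSup_eq

omit [Fintype K] in
lemma cnt {t D : Finset K} (hD : D ⊆ t) (k : ℕ) :
    ((t.powersetCard k).filter (fun I => D ⊆ I)).card =
      if D.card ≤ k then (t.card - D.card).choose (k - D.card) else 0 := by
  split_ifs with hk
  · rw [← Finset.card_sdiff_of_subset hD, ← Finset.card_powersetCard]
    refine Finset.card_nbij' (fun I => I \ D) (fun J => J ∪ D) ?_ ?_ ?_ ?_
    · intro I hI
      simp only [Finset.coe_filter, Finset.mem_powersetCard, Set.mem_ofPred_eq] at hI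
      simp only [Finset.mem_coe, Finset.mem_powersetCard]
      refine ⟨Finset.sdiff_subset_sdiff hI.1.1 le_rfl, ?_⟩
      rw [Finset.card_sdiff_of_subset hI.2, hI.1.2]
    · intro J hJ
      simp only [Finset.mem_coe, Finset.mem_powersetCard] at hJ
      simp only [Finset.mem_coe, Finset.mem_filter, Finset.mem_powersetCard]
      refine ⟨⟨Finset.union_subset (hJ.1.trans Finset.sdiff_subset) hD, ?_⟩,
        Finset.subset_union_right⟩
      rw [Finset.card_union_of_disjoint, hJ.2]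
      · omega
      · exact Finset.disjoint_of_subset_left hJ.1 Finset.sdiff_disjoint
    · intro I hI
      simp only [Finset.mem_coe, Finset.mem_filter, Finset.mem_powersetCard] at hI
      exact Finset.sdiff_union_of_subset hI.2
    · intro J hJ
      simp only [Finset.mem_coe, Finset.mem_powersetCard] at hJ
      exact Finset.union_sdiff_cancel_right
        (Finset.disjoint_of_subset_left hJ.1 Finset.sdiff_disjoint)
  · rw [Finset.card_eq_zero, Finset.filter_eq_empty_iff]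
    intro I hI hDI
    rw [Finset.mem_powersetCard] at hI
    exact hk (hI.2 ▸ Finset.card_le_card hDI)

/-- The sum of the maxima over the faces of codimension k. -/
lemma sum_mx {n : K → E d} {h : K → ℝ} {u : E d} (hs : SP n h) (hg : Gen n u)
    {c : Finset K → K → ℝ} (hc : ∀ t ∈ Vt n h, ∑ i ∈ t, c t i • n i = u) (k : ℕ) :
    ∑ I ∈ Ek n h k, mx u (Fc n h I) = ∑ t ∈ Vt n h,
      (((t.powersetCard k).filter (fun I => t.filter (fun i => c t i < 0) ⊆ I)).card : ℝ) *
        ⟪pt n h t, u⟫_ℝ := by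
  have e1 : ∀ t ∈ Vt n h,
      (((t.powersetCard k).filter (fun I => t.filter (fun i => c t i < 0) ⊆ I)).card : ℝ) *
        ⟪pt n h t, u⟫_ℝ =
      ∑ I ∈ (t.powersetCard k).filter (fun I => t.filter (fun i => c t i < 0) ⊆ I),
        ⟪pt n h t, u⟫_ℝ := by
    intro t _
    rw [Finset.sum_const, nsmul_eq_mul]
  rw [Finset.sum_congr rfl e1, Finset.sum_sigma']
  symm
  refine Finset.sum_nbij (fun p => p.2) ?_ ?_ ?_ ?_
  · rintro ⟨t, I⟩ hp
    simp only [Finset.mem_sigma, Finset.mem_filter, Finset.mem_powersetCard] at hp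
    exact mem_Ek.2 ⟨hp.2.1.2, (mem_Vt.1 hp.1).2.mono (Fc_mono n h hp.2.1.1)⟩
  · rintro ⟨t, I⟩ hp ⟨t', I'⟩ hp' heq
    simp only [Finset.mem_coe, Finset.mem_sigma, Finset.mem_filter, Finset.mem_powersetCard]
      at hp hp'
    simp only at heq
    subst heq
    have : t = t' := unique_vertex hs hg hc hp.1 hp.2.1.1
      (fun i hi hci => hp.2.2 (Finset.mem_filter.2 ⟨hi, hci⟩)) hp'.1 hp'.2.1.1
      (fun i hi hci => hp'.2.2 (Finset.mem_filter.2 ⟨hi, hci⟩))
    subst this
    rfl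
  · intro I hI
    have hI' := mem_Ek.1 hI
    obtain ⟨t, ht1, ht3, ht4⟩ := exists_vertex hs hg hc hI'.2
    refine ⟨⟨t, I⟩, ?_, rfl⟩
    simp only [Finset.mem_coe, Finset.mem_sigma, Finset.mem_filter, Finset.mem_powersetCard]
    refine ⟨ht1, ⟨ht3, hI'.1⟩, fun i hi => ?_⟩
    rw [Finset.mem_filter] at hi
    exact ht4 i hi.1 hi.2
  · rintro ⟨t, I⟩ hp
    simp only [Finset.mem_sigma, Finset.mem_filter, Finset.mem_powersetCard] at hp
    exact (mx_eq hc hp.1 hp.2.1.1 (fun i hi hci => hp.2.2 (Finset.mem_filter.2 ⟨hi, hci⟩))).symm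

/-- The identity for dimension four. -/
lemma identity4 {n : K → E 4} {h : K → ℝ} {u : E 4} (hs : SP n h) (hg : Gen n u) :
    ∑ I ∈ Ek n h 3, (mx u (Fc n h I) + mx (-u) (Fc n h I)) +
      4 * ∑ I ∈ Ek n h 0, (mx u (Fc n h I) + mx (-u) (Fc n h I)) =
      2 * ∑ I ∈ Ek n h 1, (mx u (Fc n h I) + mx (-u) (Fc n h I)) := by
  obtain ⟨c, hc⟩ := exists_coef hs u
  have hc' : ∀ t ∈ Vt n h, ∑ i ∈ t, (fun (t : Finset K) i => - c t i) t i • n i = -u := by
    intro t ht
    rw [← hc t ht, ← Finset.sum_neg_distrib]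
    exact Finset.sum_congr rfl fun i _ => by rw [neg_smul]
  simp only [Finset.sum_add_distrib]
  rw [sum_mx hs hg hc, sum_mx hs hg hc, sum_mx hs hg hc, sum_mx hs hg.neg hc',
    sum_mx hs hg.neg hc', sum_mx hs hg.neg hc', ← Finset.sum_add_distrib, ← Finset.sum_add_distrib,
    ← Finset.sum_add_distrib, Finset.mul_sum, Finset.mul_sum, ← Finset.sum_add_distrib]
  refine Finset.sum_congr rfl fun t ht => ?_
  have ht4 := (mem_Vt.1 ht).1
  rw [cnt (Finset.filter_subset _ _), cnt (Finset.filter_subset _ _),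
    cnt (Finset.filter_subset _ _), cnt (Finset.filter_subset _ _),
    cnt (Finset.filter_subset _ _), cnt (Finset.filter_subset _ _), ht4, inner_neg_right]
  have hsum : (t.filter (fun i => c t i < 0)).card + (t.filter (fun i => - c t i < 0)).card
      = 4 := by
    rw [← Finset.card_union_of_disjoint, ← Finset.filter_or]
    · rw [← ht4]
      congr 1
      rw [Finset.filter_eq_self]
      intro i hi
      have := coef_ne_zero hg ht4 (hc t ht) hi
      rcases lt_or_gt_of_ne this with h1 | h1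
      · left; exact h1
      · right; linarith
    · rw [Finset.disjoint_filter]
      intro i _ h1 h2
      linarith
  generalize (t.filter (fun i => c t i < 0)).card = a at *
  generalize (t.filter (fun i => - c t i < 0)).card = b at *
  have ha : a ≤ 4 := by omega
  obtain rfl : b = 4 - a := by omega
  interval_cases a <;> simp <;> ring

end SA
end SP4
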