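import Pool.Agent.SP4.General1
import Pool.Agent.SP4.Edges
import Pool.Agent.SP4.Simp1

/-!
Row E4: the edge formula for all 4-polytopes. An edge contained in k facets is counted k - 2 times.

The section of the polytope by a generic hyperplane of given level of u is a three-dimensional
polytope whose vertices are the points of the edges. For a second generic functional w, each vertex
is the highest or the lowest point of all but two of the facets through it (of all of them, if it is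
the highest or the lowest point of the section), and each facet has one highest and one lowest point.
-/

open MeasureTheory Set Filter Topology
open scoped ENNReal InnerProductSpace

namespace SP4

open Melzak (E IsPolytope IsKFace zeta)

variable {d : ℕ} {ι : Type*}

/-! ### Active constraints -/

/-- The set of active constraints. -/
noncomputable def e4_act [Fintype ι] (n : ι → E d) (h : ι → ℝ) (x : E d) : Finset ι := by
  classical exact Finset.univ.filter fun i => ⟪n i, x⟫_ℝ = h i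

lemma e4_mem_act [Fintype ι] {n : ι → E d} {h : ι → ℝ} {x : E d} {i : ι} :
    i ∈ e4_act n h x ↔ ⟪n i, x⟫_ℝ = h i := by simp [e4_act]

/-- The span of a set of normals. -/
def e4_sp (n : ι → E d) (t : Finset ι) : Submodule ℝ (E d) := Submodule.span ℝ (n '' (t : Set ι))

lemma e4_orth {n : ι → E d} {t : Finset ι} {v : E d} :
    v ∈ (e4_sp n t)ᗮ ↔ ∀ i ∈ t, ⟪n i, v⟫_ℝ = 0 := by
  rw [e4_sp, e4_mem_orth]
  constructor
  · intro h i hi
    exact h _ ⟨i, hi, rfl⟩
  · rintro h _ ⟨i, hi, rfl⟩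
    exact h i hi

lemma e4_mem_sp {n : ι → E d} {t : Finset ι} {i : ι} (hi : i ∈ t) : n i ∈ e4_sp n t :=
  Submodule.subset_span ⟨i, hi, rfl⟩

lemma e4_sp_mono {n : ι → E d} {t t' : Finset ι} (h : t ⊆ t') : e4_sp n t ≤ e4_sp n t' :=
  Submodule.span_mono (Set.image_mono (by exact_mod_cast h))

lemma e4_self_mem [Fintype ι] {n : ι → E d} {h : ι → ℝ} {x : E d} (hx : x ∈ Poly n h) :
    x ∈ FacT n h (e4_act n h x) := ⟨hx, fun _ hi => e4_mem_act.1 hi⟩

lemma e4_subset_act [Fintype ι] {n : ι → E d} {h : ι → ℝ} {x : E d} {t : Finset ι}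
    (hx : x ∈ FacT n h t) : t ⊆ e4_act n h x := fun i hi => e4_mem_act.2 (hx.2 i hi)

lemma e4_finrank_orth (n : ι → E d) (t : Finset ι) :
    Module.finrank ℝ (e4_sp n t) + Module.finrank ℝ ((e4_sp n t)ᗮ : Submodule ℝ (E d)) = d := by
  rw [Submodule.finrank_add_finrank_orthogonal]; simp

lemma e4_finrank_le (n : ι → E d) (t : Finset ι) : Module.finrank ℝ (e4_sp n t) ≤ t.card := by
  have h1 := finrank_range_le_card (R := ℝ) (fun i : t => n i)
  have h2 : Set.range (fun i : t => n i) = n '' (t : Set ι) := by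
    rw [Set.image_eq_range]; rfl
  rw [Set.finrank, h2, Fintype.card_coe] at h1
  exact h1

/-- Small moves. -/
lemma e4_move [Fintype ι] {n : ι → E d} {h : ι → ℝ} {x e : E d} (hx : x ∈ Poly n h)
    (he : ∀ i ∈ e4_act n h x, ⟪n i, e⟫_ℝ ≤ 0) : ∃ ε : ℝ, 0 < ε ∧ x + ε • e ∈ Poly n h :=
  SA.exists_move n h hx fun i hi => he i (e4_mem_act.2 hi)

/-- The face determined by the active constraints of a point. -/
lemma e4_face' [Fintype ι] {n : ι → E d} {h : ι → ℝ} {x : E d} (hx : x ∈ Poly n h) :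
    IsExposed ℝ (Poly n h) (FacT n h (e4_act n h x)) ∧
      vectorSpan ℝ (FacT n h (e4_act n h x)) = (e4_sp n (e4_act n h x))ᗮ := by
  constructor
  · intro _
    refine ⟨innerSL ℝ (∑ i ∈ e4_act n h x, n i), ?_⟩
    have key : ∀ y ∈ Poly n h, ⟪∑ i ∈ e4_act n h x, n i, y⟫_ℝ ≤ ∑ i ∈ e4_act n h x, h i := by
      intro y hy
      rw [sum_inner]
      exact Finset.sum_le_sum fun i _ => hy i
    ext y
    constructor
    · rintro ⟨h1, h2⟩
      refine ⟨h1, fun z hz => ?_⟩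
      simp only [innerSL_apply_apply]
      refine (key z hz).trans (le_of_eq ?_)
      rw [sum_inner]
      exact (Finset.sum_congr rfl fun i hi => h2 i hi).symm
    · rintro ⟨h1, h2⟩
      have h3 := h2 x hx
      simp only [innerSL_apply_apply] at h3
      have h4 : ⟪∑ i ∈ e4_act n h x, n i, x⟫_ℝ = ∑ i ∈ e4_act n h x, h i := by
        rw [sum_inner]
        exact Finset.sum_congr rfl fun i hi => e4_mem_act.1 hi
      rw [h4, sum_inner] at h3
      have h5 : ∑ i ∈ e4_act n h x, ⟪n i, y⟫_ℝ = ∑ i ∈ e4_act n h x, h i :=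
        le_antisymm (Finset.sum_le_sum fun i _ => h1 i) h3
      exact ⟨h1, fun i hi => (Finset.sum_eq_sum_iff_of_le fun i _ => h1 i).1 h5 i hi⟩
  · apply le_antisymm
    · intro v hv
      rw [e4_orth]
      intro i hi
      rw [vectorSpan_def] at hv
      have : Submodule.span ℝ (FacT n h (e4_act n h x) -ᵥ FacT n h (e4_act n h x)) ≤
          LinearMap.ker (innerₛₗ ℝ (n i)) := by
        rw [Submodule.span_le]
        rintro _ ⟨a, ha, b, hb, rfl⟩
        simp [vsub_eq_sub, inner_sub_right, ha.2 i hi, hb.2 i hi]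
      simpa using this hv
    · intro v hv
      rw [e4_orth] at hv
      obtain ⟨ε, hε, hmem⟩ := e4_move hx (fun i hi => (hv i hi).le)
      have h1 : x + ε • v ∈ FacT n h (e4_act n h x) := by
        refine ⟨hmem, fun i hi => ?_⟩
        rw [inner_add_right, inner_smul_right, hv i hi, e4_mem_act.1 hi, mul_zero, add_zero]
      have h3 : (x + ε • v) -ᵥ x ∈ vectorSpan ℝ (FacT n h (e4_act n h x)) :=
        vsub_mem_vectorSpan ℝ h1 (e4_self_mem hx)
      have h4 := Submodule.smul_mem _ ε⁻¹ h3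
      simpa [vsub_eq_sub, smul_smul, hε.ne'] using h4

/-- The faces of a polyhedron. -/
lemma e4_face_iff [Fintype ι] {n : ι → E d} {h : ι → ℝ} (k : ℕ) (F : Set (E d)) :
    IsKFace k (Poly n h) F ↔ ∃ x ∈ Poly n h, F = FacT n h (e4_act n h x) ∧
      Module.finrank ℝ ((e4_sp n (e4_act n h x))ᗮ : Submodule ℝ (E d)) = k := by
  classical
  constructor
  · rintro ⟨hne, hexp, hrk⟩
    have hsub : F ⊆ Poly n h := hexp.subset
    have hconv : Convex ℝ F := hexp.convex (convex_Poly n h)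
    obtain ⟨x₀, hx₀, hmin⟩ := WellFounded.has_min
      (measure fun x : E d => (e4_act n h x).card).wf F hne
    have hact : ∀ x ∈ F, e4_act n h x₀ ⊆ e4_act n h x := by
      intro x hx i hi
      rw [e4_mem_act] at hi ⊢
      by_contra hxi
      have hm : (1 / 2 : ℝ) • x₀ + (1 / 2 : ℝ) • x ∈ F := hconv hx₀ hx (by norm_num) (by norm_num)
        (by norm_num)
      apply hmin _ hm
      change (e4_act n h ((1 / 2 : ℝ) • x₀ + (1 / 2 : ℝ) • x)).card < (e4_act n h x₀).card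
      apply Finset.card_lt_card
      rw [Finset.ssubset_iff_of_subset]
      · refine ⟨i, e4_mem_act.2 hi, ?_⟩
        rw [e4_mem_act, inner_add_right, inner_smul_right, inner_smul_right, hi]
        intro h3
        exact hxi (by linarith)
      · intro j hj
        rw [e4_mem_act, inner_add_right, inner_smul_right, inner_smul_right] at hj
        rw [e4_mem_act]
        have h1 := hsub hx₀ j
        have h2 := hsub hx j
        linarith
    have hFeq : F = FacT n h (e4_act n h x₀) := by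
      obtain ⟨l, hl⟩ := hexp hne
      apply Set.Subset.antisymm
      · intro x hx
        exact ⟨hsub hx, fun i hi => e4_mem_act.1 (hact x hx hi)⟩
      · rintro x ⟨hxP, hxa⟩
        obtain ⟨ε, hε, h2⟩ := e4_move (e := -(x - x₀)) (hsub hx₀) (by
          intro i hi
          rw [inner_neg_right, inner_sub_right, hxa i hi, e4_mem_act.1 hi, sub_self, neg_zero])
        rw [hl] at hx₀ ⊢
        refine ⟨hxP, fun y hy => (hx₀.2 y hy).trans ?_⟩
        have h3 := hx₀.2 _ h2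
        rw [map_add, map_smul, map_neg, map_sub, smul_eq_mul] at h3
        have : 0 ≤ ε * (l x - l x₀) := by linarith
        have := nonneg_of_mul_nonneg_right this hε
        linarith
    refine ⟨x₀, hsub hx₀, hFeq, ?_⟩
    rw [← (e4_face' (hsub hx₀)).2, ← hFeq]
    exact hrk
  · rintro ⟨x, hx, rfl, hrk⟩
    refine ⟨⟨x, e4_self_mem hx⟩, (e4_face' hx).1, ?_⟩
    rw [(e4_face' hx).2]
    exact hrk

/-- The facets of an irredundant system. -/
lemma e4_facet_iff [Fintype ι] {n : ι → E 4} {h : ι → ℝ} (hg : Good n h) (F : Set (E 4)) :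
    IsKFace 3 (Poly n h) F ↔ ∃ i, F = Fac n h i := by
  have hsing : ∀ i, Fac n h i = FacT n h {i} := by
    intro i
    ext x
    simp [Fac, FacT]
  have hn0 : ∀ i, n i ≠ 0 := by
    intro i h0
    have := hg.unit i
    rw [h0, norm_zero] at this
    exact zero_ne_one this
  rw [e4_face_iff]
  constructor
  · rintro ⟨x, hx, rfl, hrk⟩
    have h1 := e4_finrank_orth n (e4_act n h x)
    have h2 : Module.finrank ℝ (e4_sp n (e4_act n h x)) = 1 := by omega
    obtain ⟨i, hi⟩ : (e4_act n h x).Nonempty := by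
      rw [Finset.nonempty_iff_ne_empty]
      intro h0
      have h3 := e4_finrank_le n (e4_act n h x)
      rw [h2, h0, Finset.card_empty] at h3
      omega
    refine ⟨i, ?_⟩
    rw [hsing]
    congr 1
    refine Finset.Subset.antisymm ?_ (by rw [Finset.singleton_subset_iff]; exact hi)
    intro j hj
    rw [Finset.mem_singleton]
    by_contra hji
    have hni : (⟨n i, e4_mem_sp hi⟩ : e4_sp n (e4_act n h x)) ≠ 0 := by
      intro h0
      exact hn0 i (congrArg Subtype.val h0)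
    obtain ⟨c, hc⟩ := (finrank_eq_one_iff_of_nonzero' _ hni).1 h2 ⟨n j, e4_mem_sp hj⟩
    have hc' : c • n i = n j := congrArg Subtype.val hc
    have hcabs : |c| = 1 := by
      have := hg.unit j
      rw [← hc', norm_smul, hg.unit i, mul_one, Real.norm_eq_abs] at this
      exact this
    rw [e4_mem_act] at hi hj
    have hhj : h j = c * h i := by rw [← hj, ← hc', real_inner_smul_left, hi]
    rcases (abs_eq (by norm_num)).1 hcabs with h3 | h3
    · obtain ⟨y, hy1, hy2⟩ := hg.irr i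
      have h4 := hy2 j hji
      rw [← hc', real_inner_smul_left, hy1, hhj] at h4
      exact lt_irrefl _ h4
    · obtain ⟨z, hz⟩ := hg.slater
      have h4 := hz i
      have h5 := hz j
      rw [← hc', real_inner_smul_left, hhj, h3] at h5
      linarith
  · rintro ⟨i, rfl⟩
    obtain ⟨y, hy1, hy2⟩ := hg.irr i
    have hy : y ∈ Poly n h := by
      intro j
      by_cases hj : j = i
      · rw [hj]; exact hy1.le
      · exact (hy2 j hj).le
    have hact : e4_act n h y = {i} := by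
      ext j
      rw [e4_mem_act, Finset.mem_singleton]
      constructor
      · intro hj
        by_contra hji
        exact (hy2 j hji).ne hj
      · rintro rfl
        exact hy1
    refine ⟨y, hy, ?_, ?_⟩
    · rw [hact, hsing]
    · rw [hact]
      have h1 := e4_finrank_orth n {i}
      have h2 : Module.finrank ℝ (e4_sp n {i}) = 1 := by
        rw [e4_sp, Finset.coe_singleton, Set.image_singleton]
        exact finrank_span_singleton (hn0 i)
      omega

/-! ### Edges -/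

/-- The sets of active constraints which determine the edges. -/
noncomputable def e4_edges [Fintype ι] (n : ι → E d) (h : ι → ℝ) : Finset (Finset ι) := by
  classical exact Finset.univ.filter fun I => (∃ x ∈ Poly n h, e4_act n h x = I) ∧
    Module.finrank ℝ ((e4_sp n I)ᗮ : Submodule ℝ (E d)) = 1

lemma e4_mem_edges [Fintype ι] {n : ι → E d} {h : ι → ℝ} {I : Finset ι} :
    I ∈ e4_edges n h ↔ (∃ x ∈ Poly n h, e4_act n h x = I) ∧
      Module.finrank ℝ ((e4_sp n I)ᗮ : Submodule ℝ (E d)) = 1 := by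
  simp [e4_edges]

/-- The direction of an edge. -/
lemma e4_line {n : ι → E d} {I : Finset ι} {u : E d}
    (hI : Module.finrank ℝ ((e4_sp n I)ᗮ : Submodule ℝ (E d)) = 1) (hu : u ∉ e4_sp n I) :
    ∃ e : E d, 0 < ⟪u, e⟫_ℝ ∧ (∀ i ∈ I, ⟪n i, e⟫_ℝ = 0) ∧
      ∀ v, (∀ i ∈ I, ⟪n i, v⟫_ℝ = 0) → ∃ c : ℝ, v = c • e := by
  obtain ⟨e, he1, he2⟩ := e4_exists_orth hu
  have he3 : ∀ i ∈ I, ⟪n i, e⟫_ℝ = 0 := fun i hi => he1 _ (e4_mem_sp hi)
  refine ⟨e, he2, he3, fun v hv => ?_⟩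
  have hne : (⟨e, e4_orth.2 he3⟩ : ((e4_sp n I)ᗮ : Submodule ℝ (E d))) ≠ 0 := by
    intro h0
    have h1 : e = 0 := congrArg Subtype.val h0
    rw [h1, inner_zero_right] at he2
    exact lt_irrefl _ he2
  obtain ⟨c, hc⟩ := (finrank_eq_one_iff_of_nonzero' _ hne).1 hI ⟨v, e4_orth.2 hv⟩
  exact ⟨c, (congrArg Subtype.val hc).symm⟩

lemma e4_line_zero {n : ι → E d} {I : Finset ι} {u : E d}
    (hI : Module.finrank ℝ ((e4_sp n I)ᗮ : Submodule ℝ (E d)) = 1) (hu : u ∉ e4_sp n I)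
    {v : E d} (hv : ∀ i ∈ I, ⟪n i, v⟫_ℝ = 0) (huv : ⟪u, v⟫_ℝ = 0) : v = 0 := by
  obtain ⟨e, he1, -, he3⟩ := e4_line hI hu
  obtain ⟨c, rfl⟩ := he3 v hv
  rw [inner_smul_right] at huv
  rw [(mul_eq_zero.1 huv).resolve_right he1.ne', zero_smul]

/-- The active constraints at a point of an edge at a generic level. -/
lemma e4_act_eq [Fintype ι] {n : ι → E d} {h : ι → ℝ} {I : Finset ι} (hI : I ∈ e4_edges n h)
    {u X : E d} (hX : X ∈ FacT n h I) (hu : u ∉ e4_sp n (e4_act n h X)) : e4_act n h X = I := by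
  obtain ⟨⟨x, hx, hxI⟩, hrk⟩ := e4_mem_edges.1 hI
  have hsub := e4_subset_act hX
  refine Finset.Subset.antisymm ?_ hsub
  obtain ⟨e, he1, he2⟩ := e4_exists_orth hu
  have he3 : ∀ i ∈ e4_act n h X, ⟪n i, e⟫_ℝ = 0 := fun i hi => he1 _ (e4_mem_sp hi)
  have hne : (⟨e, e4_orth.2 fun i hi => he3 i (hsub hi)⟩ :
      ((e4_sp n I)ᗮ : Submodule ℝ (E d))) ≠ 0 := by
    intro h0
    have h1 : e = 0 := congrArg Subtype.val h0
    rw [h1, inner_zero_right] at he2
    exact lt_irrefl _ he2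
  have hxX : ∀ i ∈ I, ⟪n i, x - X⟫_ℝ = 0 := by
    intro i hi
    rw [inner_sub_right, hX.2 i hi, e4_mem_act.1 (by rw [hxI]; exact hi), sub_self]
  obtain ⟨c, hc⟩ := (finrank_eq_one_iff_of_nonzero' _ hne).1 hrk ⟨x - X, e4_orth.2 hxX⟩
  have hc' : c • e = x - X := congrArg Subtype.val hc
  intro j hj
  rw [← hxI, e4_mem_act]
  have h1 : x = X + c • e := by rw [hc']; abel
  rw [h1, inner_add_right, inner_smul_right, he3 j hj, e4_mem_act.1 hj, mul_zero, add_zero]

/-- A point of the polytope where the active normals and u span everything lies on an edge. -/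
lemma e4_edge_of_span [Fintype ι] {n : ι → E d} {h : ι → ℝ} {x u : E d} (hx : x ∈ Poly n h)
    (hu : u ∉ e4_sp n (e4_act n h x))
    (htop : Submodule.span ℝ (insert u (n '' (e4_act n h x : Set ι))) = ⊤) :
    e4_act n h x ∈ e4_edges n h := by
  refine e4_mem_edges.2 ⟨⟨x, hx, rfl⟩, ?_⟩
  obtain ⟨e, he1, he2⟩ := e4_exists_orth hu
  have he3 : ∀ i ∈ e4_act n h x, ⟪n i, e⟫_ℝ = 0 := fun i hi => he1 _ (e4_mem_sp hi)
  have hne : (⟨e, e4_orth.2 he3⟩ : ((e4_sp n (e4_act n h x))ᗮ : Submodule ℝ (E d))) ≠ 0 := by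
    intro h0
    have h1 : e = 0 := congrArg Subtype.val h0
    rw [h1, inner_zero_right] at he2
    exact lt_irrefl _ he2
  rw [finrank_eq_one_iff_of_nonzero' _ hne]
  rintro ⟨v, hv⟩
  rw [e4_orth] at hv
  refine ⟨⟪u, v⟫_ℝ / ⟪u, e⟫_ℝ, ?_⟩
  apply Subtype.ext
  change (⟪u, v⟫_ℝ / ⟪u, e⟫_ℝ) • e = v
  have h0 : v - (⟪u, v⟫_ℝ / ⟪u, e⟫_ℝ) • e = 0 := by
    have hmem : v - (⟪u, v⟫_ℝ / ⟪u, e⟫_ℝ) • e ∈
        Submodule.span ℝ (insert u (n '' (e4_act n h x : Set ι))) := by rw [htop]; trivial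
    rw [← inner_self_eq_zero (𝕜 := ℝ)]
    refine e4_inner_span ?_ hmem
    rintro y (rfl | ⟨i, hi, rfl⟩)
    · rw [inner_sub_right, inner_smul_right, div_mul_cancel₀ _ he2.ne', sub_self]
    · rw [inner_sub_right, inner_smul_right, hv i hi, he3 i hi, mul_zero, sub_zero]
  exact (sub_eq_zero.1 h0).symm

/-! ### The highest point of a face of a section -/

/-- Generic second functional. -/
def e4_gen (n : ι → E d) (u w : E d) : Prop :=
  ∀ t : Finset ι, Submodule.span ℝ (insert u (n '' (t : Set ι))) ≠ ⊤ →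
    w ∉ Submodule.span ℝ (insert u (n '' (t : Set ι)))

lemma e4_gen_neg {n : ι → E d} {u w : E d} (hw : e4_gen n u w) : e4_gen n u (-w) :=
  fun t ht hcon => hw t ht (by rw [← neg_neg w]; exact Submodule.neg_mem _ hcon)

lemma e4_exists_gen [Fintype ι] (n : ι → E d) (u : E d) : ∃ w, e4_gen n u w := by
  classical
  set S : Finset (Subspace ℝ (E d)) := (Finset.univ.image
    (fun t : Finset ι => Submodule.span ℝ (insert u (n '' (t : Set ι))))).filter (fun p => p ≠ ⊤)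
    with hS
  have h1 : (⊤ : Subspace ℝ (E d)) ∉ S := by
    rw [hS, Finset.mem_filter]
    rintro ⟨-, h⟩
    exact h rfl
  have h2 := Subspace.biUnion_ne_univ_of_top_notMem h1
  obtain ⟨w, hw⟩ := (Set.ne_univ_iff_exists_notMem _).1 h2
  refine ⟨w, fun t ht hcon => hw ?_⟩
  rw [Set.mem_iUnion₂]
  refine ⟨_, Finset.mem_filter.2 ⟨Finset.mem_image.2 ⟨t, Finset.mem_univ _, rfl⟩, ht⟩, hcon⟩

lemma e4_top_span [Fintype ι] {n : ι → E d} {h : ι → ℝ} {u w x : E d} {t : Finset ι}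
    (hw : e4_gen n u w) (hx : x ∈ FacT n h t)
    (hmax : ∀ y ∈ FacT n h t, ⟪u, y⟫_ℝ = ⟪u, x⟫_ℝ → ⟪w, y⟫_ℝ ≤ ⟪w, x⟫_ℝ) :
    Submodule.span ℝ (insert u (n '' (e4_act n h x : Set ι))) = ⊤ := by
  by_contra hcon
  obtain ⟨e, he1, he2⟩ := e4_exists_orth (hw _ hcon)
  have heu : ⟪u, e⟫_ℝ = 0 := he1 _ (Submodule.subset_span (Set.mem_insert _ _))
  have hen : ∀ i ∈ e4_act n h x, ⟪n i, e⟫_ℝ = 0 := fun i hi =>
    he1 _ (Submodule.subset_span (Set.mem_insert_of_mem _ ⟨i, hi, rfl⟩))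
  obtain ⟨ε, hε, hmem⟩ := e4_move hx.1 (fun i hi => (hen i hi).le)
  have h1 : x + ε • e ∈ FacT n h t := by
    refine ⟨hmem, fun i hi => ?_⟩
    rw [inner_add_right, inner_smul_right, hen i (e4_subset_act hx hi), hx.2 i hi, mul_zero,
      add_zero]
  have h2 := hmax _ h1 (by rw [inner_add_right, inner_smul_right, heu, mul_zero, add_zero])
  rw [inner_add_right, inner_smul_right] at h2
  nlinarith

lemma e4_max_unique [Fintype ι] {n : ι → E d} {h : ι → ℝ} {u w x x' : E d} {t : Finset ι}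
    (hw : e4_gen n u w) (hx : x ∈ FacT n h t) (hx' : x' ∈ FacT n h t)
    (hu : ⟪u, x'⟫_ℝ = ⟪u, x⟫_ℝ)
    (hmax : ∀ y ∈ FacT n h t, ⟪u, y⟫_ℝ = ⟪u, x⟫_ℝ → ⟪w, y⟫_ℝ ≤ ⟪w, x⟫_ℝ)
    (hmax' : ⟪w, x⟫_ℝ ≤ ⟪w, x'⟫_ℝ) : x' = x := by
  have hwx : ⟪w, x'⟫_ℝ = ⟪w, x⟫_ℝ := le_antisymm (hmax x' hx' hu) hmax'
  set m : E d := (1 / 2 : ℝ) • x + (1 / 2 : ℝ) • x' with hm
  have hmF : m ∈ FacT n h t := convex_FacT n h t hx hx' (by norm_num) (by norm_num) (by norm_num)
  have hmu : ⟪u, m⟫_ℝ = ⟪u, x⟫_ℝ := by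
    rw [hm, inner_add_right, inner_smul_right, inner_smul_right, hu]; ring
  have hmw : ⟪w, m⟫_ℝ = ⟪w, x⟫_ℝ := by
    rw [hm, inner_add_right, inner_smul_right, inner_smul_right, hwx]; ring
  have htop := e4_top_span hw hmF (fun y hy hyu => by
    rw [hmw]; exact hmax y hy (by rw [hyu, hmu]))
  have hact : ∀ i ∈ e4_act n h m, ⟪n i, x' - x⟫_ℝ = 0 := by
    intro i hi
    rw [e4_mem_act, hm, inner_add_right, inner_smul_right, inner_smul_right] at hi
    have h1 := hx.1 i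
    have h2 := hx'.1 i
    rw [inner_sub_right]
    linarith
  have hmem : x' - x ∈ Submodule.span ℝ (insert u (n '' (e4_act n h m : Set ι))) := by
    rw [htop]; trivial
  have h0 : x' - x = 0 := by
    rw [← inner_self_eq_zero (𝕜 := ℝ)]
    refine e4_inner_span ?_ hmem
    rintro y (rfl | ⟨i, hi, rfl⟩)
    · rw [inner_sub_right, hu, sub_self]
    · exact hact i hi
  exact sub_eq_zero.1 h0

lemma e4_exists_max {n : ι → E d} {h : ι → ℝ} (hb : Bornology.IsBounded (Poly n h))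
    {t : Finset ι} {u w : E d} {s : ℝ} (hne : ∃ x ∈ FacT n h t, ⟪u, x⟫_ℝ = s) :
    ∃ x ∈ FacT n h t, ⟪u, x⟫_ℝ = s ∧
      ∀ y ∈ FacT n h t, ⟪u, y⟫_ℝ = ⟪u, x⟫_ℝ → ⟪w, y⟫_ℝ ≤ ⟪w, x⟫_ℝ := by
  have hcl : IsClosed {x : E d | ⟪u, x⟫_ℝ = s} := isClosed_eq (by fun_prop) continuous_const
  have hc : IsCompact (FacT n h t ∩ {x | ⟪u, x⟫_ℝ = s}) := (isCompact_FacT hb t).inter_right hcl
  obtain ⟨x0, hx0, hx0'⟩ := hne
  obtain ⟨x, hx, hmax⟩ := hc.exists_isMaxOn ⟨x0, hx0, hx0'⟩ (f := fun x => ⟪w, x⟫_ℝ) (by fun_prop)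
  refine ⟨x, hx.1, hx.2, fun y hy hyu => ?_⟩
  exact hmax (a := y) ⟨hy, hyu.trans hx.2⟩

/-! ### The count at a vertex of the section -/

/-- x is the highest point of the section of the facet i. -/
def e4_Top (n : ι → E d) (h : ι → ℝ) (u w : E d) (s : ℝ) (x : E d) (i : ι) : Prop :=
  ∀ y ∈ Fac n h i, ⟪u, y⟫_ℝ = s → ⟪w, y⟫_ℝ ≤ ⟪w, x⟫_ℝ

lemma e4_Fac_eq (n : ι → E d) (h : ι → ℝ) (i : ι) : Fac n h i = FacT n h {i} := by
  ext x
  simp [Fac, FacT]

lemma e4_Poly_eq (n : ι → E d) (h : ι → ℝ) : Poly n h = FacT n h ∅ := by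
  ext x
  simp [FacT]

/-- not the highest point -/
lemma e4_not_Top [Fintype ι] {n : ι → E d} {h : ι → ℝ} {u w : E d} {s : ℝ} {x : E d}
    (hx : x ∈ Poly n h) (hxu : ⟪u, x⟫_ℝ = s) {i : ι} (hi : i ∈ e4_act n h x) :
    ¬ e4_Top n h u w s x i ↔ ∃ v, ⟪u, v⟫_ℝ = 0 ∧ (∀ j ∈ e4_act n h x, ⟪n j, v⟫_ℝ ≤ 0) ∧
      ⟪n i, v⟫_ℝ = 0 ∧ 0 < ⟪w, v⟫_ℝ := by
  constructor
  · intro hT
    unfold e4_Top at hT
    push Not at hT
    obtain ⟨y, hy, hyu, hyw⟩ := hT
    refine ⟨y - x, ?_, ?_, ?_, ?_⟩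
    · rw [inner_sub_right, hyu, hxu, sub_self]
    · intro j hj
      rw [inner_sub_right, e4_mem_act.1 hj]
      linarith [hy.1 j]
    · rw [inner_sub_right, hy.2, e4_mem_act.1 hi, sub_self]
    · rw [inner_sub_right]; linarith
  · rintro ⟨v, hv1, hv2, hv3, hv4⟩ hT
    obtain ⟨ε, hε, hmem⟩ := e4_move hx hv2
    have h1 := hT (x + ε • v) ⟨hmem, by
      rw [inner_add_right, inner_smul_right, hv3, e4_mem_act.1 hi, mul_zero, add_zero]⟩ (by
      rw [inner_add_right, inner_smul_right, hv1, hxu, mul_zero, add_zero])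
    rw [inner_add_right, inner_smul_right] at h1
    nlinarith

open Classical in
/-- The count at a vertex of the section. -/
lemma e4_vertex [Fintype ι] {n : ι → E 4} {h : ι → ℝ}
    {u w : E 4} {s : ℝ} (hw : e4_gen n u w)
    (hL : ∀ i, (∃ x ∈ Fac n h i, ⟪u, x⟫_ℝ = s) → ∃ y, ⟪n i, y⟫_ℝ = h i ∧
      (∀ j, j ≠ i → ⟪n j, y⟫_ℝ < h j) ∧ ⟪u, y⟫_ℝ = s)
    {x : E 4} (hx : x ∈ Poly n h) (hxu : ⟪u, x⟫_ℝ = s) (hu : u ∉ e4_sp n (e4_act n h x))
    (hrk : Module.finrank ℝ ((e4_sp n (e4_act n h x))ᗮ : Submodule ℝ (E 4)) = 1) :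
    ((e4_act n h x).filter (fun i => e4_Top n h u w s x i)).card +
      ((e4_act n h x).filter (fun i => e4_Top n h u (-w) s x i)).card =
      ((e4_act n h x).card - 2) +
        2 * (if ∀ y ∈ Poly n h, ⟪u, y⟫_ℝ = s → ⟪w, y⟫_ℝ ≤ ⟪w, x⟫_ℝ then 1 else 0) +
        2 * (if ∀ y ∈ Poly n h, ⟪u, y⟫_ℝ = s → ⟪-w, y⟫_ℝ ≤ ⟪-w, x⟫_ℝ then 1 else 0) := by
  have hcard : 3 ≤ (e4_act n h x).card := by
    have h1 := e4_finrank_orth n (e4_act n h x)
    have h2 := e4_finrank_le n (e4_act n h x)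
    omega
  set I := e4_act n h x with hI
  have hFx : ∀ i ∈ I, x ∈ Fac n h i := fun i hi => ⟨hx, e4_mem_act.1 hi⟩
  -- strict points
  have hstrict : ∀ i ∈ I, ∃ y ∈ Fac n h i, ⟪u, y⟫_ℝ = s ∧ ∀ j, j ≠ i → ⟪n j, y⟫_ℝ < h j := by
    intro i hi
    obtain ⟨y, hy1, hy2, hy3⟩ := hL i ⟨x, hFx i hi, hxu⟩
    refine ⟨y, ⟨fun j => ?_, hy1⟩, hy3, hy2⟩
    by_cases hj : j = i
    · rw [hj]; exact hy1.le
    · exact (hy2 j hj).le
  -- a facet does not have x both as highest and as lowest point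
  have hnb : ∀ i ∈ I, e4_Top n h u w s x i → e4_Top n h u (-w) s x i → False := by
    intro i hi h1 h2
    obtain ⟨y, hy1, hy2, hy3⟩ := hstrict i hi
    have h3 := h2 y hy1 hy2
    rw [inner_neg_left, inner_neg_left, neg_le_neg_iff] at h3
    have h4 : y = x := by
      refine e4_max_unique (t := {i}) hw (by rw [← e4_Fac_eq]; exact hFx i hi)
        (by rw [← e4_Fac_eq]; exact hy1) (by rw [hy2, hxu]) ?_ h3
      intro z hz hzu
      rw [← e4_Fac_eq] at hz
      exact h1 z hz (by rw [hzu, hxu])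
    obtain ⟨j, hj, hji⟩ := Finset.exists_mem_ne (by omega : 1 < I.card) i
    have h5 := hy3 j hji
    rw [h4, e4_mem_act.1 hj] at h5
    exact lt_irrefl _ h5
  have hne : I.Nonempty := Finset.card_pos.1 (by omega)
  obtain ⟨i0, hi0⟩ := hne
  by_cases hmax : ∀ y ∈ Poly n h, ⟪u, y⟫_ℝ = s → ⟪w, y⟫_ℝ ≤ ⟪w, x⟫_ℝ
  · -- the highest point
    have h1 : ∀ i ∈ I, e4_Top n h u w s x i := fun i _ y hy hyu => hmax y hy.1 hyu
    have h2 : ¬ ∀ y ∈ Poly n h, ⟪u, y⟫_ℝ = s → ⟪-w, y⟫_ℝ ≤ ⟪-w, x⟫_ℝ := fun hcon =>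
      hnb i0 hi0 (h1 i0 hi0) fun y hy hyu => hcon y hy.1 hyu
    rw [if_pos hmax, if_neg h2, Finset.filter_true_of_mem h1,
      Finset.filter_false_of_mem (fun i hi hcon => hnb i hi (h1 i hi) hcon), Finset.card_empty]
    omega
  · by_cases hmin : ∀ y ∈ Poly n h, ⟪u, y⟫_ℝ = s → ⟪-w, y⟫_ℝ ≤ ⟪-w, x⟫_ℝ
    · have h1 : ∀ i ∈ I, e4_Top n h u (-w) s x i := fun i _ y hy hyu => hmin y hy.1 hyu
      rw [if_neg hmax, if_pos hmin, Finset.filter_true_of_mem h1,
        Finset.filter_false_of_mem (fun i hi hcon => hnb i hi hcon (h1 i hi)), Finset.card_empty]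
      omega
    · rw [if_neg hmax, if_neg hmin]
      -- the local lemma
      have hloc := e4_local (V := E 4) (by simp) (I := I) (n := n) (u := u) (w := w) (by omega) hu
        (fun v hv1 hv2 => e4_line_zero hrk hu hv2 hv1)
        (by
          intro i hi
          obtain ⟨y, hy1, hy2, hy3⟩ := hstrict i hi
          refine ⟨y - x, ?_, ?_, ?_⟩
          · rw [inner_sub_right, hy2, hxu, sub_self]
          · rw [inner_sub_right, hy1.2, e4_mem_act.1 hi, sub_self]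
          · intro j hj hji
            rw [inner_sub_right, e4_mem_act.1 hj]
            linarith [hy3 j hji])
        (by
          intro i hi j hj _
          have e1 : n '' (({i, j} : Finset ι) : Set ι) = {n i, n j} := by
            rw [Finset.coe_pair, Set.image_pair]
          have h1 := hw {i, j}
          rw [e1] at h1
          apply h1
          intro htop
          have h2 := finrank_range_le_card (R := ℝ) (![u, n i, n j])
          have h3 : Set.range ![u, n i, n j] = {u, n i, n j} := by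
            simp only [Matrix.range_cons, Matrix.range_empty, Set.union_empty, Set.singleton_union]
          rw [Set.finrank, h3, htop, finrank_top] at h2
          simp at h2)
        (by
          push Not at hmax
          obtain ⟨y, hy1, hy2, hy3⟩ := hmax
          refine ⟨y - x, ?_, ?_, ?_⟩
          · rw [inner_sub_right, hy2, hxu, sub_self]
          · intro j hj
            rw [inner_sub_right, e4_mem_act.1 hj]
            linarith [hy1 j]
          · rw [inner_sub_right]; linarith)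
        (by
          push Not at hmin
          obtain ⟨y, hy1, hy2, hy3⟩ := hmin
          rw [inner_neg_left, inner_neg_left] at hy3
          refine ⟨y - x, ?_, ?_, ?_⟩
          · rw [inner_sub_right, hy2, hxu, sub_self]
          · intro j hj
            rw [inner_sub_right, e4_mem_act.1 hj]
            linarith [hy1 j]
          · rw [inner_sub_right]; linarith)
      have hcongr : I.filter (fun i =>
          (∃ v, ⟪u, v⟫_ℝ = 0 ∧ (∀ j ∈ I, ⟪n j, v⟫_ℝ ≤ 0) ∧ ⟪n i, v⟫_ℝ = 0 ∧ 0 < ⟪w, v⟫_ℝ) ∧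
          (∃ v, ⟪u, v⟫_ℝ = 0 ∧ (∀ j ∈ I, ⟪n j, v⟫_ℝ ≤ 0) ∧ ⟪n i, v⟫_ℝ = 0 ∧ ⟪w, v⟫_ℝ < 0)) =
          I.filter (fun i => ¬ e4_Top n h u w s x i ∧ ¬ e4_Top n h u (-w) s x i) := by
        refine Finset.filter_congr fun i hi => ?_
        rw [e4_not_Top hx hxu hi, e4_not_Top hx hxu hi]
        refine and_congr Iff.rfl ?_
        refine exists_congr fun v => ?_
        rw [inner_neg_left, Left.neg_pos_iff]
      rw [hcongr] at hloc
      have e1 : (I.filter (fun i => e4_Top n h u w s x i)).card +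
          (I.filter (fun i => ¬ e4_Top n h u w s x i)).card = I.card :=
        Finset.card_filter_add_card_filter_not _
      have e2 : ((I.filter (fun i => ¬ e4_Top n h u w s x i)).filter
            (fun i => e4_Top n h u (-w) s x i)).card +
          ((I.filter (fun i => ¬ e4_Top n h u w s x i)).filter
            (fun i => ¬ e4_Top n h u (-w) s x i)).card =
          (I.filter (fun i => ¬ e4_Top n h u w s x i)).card :=
        Finset.card_filter_add_card_filter_not _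
      rw [Finset.filter_filter, Finset.filter_filter, hloc] at e2
      have e3 : I.filter (fun i => ¬ e4_Top n h u w s x i ∧ e4_Top n h u (-w) s x i) =
          I.filter (fun i => e4_Top n h u (-w) s x i) := by
        refine Finset.filter_congr fun i hi => ?_
        constructor
        · rintro ⟨-, h2⟩
          exact h2
        · intro h2
          exact ⟨fun h1 => hnb i hi h1 h2, h2⟩
      rw [e3] at e2
      omega

/-! ### The count of a section -/

open Classical in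
/-- Every facet of the section has exactly one highest vertex. -/
lemma e4_count [Fintype ι] {n : ι → E d} {h : ι → ℝ} (hb : Bornology.IsBounded (Poly n h))
    {u w : E d} {s : ℝ} (hw : e4_gen n u w)
    (hS : ∀ x ∈ Poly n h, ⟪u, x⟫_ℝ = s → u ∉ e4_sp n (e4_act n h x))
    {X : Finset ι → E d} {VS : Finset (Finset ι)}
    (hVS : ∀ I, I ∈ VS ↔ I ∈ e4_edges n h ∧ ∃ x ∈ FacT n h I, ⟪u, x⟫_ℝ = s)
    (hX : ∀ I ∈ VS, X I ∈ FacT n h I ∧ ⟪u, X I⟫_ℝ = s) :
    ∑ I ∈ VS, (I.filter (fun i => e4_Top n h u w s (X I) i)).card =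
      (Finset.univ.filter (fun i => ∃ x ∈ Fac n h i, ⟪u, x⟫_ℝ = s)).card := by
  have hXact : ∀ I ∈ VS, e4_act n h (X I) = I := fun I hI =>
    e4_act_eq ((hVS I).1 hI).1 (hX I hI).1 (hS _ (hX I hI).1.1 (hX I hI).2)
  have hXu : ∀ x ∈ Poly n h, ⟪u, x⟫_ℝ = s → ∀ h0 : e4_act n h x ∈ VS,
      X (e4_act n h x) = x := by
    intro x hx hxu h0
    have h1 := (e4_mem_edges.1 ((hVS _).1 h0).1).2
    have h2 := e4_line_zero h1 (hS x hx hxu) (v := X (e4_act n h x) - x) (by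
      intro i hi
      rw [inner_sub_right, (hX _ h0).1.2 i hi, e4_mem_act.1 hi, sub_self])
      (by rw [inner_sub_right, (hX _ h0).2, hxu, sub_self])
    exact sub_eq_zero.1 h2
  have e1 : ∀ I ∈ VS, (I.filter (fun i => e4_Top n h u w s (X I) i)).card =
      ∑ i : ι, if i ∈ I ∧ e4_Top n h u w s (X I) i then 1 else 0 := by
    intro I _
    rw [← Finset.card_filter]
    congr 1
    ext i
    simp
  rw [Finset.sum_congr rfl e1, Finset.sum_comm, Finset.card_filter]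
  refine Finset.sum_congr rfl fun i _ => ?_
  rw [← Finset.card_filter]
  split_ifs with hi
  · have hi' : ∃ x ∈ FacT n h {i}, ⟪u, x⟫_ℝ = s := by rw [← e4_Fac_eq]; exact hi
    obtain ⟨x, hx, hxu, hmax⟩ := e4_exists_max (w := w) hb hi'
    have htop := e4_top_span hw hx hmax
    have hIe := e4_edge_of_span hx.1 (hS x hx.1 hxu) htop
    have hIV : e4_act n h x ∈ VS := (hVS _).2 ⟨hIe, x, e4_self_mem hx.1, hxu⟩
    rw [Finset.card_eq_one]
    refine ⟨e4_act n h x, ?_⟩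
    ext I
    rw [Finset.mem_filter, Finset.mem_singleton]
    constructor
    · rintro ⟨hI, hiI, hT⟩
      rw [← hXact I hI]
      congr 1
      refine e4_max_unique hw hx ?_ (by rw [(hX I hI).2, hxu]) hmax ?_
      · rw [← e4_Fac_eq]
        exact ⟨(hX I hI).1.1, (hX I hI).1.2 i hiI⟩
      · exact hT x (by rw [e4_Fac_eq]; exact hx) hxu
    · rintro rfl
      refine ⟨hIV, e4_subset_act hx (Finset.mem_singleton_self i), ?_⟩
      rw [hXu x hx.1 hxu hIV]
      intro y hy hyu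
      exact hmax y (by rw [← e4_Fac_eq]; exact hy) (by rw [hyu, hxu])
  · rw [Finset.card_eq_zero, Finset.filter_eq_empty_iff]
    rintro I hI ⟨hiI, -⟩
    exact hi ⟨X I, ⟨(hX I hI).1.1, (hX I hI).1.2 i hiI⟩, (hX I hI).2⟩

open Classical in
/-- A nonempty section has exactly one highest vertex. -/
lemma e4_count_top [Fintype ι] {n : ι → E d} {h : ι → ℝ} (hb : Bornology.IsBounded (Poly n h))
    {u w : E d} {s : ℝ} (hw : e4_gen n u w)
    (hS : ∀ x ∈ Poly n h, ⟪u, x⟫_ℝ = s → u ∉ e4_sp n (e4_act n h x))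
    {X : Finset ι → E d} {VS : Finset (Finset ι)}
    (hVS : ∀ I, I ∈ VS ↔ I ∈ e4_edges n h ∧ ∃ x ∈ FacT n h I, ⟪u, x⟫_ℝ = s)
    (hX : ∀ I ∈ VS, X I ∈ FacT n h I ∧ ⟪u, X I⟫_ℝ = s) (hne : ∃ x ∈ Poly n h, ⟪u, x⟫_ℝ = s) :
    ∑ I ∈ VS, (if ∀ y ∈ Poly n h, ⟪u, y⟫_ℝ = s → ⟪w, y⟫_ℝ ≤ ⟪w, X I⟫_ℝ then 1 else 0) = 1 := by
  have hXact : ∀ I ∈ VS, e4_act n h (X I) = I := fun I hI =>
    e4_act_eq ((hVS I).1 hI).1 (hX I hI).1 (hS _ (hX I hI).1.1 (hX I hI).2)
  have hne' : ∃ x ∈ FacT n h ∅, ⟪u, x⟫_ℝ = s := by rw [← e4_Poly_eq]; exact hne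
  obtain ⟨x, hx, hxu, hmax⟩ := e4_exists_max (w := w) hb hne'
  have htop := e4_top_span hw hx hmax
  have hIe := e4_edge_of_span hx.1 (hS x hx.1 hxu) htop
  have hIV : e4_act n h x ∈ VS := (hVS _).2 ⟨hIe, x, e4_self_mem hx.1, hxu⟩
  have hXx : X (e4_act n h x) = x := by
    have h1 := (e4_mem_edges.1 hIe).2
    have h2 := e4_line_zero h1 (hS x hx.1 hxu) (v := X (e4_act n h x) - x) (by
      intro i hi
      rw [inner_sub_right, (hX _ hIV).1.2 i hi, e4_mem_act.1 hi, sub_self])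
      (by rw [inner_sub_right, (hX _ hIV).2, hxu, sub_self])
    exact sub_eq_zero.1 h2
  rw [← Finset.card_filter, Finset.card_eq_one]
  refine ⟨e4_act n h x, ?_⟩
  ext I
  rw [Finset.mem_filter, Finset.mem_singleton]
  constructor
  · rintro ⟨hI, hT⟩
    rw [← hXact I hI]
    congr 1
    refine e4_max_unique hw hx ?_ (by rw [(hX I hI).2, hxu]) hmax (hT x hx.1 hxu)
    rw [← e4_Poly_eq]
    exact (hX I hI).1.1
  · rintro rfl
    refine ⟨hIV, ?_⟩
    rw [hXx]
    intro y hy hyu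
    exact hmax y (by rw [← e4_Poly_eq]; exact hy) (by rw [hyu, hxu])

open Classical in
/-- The count of a section at a generic level. -/
lemma e4_section [Fintype ι] {n : ι → E 4} {h : ι → ℝ} (hb : Bornology.IsBounded (Poly n h))
    {u : E 4} {s : ℝ}
    (hS : ∀ x ∈ Poly n h, ⟪u, x⟫_ℝ = s → u ∉ e4_sp n (e4_act n h x))
    (hL : ∀ i, (∃ x ∈ Fac n h i, ⟪u, x⟫_ℝ = s) → ∃ y, ⟪n i, y⟫_ℝ = h i ∧
      (∀ j, j ≠ i → ⟪n j, y⟫_ℝ < h j) ∧ ⟪u, y⟫_ℝ = s) :
    ∑ I ∈ (e4_edges n h).filter (fun I => ∃ x ∈ FacT n h I, ⟪u, x⟫_ℝ = s), (I.card - 2) +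
      4 * (if ∃ x ∈ Poly n h, ⟪u, x⟫_ℝ = s then 1 else 0) =
      2 * (Finset.univ.filter (fun i => ∃ x ∈ Fac n h i, ⟪u, x⟫_ℝ = s)).card := by
  by_cases hne : ∃ x ∈ Poly n h, ⟪u, x⟫_ℝ = s
  swap
  · rw [if_neg hne, Finset.filter_false_of_mem, Finset.filter_false_of_mem]
    · simp
    · rintro i - ⟨x, hx, hxu⟩
      exact hne ⟨x, hx.1, hxu⟩
    · rintro I - ⟨x, hx, hxu⟩
      exact hne ⟨x, hx.1, hxu⟩
  obtain ⟨w, hw⟩ := e4_exists_gen n u
  set VS := (e4_edges n h).filter (fun I => ∃ x ∈ FacT n h I, ⟪u, x⟫_ℝ = s) with hVSdef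
  have hVS : ∀ I, I ∈ VS ↔ I ∈ e4_edges n h ∧ ∃ x ∈ FacT n h I, ⟪u, x⟫_ℝ = s := fun I => by
    rw [hVSdef, Finset.mem_filter]
  have hchoice : ∀ I, ∃ x, I ∈ VS → x ∈ FacT n h I ∧ ⟪u, x⟫_ℝ = s := by
    intro I
    by_cases hI : I ∈ VS
    · obtain ⟨x, hx⟩ := ((hVS I).1 hI).2
      exact ⟨x, fun _ => hx⟩
    · exact ⟨0, fun h => absurd h hI⟩
  choose X hX using hchoice
  have hXact : ∀ I ∈ VS, e4_act n h (X I) = I := fun I hI =>
    e4_act_eq ((hVS I).1 hI).1 (hX I hI).1 (hS _ (hX I hI).1.1 (hX I hI).2)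
  have c1 := e4_count hb hw hS hVS hX
  have c2 := e4_count hb (e4_gen_neg hw) hS hVS hX
  have c3 := e4_count_top hb hw hS hVS hX hne
  have c4 := e4_count_top hb (e4_gen_neg hw) hS hVS hX hne
  have key : ∀ I ∈ VS, (I.filter (fun i => e4_Top n h u w s (X I) i)).card +
      (I.filter (fun i => e4_Top n h u (-w) s (X I) i)).card =
      (I.card - 2) +
        2 * (if ∀ y ∈ Poly n h, ⟪u, y⟫_ℝ = s → ⟪w, y⟫_ℝ ≤ ⟪w, X I⟫_ℝ then 1 else 0) +
        2 * (if ∀ y ∈ Poly n h, ⟪u, y⟫_ℝ = s → ⟪-w, y⟫_ℝ ≤ ⟪-w, X I⟫_ℝ then 1 else 0) := by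
    intro I hI
    have h0 := hXact I hI
    have h1 := (hX I hI).1.1
    have h2 := (hX I hI).2
    have h3 := hS _ h1 h2
    have h4 := (e4_mem_edges.1 ((hVS I).1 hI).1).2
    have h5 := e4_vertex hw hL h1 h2 h3 (by rw [h0]; exact h4)
    rw [h0] at h5
    exact h5
  have hsum := Finset.sum_congr rfl key
  rw [Finset.sum_add_distrib, Finset.sum_add_distrib, Finset.sum_add_distrib, ← Finset.mul_sum,
    ← Finset.mul_sum, c1, c2, c3, c4] at hsum
  rw [if_pos hne]
  omega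

/-! ### Generic levels -/

lemma e4_ae_level [Fintype ι] (n : ι → E d) (h : ι → ℝ) (u : E d) :
    ∀ᵐ s : ℝ, ∀ x ∈ Poly n h, ⟪u, x⟫_ℝ = s → u ∉ e4_sp n (e4_act n h x) := by
  have h1 : ∀ t : Finset ι, ∀ᵐ s : ℝ, u ∈ e4_sp n t → ∀ x ∈ FacT n h t, ⟪u, x⟫_ℝ ≠ s := by
    intro t
    by_cases hu : u ∈ e4_sp n t
    swap
    · exact Eventually.of_forall fun s hs => absurd hs hu
    rcases Set.eq_empty_or_nonempty (FacT n h t) with he | ⟨a, ha⟩
    · refine Eventually.of_forall fun s _ x hx => ?_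
      rw [he] at hx
      exact absurd hx (Set.notMem_empty x)
    · have hfin : ({⟪u, a⟫_ℝ} : Set ℝ).Finite := Set.finite_singleton _
      filter_upwards [compl_mem_ae_iff.2 (hfin.measure_zero (volume : Measure ℝ))] with s hs _ x hx
      intro hxs
      apply hs
      rw [Set.mem_singleton_iff, ← hxs]
      have h2 : ⟪u, x - a⟫_ℝ = 0 := by
        refine e4_inner_span ?_ hu
        rintro y ⟨i, hi, rfl⟩
        rw [inner_sub_right, hx.2 i hi, ha.2 i hi, sub_self]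
      rw [inner_sub_right] at h2
      linarith
  have : Countable (Finset ι) := Finite.to_countable
  filter_upwards [ae_all_iff.2 h1] with s hs x hx hxu hcon
  exact hs _ hcon x (e4_self_mem hx) hxu

lemma e4_ae_strict [Fintype ι] {n : ι → E d} {h : ι → ℝ} (hg : Good n h) (u : E d) :
    ∀ᵐ s : ℝ, ∀ i, (∃ x ∈ Fac n h i, ⟪u, x⟫_ℝ = s) → ∃ y, ⟪n i, y⟫_ℝ = h i ∧
      (∀ j, j ≠ i → ⟪n j, y⟫_ℝ < h j) ∧ ⟪u, y⟫_ℝ = s := by
  filter_upwards [hg.ae_level u] with s hs i hi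
  obtain ⟨x, hx, hxu⟩ := hi
  obtain ⟨y, hy1, hy2, hy3⟩ := hg.exists_strict_level u i (hs i ⟨x, hx, by
    simp only
    rw [real_inner_comm]
    exact hxu⟩)
  exact ⟨y, hy1, hy2, by rw [real_inner_comm]; exact hy3⟩

/-! ### One-dimensional measure -/

/-- A compact convex collinear set is a segment. -/
lemma e4_segment {G : Set (E d)} (hG : IsCompact G) (hc : Convex ℝ G) (hne : G.Nonempty)
    (hcol : Collinear ℝ G) : ∃ a ∈ G, ∃ b ∈ G, G = segment ℝ a b := by
  obtain ⟨⟨a, b⟩, ⟨ha, hb⟩, hmax⟩ := (hG.prod hG).exists_isMaxOn (hne.prod hne)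
    (f := fun p : E d × E d => dist p.1 p.2) (by fun_prop)
  simp only at ha hb
  refine ⟨a, ha, b, hb, ?_⟩
  have hmax' : ∀ x ∈ G, ∀ y ∈ G, dist x y ≤ dist a b := fun x hx y hy => hmax (a := (x, y)) ⟨hx, hy⟩
  apply Set.Subset.antisymm _ (hc.segment_subset ha hb)
  intro x hx
  by_cases hab : a = b
  · subst hab
    have := hmax' x hx a ha
    rw [dist_self] at this
    have hxa : x = a := dist_le_zero.1 this
    rw [hxa]
    exact left_mem_segment ℝ a a
  obtain ⟨v, hv⟩ := (collinear_iff_of_mem ha).1 hcol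
  obtain ⟨rb, hrb⟩ := hv b hb
  obtain ⟨rx, hrx⟩ := hv x hx
  simp only [vadd_eq_add] at hrb hrx
  have hrb0 : rb ≠ 0 := by
    rintro rfl
    apply hab
    rw [hrb]; simp
  have hxab : x = a + (rx / rb) • (b - a) := by
    rw [hrb, hrx, add_sub_cancel_right, smul_smul, div_mul_cancel₀ _ hrb0, add_comm]
  set t := rx / rb with ht
  have hd : 0 < dist a b := dist_pos.2 hab
  have h1 : dist a x = |t| * dist a b := by
    rw [hxab, dist_eq_norm, dist_eq_norm, sub_add_cancel_left, norm_neg, norm_smul,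
      Real.norm_eq_abs, norm_sub_rev b a]
  have h2 : dist x b = |1 - t| * dist a b := by
    rw [hxab, dist_eq_norm, dist_eq_norm, ← Real.norm_eq_abs, ← norm_smul]
    congr 1
    rw [sub_smul, one_smul, smul_sub, smul_sub]
    abel
  have h3 := hmax' a ha x hx
  have h4 := hmax' x hx b hb
  rw [h1] at h3
  rw [h2] at h4
  have h5 : |t| ≤ 1 := by
    by_contra hcon
    push Not at hcon
    nlinarith
  have h6 : |1 - t| ≤ 1 := by
    by_contra hcon
    push Not at hcon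
    nlinarith
  rw [abs_le] at h5 h6
  rw [hxab, segment_eq_image']
  exact ⟨t, ⟨by linarith, by linarith⟩, rfl⟩

/-- The averaged width of an edge. -/
lemma e4_MM_edge [NeZero d] [Fintype ι] {n : ι → E d} {h : ι → ℝ}
    (hb : Bornology.IsBounded (Poly n h)) {I : Finset ι} (hI : I ∈ e4_edges n h) :
    cst d * μHE[1] (FacT n h I) = MM (FacT n h I) := by
  obtain ⟨⟨x, hx, hxI⟩, hrk⟩ := e4_mem_edges.1 hI
  have hcol : Collinear ℝ (FacT n h I) := by
    rw [collinear_iff_finrank_le_one]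
    have h1 := (e4_face' hx).2
    rw [hxI] at h1
    rw [h1, hrk]
  obtain ⟨a, -, b, -, hab⟩ := e4_segment (isCompact_FacT hb I) (convex_FacT n h I)
    ⟨x, by rw [← hxI]; exact e4_self_mem hx⟩ hcol
  rw [hab, HE_segment, MM_segment]

/-! ### The general edge formula -/

/-- The number of facets containing the edge e, minus two, times the length of e, summed. -/
noncomputable def zetaW (P : Set (E 4)) : ℝ≥0∞ :=
  ∑' e : {e : Set (E 4) // IsKFace 1 P e},
    (({F : Set (E 4) | IsKFace 3 P F ∧ (e : Set (E 4)) ⊆ F}.ncard - 2 : ℕ) : ℝ≥0∞) *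
      μHE[1] (e : Set (E 4))

/-- The number of facets containing an edge. -/
lemma e4_ncard [Fintype ι] {n : ι → E 4} {h : ι → ℝ} (hg : Good n h) {x : E 4}
    (hx : x ∈ Poly n h) :
    {F : Set (E 4) | IsKFace 3 (Poly n h) F ∧ FacT n h (e4_act n h x) ⊆ F}.ncard =
      (e4_act n h x).card := by
  have hset : {F : Set (E 4) | IsKFace 3 (Poly n h) F ∧ FacT n h (e4_act n h x) ⊆ F} =
      (fun i => Fac n h i) '' (e4_act n h x : Set ι) := by
    ext F
    constructor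
    · rintro ⟨hF, hsub⟩
      obtain ⟨i, rfl⟩ := (e4_facet_iff hg F).1 hF
      exact ⟨i, e4_mem_act.2 (hsub (e4_self_mem hx)).2, rfl⟩
    · rintro ⟨i, hi, rfl⟩
      exact ⟨(e4_facet_iff hg _).2 ⟨i, rfl⟩, fun y hy => ⟨hy.1, hy.2 i hi⟩⟩
  have hinj : Function.Injective (fun i => Fac n h i) := by
    intro i j hij
    simp only at hij
    by_contra hne
    obtain ⟨y, hy1, hy2⟩ := hg.irr i
    have hy : y ∈ Fac n h i := by
      refine ⟨fun k => ?_, hy1⟩
      by_cases hk : k = i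
      · rw [hk]; exact hy1.le
      · exact (hy2 k hk).le
    rw [hij] at hy
    exact (hy2 j (Ne.symm hne)).ne hy.2
  rw [hset, Set.ncard_image_of_injective _ hinj, Set.ncard_coe_finset]

lemma e4_zetaW_sum [Fintype ι] {n : ι → E 4} {h : ι → ℝ} (hg : Good n h) :
    zetaW (Poly n h) = ∑ I ∈ e4_edges n h, ((I.card - 2 : ℕ) : ℝ≥0∞) * μHE[1] (FacT n h I) := by
  classical
  let f : e4_edges n h → {F : Set (E 4) // IsKFace 1 (Poly n h) F} := fun I => ⟨FacT n h I, by
    obtain ⟨⟨x, hx, hxI⟩, hrk⟩ := e4_mem_edges.1 I.2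
    exact (e4_face_iff 1 _).2 ⟨x, hx, by rw [hxI], by rw [hxI]; exact hrk⟩⟩
  have hf : Function.Bijective f := by
    constructor
    · rintro ⟨I, hI⟩ ⟨I', hI'⟩ heq
      have heq' : FacT n h I = FacT n h I' := congrArg Subtype.val heq
      obtain ⟨⟨x, hx, hxI⟩, -⟩ := e4_mem_edges.1 hI
      obtain ⟨⟨x', hx', hxI'⟩, -⟩ := e4_mem_edges.1 hI'
      apply Subtype.ext
      change I = I'
      apply Finset.Subset.antisymm
      · rw [← hxI']
        apply e4_subset_act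
        rw [heq', ← hxI']
        exact e4_self_mem hx'
      · rw [← hxI]
        apply e4_subset_act
        rw [← heq', ← hxI]
        exact e4_self_mem hx
    · rintro ⟨F, hF⟩
      obtain ⟨x, hx, hFx, hrk⟩ := (e4_face_iff 1 F).1 hF
      exact ⟨⟨e4_act n h x, e4_mem_edges.2 ⟨⟨x, hx, rfl⟩, hrk⟩⟩, Subtype.ext hFx.symm⟩
  unfold zetaW
  rw [← (Equiv.ofBijective f hf).tsum_eq,
    ← Finset.tsum_subtype (e4_edges n h) (fun I => ((I.card - 2 : ℕ) : ℝ≥0∞) * μHE[1] (FacT n h I))]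
  refine tsum_congr fun I => ?_
  obtain ⟨⟨x, hx, hxI⟩, -⟩ := e4_mem_edges.1 I.2
  have h1 := e4_ncard hg hx
  rw [hxI] at h1
  change (({F : Set (E 4) | IsKFace 3 (Poly n h) F ∧ FacT n h I ⊆ F}.ncard - 2 : ℕ) : ℝ≥0∞) *
    μHE[1] (FacT n h I) = _
  rw [h1]

lemma e4_wid_formula [Fintype ι] {n : ι → E 4} {h : ι → ℝ} (hg : Good n h) (u : E 4) :
    ∑ I ∈ e4_edges n h, ((I.card - 2 : ℕ) : ℝ≥0∞) * wid u (FacT n h I) + 4 * wid u (Poly n h) =
      2 * ∑ i, wid u (Fac n h i) := by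
  classical
  have hb := hg.bdd
  have hcF : ∀ i, IsCompact (Fac n h i) := fun i => isCompact_Fac hb i
  have hcP : IsCompact (Poly n h) := isCompact_Poly hb
  have hcT : ∀ I, IsCompact (FacT n h I) := fun I => isCompact_FacT hb I
  have hm : ∀ {C : Set (E 4)}, IsCompact C →
      Measurable (((fun x : E 4 => ⟪x, u⟫_ℝ) '' C).indicator (1 : ℝ → ℝ≥0∞)) := fun hC =>
    measurable_one.indicator (measurableSet_image_of_isCompact hC u)
  have hw : ∀ {C : Set (E 4)}, IsCompact C → wid u C =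
      ∫⁻ s, ((fun x : E 4 => ⟪x, u⟫_ℝ) '' C).indicator (1 : ℝ → ℝ≥0∞) s := fun hC =>
    (lintegral_indicator_one (measurableSet_image_of_isCompact hC u)).symm
  have hmem : ∀ (C : Set (E 4)) (s : ℝ), s ∈ (fun x : E 4 => ⟪x, u⟫_ℝ) '' C ↔
      ∃ x ∈ C, ⟪u, x⟫_ℝ = s := by
    intro C s
    constructor
    · rintro ⟨x, hx, hxs⟩
      exact ⟨x, hx, by rw [real_inner_comm]; exact hxs⟩
    · rintro ⟨x, hx, hxs⟩
      exact ⟨x, hx, by simp only; rw [real_inner_comm]; exact hxs⟩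
  have hind : ∀ (C : Set (E 4)) (s : ℝ),
      ((fun x : E 4 => ⟪x, u⟫_ℝ) '' C).indicator (1 : ℝ → ℝ≥0∞) s =
      ((if ∃ x ∈ C, ⟪u, x⟫_ℝ = s then 1 else 0 : ℕ) : ℝ≥0∞) := by
    intro C s
    by_cases hk : ∃ x ∈ C, ⟪u, x⟫_ℝ = s
    · rw [indicator_of_mem ((hmem C s).2 hk), if_pos hk]; simp
    · rw [indicator_of_notMem (fun hcon => hk ((hmem C s).1 hcon)), if_neg hk]; simp
  have e1 : ∑ I ∈ e4_edges n h, ((I.card - 2 : ℕ) : ℝ≥0∞) * wid u (FacT n h I) =
      ∫⁻ s, ∑ I ∈ e4_edges n h, ((I.card - 2 : ℕ) : ℝ≥0∞) *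
        ((fun x : E 4 => ⟪x, u⟫_ℝ) '' (FacT n h I)).indicator (1 : ℝ → ℝ≥0∞) s := by
    rw [lintegral_finsetSum _ (fun I _ => (hm (hcT I)).const_mul _)]
    refine Finset.sum_congr rfl fun I _ => ?_
    rw [lintegral_const_mul _ (hm (hcT I)), hw (hcT I)]
  have e2 : ∑ i, wid u (Fac n h i) =
      ∫⁻ s, ∑ i, ((fun x : E 4 => ⟪x, u⟫_ℝ) '' (Fac n h i)).indicator (1 : ℝ → ℝ≥0∞) s := by
    rw [lintegral_finsetSum _ (fun i _ => hm (hcF i))]
    exact Finset.sum_congr rfl fun i _ => hw (hcF i)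
  have m1 : Measurable fun s : ℝ => ∑ I ∈ e4_edges n h, ((I.card - 2 : ℕ) : ℝ≥0∞) *
      ((fun x : E 4 => ⟪x, u⟫_ℝ) '' (FacT n h I)).indicator (1 : ℝ → ℝ≥0∞) s :=
    Finset.measurable_sum _ fun I _ => (hm (hcT I)).const_mul _
  have m2 : Measurable fun s : ℝ => ∑ i,
      ((fun x : E 4 => ⟪x, u⟫_ℝ) '' (Fac n h i)).indicator (1 : ℝ → ℝ≥0∞) s :=
    Finset.measurable_sum _ fun i _ => hm (hcF i)
  rw [e1, e2, hw hcP, ← lintegral_const_mul _ (hm hcP), ← lintegral_add_left m1,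
    ← lintegral_const_mul _ m2]
  refine lintegral_congr_ae ?_
  filter_upwards [e4_ae_level n h u, e4_ae_strict hg u] with s hS hL
  have hcount := e4_section hb hS hL
  rw [hind]
  have f1 : ∑ I ∈ e4_edges n h, ((I.card - 2 : ℕ) : ℝ≥0∞) *
      ((fun x : E 4 => ⟪x, u⟫_ℝ) '' (FacT n h I)).indicator (1 : ℝ → ℝ≥0∞) s =
      ((∑ I ∈ (e4_edges n h).filter (fun I => ∃ x ∈ FacT n h I, ⟪u, x⟫_ℝ = s),
        (I.card - 2) : ℕ) : ℝ≥0∞) := by
    rw [Finset.sum_filter, Nat.cast_sum]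
    refine Finset.sum_congr rfl fun I _ => ?_
    rw [hind]
    split_ifs <;> simp
  have f2 : ∑ i, ((fun x : E 4 => ⟪x, u⟫_ℝ) '' (Fac n h i)).indicator (1 : ℝ → ℝ≥0∞) s =
      (((Finset.univ.filter (fun i => ∃ x ∈ Fac n h i, ⟪u, x⟫_ℝ = s)).card : ℕ) : ℝ≥0∞) := by
    rw [Finset.card_filter, Nat.cast_sum]
    exact Finset.sum_congr rfl fun i _ => hind _ s
  rw [f1, f2]
  exact_mod_cast hcount

/-- The edge formula for all 4-polytopes. -/
theorem general_formula [Fintype ι] {n : ι → E 4} {h : ι → ℝ} (hg : Good n h) :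
    cst 4 * zetaW (Poly n h) + 4 * MM (Poly n h) = 2 * ∑ i, MM (Fac n h i) := by
  have hb := hg.bdd
  have hmF : ∀ i, Measurable fun u => wid u (Fac n h i) := fun i =>
    measurable_wid (isCompact_Fac hb i) (convex_Fac n h i)
  have hmT : ∀ I, Measurable fun u => wid u (FacT n h I) := fun I =>
    measurable_wid (isCompact_FacT hb I) (convex_FacT n h I)
  have hmP : Measurable fun u => wid u (Poly n h) :=
    measurable_wid (isCompact_Poly hb) (convex_Poly n h)
  have e1 : cst 4 * zetaW (Poly n h) =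
      ∫⁻ u in Metric.ball (0 : E 4) 1, ∑ I ∈ e4_edges n h, ((I.card - 2 : ℕ) : ℝ≥0∞) *
        wid u (FacT n h I) := by
    rw [e4_zetaW_sum hg, Finset.mul_sum,
      lintegral_finsetSum _ (fun I _ => (hmT I).const_mul _)]
    refine Finset.sum_congr rfl fun I hI => ?_
    rw [lintegral_const_mul _ (hmT I), mul_left_comm, e4_MM_edge hb hI]
    rfl
  have m1 : Measurable fun u => ∑ I ∈ e4_edges n h, ((I.card - 2 : ℕ) : ℝ≥0∞) *
      wid u (FacT n h I) := Finset.measurable_sum _ fun I _ => (hmT I).const_mul _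
  rw [e1]
  unfold MM
  rw [← lintegral_finsetSum _ (fun i _ => hmF i),
    ← lintegral_const_mul _ hmP, ← lintegral_add_left m1,
    ← lintegral_const_mul _ (Finset.measurable_sum _ fun i _ => hmF i)]
  exact lintegral_congr fun u => e4_wid_formula hg u

end SP4
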