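import Pool.Agent.SP4.Poly
import Pool.Agent.SP4.Simp1

/-!
# Simple 4-polytopes: the edge formula

For a system with independent active normals and almost every u the widths in the direction u satisfy
sum over the triples of the width of the edge + 4 * width of the polytope = 2 * sum of the widths of
the facets. No section is used: everything follows from the sums of the maxima of u over the faces of
a given codimension (SA.identity4).
-/

open MeasureTheory Set Filter Topology
open scoped ENNReal InnerProductSpace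

namespace SP4

open Melzak (E IsPolytope IsKFace zeta)

variable {d : ℕ} {ι : Type*}

namespace SA

lemma FacT_eq (n : ι → E d) (h : ι → ℝ) (t : Finset ι) : FacT n h t = Fc n h t := rfl

lemma Poly_eq (n : ι → E d) (h : ι → ℝ) : Poly n h = Fc n h ∅ := by
  ext x; simp [Poly, Fc]

lemma Fac_eq (n : ι → E d) (h : ι → ℝ) (i : ι) : Fac n h i = Fc n h {i} := by
  ext x; simp [Fac, Poly, Fc]

lemma SP_of_Simp [Fintype ι] {n : ι → E d} {h : ι → ℝ} (hb : Bornology.IsBounded (Poly n h))
    (hs : Simp n h) : SP n h := by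
  refine ⟨fun t ht => ?_, by rw [← Poly_eq]; exact hb⟩
  obtain ⟨x, hx⟩ := ht
  have h1 := hs x hx.1
  have h2 := h1.comp (fun i : t => (⟨i, hx.2 i i.2⟩ : {i // ⟪n i, x⟫_ℝ = h i})) (fun i j hij => by
    have := congrArg (fun k : {i // ⟪n i, x⟫_ℝ = h i} => (k : ι)) hij
    exact Subtype.ext this)
  have h3 := h2.fintype_card_le_finrank
  rwa [finrank_euclideanSpace_fin, Fintype.card_coe] at h3

lemma Simp_of_SP [Fintype ι] {n : ι → E d} {h : ι → ℝ} (hs : SP n h) : Simp n h := by
  classical
  intro x hx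
  have h1 := hs.indep (I := Finset.univ.filter (fun i => ⟪n i, x⟫_ℝ = h i))
    ⟨x, hx, fun i hi => (Finset.mem_filter.1 hi).2⟩
  exact h1.comp (fun i : {i // ⟪n i, x⟫_ℝ = h i} =>
    (⟨i, Finset.mem_filter.2 ⟨Finset.mem_univ _, i.2⟩⟩ :
      (Finset.univ.filter (fun i => ⟪n i, x⟫_ℝ = h i) : Finset ι))) (fun i j hij => by
    have := congrArg (fun k : (Finset.univ.filter (fun i => ⟪n i, x⟫_ℝ = h i) : Finset ι) =>
      (k : ι)) hij
    exact Subtype.ext this)

/-- Almost every functional is generic. -/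
lemma ae_gen [Finite ι] (n : ι → E d) : ∀ᵐ u : E d, Gen n u := by
  unfold Gen
  have : Countable (Finset ι) := Finite.to_countable
  rw [ae_all_iff]
  intro t
  by_cases ht : t.card < d
  · have hne : Submodule.span ℝ (Set.range (fun i : t => n i)) ≠ ⊤ := by
      intro htop
      have h3 := finrank_range_le_card (R := ℝ) (fun i : t => n i)
      rw [Set.finrank, htop, finrank_top, finrank_euclideanSpace_fin, Fintype.card_coe] at h3
      omega
    have h1 := Measure.addHaar_submodule (volume : Measure (E d)) _ hne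
    filter_upwards [compl_mem_ae_iff.2 h1] with u hu _
    exact hu
  · exact Eventually.of_forall fun u hcon => absurd hcon ht

lemma wid_eq {C : Set (E d)} (hc : IsCompact C) (hcv : Convex ℝ C) (hne : C.Nonempty) (u : E d) :
    0 ≤ mx u C + mx (-u) C ∧ wid u C = ENNReal.ofReal (mx u C + mx (-u) C) := by
  obtain ⟨a, b, hab, hI⟩ := image_eq_Icc hc hcv hne u
  have h1 : mx u C = b := by
    unfold mx
    rw [hI, csSup_Icc hab]
  have h2 : (fun x : E d => ⟪x, -u⟫_ℝ) '' C = Icc (-b) (-a) := by
    have : (fun x : E d => ⟪x, -u⟫_ℝ) '' C = (fun r : ℝ => -r) '' ((fun x : E d => ⟪x, u⟫_ℝ) '' C) := by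
      rw [image_image]
      refine image_congr fun x _ => ?_
      rw [inner_neg_right]
    rw [this, hI, image_neg_eq_neg, neg_Icc]
  have h3 : mx (-u) C = -a := by
    unfold mx
    rw [h2, csSup_Icc (by linarith)]
  rw [h1, h3]
  refine ⟨by linarith, ?_⟩
  unfold wid
  rw [hI, Real.volume_Icc]
  congr 1

lemma sum_wid [Fintype ι] [DecidableEq ι] {n : ι → E d} {h : ι → ℝ}
    (hb : Bornology.IsBounded (Fc n h ∅)) (u : E d) (k : ℕ) :
    ∑ t ∈ (Finset.univ : Finset ι).powersetCard k, wid u (Fc n h t) =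
      ENNReal.ofReal (∑ I ∈ Ek n h k, (mx u (Fc n h I) + mx (-u) (Fc n h I))) ∧
    0 ≤ ∑ I ∈ Ek n h k, (mx u (Fc n h I) + mx (-u) (Fc n h I)) := by
  have h0 : ∀ I ∈ Ek n h k, 0 ≤ mx u (Fc n h I) + mx (-u) (Fc n h I) := fun I hI =>
    (wid_eq (isCompact_Fc hb I) (convex_Fc n h I) (mem_Ek.1 hI).2 u).1
  refine ⟨?_, Finset.sum_nonneg h0⟩
  rw [ENNReal.ofReal_sum_of_nonneg h0]
  symm
  rw [Finset.sum_congr rfl fun I hI =>
    ((wid_eq (isCompact_Fc hb I) (convex_Fc n h I) (mem_Ek.1 hI).2 u).2).symm]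
  apply Finset.sum_subset
  · intro I hI
    rw [Finset.mem_powersetCard]
    exact ⟨Finset.subset_univ _, (mem_Ek.1 hI).1⟩
  · intro I hI hI2
    rw [Finset.mem_powersetCard] at hI
    have : Fc n h I = ∅ := by
      by_contra hcon
      exact hI2 (mem_Ek.2 ⟨hI.2, Set.nonempty_iff_ne_empty.2 hcon⟩)
    rw [this]
    simp [wid]

/-- The identity of the widths for almost every direction. -/
lemma wid_identity [Fintype ι] [DecidableEq ι] {n : ι → E 4} {h : ι → ℝ} (hs : SP n h) {u : E 4}
    (hu : Gen n u) :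
    ∑ t ∈ (Finset.univ : Finset ι).powersetCard 3, wid u (FacT n h t) + 4 * wid u (Poly n h) =
      2 * ∑ i, wid u (Fac n h i) := by
  have e3 := sum_wid hs.bdd u 3
  have e0 := sum_wid hs.bdd u 0
  have e1 := sum_wid hs.bdd u 1
  have hid := identity4 hs hu
  have f0 : ∑ t ∈ (Finset.univ : Finset ι).powersetCard 0, wid u (Fc n h t) = wid u (Poly n h) := by
    rw [Finset.powersetCard_zero, Finset.sum_singleton, Poly_eq]
  have f1 : ∑ t ∈ (Finset.univ : Finset ι).powersetCard 1, wid u (Fc n h t) =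
      ∑ i, wid u (Fac n h i) := by
    rw [Finset.powersetCard_one, Finset.sum_map]
    refine Finset.sum_congr rfl fun i _ => ?_
    rw [Fac_eq]
    rfl
  have f3 : ∑ t ∈ (Finset.univ : Finset ι).powersetCard 3, wid u (FacT n h t) =
      ∑ t ∈ (Finset.univ : Finset ι).powersetCard 3, wid u (Fc n h t) :=
    Finset.sum_congr rfl fun t _ => by rw [FacT_eq]
  rw [f3, ← f0, ← f1, e3.1, e0.1, e1.1]
  have g2 : ∀ r : ℝ, 2 * ENNReal.ofReal r = ENNReal.ofReal (2 * r) := by
    intro r
    rw [ENNReal.ofReal_mul (by norm_num)]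
    norm_num
  have g4 : ∀ r : ℝ, 4 * ENNReal.ofReal r = ENNReal.ofReal (4 * r) := by
    intro r
    rw [ENNReal.ofReal_mul (by norm_num)]
    norm_num
  rw [g2, g4, ← ENNReal.ofReal_add e3.2 (mul_nonneg (by norm_num) e0.2), hid]

end SA

/-- The edge formula for simple 4-polytopes. -/
theorem edge_formula [Fintype ι] {n : ι → E 4} {h : ι → ℝ} (hg : Good n h) (hs : Simp n h) :
    ∑ t ∈ (Finset.univ : Finset ι).powersetCard 3, MM (FacT n h t) + 4 * MM (Poly n h) =
      2 * ∑ i, MM (Fac n h i) := by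
  classical
  have hSP := SA.SP_of_Simp hg.bdd hs
  have hmT : ∀ t, Measurable fun u => wid u (FacT n h t) := fun t =>
    measurable_wid (SA.isCompact_Fc hSP.bdd t) (SA.convex_Fc n h t)
  have hmP : Measurable fun u => wid u (Poly n h) :=
    measurable_wid (isCompact_Poly hg.bdd) (convex_Poly n h)
  have hmF : ∀ i, Measurable fun u => wid u (Fac n h i) := fun i =>
    measurable_wid (isCompact_Fac hg.bdd i) (convex_Fac n h i)
  unfold MM
  rw [← lintegral_finsetSum _ (fun t _ => hmT t), ← lintegral_finsetSum _ (fun i _ => hmF i),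
    ← lintegral_const_mul _ hmP, ← lintegral_const_mul _ (Finset.measurable_sum _ fun i _ => hmF i),
    ← lintegral_add_right _ (hmP.const_mul _)]
  refine lintegral_congr_ae (ae_restrict_of_ae ?_)
  filter_upwards [SA.ae_gen n] with u hu
  exact SA.wid_identity hSP hu

end SP4
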