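import Pool.Agent.SP4.VolDiff

/-!
Second names for the lemmas of VolDiff.lean.
-/

set_option autoImplicit false

open MeasureTheory Set Filter Topology
open scoped ENNReal InnerProductSpace Pointwise

namespace SP4

open Melzak (E IsPolytope IsKFace zeta)

variable {d : ℕ} [NeZero d] {ι : Type*}

lemma rv_mem_update [DecidableEq ι] {n : ι → E d} {h : ι → ℝ} {i₀ : ι} {c : ℝ} {x : E d} :
    x ∈ Poly n (Function.update h i₀ c) ↔ ⟪n i₀, x⟫_ℝ ≤ c ∧ ∀ j, j ≠ i₀ → ⟪n j, x⟫_ℝ ≤ h j :=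
  vd_mem_update

/-- Moving one facet in and out: the sum of the d-th roots of the volumes loses only second order. -/
theorem Good.root_volume_move [Fintype ι] [DecidableEq ι] {n : ι → E d} {h : ι → ℝ}
    (hg : Good n h) (i₀ : ι) :
    ∃ C t₀ : ℝ, 0 < t₀ ∧ ∀ t, 0 < t → t ≤ t₀ →
      2 * (volume (Poly n h)).toReal ^ (1 / (d : ℝ)) ≤
        (volume (Poly n (Function.update h i₀ (h i₀ + t)))).toReal ^ (1 / (d : ℝ)) +
        (volume (Poly n (Function.update h i₀ (h i₀ - t)))).toReal ^ (1 / (d : ℝ)) + C * t ^ 2 :=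
  hg.root_vol_diff (NeZero.pos d) i₀

end SP4
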