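import Pool.Agent.SP4.Second
import Pool.Agent.SP4.MoveVol
import Pool.Agent.SP4.Level

/-!
A maximiser among the systems with the same normals is simple: the active normals are linearly
independent at every point.
-/

open MeasureTheory Set Filter Topology
open scoped ENNReal InnerProductSpace

namespace SP4

open Melzak (E IsPolytope IsKFace zeta)

variable {d : ℕ} {ι : Type*}

lemma sm_vol_pos [Finite ι] {n : ι → E d} {h : ι → ℝ} (hg : Good n h) : 0 < vol n h := by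
  obtain ⟨z, hz⟩ := hg.slater
  have ho : IsOpen {x : E d | ∀ i, ⟪n i, x⟫_ℝ < h i} := by
    have : {x : E d | ∀ i, ⟪n i, x⟫_ℝ < h i} = ⋂ i, {x | ⟪n i, x⟫_ℝ < h i} := by ext x; simp
    rw [this]
    exact isOpen_iInter_of_finite fun i => isOpen_lt (by fun_prop) continuous_const
  have h1 : 0 < volume {x : E d | ∀ i, ⟪n i, x⟫_ℝ < h i} := ho.measure_pos volume ⟨z, hz⟩
  have h2 : 0 < volume (Poly n h) := h1.trans_le (measure_mono fun x hx i => (hx i).le)
  exact ENNReal.toReal_pos h2.ne' hg.bdd.measure_lt_top.ne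

lemma sm_root {d : ℕ} (hd : d ≠ 0) {V V' L L' : ℝ} (hV : 0 ≤ V) (hV' : 0 ≤ V') (hL : 0 ≤ L)
    (hL' : 0 ≤ L') (h : V' * L ^ d ≤ V * L' ^ d) :
    V' ^ (1 / (d : ℝ)) * L ≤ V ^ (1 / (d : ℝ)) * L' := by
  have e : ∀ {x : ℝ}, 0 ≤ x → (x ^ (1 / (d : ℝ))) ^ d = x := by
    intro x hx
    rw [one_div, Real.rpow_inv_natCast_pow hx hd]
  have h1 : (V' ^ (1 / (d : ℝ)) * L) ^ d ≤ (V ^ (1 / (d : ℝ)) * L') ^ d := by
    rw [mul_pow, mul_pow, e hV, e hV']
    exact h
  exact (pow_le_pow_iff_left₀ (by positivity) (by positivity) hd).1 h1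

theorem simp_of_max_aux [Fintype ι] (hd : d ≠ 0) {a b : ℝ} (ha : 0 < a)
    (hab : b < a * d) {n : ι → E d} {h : ι → ℝ} (hg : Good n h) (hmax : MaxN a b n h)
    (hpos : ∀ h' : ι → ℝ, Good n h' → 0 ≤ Lam a b n h') : Simp n h := by
  classical
  have hne : NeZero d := ⟨hd⟩
  intro x hx
  by_contra hdep
  rw [Fintype.not_linearIndependent_iff] at hdep
  obtain ⟨g₀, hg₀, i₁, hi₁⟩ := hdep
  -- a relation with a positive coefficient
  obtain ⟨g, hg1, i₂, hi₂⟩ : ∃ g : {i // ⟪n i, x⟫_ℝ = h i} → ℝ, ∑ i, g i • n i = 0 ∧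
      ∃ i, 0 < g i := by
    rcases lt_or_gt_of_ne hi₁ with hlt | hgt
    · refine ⟨fun i => -g₀ i, ?_, i₁, by linarith⟩
      simp only [neg_smul, Finset.sum_neg_distrib, hg₀, neg_zero]
    · exact ⟨g₀, hg₀, i₁, hgt⟩
  set μ : ι → ℝ := fun i => if hi : ⟪n i, x⟫_ℝ = h i then g ⟨i, hi⟩ else 0 with hμd
  have hμ : ∑ i, μ i • n i = 0 := by
    have e2 : ∀ i : {i // ⟪n i, x⟫_ℝ = h i}, g i • n i = μ i • n i := by
      intro i
      simp [hμd, i.2]
    rw [Finset.sum_congr rfl fun i _ => e2 i] at hg1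
    have e3 : ∑ i ∈ Finset.univ.filter (fun i => ⟪n i, x⟫_ℝ = h i), μ i • n i =
        ∑ i : {i // ⟪n i, x⟫_ℝ = h i}, μ i • n i := by
      rw [← Finset.sum_subtype_eq_sum_filter]
      simp
    rw [← e3] at hg1
    rw [← hg1]
    symm
    apply Finset.sum_subset (Finset.subset_univ _)
    intro i _ hi
    have : ¬ ⟪n i, x⟫_ℝ = h i := by simpa using hi
    simp [hμd, this]
  have hpos2 : 0 < μ i₂ := by simp [hμd, i₂.2, hi₂]
  have hsupp : ∀ i, μ i ≠ 0 → ⟪n i, x⟫_ℝ = h i := by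
    intro i hi
    by_contra hc
    exact hi (by simp [hμd, hc])
  -- a vertex where all these constraints are active
  have hs0 : ⟪x, (0 : E d)⟫_ℝ = sig (Poly n h) 0 := by
    obtain ⟨y, -, hy⟩ := exists_sig (isCompact_Poly hg.bdd) hg.nonempty (0 : E d)
    rw [← hy]
    simp
  obtain ⟨v, hv, hvx, -, hspan⟩ := exists_vertex hg.bdd {i | ⟪n i, x⟫_ℝ = h i} hx
    (fun i hi => hi) 0 hs0
  obtain ⟨κ, δ₀, hκ, hδ₀, hsec⟩ := hg.second_difference hv hspan hμ
    (fun i hi => hvx i (hsupp i hi)) hpos2 ha hab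
  obtain ⟨C, t₀, ht₀, hvol⟩ := hg.root_volume_move i₂.1
  set V := vol n h with hV
  have hVpos : 0 < V := sm_vol_pos hg
  set r := V ^ (1 / (d : ℝ)) with hr
  have hrpos : 0 < r := Real.rpow_pos_of_pos hVpos _
  set L := Lam a b n h with hL
  have hL0 : 0 ≤ L := hpos h hg
  -- the choice of t
  set t : ℝ := min (min δ₀ t₀) (κ * r / (2 * (|C| * L + 1))) with ht
  have hden : 0 < 2 * (|C| * L + 1) := by positivity
  have htpos : 0 < t := lt_min (lt_min hδ₀ ht₀) (by positivity)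
  have ht1 : t ≤ δ₀ := (min_le_left _ _).trans (min_le_left _ _)
  have ht2 : t ≤ t₀ := (min_le_left _ _).trans (min_le_right _ _)
  have ht3 : t * (2 * (|C| * L + 1)) ≤ κ * r := by
    rw [← le_div_iff₀ hden]
    exact min_le_right _ _
  obtain ⟨hgp, hgm, hsd⟩ := hsec t htpos ht1
  have hvd := hvol t htpos ht2
  have eup : Function.update h i₂.1 (h i₂.1 + t) = upd h i₂.1 t := rfl
  have eum : Function.update h i₂.1 (h i₂.1 - t) = upd h i₂.1 (-t) := by
    unfold upd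
    rw [sub_eq_add_neg]
  rw [eup, eum] at hvd
  have m1 : vol n (upd h i₂.1 t) ^ (1 / (d : ℝ)) * L ≤ r * Lam a b n (upd h i₂.1 t) :=
    sm_root hd hVpos.le ENNReal.toReal_nonneg hL0 (hpos _ hgp) (hmax _ hgp)
  have m2 : vol n (upd h i₂.1 (-t)) ^ (1 / (d : ℝ)) * L ≤ r * Lam a b n (upd h i₂.1 (-t)) :=
    sm_root hd hVpos.le ENNReal.toReal_nonneg hL0 (hpos _ hgm) (hmax _ hgm)
  have hvd' : 2 * r ≤ vol n (upd h i₂.1 t) ^ (1 / (d : ℝ)) +
      vol n (upd h i₂.1 (-t)) ^ (1 / (d : ℝ)) + C * t ^ 2 := hvd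
  have s1 := mul_le_mul_of_nonneg_right hvd' hL0
  have s2 := mul_le_mul_of_nonneg_left hsd hrpos.le
  rw [add_mul, add_mul] at s1
  rw [mul_add, mul_add] at s2
  -- r κ t ≤ C t ^ 2 L
  have s3 : r * (κ * t) ≤ C * t ^ 2 * L := by linarith
  have s4 : C * t ^ 2 * L ≤ |C| * L * t * t := by
    have : C * (t ^ 2 * L) ≤ |C| * (t ^ 2 * L) :=
      mul_le_mul_of_nonneg_right (le_abs_self C) (by positivity)
    calc C * t ^ 2 * L = C * (t ^ 2 * L) := by ring
      _ ≤ |C| * (t ^ 2 * L) := this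
      _ = _ := by ring
  have s5 : r * κ ≤ |C| * L * t := by
    have : r * κ * t ≤ |C| * L * t * t := by linarith
    exact le_of_mul_le_mul_right this htpos
  have s6 : 0 ≤ |C| * L * t := by positivity
  nlinarith

/-- A maximiser among the systems with the same normals is simple. -/
theorem simp_of_max [Fintype ι] (hd : 2 ≤ d) {a b : ℝ} (ha : 0 < a) (_hb : 0 ≤ b)
    (hab : b < a * d) {n : ι → E d} {h : ι → ℝ} (hg : Good n h) (hmax : MaxN a b n h) :
    Simp n h := by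
  refine simp_of_max_aux (by omega) ha hab hg hmax fun h' hg' => ?_
  have h1 := hg'.d_le_mm hd
  have h2 : 0 ≤ mm (Poly n h') := ENNReal.toReal_nonneg
  have h3 := mul_le_mul_of_nonneg_left h1 ha.le
  have h4 : 0 ≤ (a * d - b) * mm (Poly n h') := mul_nonneg (by linarith) h2
  unfold Lam
  nlinarith

end SP4
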