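import Pool.Agent.SP4.Best
import Pool.Agent.SP4.Exist
import Pool.Agent.SP4.Cube
import Pool.Agent.SP4.Simp2
import Pool.Agent.SP4.Edges
import Pool.Agent.SP4.General
import Pool.Agent.SP4.Facets
import Pool.Agent.SP4.Dim3
import Pool.Agent.SP4.SimpMax

/-!
Assembly: simple extremal polytopes in dimensions 4 and 3.
-/

open MeasureTheory Set Filter Topology
open scoped ENNReal InnerProductSpace

namespace SP4

open Melzak (E IsPolytope IsKFace zeta)

theorem exists_best {d : ℕ} [NeZero d] (hd : 3 ≤ d) {a b : ℝ} (ha : 0 < a) (hb : 0 ≤ b)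
    (hab : b < a * d) :
    ∃ (m : ℕ) (n : Fin m → E d) (h : Fin m → ℝ), Good n h ∧ MaxAll a b n h :=
  exists_best_of hd ha hb hab (fun _ _ _ hg => hg.d_le_mm (by omega)) (exists_some (by omega))
    (fun N hN => exists_max hd ha hb hab N hN)

lemma fin_Lam_pos {d : ℕ} [NeZero d] (hd : 2 ≤ d) {a b : ℝ} (ha : 0 < a) (hab : b < a * d)
    {ι : Type*} [Fintype ι] {n : ι → E d} {h : ι → ℝ} (hg : Good n h) : 0 < Lam a b n h :=
  (mul_pos (by linarith) hg.mm_pos).trans_le (Lam_ge_of ha (hg.d_le_mm hd))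

/-! ### Dimension 4 -/

lemma fin_zetaW_ne_top {ι : Type*} [Fintype ι] {n : ι → E 4} {h : ι → ℝ} (hg : Good n h) :
    zetaW (Poly n h) ≠ ∞ := by
  intro h0
  have h1 := general_formula hg
  rw [h0, ENNReal.mul_top cst_ne_zero, top_add] at h1
  have h2 : 2 * ∑ i, MM (Fac n h i) ≠ ∞ :=
    ENNReal.mul_ne_top (by norm_num) (ENNReal.sum_ne_top.2 fun i _ => hg.MM_ne_top_fac i)
  exact h2 h1.symm

lemma fin_Lam_eq {ι : Type*} [Fintype ι] {n : ι → E 4} {h : ι → ℝ} (hg : Good n h) :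
    Lam 2 4 n h = (cst 4).toReal * (zetaW (Poly n h)).toReal := by
  have h1 := congrArg ENNReal.toReal (general_formula hg)
  rw [ENNReal.toReal_add (ENNReal.mul_ne_top cst_ne_top (fin_zetaW_ne_top hg))
    (ENNReal.mul_ne_top (by norm_num) (MM_ne_top hg.bdd)), ENNReal.toReal_mul,
    ENNReal.toReal_mul, ENNReal.toReal_mul,
    ENNReal.toReal_sum fun i _ => hg.MM_ne_top_fac i] at h1
  unfold Lam mm
  norm_num at h1 ⊢
  linarith

lemma fin_zetaW_pos {ι : Type*} [Fintype ι] {n : ι → E 4} {h : ι → ℝ} (hg : Good n h) :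
    0 < (zetaW (Poly n h)).toReal := by
  have h1 : 0 < Lam 2 4 n h := fin_Lam_pos (by norm_num) (by norm_num) (by norm_num) hg
  rw [fin_Lam_eq hg] at h1
  exact pos_of_mul_pos_right h1 cst_toReal_pos.le

lemma fin_zetaW_simple {ι : Type*} [Fintype ι] {n : ι → E 4} {h : ι → ℝ} (hg : Good n h)
    (hs : Simp n h) : zetaW (Poly n h) = zeta 1 (Poly n h) := by
  have h1 := general_formula hg
  have h2 := edge_formula hg hs
  have h3 := zeta_one_simp (by norm_num) hg hs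
  rw [show (4 - 1 : ℕ) = 3 from rfl] at h3
  rw [← h3, ← h1] at h2
  have h4 : 4 * MM (Poly n h) ≠ ∞ := ENNReal.mul_ne_top (by norm_num) (MM_ne_top hg.bdd)
  have h5 := (ENNReal.add_left_inj h4).1 h2
  exact ((ENNReal.mul_right_inj cst_ne_zero cst_ne_top).1 h5).symm

/-- The comparison of two systems in terms of volume and zetaW. -/
lemma fin_compare {ι κ : Type*} [Fintype ι] [Fintype κ] {n : ι → E 4} {h : ι → ℝ}
    (hg : Good n h) {n' : κ → E 4} {h' : κ → ℝ} (hg' : Good n' h') :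
    vol n' h' * Lam 2 4 n h ^ 4 ≤ vol n h * Lam 2 4 n' h' ^ 4 ↔
      volume (Poly n' h') * zetaW (Poly n h) ^ 4 ≤ volume (Poly n h) * zetaW (Poly n' h') ^ 4 := by
  have hc : 0 < (cst 4).toReal ^ 4 := pow_pos cst_toReal_pos 4
  rw [fin_Lam_eq hg, fin_Lam_eq hg', mul_pow, mul_pow, mul_left_comm,
    mul_left_comm (vol n h), mul_le_mul_iff_right₀ hc]
  have h1 : volume (Poly n' h') * zetaW (Poly n h) ^ 4 ≠ ∞ :=
    ENNReal.mul_ne_top hg'.volume_ne_top (ENNReal.pow_ne_top (fin_zetaW_ne_top hg))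
  have h2 : volume (Poly n h) * zetaW (Poly n' h') ^ 4 ≠ ∞ :=
    ENNReal.mul_ne_top hg.volume_ne_top (ENNReal.pow_ne_top (fin_zetaW_ne_top hg'))
  rw [← ENNReal.toReal_le_toReal h1 h2, ENNReal.toReal_mul, ENNReal.toReal_mul,
    ENNReal.toReal_pow, ENNReal.toReal_pow]
  rfl

lemma fin_root (x : ℝ≥0∞) : (x ^ 4) ^ (1 / (4 : ℝ)) = x := by
  rw [← ENNReal.rpow_natCast, ← ENNReal.rpow_mul]
  norm_num

lemma fin_root' (x : ℝ≥0∞) : (x ^ (1 / (4 : ℝ))) ^ 4 = x := by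
  rw [← ENNReal.rpow_natCast, ← ENNReal.rpow_mul]
  norm_num

/-- The theorem in dimension 4. -/
theorem main_four : ∃ Γ : ℝ≥0∞, Γ ≠ 0 ∧ Γ ≠ ∞ ∧
    (∀ Q : Set (E 4), IsPolytope Q → zeta 4 Q ^ (1 / (4 : ℝ)) ≤ Γ * zetaW Q) ∧
    (∀ Q : Set (E 4), IsPolytope Q → zeta 4 Q ^ (1 / (4 : ℝ)) = Γ * zetaW Q →
      IsSimple Q ∧ {F : Set (E 4) | IsKFace 3 Q F}.encard ≤ 512) ∧
    (∀ Q : Set (E 4), IsPolytope Q → IsSimple Q → zetaW Q = zeta 1 Q) ∧
    ∃ P : Set (E 4), IsPolytope P ∧ IsSimple P ∧ zeta 4 P ^ (1 / (4 : ℝ)) = Γ * zeta 1 P := by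
  obtain ⟨m, n, h, hg, hmax⟩ := exists_best (d := 4) (by norm_num) (a := 2) (b := 4)
    (by norm_num) (by norm_num) (by norm_num)
  set P : Set (E 4) := Poly n h with hP
  have hPpoly : IsPolytope P := hg.isPolytope
  set z : ℝ≥0∞ := zetaW P with hz
  have hzt : z ≠ ∞ := fin_zetaW_ne_top hg
  have hz0 : z ≠ 0 := (ENNReal.toReal_pos_iff.1 (fin_zetaW_pos hg)).1.ne'
  set Γ : ℝ≥0∞ := volume P ^ (1 / (4 : ℝ)) / z with hΓ
  have hv0 := hg.volume_ne_zero
  have hvt := hg.volume_ne_top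
  have hr0 : volume P ^ (1 / (4 : ℝ)) ≠ 0 := by
    rw [Ne, ENNReal.rpow_eq_zero_iff]
    rintro (⟨h, _⟩ | ⟨_, h⟩)
    · exact hv0 h
    · norm_num at h
  have hrt : volume P ^ (1 / (4 : ℝ)) ≠ ∞ := ENNReal.rpow_ne_top_of_nonneg (by norm_num) hvt
  have hΓ0 : Γ ≠ 0 := ENNReal.div_ne_zero.2 ⟨hr0, hzt⟩
  have hΓt : Γ ≠ ∞ := ENNReal.div_ne_top hrt hz0
  have hΓz : Γ * z = volume P ^ (1 / (4 : ℝ)) := ENNReal.div_mul_cancel hz0 hzt
  have hV4 : volume P = (Γ * z) ^ 4 := by rw [hΓz, fin_root']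
  -- every polytope, in the fourth power form
  have hall : ∀ {m' : ℕ} {n' : Fin m' → E 4} {h' : Fin m' → ℝ}, Good n' h' →
      volume (Poly n' h') ≤ (Γ * zetaW (Poly n' h')) ^ 4 := by
    intro m' n' h' hg'
    have h1 := (fin_compare hg hg').1 (hmax m' n' h' hg')
    rw [← hP, ← hz, hV4, mul_pow Γ z, mul_right_comm, ← mul_pow] at h1
    exact (ENNReal.mul_le_mul_iff_left (pow_ne_zero _ hz0) (ENNReal.pow_ne_top hzt)).1 h1
  have hmaxN : ∀ {m' : ℕ} {n' : Fin m' → E 4} {h' : Fin m' → ℝ}, Good n' h' →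
      volume (Poly n' h') = (Γ * zetaW (Poly n' h')) ^ 4 → MaxAll 2 4 n' h' := by
    intro m' n' h' hg' heq m'' n'' h'' hg''
    rw [fin_compare hg' hg'', heq]
    calc volume (Poly n'' h'') * zetaW (Poly n' h') ^ 4
        ≤ (Γ * zetaW (Poly n'' h'')) ^ 4 * zetaW (Poly n' h') ^ 4 :=
          mul_le_mul_left (hall hg'') _
      _ = (Γ * zetaW (Poly n' h')) ^ 4 * zetaW (Poly n'' h'') ^ 4 := by ring
  have hsimp : ∀ {m' : ℕ} {n' : Fin m' → E 4} {h' : Fin m' → ℝ}, Good n' h' →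
      MaxAll 2 4 n' h' → Simp n' h' := by
    intro m' n' h' hg' hM
    exact simp_of_max (by norm_num) (by norm_num) (by norm_num) (by norm_num) hg'
      (fun h'' hg'' => hM m' n' h'' hg'')
  refine ⟨Γ, hΓ0, hΓt, ?_, ?_, ?_, P, hPpoly, ?_, ?_⟩
  · intro Q hQ
    obtain ⟨m', n', h', hg', rfl⟩ := exists_good hQ
    rw [zeta_top hQ]
    have h1 := ENNReal.rpow_le_rpow (hall hg') (by norm_num : (0 : ℝ) ≤ 1 / 4)
    rwa [fin_root] at h1
  · intro Q hQ heq
    obtain ⟨m', n', h', hg', rfl⟩ := exists_good hQ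
    rw [zeta_top hQ] at heq
    have h1 : volume (Poly n' h') = (Γ * zetaW (Poly n' h')) ^ 4 := by rw [← heq, fin_root']
    have hM := hmaxN hg' h1
    refine ⟨(isSimple_iff (by norm_num) hg').2 (hsimp hg' hM), ?_⟩
    obtain ⟨nc, hc, hgc, hvc, hLc⟩ := exists_cube_four
    have h2 := bs_card (d := 4) (by norm_num) (a := 2) (b := 4) (by norm_num) (by norm_num)
      (by norm_num) (fun _ _ _ hg => hg.d_le_mm (by norm_num)) hgc hg'
      (fun h'' hg'' => hM m' n' h'' hg'') (hM 8 nc hc hgc)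
    rw [hvc, hLc] at h2
    have hcp : 0 < (cst 4).toReal := cst_toReal_pos
    have h3 : (32 * (cst 4).toReal / ((2 * (4 : ℕ) - 4) * (cst 4).toReal) : ℝ) = 8 := by
      push_cast
      field_simp
      norm_num
    rw [h3] at h2
    have h4 : (m' : ℝ) ^ 2 ≤ 512 ^ 2 := by
      norm_num at h2
      linarith
    have h5 : (m' : ℝ) ≤ 512 := le_of_pow_le_pow_left₀ (by norm_num) (by norm_num) h4
    have h6 : m' ≤ 512 := by exact_mod_cast h5
    have h7 := card_facets (d := 4) (by norm_num) hg'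
    rw [Fintype.card_fin] at h7
    rw [show (4 - 1 : ℕ) = 3 from rfl] at h7
    rw [h7]
    exact_mod_cast h6
  · intro Q hQ hs
    obtain ⟨m', n', h', hg', rfl⟩ := exists_good hQ
    exact fin_zetaW_simple hg' ((isSimple_iff (by norm_num) hg').1 hs)
  · exact (isSimple_iff (by norm_num) hg).2 (hsimp hg hmax)
  · rw [zeta_top hPpoly, ← fin_zetaW_simple hg (hsimp hg hmax), ← hΓz]

/-! ### Dimension 3 -/

lemma fin_Lam3 {ι : Type*} [Fintype ι] {n : ι → E 3} {h : ι → ℝ} (hg : Good n h) :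
    Lam 1 0 n h = Melzak.cst.toReal * (zeta 1 (Poly n h)).toReal := by
  rw [← ENNReal.toReal_mul, zeta_one3 hg, ENNReal.toReal_sum fun i _ => hg.MM_ne_top_fac i]
  unfold Lam mm
  ring

/-- In dimension 3 every polytope which attains gamma(3; 1, 3) is simple. -/
theorem main_three (P : Set (E 3)) (hP : IsPolytope P)
    (hatt : zeta 3 P ^ (1 / (3 : ℝ)) = Melzak.gamma 3 3 * zeta 1 P) : IsSimple P := by
  have hbest := best_of_gamma hP hatt
  obtain ⟨m, n, h, hg, rfl⟩ := exists_good hP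
  rw [isSimple_iff (by norm_num) hg]
  apply simp_of_max (by norm_num) (a := 1) (b := 0) (by norm_num) (by norm_num) (by norm_num) hg
  intro h' hg'
  have h1 := hbest _ hg'.isPolytope
  have hz : zeta 1 (Poly n h) ≠ ∞ := (Melzak.zeta_one_ne hP).2
  have hz' : zeta 1 (Poly n h') ≠ ∞ := (Melzak.zeta_one_ne hg'.isPolytope).2
  have h2 := ENNReal.toReal_mono
    (ENNReal.mul_ne_top hg.volume_ne_top (ENNReal.pow_ne_top hz')) h1
  rw [ENNReal.toReal_mul, ENNReal.toReal_mul, ENNReal.toReal_pow, ENNReal.toReal_pow] at h2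
  rw [fin_Lam3 hg, fin_Lam3 hg', mul_pow, mul_pow]
  have hc : 0 ≤ Melzak.cst.toReal ^ 3 := by positivity
  have h3 := mul_le_mul_of_nonneg_left h2 hc
  unfold vol
  nlinarith

end SP4
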