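import Pool.Agent.SP4.Final

/-!
Dimension 3: a polytope which is best among the polytopes with at most as many facets is simple.
-/

open MeasureTheory Set Filter Topology
open scoped ENNReal InnerProductSpace

namespace SP4

open Melzak (E IsPolytope IsKFace zeta)

lemma fin_root3 (x : ℝ≥0∞) : (x ^ (1 / (3 : ℝ))) ^ 3 = x := by
  rw [← ENNReal.rpow_natCast, ← ENNReal.rpow_mul]
  norm_num

theorem main_three_best (P : Set (E 3)) (hP : IsPolytope P)
    (hbest : ∀ P' : Set (E 3), IsPolytope P' →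
      {F : Set (E 3) | IsKFace 2 P' F}.encard ≤ {F : Set (E 3) | IsKFace 2 P F}.encard →
      zeta 3 P' ^ (1 / (3 : ℝ)) * zeta 1 P ≤ zeta 3 P ^ (1 / (3 : ℝ)) * zeta 1 P') :
    IsSimple P := by
  obtain ⟨m, n, h, hg, rfl⟩ := exists_good hP
  rw [isSimple_iff (by norm_num) hg]
  apply simp_of_max (by norm_num) (a := 1) (b := 0) (by norm_num) (by norm_num) (by norm_num) hg
  intro h' hg'
  have hc1 := card_facets (d := 3) (by norm_num) hg
  have hc2 := card_facets (d := 3) (by norm_num) hg'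
  have h0 := hbest _ hg'.isPolytope (by
    rw [show (3 - 1 : ℕ) = 2 from rfl] at hc1 hc2
    rw [hc1, hc2])
  rw [zeta_top hg'.isPolytope, zeta_top hP] at h0
  have h1 : volume (Poly n h') * zeta 1 (Poly n h) ^ 3 ≤
      volume (Poly n h) * zeta 1 (Poly n h') ^ 3 := by
    have h2 := pow_le_pow_left' h0 3
    rwa [mul_pow, mul_pow, fin_root3, fin_root3] at h2
  have hz : zeta 1 (Poly n h) ≠ ∞ := (Melzak.zeta_one_ne hP).2
  have hz' : zeta 1 (Poly n h') ≠ ∞ := (Melzak.zeta_one_ne hg'.isPolytope).2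
  have h2 := ENNReal.toReal_mono
    (ENNReal.mul_ne_top hg.volume_ne_top (ENNReal.pow_ne_top hz')) h1
  rw [ENNReal.toReal_mul, ENNReal.toReal_mul, ENNReal.toReal_pow, ENNReal.toReal_pow] at h2
  rw [fin_Lam3 hg, fin_Lam3 hg', mul_pow, mul_pow]
  have hc : 0 ≤ Melzak.cst.toReal ^ 3 := by positivity
  have h3 := mul_le_mul_of_nonneg_left h2 hc
  unfold vol
  nlinarith

end SP4
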