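import Mathlib

/-!
Row E4, local part: at a vertex of a three-dimensional section which is neither the highest nor the
lowest point, exactly two of the facets through the vertex have points above and below the vertex.
-/

open Set
open scoped InnerProductSpace

namespace SP4

/-- orthogonality to a span -/
lemma e4_inner_span {V : Type*} [NormedAddCommGroup V] [InnerProductSpace ℝ V] {S : Set V} {v x : V}
    (hv : ∀ y ∈ S, ⟪y, v⟫_ℝ = 0) (hx : x ∈ Submodule.span ℝ S) : ⟪x, v⟫_ℝ = 0 := by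
  induction hx using Submodule.span_induction with
  | mem x hx => exact hv x hx
  | zero => simp
  | add x y _ _ hx hy => rw [inner_add_left, hx, hy, add_zero]
  | smul a x _ hx => rw [inner_smul_left, hx, mul_zero]

lemma e4_mem_orth {V : Type*} [NormedAddCommGroup V] [InnerProductSpace ℝ V] {S : Set V} {v : V} :
    v ∈ (Submodule.span ℝ S)ᗮ ↔ ∀ y ∈ S, ⟪y, v⟫_ℝ = 0 := by
  constructor
  · intro hv y hy
    exact (Submodule.mem_orthogonal _ v).1 hv _ (Submodule.subset_span hy)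
  · intro hv
    rw [Submodule.mem_orthogonal]
    intro x hx
    exact e4_inner_span hv hx

/-- a vector outside a subspace is not orthogonal to everything orthogonal to the subspace -/
lemma e4_exists_orth {V : Type*} [NormedAddCommGroup V] [InnerProductSpace ℝ V]
    [FiniteDimensional ℝ V] {S : Submodule ℝ V} {g : V} (hg : g ∉ S) :
    ∃ e : V, (∀ v ∈ S, ⟪v, e⟫_ℝ = 0) ∧ 0 < ⟪g, e⟫_ℝ := by
  by_contra hcon
  push Not at hcon
  apply hg
  rw [← Submodule.orthogonal_orthogonal S, Submodule.mem_orthogonal']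
  intro e he
  rw [Submodule.mem_orthogonal] at he
  have h1 := hcon e he
  have h2 := hcon (-e) (fun v hv => by rw [inner_neg_right, he v hv, neg_zero])
  rw [inner_neg_right] at h2
  linarith

/-- In dimension four, a vector orthogonal to four suitable vectors vanishes. -/
lemma e4_four {V : Type*} [NormedAddCommGroup V] [InnerProductSpace ℝ V]
    [FiniteDimensional ℝ V] (hV : Module.finrank ℝ V = 4) {u w a b r : V}
    (hab : LinearIndependent ℝ ![a, b]) (hu : u ∉ Submodule.span ℝ {a, b})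
    (hw : w ∉ Submodule.span ℝ {u, a, b}) (h1 : ⟪u, r⟫_ℝ = 0) (h2 : ⟪w, r⟫_ℝ = 0)
    (h3 : ⟪a, r⟫_ℝ = 0) (h4 : ⟪b, r⟫_ℝ = 0) : r = 0 := by
  have hr1 : Set.range ![a, b] = {a, b} := by
    simp only [Matrix.range_cons, Matrix.range_empty, Set.union_empty, Set.singleton_union]
  have hr2 : Set.range ![u, a, b] = {u, a, b} := by
    simp only [Matrix.range_cons, Matrix.range_empty, Set.union_empty, Set.singleton_union]
  have hli3 : LinearIndependent ℝ ![u, a, b] := by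
    refine linearIndependent_finCons.2 ⟨hab, ?_⟩
    rw [hr1]
    exact hu
  have hli4 : LinearIndependent ℝ ![w, u, a, b] := by
    refine linearIndependent_finCons.2 ⟨hli3, ?_⟩
    rw [hr2]
    exact hw
  have htop := hli4.span_eq_top_of_card_eq_finrank' (by simp [hV])
  have hmem : r ∈ Submodule.span ℝ (Set.range ![w, u, a, b]) := by rw [htop]; trivial
  have h5 : ⟪r, r⟫_ℝ = 0 := by
    refine e4_inner_span (S := Set.range ![w, u, a, b]) ?_ hmem
    rintro _ ⟨k, rfl⟩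
    fin_cases k
    · simpa using h2
    · simpa using h1
    · simpa using h3
    · simpa using h4
  exact inner_self_eq_zero.1 h5

/-- In dimension four, the orthogonal complement of two independent vectors is a plane. -/
lemma e4_plane {V : Type*} [NormedAddCommGroup V] [InnerProductSpace ℝ V]
    [FiniteDimensional ℝ V] (hV : Module.finrank ℝ V = 4) {u w d : V} (hu : u ≠ 0)
    (hw : w ∉ Submodule.span ℝ {u}) (hd : d ≠ 0) (hd1 : ⟪u, d⟫_ℝ = 0) (hd2 : ⟪w, d⟫_ℝ = 0) :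
    ∃ e : V, ⟪u, e⟫_ℝ = 0 ∧ ⟪w, e⟫_ℝ = 0 ∧ (∀ c : ℝ, e ≠ c • d) ∧
      ∀ r : V, ⟪u, r⟫_ℝ = 0 → ⟪w, r⟫_ℝ = 0 → ∃ α β : ℝ, r = α • d + β • e := by
  have hr1 : Set.range ![u] = {u} := by simp
  have hli1 : LinearIndependent ℝ ![u] := by
    rw [linearIndependent_unique_iff]
    simpa using hu
  have hli2 : LinearIndependent ℝ ![w, u] := by
    refine linearIndependent_finCons.2 ⟨hli1, ?_⟩
    rw [hr1]
    exact hw
  set L := (Submodule.span ℝ (Set.range ![w, u]))ᗮ with hL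
  have hmemL : ∀ v, v ∈ L ↔ ⟪u, v⟫_ℝ = 0 ∧ ⟪w, v⟫_ℝ = 0 := by
    intro v
    rw [hL, e4_mem_orth]
    constructor
    · intro h
      exact ⟨h u ⟨1, by simp⟩, h w ⟨0, by simp⟩⟩
    · rintro ⟨h1, h2⟩ _ ⟨k, rfl⟩
      fin_cases k
      · simpa using h2
      · simpa using h1
  have hrank : Module.finrank ℝ L = 2 := by
    have h1 := finrank_span_eq_card hli2
    have h2 : Module.finrank ℝ (Submodule.span ℝ (Set.range ![w, u])) + Module.finrank ℝ L = 4 := by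
      rw [hL, Submodule.finrank_add_finrank_orthogonal, hV]
    rw [h1, Fintype.card_fin] at h2
    omega
  have hdL : d ∈ L := (hmemL d).2 ⟨hd1, hd2⟩
  have hlt : Submodule.span ℝ {d} < L := by
    refine lt_of_le_of_ne ?_ ?_
    · rw [Submodule.span_singleton_le_iff_mem]
      exact hdL
    · intro heq
      have h3 := finrank_span_singleton (K := ℝ) hd
      rw [heq, hrank] at h3
      omega
  obtain ⟨e, heL, hed⟩ := SetLike.exists_of_lt hlt
  have hindep : LinearIndependent ℝ ![e, d] := by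
    refine linearIndependent_finCons.2 ⟨?_, ?_⟩
    · rw [linearIndependent_unique_iff]
      simpa using hd
    · have : Set.range ![d] = {d} := by simp
      rw [this]
      exact hed
  have hspan : Submodule.span ℝ (Set.range ![e, d]) = L := by
    apply Submodule.eq_of_le_of_finrank_eq
    · rw [Submodule.span_le]
      rintro _ ⟨k, rfl⟩
      fin_cases k
      · simpa using heL
      · simpa using hdL
    · rw [finrank_span_eq_card hindep, hrank]
      simp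
  refine ⟨e, ((hmemL e).1 heL).1, ((hmemL e).1 heL).2, ?_, ?_⟩
  · intro c hc
    apply hed
    rw [hc]
    exact Submodule.smul_mem _ _ (Submodule.mem_span_singleton_self d)
  · intro r h1 h2
    have h3 : r ∈ Submodule.span ℝ (Set.range ![e, d]) := by
      rw [hspan]
      exact (hmemL r).2 ⟨h1, h2⟩
    have h4 : Set.range ![e, d] = {e, d} := by
      simp only [Matrix.range_cons, Matrix.range_empty, Set.union_empty, Set.singleton_union]
    rw [h4, Submodule.mem_span_pair] at h3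
    obtain ⟨a, b, hab⟩ := h3
    exact ⟨b, a, by rw [← hab, add_comm]⟩

open Classical in
/-- The local lemma. -/
lemma e4_local {V : Type*} [NormedAddCommGroup V] [InnerProductSpace ℝ V]
    [FiniteDimensional ℝ V] (hV : Module.finrank ℝ V = 4)
    {κ : Type*} {I : Finset κ} {n : κ → V} {u w : V} (hcard : 2 ≤ I.card)
    (hu : u ∉ Submodule.span ℝ (n '' (I : Set κ)))
    (hpt : ∀ v, ⟪u, v⟫_ℝ = 0 → (∀ i ∈ I, ⟪n i, v⟫_ℝ = 0) → v = 0)
    (hv : ∀ i ∈ I, ∃ v, ⟪u, v⟫_ℝ = 0 ∧ ⟪n i, v⟫_ℝ = 0 ∧ ∀ j ∈ I, j ≠ i → ⟪n j, v⟫_ℝ < 0)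
    (hw : ∀ i ∈ I, ∀ j ∈ I, i ≠ j → w ∉ Submodule.span ℝ {u, n i, n j})
    (hp : ∃ v, ⟪u, v⟫_ℝ = 0 ∧ (∀ i ∈ I, ⟪n i, v⟫_ℝ ≤ 0) ∧ 0 < ⟪w, v⟫_ℝ)
    (hm : ∃ v, ⟪u, v⟫_ℝ = 0 ∧ (∀ i ∈ I, ⟪n i, v⟫_ℝ ≤ 0) ∧ ⟪w, v⟫_ℝ < 0) :
    (I.filter (fun i =>
      (∃ v, ⟪u, v⟫_ℝ = 0 ∧ (∀ j ∈ I, ⟪n j, v⟫_ℝ ≤ 0) ∧ ⟪n i, v⟫_ℝ = 0 ∧ 0 < ⟪w, v⟫_ℝ) ∧
      (∃ v, ⟪u, v⟫_ℝ = 0 ∧ (∀ j ∈ I, ⟪n j, v⟫_ℝ ≤ 0) ∧ ⟪n i, v⟫_ℝ = 0 ∧ ⟪w, v⟫_ℝ < 0))).card = 2 := by
  -- the strictly interior direction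
  choose! v hv1 hv2 hv3 using hv
  have hother : ∀ i ∈ I, ∃ j ∈ I, j ≠ i := by
    intro i hi
    obtain ⟨j, hj, hji⟩ := Finset.exists_mem_ne (by omega : 1 < I.card) i
    exact ⟨j, hj, hji⟩
  have hle : ∀ i ∈ I, ∀ j ∈ I, ⟪n j, v i⟫_ℝ ≤ 0 := by
    intro i hi j hj
    by_cases h : j = i
    · rw [h, hv2 i hi]
    · exact (hv3 i hi j hj h).le
  set z : V := ∑ i ∈ I, v i with hz
  have hzu : ⟪u, z⟫_ℝ = 0 := by
    rw [hz, inner_sum]
    exact Finset.sum_eq_zero fun i hi => hv1 i hi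
  have hzn : ∀ j ∈ I, ⟪n j, z⟫_ℝ < 0 := by
    intro j hj
    rw [hz, inner_sum]
    obtain ⟨i, hi, hij⟩ := hother j hj
    exact Finset.sum_neg' (fun i hi => hle i hi j hj) ⟨i, hi, hv3 i hi j hj hij.symm⟩
  -- independence of two normals
  have hab : ∀ i ∈ I, ∀ j ∈ I, i ≠ j → LinearIndependent ℝ ![n i, n j] := by
    intro i hi j hj hij
    rw [LinearIndependent.pair_iff]
    intro s t hst
    have h1 : ⟪s • n i + t • n j, v i⟫_ℝ = 0 := by rw [hst, inner_zero_left]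
    have h2 : ⟪s • n i + t • n j, v j⟫_ℝ = 0 := by rw [hst, inner_zero_left]
    rw [inner_add_left, real_inner_smul_left, real_inner_smul_left, hv2 i hi, mul_zero, zero_add]
      at h1
    rw [inner_add_left, real_inner_smul_left, real_inner_smul_left, hv2 j hj, mul_zero, add_zero]
      at h2
    have h3 := hv3 i hi j hj hij.symm
    have h4 := hv3 j hj i hi hij
    exact ⟨(mul_eq_zero.1 h2).resolve_right h4.ne, (mul_eq_zero.1 h1).resolve_right h3.ne⟩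
  have hfour : ∀ i ∈ I, ∀ j ∈ I, i ≠ j → ∀ r, ⟪u, r⟫_ℝ = 0 → ⟪w, r⟫_ℝ = 0 → ⟪n i, r⟫_ℝ = 0 →
      ⟪n j, r⟫_ℝ = 0 → r = 0 := by
    intro i hi j hj hij r h1 h2 h3 h4
    refine e4_four hV (hab i hi j hj hij) (fun hcon => hu ?_) (hw i hi j hj hij) h1 h2 h3 h4
    refine Submodule.span_mono ?_ hcon
    rintro x (rfl | rfl)
    · exact ⟨i, hi, rfl⟩
    · exact ⟨j, hj, rfl⟩
  obtain ⟨i0, hi0⟩ : I.Nonempty := Finset.card_pos.1 (by omega)
  obtain ⟨j0, hj0, hj0i⟩ := hother i0 hi0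
  -- a direction at the level of w
  obtain ⟨d0, hd1, hd2, hd3⟩ : ∃ d0, ⟪u, d0⟫_ℝ = 0 ∧ ⟪w, d0⟫_ℝ = 0 ∧ ∀ i ∈ I, ⟪n i, d0⟫_ℝ < 0 := by
    obtain ⟨p, hp1, hp2, hp3⟩ := hp
    obtain ⟨m, hm1, hm2, hm3⟩ := hm
    rcases le_or_gt 0 ⟪w, z⟫_ℝ with hc | hc
    · refine ⟨(-⟪w, m⟫_ℝ) • z + ⟪w, z⟫_ℝ • m, ?_, ?_, ?_⟩
      · rw [inner_add_right, inner_smul_right, inner_smul_right, hzu, hm1]; ring
      · rw [inner_add_right, inner_smul_right, inner_smul_right]; ring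
      · intro i hi
        rw [inner_add_right, inner_smul_right, inner_smul_right]
        have e1 : (-⟪w, m⟫_ℝ) * ⟪n i, z⟫_ℝ < 0 := mul_neg_of_pos_of_neg (by linarith) (hzn i hi)
        have e2 : ⟪w, z⟫_ℝ * ⟪n i, m⟫_ℝ ≤ 0 := mul_nonpos_of_nonneg_of_nonpos hc (hm2 i hi)
        linarith
    · refine ⟨⟪w, p⟫_ℝ • z + (-⟪w, z⟫_ℝ) • p, ?_, ?_, ?_⟩
      · rw [inner_add_right, inner_smul_right, inner_smul_right, hzu, hp1]; ring
      · rw [inner_add_right, inner_smul_right, inner_smul_right]; ring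
      · intro i hi
        rw [inner_add_right, inner_smul_right, inner_smul_right]
        have e1 : ⟪w, p⟫_ℝ * ⟪n i, z⟫_ℝ < 0 := mul_neg_of_pos_of_neg hp3 (hzn i hi)
        have e2 : (-⟪w, z⟫_ℝ) * ⟪n i, p⟫_ℝ ≤ 0 :=
          mul_nonpos_of_nonneg_of_nonpos (by linarith) (hp2 i hi)
        linarith
  have hd0 : d0 ≠ 0 := by
    rintro rfl
    have := hd3 i0 hi0
    rw [inner_zero_right] at this
    exact lt_irrefl _ this
  have hu0 : u ≠ 0 := by
    rintro rfl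
    exact hu (Submodule.zero_mem _)
  have hwu : w ∉ Submodule.span ℝ {u} := fun hcon =>
    hw i0 hi0 j0 hj0 hj0i.symm (Submodule.span_mono (by simp) hcon)
  obtain ⟨e, he1, he2, he3, he4⟩ := e4_plane hV hu0 hwu hd0 hd1 hd2
  -- the slopes
  set τ : κ → ℝ := fun i => -(⟪n i, e⟫_ℝ / ⟪n i, d0⟫_ℝ) with hτ
  have hτ0 : ∀ i ∈ I, ⟪n i, τ i • d0 + e⟫_ℝ = 0 := by
    intro i hi
    rw [inner_add_right, inner_smul_right, hτ]
    simp only
    have := (hd3 i hi).ne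
    field_simp
    ring
  have hτ1 : ∀ i ∈ I, ∀ c : ℝ, ⟪n i, c • d0 + e⟫_ℝ = (c - τ i) * ⟪n i, d0⟫_ℝ := by
    intro i hi c
    have h1 := hτ0 i hi
    rw [inner_add_right, inner_smul_right] at h1 ⊢
    linarith
  have hwτ : ∀ c : ℝ, ⟪w, c • d0 + e⟫_ℝ = 0 := by
    intro c; rw [inner_add_right, inner_smul_right, hd2, he2]; ring
  have huτ : ∀ c : ℝ, ⟪u, c • d0 + e⟫_ℝ = 0 := by
    intro c; rw [inner_add_right, inner_smul_right, hd1, he1]; ring
  have hne0 : ∀ c : ℝ, c • d0 + e ≠ 0 := by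
    intro c hc
    apply he3 (-c)
    rw [neg_smul]
    exact (neg_eq_of_add_eq_zero_right hc).symm
  have hinj : ∀ i ∈ I, ∀ j ∈ I, τ i = τ j → i = j := by
    intro i hi j hj hij
    by_contra hne
    refine hne0 (τ i) (hfour i hi j hj hne _ (huτ _) (hwτ _) (hτ0 i hi) ?_)
    rw [hij]
    exact hτ0 j hj
  -- from a direction with strict inequalities to both signs of w
  have hboth : ∀ i ∈ I, ∀ r : V, ⟪u, r⟫_ℝ = 0 → ⟪w, r⟫_ℝ = 0 → ⟪n i, r⟫_ℝ = 0 →
      (∀ j ∈ I, j ≠ i → ⟪n j, r⟫_ℝ < 0) →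
      (∃ v, ⟪u, v⟫_ℝ = 0 ∧ (∀ j ∈ I, ⟪n j, v⟫_ℝ ≤ 0) ∧ ⟪n i, v⟫_ℝ = 0 ∧ 0 < ⟪w, v⟫_ℝ) ∧
      (∃ v, ⟪u, v⟫_ℝ = 0 ∧ (∀ j ∈ I, ⟪n j, v⟫_ℝ ≤ 0) ∧ ⟪n i, v⟫_ℝ = 0 ∧ ⟪w, v⟫_ℝ < 0) := by
    intro i hi r hr1 hr2 hr3 hr4
    obtain ⟨j, hj, hji⟩ := hother i hi
    have hwi : w ∉ Submodule.span ℝ {u, n i} := fun hcon =>
      hw i hi j hj hji.symm (Submodule.span_mono (by
        intro x hx
        simp only [Set.mem_insert_iff, Set.mem_singleton_iff] at hx ⊢
        tauto) hcon)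
    obtain ⟨g, hg1, hg2⟩ := e4_exists_orth hwi
    have hgu : ⟪u, g⟫_ℝ = 0 := hg1 u (Submodule.subset_span (by simp))
    have hgi : ⟪n i, g⟫_ℝ = 0 := hg1 (n i) (Submodule.subset_span (by simp))
    have hmove : ∀ g : V, ⟪u, g⟫_ℝ = 0 → ⟪n i, g⟫_ℝ = 0 → ∃ c : ℝ, 0 < c ∧
        ∀ j ∈ I, ⟪n j, c • r + g⟫_ℝ ≤ 0 := by
      intro g hgu hgi
      refine ⟨1 + ∑ j ∈ I.erase i, |⟪n j, g⟫_ℝ / ⟪n j, r⟫_ℝ|, by positivity, ?_⟩
      intro j hj
      by_cases hji : j = i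
      · rw [hji, inner_add_right, inner_smul_right, hr3, hgi]; simp
      · have h1 : |⟪n j, g⟫_ℝ / ⟪n j, r⟫_ℝ| ≤ ∑ j ∈ I.erase i, |⟪n j, g⟫_ℝ / ⟪n j, r⟫_ℝ| :=
          Finset.single_le_sum (f := fun j => |⟪n j, g⟫_ℝ / ⟪n j, r⟫_ℝ|)
            (fun _ _ => abs_nonneg _) (Finset.mem_erase.2 ⟨hji, hj⟩)
        have h2 := hr4 j hj hji
        have h3 : -(⟪n j, g⟫_ℝ / ⟪n j, r⟫_ℝ) ≤ 1 + ∑ j ∈ I.erase i, |⟪n j, g⟫_ℝ / ⟪n j, r⟫_ℝ| := by
          have := neg_abs_le (⟪n j, g⟫_ℝ / ⟪n j, r⟫_ℝ)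
          linarith
        rw [inner_add_right, inner_smul_right]
        have h4 := mul_le_mul_of_nonpos_right h3 h2.le
        have h5 : -(⟪n j, g⟫_ℝ / ⟪n j, r⟫_ℝ) * ⟪n j, r⟫_ℝ = -⟪n j, g⟫_ℝ := by
          have := h2.ne
          field_simp
        linarith
    obtain ⟨c1, hc1, hc1'⟩ := hmove g hgu hgi
    obtain ⟨c2, hc2, hc2'⟩ := hmove (-g) (by rw [inner_neg_right, hgu, neg_zero])
      (by rw [inner_neg_right, hgi, neg_zero])
    refine ⟨⟨c1 • r + g, ?_, hc1', ?_, ?_⟩, ⟨c2 • r + -g, ?_, hc2', ?_, ?_⟩⟩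
    · rw [inner_add_right, inner_smul_right, hr1, hgu]; simp
    · rw [inner_add_right, inner_smul_right, hr3, hgi]; simp
    · rw [inner_add_right, inner_smul_right, hr2]; simpa using hg2
    · rw [inner_add_right, inner_smul_right, inner_neg_right, hr1, hgu]; simp
    · rw [inner_add_right, inner_smul_right, inner_neg_right, hr3, hgi]; simp
    · rw [inner_add_right, inner_smul_right, inner_neg_right, hr2]; simpa using hg2
  obtain ⟨a, ha, hamax⟩ := Finset.exists_max_image I τ ⟨i0, hi0⟩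
  obtain ⟨b, hb, hbmin⟩ := Finset.exists_min_image I τ ⟨i0, hi0⟩
  have hab' : a ≠ b := by
    rintro rfl
    obtain ⟨j, hj, hja⟩ := hother a ha
    exact hja (hinj j hj a ha (le_antisymm (hamax j hj) (hbmin j hj)))
  have hset : I.filter (fun i =>
      (∃ v, ⟪u, v⟫_ℝ = 0 ∧ (∀ j ∈ I, ⟪n j, v⟫_ℝ ≤ 0) ∧ ⟪n i, v⟫_ℝ = 0 ∧ 0 < ⟪w, v⟫_ℝ) ∧
      (∃ v, ⟪u, v⟫_ℝ = 0 ∧ (∀ j ∈ I, ⟪n j, v⟫_ℝ ≤ 0) ∧ ⟪n i, v⟫_ℝ = 0 ∧ ⟪w, v⟫_ℝ < 0)) =
      {a, b} := by
    ext i
    rw [Finset.mem_filter, Finset.mem_insert, Finset.mem_singleton]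
    constructor
    · rintro ⟨hi, ⟨p, hp1, hp2, hp3, hp4⟩, ⟨m, hm1, hm2, hm3, hm4⟩⟩
      -- the combination at the level of w
      set r : V := (-⟪w, m⟫_ℝ) • p + ⟪w, p⟫_ℝ • m with hr
      have hru : ⟪u, r⟫_ℝ = 0 := by
        rw [hr, inner_add_right, inner_smul_right, inner_smul_right, hp1, hm1]; ring
      have hrw : ⟪w, r⟫_ℝ = 0 := by
        rw [hr, inner_add_right, inner_smul_right, inner_smul_right]; ring
      have hri : ⟪n i, r⟫_ℝ = 0 := by
        rw [hr, inner_add_right, inner_smul_right, inner_smul_right, hp3, hm3]; ring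
      have hrj : ∀ j ∈ I, ⟪n j, r⟫_ℝ ≤ 0 := by
        intro j hj
        rw [hr, inner_add_right, inner_smul_right, inner_smul_right]
        have e1 : (-⟪w, m⟫_ℝ) * ⟪n j, p⟫_ℝ ≤ 0 :=
          mul_nonpos_of_nonneg_of_nonpos (by linarith) (hp2 j hj)
        have e2 : ⟪w, p⟫_ℝ * ⟪n j, m⟫_ℝ ≤ 0 := mul_nonpos_of_nonneg_of_nonpos hp4.le (hm2 j hj)
        linarith
      have hr0 : r ≠ 0 := by
        intro hr0
        have hp0 : p = 0 := by
          refine hpt p hp1 fun j hj => ?_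
          have e0 : ⟪n j, r⟫_ℝ = 0 := by rw [hr0, inner_zero_right]
          rw [hr, inner_add_right, inner_smul_right, inner_smul_right] at e0
          have e1 : (-⟪w, m⟫_ℝ) * ⟪n j, p⟫_ℝ ≤ 0 :=
            mul_nonpos_of_nonneg_of_nonpos (by linarith) (hp2 j hj)
          have e2 : ⟪w, p⟫_ℝ * ⟪n j, m⟫_ℝ ≤ 0 :=
            mul_nonpos_of_nonneg_of_nonpos hp4.le (hm2 j hj)
          have e3 : (-⟪w, m⟫_ℝ) * ⟪n j, p⟫_ℝ = 0 := by linarith
          exact (mul_eq_zero.1 e3).resolve_left (by linarith)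
        rw [hp0, inner_zero_right] at hp4
        exact lt_irrefl _ hp4
      obtain ⟨α, β, hαβ⟩ := he4 r hru hrw
      have hin : ∀ j, ⟪n j, r⟫_ℝ = α * ⟪n j, d0⟫_ℝ + β * ⟪n j, e⟫_ℝ := by
        intro j; rw [hαβ, inner_add_right, inner_smul_right, inner_smul_right]
      have hej : ∀ j ∈ I, ⟪n j, e⟫_ℝ = -(τ j) * ⟪n j, d0⟫_ℝ := by
        intro j hj
        have := hτ1 j hj 0
        rw [zero_smul, zero_add] at this
        rw [this]; ring
      have hαi : α = β * τ i := by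
        have h1 := hin i
        rw [hri, hej i hi] at h1
        have h2 : (α - β * τ i) * ⟪n i, d0⟫_ℝ = 0 := by linarith
        have := (mul_eq_zero.1 h2).resolve_right (hd3 i hi).ne
        linarith
      have hjle : ∀ j ∈ I, 0 ≤ β * (τ i - τ j) := by
        intro j hj
        have h1 := hrj j hj
        rw [hin j, hej j hj, hαi] at h1
        have h2 : (β * (τ i - τ j)) * ⟪n j, d0⟫_ℝ ≤ 0 := by linarith
        by_contra hcon
        push Not at hcon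
        have := mul_pos_of_neg_of_neg hcon (hd3 j hj)
        linarith
      rcases lt_trichotomy β 0 with hβ | hβ | hβ
      · right
        refine hinj i hi b hb (le_antisymm ?_ (hbmin i hi))
        have := hjle b hb
        nlinarith
      · exfalso
        apply hr0
        rw [hαβ, hαi, hβ]
        simp
      · left
        refine hinj i hi a ha (le_antisymm (hamax i hi) ?_)
        have := hjle a ha
        nlinarith
    · rintro (rfl | rfl)
      · refine ⟨ha, hboth i ha (τ i • d0 + e) (huτ _) (hwτ _) (hτ0 i ha) ?_⟩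
        intro j hj hji
        rw [hτ1 j hj]
        have h1 : τ j < τ i := lt_of_le_of_ne (hamax j hj) fun h => hji (hinj j hj i ha h)
        exact mul_neg_of_pos_of_neg (by linarith) (hd3 j hj)
      · refine ⟨hb, hboth i hb (-(τ i • d0 + e)) ?_ ?_ ?_ ?_⟩
        · rw [inner_neg_right, huτ, neg_zero]
        · rw [inner_neg_right, hwτ, neg_zero]
        · rw [inner_neg_right, hτ0 i hb, neg_zero]
        · intro j hj hji
          rw [inner_neg_right, hτ1 j hj]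
          have h1 : τ i < τ j := lt_of_le_of_ne (hbmin j hj) fun h => hji (hinj j hj i hb h.symm)
          have := mul_pos_of_neg_of_neg (by linarith : τ i - τ j < 0) (hd3 j hj)
          linarith
  rw [hset, Finset.card_pair hab']

end SP4
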