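import Pool.Agent.SP4.Real

/-!
The key inequality for a maximiser (needs d * mm(P) <= sum of the mm of the facets).
-/

open MeasureTheory Set Filter Topology
open scoped ENNReal InnerProductSpace Pointwise

namespace SP4

open Melzak (E IsPolytope IsKFace zeta)

variable {d : ℕ} {ι : Type*}

lemma Lam_ge_of [Fintype ι] {n : ι → E d} {h : ι → ℝ} {a b : ℝ} (ha : 0 < a)
    (hdm : (d : ℝ) * mm (Poly n h) ≤ ∑ i, mm (Fac n h i)) :
    (a * d - b) * mm (Poly n h) ≤ Lam a b n h := by
  unfold Lam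
  have := mul_le_mul_of_nonneg_left hdm ha.le
  nlinarith

/-- The small inner parallel move of an irredundant system is irredundant. -/
lemma Good.exists_inner [Finite ι] {n : ι → E d} {h : ι → ℝ} (hg : Good n h) {q : ι → ℝ}
    (hQ : (Poly n q).Nonempty) :
    ∃ t : ℝ, 0 < t ∧ t < 1 ∧ Good n (fun i => h i - t * q i) ∧
      ∀ x ∈ Poly n (fun i => h i - t * q i), ∀ y ∈ Poly n q, x + t • y ∈ Poly n h := by
  obtain ⟨x0, hx0⟩ := hQ
  have hadd : ∀ t : ℝ, 0 ≤ t → ∀ x ∈ Poly n (fun i => h i - t * q i), ∀ y ∈ Poly n q,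
      x + t • y ∈ Poly n h := by
    intro t h0 x hx y hy i
    rw [inner_add_right, inner_smul_right]
    have h1 := hx i
    have h2 := mul_le_mul_of_nonneg_left (hy i) h0
    simp only at h1
    linarith
  have hbt : ∀ t : ℝ, 0 ≤ t → Bornology.IsBounded (Poly n (fun i => h i - t * q i)) := by
    intro t h0
    obtain ⟨R, hR⟩ := hg.bdd.exists_norm_le
    rw [isBounded_iff_forall_norm_le]
    refine ⟨R + t * ‖x0‖, fun x hx => ?_⟩
    have h1 := hR _ (hadd t h0 x hx x0 hx0)
    have e : x = (x + t • x0) - t • x0 := by abel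
    calc ‖x‖ = ‖(x + t • x0) - t • x0‖ := by rw [← e]
      _ ≤ ‖x + t • x0‖ + ‖t • x0‖ := norm_sub_le _ _
      _ ≤ R + t * ‖x0‖ := by
        rw [norm_smul, Real.norm_eq_abs, abs_of_nonneg h0]
        linarith
  choose y hy1 hy2 using hg.irr
  obtain ⟨z, hz⟩ := hg.slater
  have hev : ∀ᶠ t : ℝ in 𝓝 0, (∀ i, ⟪n i, z⟫_ℝ < h i - t * q i) ∧
      ∀ i, ∀ j, j ≠ i → ⟪n j, y i - (t * q i) • n i⟫_ℝ < h j - t * q j := by
    apply Filter.Eventually.and
    · rw [eventually_all]
      intro i
      have hc : Continuous fun t : ℝ => h i - t * q i := by fun_prop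
      have h0 : Tendsto (fun t : ℝ => h i - t * q i) (𝓝 0) (𝓝 (h i)) := by
        have := hc.tendsto 0
        simpa using this
      exact h0.eventually_const_lt (hz i)
    · rw [eventually_all]
      intro i
      rw [eventually_all]
      intro j
      by_cases hj : j = i
      · exact Eventually.of_forall fun _ h' => absurd hj h'
      · have hc : Continuous fun t : ℝ => (h j - t * q j) - ⟪n j, y i - (t * q i) • n i⟫_ℝ := by
          fun_prop
        have h0 : Tendsto (fun t : ℝ => (h j - t * q j) - ⟪n j, y i - (t * q i) • n i⟫_ℝ) (𝓝 0)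
            (𝓝 (h j - ⟪n j, y i⟫_ℝ)) := by
          have := hc.tendsto 0
          simpa using this
        have h1 : 0 < h j - ⟪n j, y i⟫_ℝ := by linarith [hy2 i j hj]
        filter_upwards [h0.eventually_const_lt h1] with t ht _
        linarith
  obtain ⟨ε, hε, hball⟩ := Metric.eventually_nhds_iff.mp hev
  set t : ℝ := min (ε / 2) (1 / 2) with htdef
  have ht0 : 0 < t := lt_min (by linarith) (by norm_num)
  have ht1 : t < 1 := lt_of_le_of_lt (min_le_right _ _) (by norm_num)
  obtain ⟨hs1, hs2⟩ := hball (y := t) (by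
    rw [Real.dist_eq, sub_zero, abs_of_pos ht0]
    exact lt_of_le_of_lt (min_le_left _ _) (by linarith))
  refine ⟨t, ht0, ht1, ⟨hg.unit, fun i => ⟨y i - (t * q i) • n i, ?_, fun j hj => hs2 i j hj⟩,
    hbt t ht0.le, ⟨z, hs1⟩⟩, hadd t ht0.le⟩
  rw [inner_sub_right, inner_smul_right, real_inner_self_eq_norm_sq, hg.unit i, hy1 i]
  ring

lemma key_of [Fintype ι] (hd : 1 ≤ d) {a b : ℝ} (ha : 0 < a) (hb : 0 ≤ b)
    {n : ι → E d} {h : ι → ℝ} (hg : Good n h) (hmax : MaxN a b n h)
    (hLpos : ∀ h' : ι → ℝ, Good n h' → 0 < Lam a b n h')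
    {q : ι → ℝ} (hq : ∀ i, q i ≤ h i) (hne : ∀ i, (Fac n q i).Nonempty) :
    a * ∑ i, mm (Fac n q i) ≤ Lam a b n h + b * mm (Poly n h) := by
  rcases isEmpty_or_nonempty ι with hι | ⟨⟨i₀⟩⟩
  · have h1 : 0 ≤ b * mm (Poly n h) := mul_nonneg hb (mm_nonneg _)
    have h2 := (hLpos h hg).le
    simp only [Finset.univ_eq_empty, Finset.sum_empty, mul_zero]
    linarith
  have hQP : Poly n q ⊆ Poly n h := fun x hx i => (hx i).trans (hq i)
  have hQb : Bornology.IsBounded (Poly n q) := hg.bdd.subset hQP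
  obtain ⟨x0, hx0⟩ := hne i₀
  obtain ⟨t, ht0, ht1, hgt, hadd⟩ := hg.exists_inner (q := q) ⟨x0, hx0.1⟩
  set h' : ι → ℝ := fun i => h i - t * q i with hh'
  -- superadditivity on the facets
  have hsup : ∑ i, mm (Fac n h' i) + t * ∑ i, mm (Fac n q i) ≤ ∑ i, mm (Fac n h i) := by
    rw [Finset.mul_sum, ← Finset.sum_add_distrib]
    apply Finset.sum_le_sum
    intro i _
    apply mm_add (isCompact_Fac hgt.bdd i) (convex_Fac _ _ i) (hgt.nonempty_Fac i)
      (isCompact_Fac hQb i) (convex_Fac _ _ i) (hne i) ht0.le (hg.bdd.subset (Fac_subset n h i))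
    intro x hx y hy
    refine ⟨hadd x hx.1 y hy.1, ?_⟩
    rw [inner_add_right, inner_smul_right, hx.2, hy.2]
    simp only [hh']
    ring
  have hsub : (fun x : E d => (1 - t) • x) '' Poly n h ⊆ Poly n h' := by
    rintro _ ⟨x, hx, rfl⟩ i
    simp only [hh']
    rw [inner_smul_right]
    have h1 := mul_le_mul_of_nonneg_left (hx i) (by linarith : (0 : ℝ) ≤ 1 - t)
    have h2 := mul_le_mul_of_nonneg_left (hq i) ht0.le
    linarith
  -- the mean width of the polytope
  have hmw : (1 - t) * mm (Poly n h) ≤ mm (Poly n h') := by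
    have h1 := mm_mono hsub hgt.bdd
    have h2 : mm ((fun x : E d => (1 - t) • x) '' Poly n h) = (1 - t) * mm (Poly n h) := by
      unfold mm MM
      simp only [wid_smul _ (Poly n h) (by linarith : (0 : ℝ) ≤ 1 - t)]
      rw [lintegral_const_mul' _ _ ENNReal.ofReal_ne_top, ENNReal.toReal_mul,
        ENNReal.toReal_ofReal (by linarith)]
    rwa [h2] at h1
  -- the volume
  have hvol : (1 - t) ^ d * vol n h ≤ vol n h' := by
    have h1 := measure_mono (μ := volume) hsub
    have h2 : (fun x : E d => (1 - t) • x) '' Poly n h = (1 - t) • Poly n h := rfl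
    rw [h2, Measure.addHaar_smul, finrank_euclideanSpace_fin,
      abs_of_nonneg (pow_nonneg (by linarith) d)] at h1
    have h3 := ENNReal.toReal_mono hgt.volume_ne_top h1
    rwa [ENNReal.toReal_mul, ENNReal.toReal_ofReal (pow_nonneg (by linarith) d)] at h3
  set L := Lam a b n h with hL
  set L' := Lam a b n h' with hL'
  have hLp : 0 < L := hLpos h hg
  have hLp' : 0 < L' := hLpos h' hgt
  have hV := hg.vol_pos
  have hm := hmax h' hgt
  rw [← hL, ← hL'] at hm
  -- (1 - t) L ≤ L'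
  have h3 : (1 - t) * L ≤ L' := by
    have h4 : (1 - t) ^ d * vol n h * L ^ d ≤ vol n h * L' ^ d :=
      (mul_le_mul_of_nonneg_right hvol (by positivity)).trans hm
    have h5 : ((1 - t) * L) ^ d ≤ L' ^ d := by
      have e1 : (1 - t) ^ d * vol n h * L ^ d = vol n h * ((1 - t) * L) ^ d := by
        rw [mul_pow]; ring
      rw [e1] at h4
      exact le_of_mul_le_mul_left h4 hV
    exact le_of_pow_le_pow_left₀ (by omega) hLp'.le h5
  have h6 : L' ≤ L - t * (a * ∑ i, mm (Fac n q i)) + t * (b * mm (Poly n h)) := by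
    rw [hL', hL]
    unfold Lam
    have e1 := mul_le_mul_of_nonneg_left hsup ha.le
    have e2 := mul_le_mul_of_nonneg_left hmw hb
    nlinarith
  have h7 : t * (a * ∑ i, mm (Fac n q i)) ≤ t * (L + b * mm (Poly n h)) := by nlinarith
  exact le_of_mul_le_mul_left h7 ht0

end SP4
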