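import Pool.Agent.SP4.Width

/-!
Polyhedra given by irredundant systems of inequalities.
-/

open MeasureTheory Set Filter Topology
open scoped ENNReal InnerProductSpace

namespace SP4

open Melzak (E IsPolytope IsKFace zeta)

variable {d : ℕ}

variable {ι : Type*}

lemma isClosed_Poly (n : ι → E d) (h : ι → ℝ) : IsClosed (Poly n h) := by
  have : Poly n h = ⋂ i, {x | ⟪n i, x⟫_ℝ ≤ h i} := by ext x; simp [Poly]
  rw [this]
  exact isClosed_iInter fun i => isClosed_le (by fun_prop) continuous_const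

lemma convex_Poly (n : ι → E d) (h : ι → ℝ) : Convex ℝ (Poly n h) := by
  intro x hx y hy a b ha hb hab i
  have h1 := hx i
  have h2 := hy i
  rw [inner_add_right, inner_smul_right, inner_smul_right]
  have : h i = a * h i + b * h i := by rw [← add_mul, hab, one_mul]
  rw [this]
  gcongr

lemma Fac_subset (n : ι → E d) (h : ι → ℝ) (i : ι) : Fac n h i ⊆ Poly n h := fun _ hx => hx.1

lemma isClosed_Fac (n : ι → E d) (h : ι → ℝ) (i : ι) : IsClosed (Fac n h i) := by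
  have : Fac n h i = Poly n h ∩ {x | ⟪n i, x⟫_ℝ = h i} := rfl
  rw [this]
  exact (isClosed_Poly n h).inter (isClosed_eq (by fun_prop) continuous_const)

lemma convex_Fac (n : ι → E d) (h : ι → ℝ) (i : ι) : Convex ℝ (Fac n h i) := by
  intro x hx y hy a b ha hb hab
  refine ⟨convex_Poly n h hx.1 hy.1 ha hb hab, ?_⟩
  rw [inner_add_right, inner_smul_right, inner_smul_right, hx.2, hy.2, ← add_mul, hab, one_mul]

lemma isCompact_Poly {n : ι → E d} {h : ι → ℝ} (hb : Bornology.IsBounded (Poly n h)) :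
    IsCompact (Poly n h) := Metric.isCompact_of_isClosed_isBounded (isClosed_Poly n h) hb

lemma isCompact_Fac {n : ι → E d} {h : ι → ℝ} (hb : Bornology.IsBounded (Poly n h)) (i : ι) :
    IsCompact (Fac n h i) :=
  Metric.isCompact_of_isClosed_isBounded (isClosed_Fac n h i) (hb.subset (Fac_subset n h i))

lemma isCompact_Fac_inter {n : ι → E d} {h : ι → ℝ} (hb : Bornology.IsBounded (Poly n h))
    (i j : ι) : IsCompact (Fac n h i ∩ Fac n h j) :=
  (isCompact_Fac hb i).inter (isCompact_Fac hb j)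

lemma Good.nonempty_Fac {n : ι → E d} {h : ι → ℝ} (hg : Good n h) (i : ι) :
    (Fac n h i).Nonempty := by
  obtain ⟨y, hy, hy'⟩ := hg.irr i
  refine ⟨y, fun j => ?_, hy⟩
  by_cases hj : j = i
  · rw [hj]; exact hy.le
  · exact (hy' j hj).le

/-- A ray starting in a bounded polyhedron leaves it through a constraint. -/
lemma exists_exit [Finite ι] {n : ι → E d} {h : ι → ℝ} (hb : Bornology.IsBounded (Poly n h))
    {y w : E d} (hy : y ∈ Poly n h) (hw : w ≠ 0) :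
    ∃ j, ∃ τ : ℝ, 0 ≤ τ ∧ 0 < ⟪n j, w⟫_ℝ ∧ y + τ • w ∈ Poly n h ∧ ⟪n j, y + τ • w⟫_ℝ = h j := by
  classical
  have := Fintype.ofFinite ι
  have hne : (Finset.univ.filter fun j => 0 < ⟪n j, w⟫_ℝ).Nonempty := by
    by_contra hc
    rw [Finset.not_nonempty_iff_eq_empty, Finset.filter_eq_empty_iff] at hc
    obtain ⟨R, hR⟩ := hb.exists_norm_le
    have hmem : ∀ τ : ℝ, 0 ≤ τ → y + τ • w ∈ Poly n h := by
      intro τ hτ j
      have h1 := hc (Finset.mem_univ j)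
      push Not at h1
      rw [inner_add_right, inner_smul_right]
      nlinarith [hy j]
    have hwn : 0 < ‖w‖ := norm_pos_iff.2 hw
    have h2 := hR _ (hmem ((R + ‖y‖ + 1) / ‖w‖) (by
      have : 0 ≤ R := (norm_nonneg _).trans (hR y hy)
      positivity))
    have h3 : ‖((R + ‖y‖ + 1) / ‖w‖) • w‖ ≤ ‖y + ((R + ‖y‖ + 1) / ‖w‖) • w‖ + ‖y‖ := by
      have := norm_sub_le (y + ((R + ‖y‖ + 1) / ‖w‖) • w) y
      simpa using this
    have h4 : ‖((R + ‖y‖ + 1) / ‖w‖) • w‖ = R + ‖y‖ + 1 := by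
      have : 0 ≤ R := (norm_nonneg _).trans (hR y hy)
      rw [norm_smul, Real.norm_of_nonneg (by positivity), div_mul_cancel₀ _ hwn.ne']
    linarith
  obtain ⟨j, hj, hmin⟩ := Finset.exists_min_image _
    (fun j => (h j - ⟪n j, y⟫_ℝ) / ⟪n j, w⟫_ℝ) hne
  rw [Finset.mem_filter] at hj
  have hj2 := hj.2
  have hτ0 : 0 ≤ (h j - ⟪n j, y⟫_ℝ) / ⟪n j, w⟫_ℝ := by
    have := hy j
    exact div_nonneg (by linarith) hj2.le
  refine ⟨j, (h j - ⟪n j, y⟫_ℝ) / ⟪n j, w⟫_ℝ, hτ0, hj2, ?_, ?_⟩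
  · intro l
    rw [inner_add_right, inner_smul_right]
    by_cases hl : 0 < ⟪n l, w⟫_ℝ
    · have := hmin l (Finset.mem_filter.2 ⟨Finset.mem_univ _, hl⟩)
      rw [le_div_iff₀ hl] at this
      linarith
    · push Not at hl
      nlinarith [hy l]
  · rw [inner_add_right, inner_smul_right, div_mul_cancel₀ _ hj2.ne']
    ring

/-- The strict point of a facet at an interior level. -/
lemma Good.exists_strict_level {n : ι → E d} {h : ι → ℝ} (hg : Good n h) (u : E d) (i : ι) {s : ℝ}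
    (hs : s ∈ interior ((fun x : E d => ⟪x, u⟫_ℝ) '' Fac n h i)) :
    ∃ y, ⟪n i, y⟫_ℝ = h i ∧ (∀ j, j ≠ i → ⟪n j, y⟫_ℝ < h j) ∧ ⟪y, u⟫_ℝ = s := by
  obtain ⟨y, hy, hy'⟩ := hg.irr i
  obtain ⟨a, b, hab, himg⟩ := image_eq_Icc (isCompact_Fac hg.bdd i) (convex_Fac n h i)
    (hg.nonempty_Fac i) u
  rw [himg, interior_Icc] at hs
  have key : ∀ z ∈ Fac n h i, ∀ θ : ℝ, 0 ≤ θ → θ < 1 → ⟪y, u⟫_ℝ + θ * (⟪z, u⟫_ℝ - ⟪y, u⟫_ℝ) = s →
      ∃ y, ⟪n i, y⟫_ℝ = h i ∧ (∀ j, j ≠ i → ⟪n j, y⟫_ℝ < h j) ∧ ⟪y, u⟫_ℝ = s := by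
    intro z hz θ h0 h1 h2
    refine ⟨y + θ • (z - y), ?_, ?_, ?_⟩
    · rw [inner_add_right, inner_smul_right, inner_sub_right, hz.2, hy]; ring
    · intro j hj
      rw [inner_add_right, inner_smul_right, inner_sub_right]
      have e1 := hy' j hj
      have e2 := hz.1 j
      nlinarith
    · rw [inner_add_left, inner_smul_left, inner_sub_left]
      simpa using h2
  obtain ⟨za, hza, hza'⟩ : a ∈ (fun x : E d => ⟪x, u⟫_ℝ) '' Fac n h i := by
    rw [himg]; exact ⟨le_rfl, hab⟩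
  obtain ⟨zb, hzb, hzb'⟩ : b ∈ (fun x : E d => ⟪x, u⟫_ℝ) '' Fac n h i := by
    rw [himg]; exact ⟨hab, le_rfl⟩
  simp only at hza' hzb'
  rcases le_or_gt ⟪y, u⟫_ℝ s with hc | hc
  · have hpos : 0 < b - ⟪y, u⟫_ℝ := by linarith [hs.2]
    refine key zb hzb ((s - ⟪y, u⟫_ℝ) / (b - ⟪y, u⟫_ℝ)) (div_nonneg (by linarith) hpos.le)
      ((div_lt_one hpos).2 (by linarith [hs.2])) ?_
    rw [hzb', div_mul_cancel₀ _ hpos.ne']
    ring
  · have hpos : 0 < ⟪y, u⟫_ℝ - a := by linarith [hs.1]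
    refine key za hza ((⟪y, u⟫_ℝ - s) / (⟪y, u⟫_ℝ - a)) (div_nonneg (by linarith) hpos.le)
      ((div_lt_one hpos).2 (by linarith [hs.1])) ?_
    rw [hza']
    have : (⟪y, u⟫_ℝ - s) / (⟪y, u⟫_ℝ - a) * (a - ⟪y, u⟫_ℝ) = -(⟪y, u⟫_ℝ - s) := by
      field_simp
      ring
    rw [this]
    ring

/-- Generic levels. -/
lemma Good.ae_level [Finite ι] {n : ι → E d} {h : ι → ℝ} (hg : Good n h) (u : E d) :
    ∀ᵐ s : ℝ, ∀ i, s ∈ (fun x : E d => ⟪x, u⟫_ℝ) '' Fac n h i →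
      s ∈ interior ((fun x : E d => ⟪x, u⟫_ℝ) '' Fac n h i) := by
  have h2 : ∀ i, ∀ᵐ s : ℝ, s ∈ (fun x : E d => ⟪x, u⟫_ℝ) '' Fac n h i →
      s ∈ interior ((fun x : E d => ⟪x, u⟫_ℝ) '' Fac n h i) := by
    intro i
    obtain ⟨a, b, hab, himg⟩ := image_eq_Icc (isCompact_Fac hg.bdd i) (convex_Fac n h i)
      (hg.nonempty_Fac i) u
    rw [himg, interior_Icc]
    have hfin : ({a, b} : Set ℝ).Finite := by simp
    filter_upwards [compl_mem_ae_iff.2 (hfin.measure_zero (volume : Measure ℝ))] with s hs hs'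
    simp only [mem_compl_iff, mem_insert_iff, mem_singleton_iff, not_or] at hs
    exact ⟨lt_of_le_of_ne hs'.1 (Ne.symm hs.1), lt_of_le_of_ne hs'.2 hs.2⟩
  exact ae_all_iff.2 h2

lemma continuous_inner_left (u : E d) : Continuous (fun x : E d => ⟪x, u⟫_ℝ) := by fun_prop

lemma measurableSet_image_of_isCompact {C : Set (E d)} (hC : IsCompact C) (u : E d) :
    MeasurableSet ((fun x : E d => ⟪x, u⟫_ℝ) '' C) :=
  (hC.image (continuous_inner_left u)).measurableSet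


end SP4
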