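import Pool.Agent.SP4.Poly

/-!
Real versions of the mean width; positivity.
-/

open MeasureTheory Set Filter Topology
open scoped ENNReal InnerProductSpace

namespace SP4

open Melzak (E IsPolytope IsKFace zeta)

variable {d : ℕ} {ι : Type*}

lemma mm_nonneg (C : Set (E d)) : 0 ≤ mm C := ENNReal.toReal_nonneg

lemma mm_mono {C D : Set (E d)} (h : C ⊆ D) (hD : Bornology.IsBounded D) : mm C ≤ mm D :=
  ENNReal.toReal_mono (MM_ne_top hD) (MM_mono h)

lemma mm_add {A B C : Set (E d)} (hA : IsCompact A) (hAc : Convex ℝ A) (hAn : A.Nonempty)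
    (hB : IsCompact B) (hBc : Convex ℝ B) (hBn : B.Nonempty) {t : ℝ} (ht : 0 ≤ t)
    (hC : Bornology.IsBounded C) (h : ∀ a ∈ A, ∀ b ∈ B, a + t • b ∈ C) :
    mm A + t * mm B ≤ mm C := by
  have h1 := ENNReal.toReal_mono (MM_ne_top hC) (MM_add hA hAc hAn hB hBc hBn ht h)
  rwa [ENNReal.toReal_add (MM_ne_top hA.isBounded)
    (ENNReal.mul_ne_top ENNReal.ofReal_ne_top (MM_ne_top hB.isBounded)), ENNReal.toReal_mul,
    ENNReal.toReal_ofReal ht] at h1

lemma mm_segment [NeZero d] (a b : E d) : mm (segment ℝ a b) = (cst d).toReal * dist a b := by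
  unfold mm
  rw [MM_segment, ENNReal.toReal_mul, dist_edist]

lemma cst_toReal_pos [NeZero d] : 0 < (cst d).toReal := ENNReal.toReal_pos cst_ne_zero cst_ne_top

lemma Good.dist_le [NeZero d] {n : ι → E d} {h : ι → ℝ} (hg : Good n h) {x y : E d}
    (hx : x ∈ Poly n h) (hy : y ∈ Poly n h) : (cst d).toReal * dist x y ≤ mm (Poly n h) := by
  rw [← mm_segment]
  exact mm_mono ((convex_Poly n h).segment_subset hx hy) hg.bdd

lemma rl_isOpen_strict [Finite ι] (n : ι → E d) (h : ι → ℝ) :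
    IsOpen {x : E d | ∀ i, ⟪n i, x⟫_ℝ < h i} := by
  rw [ofPred_forall]
  exact isOpen_iInter_of_finite fun i => isOpen_lt (by fun_prop) continuous_const

/-- there are two different points -/
lemma rl_two [Finite ι] [NeZero d] {n : ι → E d} {h : ι → ℝ} (hs : ∃ z, ∀ i, ⟪n i, z⟫_ℝ < h i) :
    ∃ x ∈ Poly n h, ∃ y ∈ Poly n h, x ≠ y := by
  obtain ⟨z, hz⟩ := hs
  have h1 := (rl_isOpen_strict n h).mem_nhds (show z ∈ {x : E d | ∀ i, ⟪n i, x⟫_ℝ < h i} from hz)
  obtain ⟨ε, hε, hball⟩ := Metric.mem_nhds_iff.1 h1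
  have hmem : z + (ε / 2) • EuclideanSpace.single (0 : Fin d) (1 : ℝ) ∈ Metric.ball z ε := by
    rw [Metric.mem_ball, dist_eq_norm, add_sub_cancel_left, norm_smul]
    simp only [EuclideanSpace.norm_single, norm_one, mul_one, Real.norm_eq_abs]
    rw [abs_of_pos (by positivity)]
    linarith
  refine ⟨z, fun i => (hz i).le, _, fun i => (hball hmem i).le, fun h => ?_⟩
  have h2 : (ε / 2) • EuclideanSpace.single (0 : Fin d) (1 : ℝ) = (0 : E d) := by
    have := h.symm
    simpa using this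
  have h3 : ‖(ε / 2) • (EuclideanSpace.single (0 : Fin d) (1 : ℝ) : E d)‖ = ε / 2 := by
    rw [norm_smul]
    simp only [EuclideanSpace.norm_single, norm_one, mul_one, Real.norm_eq_abs]
    exact abs_of_pos (by positivity)
  rw [h2, norm_zero] at h3
  linarith

lemma Good.mm_pos [Finite ι] [NeZero d] {n : ι → E d} {h : ι → ℝ} (hg : Good n h) :
    0 < mm (Poly n h) := by
  obtain ⟨x, hx, y, hy, hxy⟩ := rl_two hg.slater
  exact (mul_pos cst_toReal_pos (dist_pos.2 hxy)).trans_le (hg.dist_le hx hy)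

lemma Good.volume_ne_zero [Finite ι] {n : ι → E d} {h : ι → ℝ} (hg : Good n h) :
    volume (Poly n h) ≠ 0 := by
  have h1 : 0 < volume {x : E d | ∀ i, ⟪n i, x⟫_ℝ < h i} :=
    (rl_isOpen_strict n h).measure_pos volume hg.slater
  have h2 : volume {x : E d | ∀ i, ⟪n i, x⟫_ℝ < h i} ≤ volume (Poly n h) :=
    measure_mono fun x hx i => (hx i).le
  exact (h1.trans_le h2).ne'

lemma Good.volume_ne_top {n : ι → E d} {h : ι → ℝ} (hg : Good n h) : volume (Poly n h) ≠ ∞ :=
  hg.bdd.measure_lt_top.ne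

lemma Good.vol_pos [Finite ι] {n : ι → E d} {h : ι → ℝ} (hg : Good n h) : 0 < vol n h :=
  ENNReal.toReal_pos hg.volume_ne_zero hg.volume_ne_top

lemma Good.MM_ne_top_fac {n : ι → E d} {h : ι → ℝ} (hg : Good n h) (i : ι) :
    MM (Fac n h i) ≠ ∞ := MM_ne_top (hg.bdd.subset (Fac_subset n h i))

end SP4
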