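import Pool.Agent.SP4.Real

/-!
Behaviour of the ratio under dilations and translations.
-/

open MeasureTheory Set Filter Topology
open scoped ENNReal InnerProductSpace Pointwise

namespace SP4

open Melzak (E IsPolytope IsKFace zeta)

variable {d : ℕ}

variable {ι : Type*}

lemma Poly_smul (n : ι → E d) (h : ι → ℝ) {t : ℝ} (ht : 0 < t) :
    Poly n (fun i => t * h i) = (fun x => t • x) '' Poly n h := by
  ext x
  constructor
  · intro hx
    refine ⟨t⁻¹ • x, fun i => ?_, ?_⟩
    · rw [inner_smul_right]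
      have := hx i
      calc t⁻¹ * ⟪n i, x⟫_ℝ ≤ t⁻¹ * (t * h i) := by gcongr
        _ = h i := by rw [← mul_assoc, inv_mul_cancel₀ ht.ne', one_mul]
    · simp only
      rw [smul_smul, mul_inv_cancel₀ ht.ne', one_smul]
  · rintro ⟨y, hy, rfl⟩ i
    simp only
    rw [inner_smul_right]
    have := hy i
    gcongr

lemma Fac_smul (n : ι → E d) (h : ι → ℝ) {t : ℝ} (ht : 0 < t) (i : ι) :
    Fac n (fun i => t * h i) i = (fun x => t • x) '' Fac n h i := by
  ext x
  constructor
  · rintro ⟨hx, hx2⟩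
    rw [Poly_smul n h ht] at hx
    obtain ⟨y, hy, rfl⟩ := hx
    refine ⟨y, ⟨hy, ?_⟩, rfl⟩
    simp only at hx2
    rw [inner_smul_right] at hx2
    exact mul_left_cancel₀ ht.ne' hx2
  · rintro ⟨y, hy, rfl⟩
    refine ⟨?_, ?_⟩
    · rw [Poly_smul n h ht]
      exact ⟨y, hy.1, rfl⟩
    · simp only
      rw [inner_smul_right, hy.2]

lemma Poly_translate (n : ι → E d) (h : ι → ℝ) (x : E d) :
    Poly n (fun i => h i + ⟪n i, x⟫_ℝ) = (fun y => x + y) '' Poly n h := by
  ext z
  constructor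
  · intro hz
    refine ⟨z - x, fun i => ?_, by simp⟩
    have := hz i
    rw [inner_sub_right]
    linarith
  · rintro ⟨y, hy, rfl⟩ i
    simp only
    rw [inner_add_right]
    linarith [hy i]

lemma Fac_translate (n : ι → E d) (h : ι → ℝ) (x : E d) (i : ι) :
    Fac n (fun i => h i + ⟪n i, x⟫_ℝ) i = (fun y => x + y) '' Fac n h i := by
  ext z
  constructor
  · rintro ⟨hz, hz2⟩
    rw [Poly_translate n h x] at hz
    obtain ⟨y, hy, rfl⟩ := hz
    refine ⟨y, ⟨hy, ?_⟩, rfl⟩
    simp only at hz2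
    rw [inner_add_right] at hz2
    linarith
  · rintro ⟨y, hy, rfl⟩
    refine ⟨?_, ?_⟩
    · rw [Poly_translate n h x]
      exact ⟨y, hy.1, rfl⟩
    · simp only
      rw [inner_add_right, hy.2]
      ring

lemma Good.smul {n : ι → E d} {h : ι → ℝ} (hg : Good n h) {t : ℝ} (ht : 0 < t) :
    Good n (fun i => t * h i) := by
  refine ⟨hg.unit, fun i => ?_, ?_, ?_⟩
  · obtain ⟨y, hy, hy'⟩ := hg.irr i
    refine ⟨t • y, by rw [inner_smul_right, hy], fun j hj => ?_⟩
    rw [inner_smul_right]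
    have := hy' j hj
    gcongr
  · rw [Poly_smul n h ht]
    obtain ⟨R, hR⟩ := hg.bdd.exists_norm_le
    rw [isBounded_iff_forall_norm_le]
    refine ⟨t * R, ?_⟩
    rintro _ ⟨x, hx, rfl⟩
    simp only
    rw [norm_smul, Real.norm_of_nonneg ht.le]
    gcongr
    exact hR x hx
  · obtain ⟨z, hz⟩ := hg.slater
    refine ⟨t • z, fun i => ?_⟩
    rw [inner_smul_right]
    have := hz i
    gcongr

lemma Good.translate {n : ι → E d} {h : ι → ℝ} (hg : Good n h) (x : E d) :
    Good n (fun i => h i + ⟪n i, x⟫_ℝ) := by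
  refine ⟨hg.unit, fun i => ?_, ?_, ?_⟩
  · obtain ⟨y, hy, hy'⟩ := hg.irr i
    refine ⟨x + y, by rw [inner_add_right, hy]; ring, fun j hj => ?_⟩
    rw [inner_add_right]
    linarith [hy' j hj]
  · rw [Poly_translate n h x]
    obtain ⟨R, hR⟩ := hg.bdd.exists_norm_le
    rw [isBounded_iff_forall_norm_le]
    refine ⟨‖x‖ + R, ?_⟩
    rintro _ ⟨y, hy, rfl⟩
    exact (norm_add_le _ _).trans (by linarith [hR y hy])
  · obtain ⟨z, hz⟩ := hg.slater
    refine ⟨x + z, fun i => ?_⟩
    rw [inner_add_right]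
    linarith [hz i]

lemma MM_smul (C : Set (E d)) {t : ℝ} (ht : 0 ≤ t) :
    MM ((fun x => t • x) '' C) = ENNReal.ofReal t * MM C := by
  unfold MM
  simp only [wid_smul _ C ht]
  rw [lintegral_const_mul' _ _ ENNReal.ofReal_ne_top]

lemma MM_translate (C : Set (E d)) (x : E d) : MM ((fun y => x + y) '' C) = MM C := by
  unfold MM
  simp only [wid_translate]

lemma volume_smul_image (C : Set (E d)) {t : ℝ} (ht : 0 ≤ t) :
    volume ((fun x : E d => t • x) '' C) = ENNReal.ofReal t ^ d * volume C := by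
  have h1 : (fun x : E d => t • x) '' C = t • C := rfl
  rw [h1, Measure.addHaar_smul, finrank_euclideanSpace_fin, abs_of_nonneg (by positivity),
    ENNReal.ofReal_pow ht]

lemma volume_translate_image (C : Set (E d)) (x : E d) :
    volume ((fun y : E d => x + y) '' C) = volume C := by
  have h1 : (fun y : E d => x + y) '' C = x +ᵥ C := rfl
  rw [h1, measure_vadd]

lemma mm_smul (C : Set (E d)) {t : ℝ} (ht : 0 ≤ t) : mm ((fun x => t • x) '' C) = t * mm C := by
  unfold mm
  rw [MM_smul C ht, ENNReal.toReal_mul, ENNReal.toReal_ofReal ht]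

lemma mm_translate (C : Set (E d)) (x : E d) : mm ((fun y => x + y) '' C) = mm C := by
  unfold mm
  rw [MM_translate]

lemma vol_translate (n : ι → E d) (h : ι → ℝ) (x : E d) :
    vol n (fun i => h i + ⟪n i, x⟫_ℝ) = vol n h := by
  unfold vol
  rw [Poly_translate, volume_translate_image]

lemma vol_smul (n : ι → E d) (h : ι → ℝ) {t : ℝ} (ht : 0 < t) :
    vol n (fun i => t * h i) = t ^ d * vol n h := by
  unfold vol
  rw [Poly_smul n h ht, volume_smul_image _ ht.le, ENNReal.toReal_mul, ENNReal.toReal_pow,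
    ENNReal.toReal_ofReal ht.le]

lemma Lam_translate [Fintype ι] (a b : ℝ) (n : ι → E d) (h : ι → ℝ) (x : E d) :
    Lam a b n (fun i => h i + ⟪n i, x⟫_ℝ) = Lam a b n h := by
  unfold Lam
  rw [Poly_translate, mm_translate]
  simp only [Fac_translate n h x, mm_translate]

lemma Lam_smul [Fintype ι] (a b : ℝ) (n : ι → E d) (h : ι → ℝ) {t : ℝ} (ht : 0 < t) :
    Lam a b n (fun i => t * h i) = t * Lam a b n h := by
  unfold Lam
  rw [Poly_smul n h ht, mm_smul _ ht.le]
  simp only [Fac_smul n h ht, mm_smul _ ht.le]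
  rw [← Finset.mul_sum]
  ring

lemma Poly_reindex {κ : Type*} (e : κ ≃ ι) (n : ι → E d) (h : ι → ℝ) :
    Poly (n ∘ e) (h ∘ e) = Poly n h := by
  ext x
  constructor
  · intro hx i
    have := hx (e.symm i)
    simpa using this
  · intro hx k
    exact hx (e k)

lemma Fac_reindex {κ : Type*} (e : κ ≃ ι) (n : ι → E d) (h : ι → ℝ) (k : κ) :
    Fac (n ∘ e) (h ∘ e) k = Fac n h (e k) := by
  unfold Fac
  rw [Poly_reindex]
  rfl

lemma vol_reindex {κ : Type*} (e : κ ≃ ι) (n : ι → E d) (h : ι → ℝ) :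
    vol (n ∘ e) (h ∘ e) = vol n h := by
  unfold vol
  rw [Poly_reindex]

lemma Lam_reindex [Fintype ι] {κ : Type*} [Fintype κ] (a b : ℝ) (e : κ ≃ ι) (n : ι → E d)
    (h : ι → ℝ) : Lam a b (n ∘ e) (h ∘ e) = Lam a b n h := by
  unfold Lam
  rw [Poly_reindex]
  simp only [Fac_reindex]
  rw [Equiv.sum_comp e (fun i => mm (Fac n h i))]

end SP4
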