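import Pool.Agent.SP4.Sig

/-!
The functional Lam, and: at a point with dependent active normals, moving one facet in and out
decreases Lam in the mean at first order.
-/

open MeasureTheory Set Filter Topology
open scoped ENNReal InnerProductSpace

namespace SP4

open Melzak (E IsPolytope IsKFace zeta)

variable {d : ℕ}

variable {ι : Type*}

/-- Real width. -/
noncomputable def rwid (C : Set (E d)) (u : E d) : ℝ := sig C u + sig C (-u)

/-- The integrand of Lam. -/
noncomputable def gg [Fintype ι] (a b : ℝ) (n : ι → E d) (h : ι → ℝ) (u : E d) : ℝ :=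
  a * ∑ i, rwid (Fac n h i) u - b * rwid (Poly n h) u

lemma integrable_rwid {C : Set (E d)} (hc : IsCompact C) (hcv : Convex ℝ C) (hne : C.Nonempty) :
    IntegrableOn (rwid C) (Metric.ball (0 : E d) 1) ∧
      ∫ u in Metric.ball (0 : E d) 1, rwid C u = (MM C).toReal := by
  have hm := measurable_wid hc hcv
  have hfin : ∫⁻ u in Metric.ball (0 : E d) 1, wid u C ≠ ∞ := MM_ne_top hc.isBounded
  have heq : rwid C = fun u => (wid u C).toReal := by
    funext u
    rw [toReal_wid hc hcv hne]
    rfl
  have hlt : ∀ᵐ u ∂(volume.restrict (Metric.ball (0 : E d) 1)), wid u C < ∞ :=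
    ae_lt_top hm hfin
  constructor
  · rw [heq]
    exact integrable_toReal_of_lintegral_ne_top hm.aemeasurable hfin
  · rw [heq]
    exact integral_toReal hm.aemeasurable hlt

lemma Good.integrable_gg [Fintype ι] {n : ι → E d} {h : ι → ℝ} (hg : Good n h) (a b : ℝ) :
    IntegrableOn (gg a b n h) (Metric.ball (0 : E d) 1) ∧
      ∫ u in Metric.ball (0 : E d) 1, gg a b n h u = Lam a b n h := by
  have hF : ∀ i, IntegrableOn (rwid (Fac n h i)) (Metric.ball (0 : E d) 1) ∧
      ∫ u in Metric.ball (0 : E d) 1, rwid (Fac n h i) u = (MM (Fac n h i)).toReal := fun i =>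
    integrable_rwid (isCompact_Fac hg.bdd i) (convex_Fac n h i) (hg.nonempty_Fac i)
  have hP := integrable_rwid (isCompact_Poly hg.bdd) (convex_Poly n h) hg.nonempty
  have hS : IntegrableOn (fun u => ∑ i, rwid (Fac n h i) u) (Metric.ball (0 : E d) 1) :=
    integrable_finsetSum _ fun i _ => (hF i).1
  have h1 : IntegrableOn (fun u => a * ∑ i, rwid (Fac n h i) u) (Metric.ball (0 : E d) 1) :=
    hS.const_mul a
  have h2 : IntegrableOn (fun u => b * rwid (Poly n h) u) (Metric.ball (0 : E d) 1) :=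
    hP.1.const_mul b
  refine ⟨h1.sub h2, ?_⟩
  unfold gg Lam mm
  rw [integral_sub h1 h2, integral_const_mul, integral_const_mul,
    integral_finsetSum _ fun i _ => (hF i).1, hP.2]
  simp_rw [(hF _).2]

section pointwise

variable [Fintype ι] [DecidableEq ι] {n : ι → E d} {h : ι → ℝ}

/-- Second difference of the support function of the polytope. -/
noncomputable def DD (n : ι → E d) (h : ι → ℝ) (i₀ : ι) (t : ℝ) (u : E d) : ℝ :=
  2 * sig (Poly n h) u - sig (Poly n (upd h i₀ t)) u - sig (Poly n (upd h i₀ (-t))) u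

omit [Fintype ι] in
lemma upd_half (h : ι → ℝ) (i₀ : ι) (t : ℝ) :
    ∀ i, upd h i₀ t i + upd h i₀ (-t) i = 2 * h i := by
  intro i
  rw [upd_eq, upd_eq]
  ring

omit [Fintype ι] in
lemma Good.DD_nonneg (hg : Good n h) {i₀ : ι} {t : ℝ} (h₁ : Good n (upd h i₀ t))
    (h₂ : Good n (upd h i₀ (-t))) (u : E d) : 0 ≤ DD n h i₀ t u := by
  have := sig_half (isCompact_Poly h₁.bdd) h₁.nonempty (isCompact_Poly h₂.bdd) h₂.nonempty
    (isCompact_Poly hg.bdd) (fun x hx y hy => half_mem_Poly (upd_half h i₀ t) hx hy) u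
  unfold DD
  linarith

lemma Good.facet_sum (hg : Good n h) {i₀ : ι} {t : ℝ} (h₁ : Good n (upd h i₀ t))
    (h₂ : Good n (upd h i₀ (-t))) (u : E d) :
    (d : ℝ) * DD n h i₀ t u ≤ ∑ j, (2 * sig (Fac n h j) u - sig (Fac n (upd h i₀ t) j) u -
      sig (Fac n (upd h i₀ (-t)) j) u) := by
  classical
  obtain ⟨x, hx, hxu⟩ := exists_sig (isCompact_Poly hg.bdd) hg.nonempty u
  obtain ⟨v, hv, -, hvu, hspan⟩ := exists_vertex hg.bdd ∅ hx (by simp) u hxu
  set A : Finset ι := Finset.univ.filter fun i => ⟪n i, v⟫_ℝ = h i with hA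
  have hcard : d ≤ A.card := by
    apply card_active (n := n) A
    have : (A : Set ι) = {i | ⟪n i, v⟫_ℝ = h i} := by ext i; simp [hA]
    rw [this]
    exact hspan
  have h0 := hg.DD_nonneg h₁ h₂ u
  have hnn : ∀ j, 0 ≤ 2 * sig (Fac n h j) u - sig (Fac n (upd h i₀ t) j) u -
      sig (Fac n (upd h i₀ (-t)) j) u := by
    intro j
    have := sig_half (isCompact_Fac h₁.bdd j) (h₁.nonempty_Fac j) (isCompact_Fac h₂.bdd j)
      (h₂.nonempty_Fac j) (isCompact_Fac hg.bdd j)
      (fun x hx y hy => half_mem_Fac (upd_half h i₀ t) hx hy) u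
    linarith
  have hact : ∀ j ∈ A, DD n h i₀ t u ≤ 2 * sig (Fac n h j) u - sig (Fac n (upd h i₀ t) j) u -
      sig (Fac n (upd h i₀ (-t)) j) u := by
    intro j hj
    have hj' : ⟪n j, v⟫_ℝ = h j := by simpa [hA] using hj
    have e1 : sig (Poly n h) u ≤ sig (Fac n h j) u := by
      rw [← hvu]
      exact le_sig (isCompact_Fac hg.bdd j) ⟨hv, hj'⟩ u
    have e2 : sig (Fac n (upd h i₀ t) j) u ≤ sig (Poly n (upd h i₀ t)) u :=
      sig_mono (isCompact_Poly h₁.bdd) (h₁.nonempty_Fac j) (Fac_subset _ _ _) u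
    have e3 : sig (Fac n (upd h i₀ (-t)) j) u ≤ sig (Poly n (upd h i₀ (-t))) u :=
      sig_mono (isCompact_Poly h₂.bdd) (h₂.nonempty_Fac j) (Fac_subset _ _ _) u
    unfold DD
    linarith
  calc (d : ℝ) * DD n h i₀ t u ≤ (A.card : ℝ) * DD n h i₀ t u := by
        apply mul_le_mul_of_nonneg_right _ h0
        exact_mod_cast hcard
    _ = ∑ _j ∈ A, DD n h i₀ t u := by rw [Finset.sum_const, nsmul_eq_mul]
    _ ≤ ∑ j ∈ A, (2 * sig (Fac n h j) u - sig (Fac n (upd h i₀ t) j) u -
          sig (Fac n (upd h i₀ (-t)) j) u) := Finset.sum_le_sum hact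
    _ ≤ _ := Finset.sum_le_sum_of_subset_of_nonneg (Finset.subset_univ _) fun j _ _ => hnn j

lemma Good.gg_second (hg : Good n h) {i₀ : ι} {t : ℝ} (h₁ : Good n (upd h i₀ t))
    (h₂ : Good n (upd h i₀ (-t))) {a b : ℝ} (ha : 0 ≤ a) (u : E d) :
    gg a b n (upd h i₀ t) u + gg a b n (upd h i₀ (-t)) u +
      (a * d - b) * (DD n h i₀ t u + DD n h i₀ t (-u)) ≤ 2 * gg a b n h u := by
  have e1 := mul_le_mul_of_nonneg_left (hg.facet_sum h₁ h₂ u) ha
  have e2 := mul_le_mul_of_nonneg_left (hg.facet_sum h₁ h₂ (-u)) ha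
  have e3 : DD n h i₀ t u = 2 * sig (Poly n h) u - sig (Poly n (upd h i₀ t)) u -
    sig (Poly n (upd h i₀ (-t))) u := rfl
  have e4 : DD n h i₀ t (-u) = 2 * sig (Poly n h) (-u) - sig (Poly n (upd h i₀ t)) (-u) -
    sig (Poly n (upd h i₀ (-t))) (-u) := rfl
  unfold gg rwid
  simp only [Finset.sum_add_distrib, Finset.sum_sub_distrib, ← Finset.mul_sum] at e1 e2 ⊢
  nlinarith [e1, e2, e3, e4, congrArg (fun x => b * x) e3, congrArg (fun x => b * x) e4]

/-- The support function of the polytope in the normal cone of a point with dependent active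
normals. -/
lemma Good.DD_lower (hg : Good n h) {i₀ : ι} {t : ℝ} (h₁ : Good n (upd h i₀ t))
    (h₂ : Good n (upd h i₀ (-t))) {v : E d} (hv : v ∈ Poly n h) {μ lam : ι → ℝ}
    (hμ : ∑ i, μ i • n i = 0) (hlam : ∀ i, lam i ≠ 0 → ⟪n i, v⟫_ℝ = h i)
    (hp : ∀ i, 0 ≤ lam i - μ i) (hm : ∀ i, 0 ≤ lam i + μ i) :
    2 * t * μ i₀ ≤ DD n h i₀ t (∑ i, lam i • n i) := by
  have key : ∀ (h' : ι → ℝ) (c : ι → ℝ), Good n h' → (∀ i, 0 ≤ c i) →
      sig (Poly n h') (∑ i, c i • n i) ≤ ∑ i, c i * h' i := by
    intro h' c hg' hc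
    apply sig_le hg'.nonempty
    intro x hx
    rw [inner_sum]
    apply Finset.sum_le_sum
    intro i _
    rw [inner_smul_right, real_inner_comm]
    exact mul_le_mul_of_nonneg_left (hx i) (hc i)
  have e1 : ∑ i, lam i • n i = ∑ i, (lam i - μ i) • n i := by
    simp_rw [sub_smul]
    rw [Finset.sum_sub_distrib, hμ, sub_zero]
  have e2 : ∑ i, lam i • n i = ∑ i, (lam i + μ i) • n i := by
    simp_rw [add_smul]
    rw [Finset.sum_add_distrib, hμ, add_zero]
  have f1 := key _ _ h₁ hp
  have f2 := key _ _ h₂ hm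
  rw [← e1] at f1
  rw [← e2] at f2
  have f3 : ∑ i, lam i * h i ≤ sig (Poly n h) (∑ i, lam i • n i) := by
    have g1 := le_sig (isCompact_Poly hg.bdd) hv (∑ i, lam i • n i)
    rw [inner_sum] at g1
    refine le_trans (le_of_eq ?_) g1
    apply Finset.sum_congr rfl
    intro i _
    rw [inner_smul_right, real_inner_comm]
    by_cases hi : lam i = 0
    · simp [hi]
    · rw [hlam i hi]
  have f4 : ∑ i, (lam i - μ i) * upd h i₀ t i + ∑ i, (lam i + μ i) * upd h i₀ (-t) i =
      2 * ∑ i, lam i * h i - 2 * t * μ i₀ := by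
    rw [← Finset.sum_add_distrib, Finset.mul_sum]
    have : ∀ i, (lam i - μ i) * upd h i₀ t i + (lam i + μ i) * upd h i₀ (-t) i =
        2 * (lam i * h i) - 2 * t * (if i = i₀ then μ i else 0) := by
      intro i
      rw [upd_eq, upd_eq]
      by_cases hi : i = i₀
      · subst hi; simp; ring
      · simp [hi]; ring
    simp_rw [this]
    rw [Finset.sum_sub_distrib, ← Finset.mul_sum, ← Finset.mul_sum]
    simp
  unfold DD
  linarith

end pointwise

/-- F2: the mean of Lam over the two moves of facet i₀ is smaller than Lam by a first order term. -/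
theorem Good.second_difference [Fintype ι] [DecidableEq ι] {n : ι → E d} {h : ι → ℝ}
    (hg : Good n h) {v : E d} (hv : v ∈ Poly n h)
    (hspan : Submodule.span ℝ (n '' {i | ⟪n i, v⟫_ℝ = h i}) = ⊤) {μ : ι → ℝ}
    (hμ : ∑ i, μ i • n i = 0) (hsupp : ∀ i, μ i ≠ 0 → ⟪n i, v⟫_ℝ = h i) {i₀ : ι}
    (hi₀ : 0 < μ i₀) {a b : ℝ} (ha : 0 < a) (hab : b < a * d) :
    ∃ κ δ₀ : ℝ, 0 < κ ∧ 0 < δ₀ ∧ ∀ t, 0 < t → t ≤ δ₀ →
      Good n (upd h i₀ t) ∧ Good n (upd h i₀ (-t)) ∧
      Lam a b n (upd h i₀ t) + Lam a b n (upd h i₀ (-t)) + κ * t ≤ 2 * Lam a b n h := by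
  classical
  set I : Set ι := {i | ⟪n i, v⟫_ℝ = h i} with hI
  -- the open cone of directions
  set M : ℝ := 1 + ∑ i, |μ i| with hM
  have hMμ : ∀ i, |μ i| ≤ M := by
    intro i
    have := Finset.single_le_sum (f := fun i => |μ i|) (fun _ _ => abs_nonneg _)
      (Finset.mem_univ i)
    rw [hM]
    linarith
  have hM1 : 1 ≤ M := by
    rw [hM]
    have : 0 ≤ ∑ i, |μ i| := Finset.sum_nonneg fun _ _ => abs_nonneg _
    linarith
  set ε : ℝ := 1 / (2 * (Fintype.card ι + 1)) with hε
  have hε0 : 0 < ε := by positivity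
  set τ : ℝ := ε / M with hτ
  have hτ0 : 0 < τ := by positivity
  let L : (I → ℝ) →ₗ[ℝ] E d := Fintype.linearCombination ℝ (fun i : I => n i)
  have hLsurj : Function.Surjective L := by
    rw [← LinearMap.range_eq_top, Fintype.range_linearCombination, ← hspan]
    congr 1
    ext x
    constructor
    · rintro ⟨i, rfl⟩
      exact ⟨i.1, i.2, rfl⟩
    · rintro ⟨i, hi, rfl⟩
      exact ⟨⟨i, hi⟩, rfl⟩
  have hLopen : IsOpenMap L := by
    have := LinearMap.isOpenMap_of_finiteDimensional L hLsurj
    exact this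
  set B : Set (I → ℝ) := {c | ∀ i, ε < c i ∧ c i < 2 * ε} with hB
  have hBo : IsOpen B := by
    have : B = ⋂ i, ({c | ε < c i} ∩ {c | c i < 2 * ε}) := by ext c; simp [hB]
    rw [this]
    apply isOpen_iInter_of_finite
    intro i
    exact (isOpen_lt continuous_const (by fun_prop)).inter (isOpen_lt (by fun_prop)
      continuous_const)
  have hBn : B.Nonempty := ⟨fun _ => 3 / 2 * ε, fun i => ⟨by linarith, by linarith⟩⟩
  set U : Set (E d) := L '' B with hU
  have hUo : IsOpen U := hLopen B hBo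
  have hUn : U.Nonempty := hBn.image L
  have hUball : U ⊆ Metric.ball (0 : E d) 1 := by
    rintro _ ⟨c, hc, rfl⟩
    rw [mem_ball_zero_iff]
    have e1 : L c = ∑ i : I, c i • n i := rfl
    rw [e1]
    have hcardI : (Fintype.card I : ℝ) ≤ Fintype.card ι := by
      exact_mod_cast Fintype.card_subtype_le _
    calc ‖∑ i : I, c i • n i‖ ≤ ∑ i : I, ‖c i • n i‖ := norm_sum_le _ _
      _ ≤ ∑ _i : I, 2 * ε := by
          apply Finset.sum_le_sum
          intro i _
          rw [norm_smul, hg.unit, mul_one, Real.norm_of_nonneg (by linarith [(hc i).1])]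
          exact (hc i).2.le
      _ = Fintype.card I * (2 * ε) := by rw [Finset.sum_const, nsmul_eq_mul]; rfl
      _ ≤ Fintype.card ι * (2 * ε) := by gcongr
      _ < 1 := by
          have e2 : (Fintype.card ι : ℝ) * (2 * ε) =
              Fintype.card ι / ((Fintype.card ι : ℝ) + 1) := by
            rw [hε]; field_simp
          rw [e2, div_lt_one (by positivity)]
          linarith
  have hUvol : 0 < (volume U).toReal := by
    apply ENNReal.toReal_pos (hUo.measure_pos volume hUn).ne'
    exact ne_top_of_le_ne_top measure_ball_lt_top.ne (measure_mono hUball)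
  -- small t
  have hev : ∀ᶠ t in 𝓝 (0 : ℝ), Good n (upd h i₀ t) ∧ Good n (upd h i₀ (-t)) := by
    have e1 := hg.eventually_upd i₀
    have e2 : Tendsto (fun t : ℝ => -t) (𝓝 0) (𝓝 0) := by
      have := (continuous_neg (G := ℝ)).tendsto 0
      simpa using this
    exact e1.and (e2.eventually e1)
  obtain ⟨δ, hδ, hδ'⟩ := Metric.eventually_nhds_iff.1 hev
  have hκ : 0 < (a * d - b) * (2 * τ * μ i₀) * (volume U).toReal := by
    have : 0 < a * d - b := by linarith
    positivity
  refine ⟨(a * d - b) * (2 * τ * μ i₀) * (volume U).toReal, δ / 2, hκ, by linarith, ?_⟩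
  intro t ht ht'
  have hgood := hδ' (show dist t 0 < δ by
    rw [dist_zero_right, Real.norm_of_nonneg ht.le]; linarith)
  obtain ⟨h₁, h₂⟩ := hgood
  refine ⟨h₁, h₂, ?_⟩
  obtain ⟨i1, g1⟩ := h₁.integrable_gg a b
  obtain ⟨i2, g2⟩ := h₂.integrable_gg a b
  obtain ⟨i3, g3⟩ := hg.integrable_gg a b
  set c₀ : ℝ := (a * d - b) * (2 * τ * μ i₀) * t with hc₀
  have hc₀' : 0 ≤ c₀ := by
    have : 0 < a * d - b := by linarith
    positivity
  have hUm : MeasurableSet U := hUo.measurableSet
  have i4 : IntegrableOn (U.indicator fun _ => c₀) (Metric.ball (0 : E d) 1) := by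
    apply IntegrableOn.indicator _ hUm
    exact integrableOn_const measure_ball_lt_top.ne
  have g4 : ∫ u in Metric.ball (0 : E d) 1, U.indicator (fun _ => c₀) u =
      (volume U).toReal * c₀ := by
    rw [integral_indicator hUm, Measure.restrict_restrict hUm, inter_eq_self_of_subset_left hUball,
      setIntegral_const, smul_eq_mul]
    rfl
  have hpt : ∀ u, gg a b n (upd h i₀ t) u + gg a b n (upd h i₀ (-t)) u +
      U.indicator (fun _ => c₀) u ≤ 2 * gg a b n h u := by
    intro u
    have e1 := hg.gg_second h₁ h₂ (b := b) ha.le u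
    have e2 := hg.DD_nonneg h₁ h₂ u
    have e3 := hg.DD_nonneg h₁ h₂ (-u)
    have hpos : 0 < a * d - b := by linarith
    by_cases hu : u ∈ U
    · rw [indicator_of_mem hu]
      obtain ⟨c, hc, rfl⟩ := hu
      set lam : ι → ℝ := fun i => if hi : i ∈ I then c ⟨i, hi⟩ else 0 with hlam
      have hsum : L c = ∑ i, lam i • n i := by
        have e1 : L c = ∑ i : I, c i • n i := rfl
        rw [e1]
        have e2 : ∀ i : I, c i • n i = lam i • n i := by
          intro i
          simp [hlam, i.2]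
        rw [Finset.sum_congr rfl fun i _ => e2 i]
        have e3 : ∑ i ∈ Finset.univ.filter (fun i => i ∈ I), lam i • n i =
            ∑ i : I, lam i • n i := by
          rw [← Finset.sum_subtype_eq_sum_filter]
          simp
        rw [← e3]
        apply Finset.sum_subset (Finset.subset_univ _)
        intro i _ hi
        have : i ∉ I := by simpa using hi
        simp [hlam, this]
      have hlow := hg.DD_lower (i₀ := i₀) h₁ h₂ hv (μ := fun i => τ * μ i) (lam := lam)
        (by simp_rw [mul_smul]; rw [← Finset.smul_sum, hμ, smul_zero])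
        (by
          intro i hi
          by_contra hc
          exact hi (by simp [hlam, hI, hc]))
        (by
          intro i
          by_cases hi : i ∈ I
          · have e1 : lam i = c ⟨i, hi⟩ := by simp [hlam, hi]
            have e2 : τ * μ i ≤ ε := by
              calc τ * μ i ≤ τ * M := by
                    gcongr
                    exact (le_abs_self _).trans (hMμ i)
                _ = ε := by rw [hτ]; field_simp
            rw [e1]
            linarith [(hc ⟨i, hi⟩).1]
          · have e1 : lam i = 0 := by simp [hlam, hi]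
            have e2 : μ i = 0 := by
              by_contra hc
              exact hi (hsupp i hc)
            rw [e1, e2]
            simp)
        (by
          intro i
          by_cases hi : i ∈ I
          · have e1 : lam i = c ⟨i, hi⟩ := by simp [hlam, hi]
            have e2 : -(τ * μ i) ≤ ε := by
              calc -(τ * μ i) = τ * (-μ i) := by ring
                _ ≤ τ * M := by
                    gcongr
                    exact (neg_le_abs _).trans (hMμ i)
                _ = ε := by rw [hτ]; field_simp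
            rw [e1]
            linarith [(hc ⟨i, hi⟩).1]
          · have e1 : lam i = 0 := by simp [hlam, hi]
            have e2 : μ i = 0 := by
              by_contra hc
              exact hi (hsupp i hc)
            rw [e1, e2]
            simp)
      rw [← hsum] at hlow
      have e5 : c₀ ≤ (a * d - b) * DD n h i₀ t (L c) := by
        rw [hc₀]
        calc (a * d - b) * (2 * τ * μ i₀) * t = (a * d - b) * (2 * t * (τ * μ i₀)) := by ring
          _ ≤ _ := mul_le_mul_of_nonneg_left hlow hpos.le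
      nlinarith [mul_nonneg hpos.le e3]
    · rw [indicator_of_notMem hu]
      nlinarith [mul_nonneg hpos.le e3, mul_nonneg hpos.le e2]
  have hint := setIntegral_mono_on (((i1.add i2).add i4)) (i3.const_mul 2)
    measurableSet_ball (fun u _ => hpt u)
  have e1 : ∫ u in Metric.ball (0 : E d) 1, ((gg a b n (upd h i₀ t) + gg a b n (upd h i₀ (-t))) +
      U.indicator fun _ => c₀) u = Lam a b n (upd h i₀ t) + Lam a b n (upd h i₀ (-t)) +
      (volume U).toReal * c₀ := by
    rw [← g1, ← g2, ← g4]
    have f1 := integral_add i1 i2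
    have f2 := integral_add (i1.add i2) i4
    calc _ = _ := f2
      _ = _ := by
        congr 1
  have e2 : ∫ u in Metric.ball (0 : E d) 1, 2 * gg a b n h u = 2 * Lam a b n h := by
    rw [integral_const_mul, g3]
  rw [e1, e2] at hint
  calc Lam a b n (upd h i₀ t) + Lam a b n (upd h i₀ (-t)) +
      (a * d - b) * (2 * τ * μ i₀) * (volume U).toReal * t
      = Lam a b n (upd h i₀ t) + Lam a b n (upd h i₀ (-t)) + (volume U).toReal * c₀ := by
        rw [hc₀]; ring
    _ ≤ _ := hint

end SP4
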