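import Pool.Agent.SP4.Poly

/-!
Support functions of compact convex sets, of the facets of a polyhedron, and their behaviour when
one inequality is moved.
-/

open MeasureTheory Set Filter Topology
open scoped ENNReal InnerProductSpace

namespace SP4

open Melzak (E IsPolytope IsKFace zeta)

variable {d : ℕ}

variable {ι : Type*}

/-- Support function. -/
noncomputable def sig (C : Set (E d)) (u : E d) : ℝ := sSup ((fun x : E d => ⟪x, u⟫_ℝ) '' C)

lemma bddAbove_sig {C : Set (E d)} (hc : IsCompact C) (u : E d) :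
    BddAbove ((fun x : E d => ⟪x, u⟫_ℝ) '' C) :=
  (hc.image (continuous_inner_left u)).bddAbove

lemma le_sig {C : Set (E d)} (hc : IsCompact C) {x : E d} (hx : x ∈ C) (u : E d) :
    ⟪x, u⟫_ℝ ≤ sig C u := le_csSup (bddAbove_sig hc u) ⟨x, hx, rfl⟩

lemma sig_le {C : Set (E d)} (hne : C.Nonempty) {u : E d} {r : ℝ} (h : ∀ x ∈ C, ⟪x, u⟫_ℝ ≤ r) :
    sig C u ≤ r := by
  apply csSup_le (hne.image _)
  rintro _ ⟨x, hx, rfl⟩
  exact h x hx

lemma exists_sig {C : Set (E d)} (hc : IsCompact C) (hne : C.Nonempty) (u : E d) :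
    ∃ x ∈ C, ⟪x, u⟫_ℝ = sig C u := by
  obtain ⟨x, hx, hx'⟩ := (hc.image (continuous_inner_left u)).sSup_mem (hne.image _)
  exact ⟨x, hx, hx'⟩

lemma sig_mono {A B : Set (E d)} (hB : IsCompact B) (hne : A.Nonempty) (h : A ⊆ B) (u : E d) :
    sig A u ≤ sig B u := sig_le hne fun _ hx => le_sig hB (h hx) u

lemma sig_neg_nonneg {C : Set (E d)} (hc : IsCompact C) (hne : C.Nonempty) (u : E d) :
    0 ≤ sig C u + sig C (-u) := by
  obtain ⟨x, hx⟩ := hne
  have h1 := le_sig hc hx u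
  have h2 := le_sig hc hx (-u)
  rw [inner_neg_right] at h2
  linarith

lemma wid_eq_sig {C : Set (E d)} (hc : IsCompact C) (hcv : Convex ℝ C) (hne : C.Nonempty)
    (u : E d) : wid u C = ENNReal.ofReal (sig C u + sig C (-u)) := by
  obtain ⟨a, b, hab, hI⟩ := image_eq_Icc hc hcv hne u
  unfold wid
  rw [hI, Real.volume_Icc]
  have h1 : sig C u = b := by unfold sig; rw [hI, csSup_Icc hab]
  have h2 : sig C (-u) = -a := by
    apply le_antisymm
    · apply sig_le hne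
      intro x hx
      have : ⟪x, u⟫_ℝ ∈ Icc a b := by rw [← hI]; exact ⟨x, hx, rfl⟩
      rw [inner_neg_right]
      linarith [this.1]
    · have : a ∈ (fun x : E d => ⟪x, u⟫_ℝ) '' C := by rw [hI]; exact ⟨le_rfl, hab⟩
      obtain ⟨x, hx, hxa⟩ := this
      have h3 := le_sig hc hx (-u)
      rw [inner_neg_right] at h3
      simp only at hxa
      linarith
  rw [h1, h2]
  congr 1

lemma toReal_wid {C : Set (E d)} (hc : IsCompact C) (hcv : Convex ℝ C) (hne : C.Nonempty)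
    (u : E d) : (wid u C).toReal = sig C u + sig C (-u) := by
  rw [wid_eq_sig hc hcv hne, ENNReal.toReal_ofReal (sig_neg_nonneg hc hne u)]

lemma Good.nonempty {n : ι → E d} {h : ι → ℝ} (hg : Good n h) : (Poly n h).Nonempty := by
  obtain ⟨z, hz⟩ := hg.slater
  exact ⟨z, fun i => (hz i).le⟩

/-- Moving one inequality. -/
def upd [DecidableEq ι] (h : ι → ℝ) (i₀ : ι) (t : ℝ) : ι → ℝ := Function.update h i₀ (h i₀ + t)

lemma upd_self [DecidableEq ι] (h : ι → ℝ) (i₀ : ι) (t : ℝ) : upd h i₀ t i₀ = h i₀ + t := by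
  simp [upd]

lemma upd_ne [DecidableEq ι] (h : ι → ℝ) {i₀ j : ι} (t : ℝ) (hj : j ≠ i₀) :
    upd h i₀ t j = h j := by
  simp [upd, hj]

lemma upd_eq [DecidableEq ι] (h : ι → ℝ) (i₀ j : ι) (t : ℝ) :
    upd h i₀ t j = h j + t * (if j = i₀ then 1 else 0) := by
  by_cases hj : j = i₀
  · subst hj; simp [upd]
  · simp [upd, hj]

/-- Boundedness does not depend on the right hand sides. -/
lemma Good.bdd_of_bdd [Finite ι] {n : ι → E d} {h : ι → ℝ} (hg : Good n h) (h' : ι → ℝ) :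
    Bornology.IsBounded (Poly n h') := by
  classical
  have := Fintype.ofFinite ι
  obtain ⟨z, hz⟩ := hg.slater
  obtain ⟨R, hR⟩ := hg.bdd.subset_closedBall z
  -- a factor K with h' i - <n i, z> <= K (h i - <n i, z>)
  set K : ℝ := 1 + ∑ i, |(h' i - ⟪n i, z⟫_ℝ) / (h i - ⟪n i, z⟫_ℝ)| with hK
  have hK1 : 1 ≤ K := by
    rw [hK]
    have : 0 ≤ ∑ i, |(h' i - ⟪n i, z⟫_ℝ) / (h i - ⟪n i, z⟫_ℝ)| :=
      Finset.sum_nonneg fun _ _ => abs_nonneg _
    linarith
  have hKi : ∀ i, h' i - ⟪n i, z⟫_ℝ ≤ K * (h i - ⟪n i, z⟫_ℝ) := by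
    intro i
    have hp : 0 < h i - ⟪n i, z⟫_ℝ := by linarith [hz i]
    have h1 : (h' i - ⟪n i, z⟫_ℝ) / (h i - ⟪n i, z⟫_ℝ) ≤ K := by
      have h2 : |(h' i - ⟪n i, z⟫_ℝ) / (h i - ⟪n i, z⟫_ℝ)| ≤
          ∑ i, |(h' i - ⟪n i, z⟫_ℝ) / (h i - ⟪n i, z⟫_ℝ)| :=
        Finset.single_le_sum (f := fun i => |(h' i - ⟪n i, z⟫_ℝ) / (h i - ⟪n i, z⟫_ℝ)|)
          (fun _ _ => abs_nonneg _) (Finset.mem_univ i)
      have h3 := le_abs_self ((h' i - ⟪n i, z⟫_ℝ) / (h i - ⟪n i, z⟫_ℝ))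
      rw [hK]
      linarith
    rwa [div_le_iff₀ hp] at h1
  apply (Metric.isBounded_closedBall (x := z) (r := K * R)).subset
  intro x hx
  have hK0 : 0 < K := by linarith
  have h1 : z + K⁻¹ • (x - z) ∈ Poly n h := by
    intro i
    rw [inner_add_right, inner_smul_right, inner_sub_right]
    have h2 : K⁻¹ * (⟪n i, x⟫_ℝ - ⟪n i, z⟫_ℝ) ≤ h i - ⟪n i, z⟫_ℝ := by
      rw [inv_mul_le_iff₀ hK0]
      have := hx i
      linarith [hKi i]
    linarith
  have h2 := hR h1
  rw [mem_closedBall_iff_norm, add_sub_cancel_left, norm_smul, norm_inv,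
    Real.norm_of_nonneg hK0.le, inv_mul_le_iff₀ hK0] at h2
  rw [mem_closedBall_iff_norm]
  exact h2

/-- A good system stays good when one inequality is moved a little. -/
lemma Good.eventually_upd [Finite ι] [DecidableEq ι] {n : ι → E d} {h : ι → ℝ} (hg : Good n h)
    (i₀ : ι) : ∀ᶠ t in 𝓝 (0 : ℝ), Good n (upd h i₀ t) := by
  have hirr : ∀ i, ∀ᶠ t in 𝓝 (0 : ℝ), ∃ y, ⟪n i, y⟫_ℝ = upd h i₀ t i ∧
      ∀ j, j ≠ i → ⟪n j, y⟫_ℝ < upd h i₀ t j := by
    intro i
    obtain ⟨y, hy, hy'⟩ := hg.irr i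
    by_cases hi : i = i₀
    · subst hi
      have h1 : ∀ j, j ≠ i → ∀ᶠ t in 𝓝 (0 : ℝ), ⟪n j, y + t • n i⟫_ℝ < h j := by
        intro j hj
        have hc : Continuous fun t : ℝ => ⟪n j, y + t • n i⟫_ℝ := by fun_prop
        apply (hc.tendsto 0).eventually_lt_const
        simpa using hy' j hj
      have h2 : ∀ᶠ t in 𝓝 (0 : ℝ), ∀ j, j ≠ i → ⟪n j, y + t • n i⟫_ℝ < h j := by
        rw [eventually_all]
        intro j
        by_cases hj : j = i
        · exact Eventually.of_forall fun t hc => absurd hj hc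
        · filter_upwards [h1 j hj] with t ht _
          exact ht
      filter_upwards [h2] with t ht
      refine ⟨y + t • n i, ?_, ?_⟩
      · rw [upd_self, inner_add_right, inner_smul_right, hy, real_inner_self_eq_norm_sq,
          hg.unit i]
        ring
      · intro j hj
        rw [upd_ne _ _ hj]
        exact ht j hj
    · have h1 : ∀ᶠ t in 𝓝 (0 : ℝ), ⟪n i₀, y⟫_ℝ < h i₀ + t := by
        have hc : Continuous fun t : ℝ => h i₀ + t := by fun_prop
        apply (hc.tendsto 0).eventually_const_lt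
        simpa using hy' i₀ (Ne.symm hi)
      filter_upwards [h1] with t ht
      refine ⟨y, ?_, ?_⟩
      · rw [upd_ne _ _ hi]; exact hy
      · intro j hj
        by_cases hj0 : j = i₀
        · subst hj0; rw [upd_self]; exact ht
        · rw [upd_ne _ _ hj0]; exact hy' j hj
  obtain ⟨z, hz⟩ := hg.slater
  have hsl : ∀ᶠ t in 𝓝 (0 : ℝ), ⟪n i₀, z⟫_ℝ < h i₀ + t := by
    have hc : Continuous fun t : ℝ => h i₀ + t := by fun_prop
    apply (hc.tendsto 0).eventually_const_lt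
    simpa using hz i₀
  filter_upwards [eventually_all.2 hirr, hsl] with t h1 h2
  refine ⟨hg.unit, h1, hg.bdd_of_bdd _, z, ?_⟩
  intro i
  by_cases hi : i = i₀
  · subst hi; rw [upd_self]; exact h2
  · rw [upd_ne _ _ hi]; exact hz i

lemma half_mem_Poly {n : ι → E d} {h h₁ h₂ : ι → ℝ} (hh : ∀ i, h₁ i + h₂ i = 2 * h i)
    {x y : E d} (hx : x ∈ Poly n h₁) (hy : y ∈ Poly n h₂) :
    (1 / 2 : ℝ) • (x + y) ∈ Poly n h := by
  intro i
  rw [inner_smul_right, inner_add_right]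
  have := hx i
  have := hy i
  have := hh i
  linarith

lemma half_mem_Fac {n : ι → E d} {h h₁ h₂ : ι → ℝ} (hh : ∀ i, h₁ i + h₂ i = 2 * h i)
    {j : ι} {x y : E d} (hx : x ∈ Fac n h₁ j) (hy : y ∈ Fac n h₂ j) :
    (1 / 2 : ℝ) • (x + y) ∈ Fac n h j := by
  refine ⟨half_mem_Poly hh hx.1 hy.1, ?_⟩
  rw [inner_smul_right, inner_add_right, hx.2, hy.2, hh j]
  ring

lemma sig_half {A B C : Set (E d)} (hA : IsCompact A) (hAn : A.Nonempty) (hB : IsCompact B)
    (hBn : B.Nonempty) (hC : IsCompact C) (h : ∀ x ∈ A, ∀ y ∈ B, (1 / 2 : ℝ) • (x + y) ∈ C)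
    (u : E d) : sig A u + sig B u ≤ 2 * sig C u := by
  obtain ⟨x, hx, hx'⟩ := exists_sig hA hAn u
  obtain ⟨y, hy, hy'⟩ := exists_sig hB hBn u
  have h1 := le_sig hC (h x hx y hy) u
  rw [inner_smul_left, inner_add_left, hx', hy'] at h1
  simp only [one_div, conj_trivial] at h1
  linarith

/-- A maximiser of a linear form over a bounded polyhedron with spanning active normals,
inside a given face. -/
lemma exists_vertex [Finite ι] {n : ι → E d} {h : ι → ℝ} (hb : Bornology.IsBounded (Poly n h))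
    (J : Set ι) {x : E d} (hx : x ∈ Poly n h) (hxJ : ∀ i ∈ J, ⟪n i, x⟫_ℝ = h i) (u : E d)
    (hu : ⟪x, u⟫_ℝ = sig (Poly n h) u) :
    ∃ v ∈ Poly n h, (∀ i ∈ J, ⟪n i, v⟫_ℝ = h i) ∧ ⟪v, u⟫_ℝ = sig (Poly n h) u ∧
      Submodule.span ℝ (n '' {i | ⟪n i, v⟫_ℝ = h i}) = ⊤ := by
  have hcP := isCompact_Poly hb
  set G : Set (E d) := {y | y ∈ Poly n h ∧ (∀ i ∈ J, ⟪n i, y⟫_ℝ = h i) ∧
    ⟪y, u⟫_ℝ = sig (Poly n h) u} with hG
  have hGc : IsCompact G := by
    apply hcP.of_isClosed_subset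
    · have : G = Poly n h ∩ ((⋂ i ∈ J, {y | ⟪n i, y⟫_ℝ = h i}) ∩
          {y | ⟪y, u⟫_ℝ = sig (Poly n h) u}) := by
        ext y
        simp only [hG, mem_inter_iff, mem_iInter, mem_ofPred_eq]
      rw [this]
      refine (isClosed_Poly n h).inter (IsClosed.inter ?_ (isClosed_eq (by fun_prop)
        continuous_const))
      exact isClosed_biInter fun i _ => isClosed_eq (by fun_prop) continuous_const
    · exact fun y hy => hy.1
  obtain ⟨v, hv⟩ := hGc.extremePoints_nonempty ⟨x, hx, hxJ, hu⟩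
  rw [mem_extremePoints] at hv
  obtain ⟨hvG, hve⟩ := hv
  refine ⟨v, hvG.1, hvG.2.1, hvG.2.2, ?_⟩
  by_contra hne
  -- a direction orthogonal to all active normals
  have hlt : Submodule.span ℝ (n '' {i | ⟪n i, v⟫_ℝ = h i}) < ⊤ := lt_top_iff_ne_top.2 hne
  have hperp : (Submodule.span ℝ (n '' {i | ⟪n i, v⟫_ℝ = h i}))ᗮ ≠ ⊥ := by
    intro hc
    rw [Submodule.orthogonal_eq_bot_iff] at hc
    exact hne hc
  obtain ⟨w, hw, hw0⟩ := Submodule.exists_mem_ne_zero_of_ne_bot hperp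
  have hwa : ∀ i, ⟪n i, v⟫_ℝ = h i → ⟪n i, w⟫_ℝ = 0 := by
    intro i hi
    have hmem : n i ∈ Submodule.span ℝ (n '' {i | ⟪n i, v⟫_ℝ = h i}) :=
      Submodule.subset_span (mem_image_of_mem n hi)
    exact Submodule.inner_right_of_mem_orthogonal hmem hw
  -- both v + e w and v - e w lie in the polyhedron for small e
  have hsmall : ∀ᶠ e in 𝓝 (0 : ℝ), ∀ i, ⟪n i, v + e • w⟫_ℝ ≤ h i := by
    rw [eventually_all]
    intro i
    by_cases hi : ⟪n i, v⟫_ℝ = h i
    · refine Eventually.of_forall fun e => ?_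
      rw [inner_add_right, inner_smul_right, hwa i hi, hi]
      simp
    · have hlt : ⟪n i, v⟫_ℝ < h i := lt_of_le_of_ne (hvG.1 i) hi
      have hc : Continuous fun e : ℝ => ⟪n i, v + e • w⟫_ℝ := by fun_prop
      filter_upwards [(hc.tendsto 0).eventually_lt_const (u := h i) (by simpa using hlt)] with e he
      exact he.le
  obtain ⟨ε, hε, hε'⟩ := Metric.eventually_nhds_iff.1 hsmall
  have hp : ∀ i, ⟪n i, v + (ε / 2) • w⟫_ℝ ≤ h i := hε' (by
    rw [dist_zero_right, Real.norm_of_nonneg (by linarith)]; linarith)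
  have hm : ∀ i, ⟪n i, v + (-(ε / 2)) • w⟫_ℝ ≤ h i := hε' (by
    rw [dist_zero_right, norm_neg, Real.norm_of_nonneg (by linarith)]; linarith)
  -- they also lie in G
  have hsup1 := le_sig hcP (show v + (ε / 2) • w ∈ Poly n h from hp) u
  have hsup2 := le_sig hcP (show v + (-(ε / 2)) • w ∈ Poly n h from hm) u
  rw [inner_add_left, inner_smul_left] at hsup1 hsup2
  simp only [conj_trivial] at hsup1 hsup2
  have hwu : (ε / 2) * ⟪w, u⟫_ℝ = 0 := by
    have := hvG.2.2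
    linarith
  have hGp : v + (ε / 2) • w ∈ G := by
    refine ⟨hp, fun i hi => ?_, ?_⟩
    · rw [inner_add_right, inner_smul_right, hwa i (hvG.2.1 i hi), hvG.2.1 i hi]; simp
    · rw [inner_add_left, inner_smul_left]
      simp only [conj_trivial]
      rw [hwu, hvG.2.2, add_zero]
  have hGm : v + (-(ε / 2)) • w ∈ G := by
    refine ⟨hm, fun i hi => ?_, ?_⟩
    · rw [inner_add_right, inner_smul_right, hwa i (hvG.2.1 i hi), hvG.2.1 i hi]; simp
    · rw [inner_add_left, inner_smul_left]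
      simp only [conj_trivial]
      rw [neg_mul, hwu, hvG.2.2]
      simp
  have hseg : v ∈ openSegment ℝ (v + (ε / 2) • w) (v + (-(ε / 2)) • w) := by
    refine ⟨1 / 2, 1 / 2, by norm_num, by norm_num, by norm_num, ?_⟩
    module
  have h1 := (hve _ hGp _ hGm hseg)
  have h2 : (ε / 2) • w = 0 := by
    have := h1.1
    simpa using this
  rcases smul_eq_zero.1 h2 with h3 | h3
  · linarith
  · exact hw0 h3

lemma card_active [Fintype ι] {n : ι → E d} (A : Finset ι)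
    (hA : Submodule.span ℝ (n '' (A : Set ι)) = ⊤) : d ≤ A.card := by
  classical
  have h1 : Module.finrank ℝ (Submodule.span ℝ (n '' (A : Set ι))) ≤ A.card := by
    have h2 := finrank_span_finset_le_card (R := ℝ) (A.image n)
    rw [Finset.coe_image] at h2
    exact h2.trans Finset.card_image_le
  rw [hA, finrank_top, finrank_euclideanSpace_fin] at h1
  exact h1

end SP4
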