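import Pool.Agent.SP4.Poly

/-!
The support function, and the mean width as an integral of the support function (row F1).
-/

set_option autoImplicit false

open MeasureTheory Set Filter Topology
open scoped ENNReal InnerProductSpace

namespace SP4

open Melzak (E IsPolytope IsKFace zeta)

variable {d : ℕ}

/-- The support function. -/
noncomputable def sup (C : Set (E d)) (u : E d) : ℝ := sSup ((fun x : E d => ⟪x, u⟫_ℝ) '' C)

lemma sup_bddAbove {C : Set (E d)} (hc : IsCompact C) (u : E d) :
    BddAbove ((fun x : E d => ⟪x, u⟫_ℝ) '' C) := (hc.image (continuous_inner_left u)).bddAbove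

lemma sup_ge {C : Set (E d)} (hc : IsCompact C) (u : E d) {x : E d} (hx : x ∈ C) :
    ⟪x, u⟫_ℝ ≤ sup C u := le_csSup (sup_bddAbove hc u) ⟨x, hx, rfl⟩

lemma sup_attained {C : Set (E d)} (hc : IsCompact C) (hne : C.Nonempty) (u : E d) :
    ∃ x ∈ C, ⟪x, u⟫_ℝ = sup C u := by
  obtain ⟨x, hx, hxu⟩ := (hc.image (continuous_inner_left u)).sSup_mem (hne.image _)
  exact ⟨x, hx, hxu⟩

lemma sup_le_of {C : Set (E d)} (hne : C.Nonempty) {u : E d} {a : ℝ}
    (h : ∀ x ∈ C, ⟪x, u⟫_ℝ ≤ a) : sup C u ≤ a := by
  apply csSup_le (hne.image _)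
  rintro _ ⟨x, hx, rfl⟩
  exact h x hx

lemma sup_mono_set {C D : Set (E d)} (hD : IsCompact D) (hne : C.Nonempty) (hCD : C ⊆ D)
    (u : E d) : sup C u ≤ sup D u := sup_le_of hne fun _ hx => sup_ge hD u (hCD hx)

lemma sup_continuous {C : Set (E d)} (hc : IsCompact C) : Continuous (sup C) := by
  have hf : Continuous (Function.uncurry fun (u : E d) (x : E d) => ⟪x, u⟫_ℝ) := by
    simp only [Function.uncurry_def]
    fun_prop
  exact hc.continuous_sSup hf

lemma integrableOn_sup {C : Set (E d)} (hc : IsCompact C) (_hne : C.Nonempty) :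
    IntegrableOn (sup C) (Metric.ball (0 : E d) 1) :=
  ((sup_continuous hc).continuousOn.integrableOn_compact
    (isCompact_closedBall (0 : E d) 1)).mono_set Metric.ball_subset_closedBall

lemma sup_integrableOn_neg {C : Set (E d)} (hc : IsCompact C) :
    IntegrableOn (fun u => sup C (-u)) (Metric.ball (0 : E d) 1) :=
  (((sup_continuous hc).comp continuous_neg).continuousOn.integrableOn_compact
    (isCompact_closedBall (0 : E d) 1)).mono_set Metric.ball_subset_closedBall

lemma sup_wid_eq {C : Set (E d)} (hc : IsCompact C) (hcv : Convex ℝ C) (hne : C.Nonempty)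
    (u : E d) : wid u C = ENNReal.ofReal (sup C u + sup C (-u)) := by
  obtain ⟨a, b, hab, hI⟩ := image_eq_Icc hc hcv hne u
  have h1 : sup C u = b := by unfold sup; rw [hI, csSup_Icc hab]
  have h2 : sup C (-u) = -a := by
    have h3 : (fun x : E d => ⟪x, -u⟫_ℝ) '' C = Icc (-b) (-a) := by
      have h4 : (fun x : E d => ⟪x, -u⟫_ℝ) '' C = Neg.neg '' ((fun x : E d => ⟪x, u⟫_ℝ) '' C) := by
        rw [image_image]
        apply image_congr
        intro x _
        rw [inner_neg_right]
      rw [h4, hI]
      simp
    unfold sup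
    rw [h3, csSup_Icc (by linarith)]
  unfold wid
  rw [hI, Real.volume_Icc, h1, h2, sub_eq_add_neg]

lemma sup_add_neg_nonneg {C : Set (E d)} (hc : IsCompact C) (hne : C.Nonempty) (u : E d) :
    0 ≤ sup C u + sup C (-u) := by
  obtain ⟨x, hx⟩ := hne
  have h1 := sup_ge hc u hx
  have h2 := sup_ge hc (-u) hx
  rw [inner_neg_right] at h2
  linarith

/-- The mean width is twice the integral of the support function. -/
lemma mm_eq {C : Set (E d)} (hc : IsCompact C) (hcv : Convex ℝ C) (hne : C.Nonempty) :
    mm C = 2 * ∫ u in Metric.ball (0 : E d) 1, sup C u := by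
  have h1 : MM C = ∫⁻ u in Metric.ball (0 : E d) 1, ENNReal.ofReal (sup C u + sup C (-u)) := by
    unfold MM
    exact lintegral_congr fun u => sup_wid_eq hc hcv hne u
  have h2 : mm C = ∫ u in Metric.ball (0 : E d) 1, (sup C u + sup C (-u)) := by
    unfold mm
    rw [h1, integral_eq_lintegral_of_nonneg_ae]
    · exact Filter.Eventually.of_forall fun u => sup_add_neg_nonneg hc hne u
    · exact ((sup_continuous hc).add
        ((sup_continuous hc).comp continuous_neg)).aestronglyMeasurable
  have h3 : ∫ u in Metric.ball (0 : E d) 1, sup C (-u) =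
      ∫ u in Metric.ball (0 : E d) 1, sup C u := by
    have hmp : MeasurePreserving (fun u : E d => -u) volume volume :=
      Measure.measurePreserving_neg volume
    have hpre : (fun u : E d => -u) ⁻¹' Metric.ball (0 : E d) 1 = Metric.ball (0 : E d) 1 := by
      ext u
      simp
    have := hmp.setIntegral_preimage_emb (MeasurableEquiv.neg (E d)).measurableEmbedding
      (sup C) (Metric.ball (0 : E d) 1)
    rw [hpre] at this
    exact this
  rw [h2, integral_add (integrableOn_sup hc hne) (sup_integrableOn_neg hc), h3]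
  ring

end SP4
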