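import Pool.Agent.SP4.Supp

/-!
Second differences of the support functions of the facets (first half of row F2).
-/

set_option autoImplicit false

open MeasureTheory Set Filter Topology
open scoped ENNReal InnerProductSpace

namespace SP4

open Melzak (E IsPolytope IsKFace zeta)

variable {d : ℕ} {ι : Type*}

/-! ### Active constraints at an extreme point -/

/-- Small moves in directions orthogonal to the active normals stay in the polyhedron. -/
lemma ss_move [Finite ι] {n : ι → E d} {h : ι → ℝ} {x w : E d} (hx : x ∈ Poly n h)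
    (hw : ∀ i, ⟪n i, x⟫_ℝ = h i → ⟪n i, w⟫_ℝ = 0) :
    ∃ ε : ℝ, 0 < ε ∧ x + ε • w ∈ Poly n h ∧ x - ε • w ∈ Poly n h := by
  have hev : ∀ i, ∀ᶠ ε : ℝ in 𝓝[>] 0,
      ⟪n i, x + ε • w⟫_ℝ ≤ h i ∧ ⟪n i, x - ε • w⟫_ℝ ≤ h i := by
    intro i
    by_cases hi : ⟪n i, x⟫_ℝ = h i
    · refine Eventually.of_forall fun ε => ?_
      rw [inner_add_right, inner_sub_right, inner_smul_right, hw i hi, hi]
      simp
    · have hlt : ⟪n i, x⟫_ℝ < h i := lt_of_le_of_ne (hx i) hi
      have c1 : Continuous fun ε : ℝ => ⟪n i, x + ε • w⟫_ℝ := by fun_prop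
      have c2 : Continuous fun ε : ℝ => ⟪n i, x - ε • w⟫_ℝ := by fun_prop
      have e1 : ∀ᶠ ε : ℝ in 𝓝 0, ⟪n i, x + ε • w⟫_ℝ < h i :=
        c1.continuousAt.eventually_lt continuousAt_const (by simpa using hlt)
      have e2 : ∀ᶠ ε : ℝ in 𝓝 0, ⟪n i, x - ε • w⟫_ℝ < h i :=
        c2.continuousAt.eventually_lt continuousAt_const (by simpa using hlt)
      filter_upwards [nhdsWithin_le_nhds e1, nhdsWithin_le_nhds e2] with ε h1 h2
      exact ⟨h1.le, h2.le⟩
  have hall := (eventually_all.2 hev).and (self_mem_nhdsWithin : Ioi (0 : ℝ) ∈ 𝓝[>] 0)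
  obtain ⟨ε, h1, h2⟩ := hall.exists
  exact ⟨ε, h2, fun i => (h1 i).1, fun i => (h1 i).2⟩

/-- At an extreme point only the zero vector is orthogonal to all active normals. -/
lemma ss_orth [Finite ι] {n : ι → E d} {h : ι → ℝ} {x : E d}
    (hx : x ∈ (Poly n h).extremePoints ℝ) {w : E d}
    (hw : ∀ i, ⟪n i, x⟫_ℝ = h i → ⟪n i, w⟫_ℝ = 0) : w = 0 := by
  obtain ⟨ε, hε, h1, h2⟩ := ss_move hx.1 hw
  have h3 : x ∈ openSegment ℝ (x + ε • w) (x - ε • w) := by
    refine ⟨1 / 2, 1 / 2, by norm_num, by norm_num, by norm_num, ?_⟩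
    rw [← smul_add, add_add_sub_cancel, ← two_smul ℝ x, smul_smul]
    norm_num
  have h4 := hx.2 h1 h2 h3
  have h5 : ε • w = 0 := by simpa using h4
  rcases smul_eq_zero.1 h5 with h6 | h6
  · exact absurd h6 hε.ne'
  · exact h6

open Classical in
/-- At least d constraints are active at an extreme point. -/
lemma ss_card_active [Fintype ι] {n : ι → E d} {h : ι → ℝ} {x : E d}
    (hx : x ∈ (Poly n h).extremePoints ℝ) :
    d ≤ (Finset.univ.filter (fun i => ⟪n i, x⟫_ℝ = h i)).card := by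
  set A : Finset ι := Finset.univ.filter (fun i => ⟪n i, x⟫_ℝ = h i) with hA
  set W : Submodule ℝ (E d) := Submodule.span ℝ ((A.image n : Finset (E d)) : Set (E d)) with hW
  have hle : Module.finrank ℝ W ≤ A.card :=
    (finrank_span_finset_le_card _).trans Finset.card_image_le
  have hbot : Wᗮ = ⊥ := by
    rw [Submodule.eq_bot_iff]
    intro w hw
    apply ss_orth hx
    intro i hi
    exact (Submodule.mem_orthogonal W w).1 hw (n i) (Submodule.subset_span (by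
      rw [Finset.mem_coe, Finset.mem_image]
      exact ⟨i, Finset.mem_filter.2 ⟨Finset.mem_univ i, hi⟩, rfl⟩))
  have hfin : Module.finrank ℝ W + Module.finrank ℝ Wᗮ = d := by
    rw [Submodule.finrank_add_finrank_orthogonal]; simp
  rw [hbot, finrank_bot, add_zero] at hfin
  omega

/-- A linear functional has a maximiser which is an extreme point. -/
lemma ss_exists_extreme {n : ι → E d} {h : ι → ℝ} (hb : Bornology.IsBounded (Poly n h))
    (hne : (Poly n h).Nonempty) (u : E d) :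
    ∃ x ∈ (Poly n h).extremePoints ℝ, ⟪x, u⟫_ℝ = sup (Poly n h) u := by
  have hc := isCompact_Poly hb
  set F : Set (E d) := {x | x ∈ Poly n h ∧ ⟪x, u⟫_ℝ = sup (Poly n h) u} with hF
  have hFne : F.Nonempty := by
    obtain ⟨x, hx, hxu⟩ := sup_attained hc hne u
    exact ⟨x, hx, hxu⟩
  have hFc : IsCompact F :=
    hc.inter_right (isClosed_eq (continuous_inner_left u) continuous_const)
  obtain ⟨x, hx⟩ := hFc.extremePoints_nonempty hFne
  refine ⟨x, ⟨hx.1.1, ?_⟩, hx.1.2⟩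
  intro y hy z hz hxyz
  have hy1 := sup_ge hc u hy
  have hz1 := sup_ge hc u hz
  obtain ⟨a, b, ha, hb', hab, hxe⟩ := hxyz
  have h1 : a * ⟪y, u⟫_ℝ + b * ⟪z, u⟫_ℝ = sup (Poly n h) u := by
    rw [← hx.1.2, ← hxe, inner_add_left, inner_smul_left, inner_smul_left]
    simp
  have h2 : ⟪y, u⟫_ℝ = sup (Poly n h) u := by
    apply le_antisymm hy1
    by_contra hcon
    push Not at hcon
    have h3 : a * ⟪y, u⟫_ℝ + b * ⟪z, u⟫_ℝ < a * sup (Poly n h) u + b * sup (Poly n h) u := by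
      have := mul_lt_mul_of_pos_left hcon ha
      have := mul_le_mul_of_nonneg_left hz1 hb'.le
      linarith
    rw [← add_mul, hab, one_mul] at h3
    linarith
  have h3 : ⟪z, u⟫_ℝ = sup (Poly n h) u := by
    apply le_antisymm hz1
    by_contra hcon
    push Not at hcon
    have h4 : a * ⟪y, u⟫_ℝ + b * ⟪z, u⟫_ℝ < a * sup (Poly n h) u + b * sup (Poly n h) u := by
      have := mul_lt_mul_of_pos_left hcon hb'
      have := mul_le_mul_of_nonneg_left hy1 ha.le
      linarith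
    rw [← add_mul, hab, one_mul] at h4
    linarith
  exact hx.2 ⟨hy, h2⟩ ⟨hz, h3⟩ ⟨a, b, ha, hb', hab, hxe⟩

/-! ### Second differences -/

lemma ss_mid_poly {n : ι → E d} {h h₁ h₂ : ι → ℝ} (hs : ∀ i, h₁ i + h₂ i = 2 * h i) {x y : E d}
    (hx : x ∈ Poly n h₁) (hy : y ∈ Poly n h₂) : (1 / 2 : ℝ) • (x + y) ∈ Poly n h := by
  intro i
  rw [inner_smul_right, inner_add_right]
  have := hx i
  have := hy i
  have := hs i
  linarith

lemma ss_mid_fac {n : ι → E d} {h h₁ h₂ : ι → ℝ} (hs : ∀ i, h₁ i + h₂ i = 2 * h i) {j : ι}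
    {x y : E d} (hx : x ∈ Fac n h₁ j) (hy : y ∈ Fac n h₂ j) :
    (1 / 2 : ℝ) • (x + y) ∈ Fac n h j := by
  refine ⟨ss_mid_poly hs hx.1 hy.1, ?_⟩
  rw [inner_smul_right, inner_add_right, hx.2, hy.2, hs j]
  ring

/-- The second difference of the support function of a facet is nonnegative. -/
lemma ss_fac_nonneg {n : ι → E d} {h h₁ h₂ : ι → ℝ} (hb : Bornology.IsBounded (Poly n h))
    (hb₁ : Bornology.IsBounded (Poly n h₁)) (hb₂ : Bornology.IsBounded (Poly n h₂))
    (hs : ∀ i, h₁ i + h₂ i = 2 * h i) {j : ι} (hn₁ : (Fac n h₁ j).Nonempty)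
    (hn₂ : (Fac n h₂ j).Nonempty) (u : E d) :
    sup (Fac n h₁ j) u + sup (Fac n h₂ j) u ≤ 2 * sup (Fac n h j) u := by
  obtain ⟨x, hx, hxu⟩ := sup_attained (isCompact_Fac hb₁ j) hn₁ u
  obtain ⟨y, hy, hyu⟩ := sup_attained (isCompact_Fac hb₂ j) hn₂ u
  have h1 := sup_ge (isCompact_Fac hb j) u (ss_mid_fac hs hx hy)
  rw [inner_smul_left, inner_add_left] at h1
  simp only [conj_trivial] at h1
  linarith

/-- The second difference of the support function of the polytope is nonnegative. -/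
lemma ss_poly_nonneg {n : ι → E d} {h h₁ h₂ : ι → ℝ} (hb : Bornology.IsBounded (Poly n h))
    (hb₁ : Bornology.IsBounded (Poly n h₁)) (hb₂ : Bornology.IsBounded (Poly n h₂))
    (hs : ∀ i, h₁ i + h₂ i = 2 * h i) (hn₁ : (Poly n h₁).Nonempty)
    (hn₂ : (Poly n h₂).Nonempty) (u : E d) :
    sup (Poly n h₁) u + sup (Poly n h₂) u ≤ 2 * sup (Poly n h) u := by
  obtain ⟨x, hx, hxu⟩ := sup_attained (isCompact_Poly hb₁) hn₁ u
  obtain ⟨y, hy, hyu⟩ := sup_attained (isCompact_Poly hb₂) hn₂ u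
  have h1 := sup_ge (isCompact_Poly hb) u (ss_mid_poly hs hx hy)
  rw [inner_smul_left, inner_add_left] at h1
  simp only [conj_trivial] at h1
  linarith

/-- The sum of the second differences of the facets is at least d times the second difference of
the polytope. -/
theorem sum_delta [Fintype ι] {n : ι → E d} {h h₁ h₂ : ι → ℝ}
    (hb : Bornology.IsBounded (Poly n h)) (hb₁ : Bornology.IsBounded (Poly n h₁))
    (hb₂ : Bornology.IsBounded (Poly n h₂)) (hs : ∀ i, h₁ i + h₂ i = 2 * h i)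
    (hp₁ : (Poly n h₁).Nonempty) (hp₂ : (Poly n h₂).Nonempty)
    (hn₁ : ∀ i, (Fac n h₁ i).Nonempty) (hn₂ : ∀ i, (Fac n h₂ i).Nonempty) (u : E d) :
    (d : ℝ) * (2 * sup (Poly n h) u - sup (Poly n h₁) u - sup (Poly n h₂) u) ≤
      ∑ j, (2 * sup (Fac n h j) u - sup (Fac n h₁ j) u - sup (Fac n h₂ j) u) := by
  classical
  obtain ⟨p₁, hp₁'⟩ := hp₁
  obtain ⟨p₂, hp₂'⟩ := hp₂
  obtain ⟨x, hx, hxu⟩ := ss_exists_extreme hb ⟨_, ss_mid_poly hs hp₁' hp₂'⟩ u
  set Δ : ℝ := 2 * sup (Poly n h) u - sup (Poly n h₁) u - sup (Poly n h₂) u with hΔ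
  have hΔ0 : 0 ≤ Δ := by
    have := ss_poly_nonneg hb hb₁ hb₂ hs ⟨p₁, hp₁'⟩ ⟨p₂, hp₂'⟩ u
    rw [hΔ]; linarith
  set A : Finset ι := Finset.univ.filter (fun i => ⟪n i, x⟫_ℝ = h i) with hA
  have hcard : d ≤ A.card := ss_card_active hx
  have hact : ∀ j ∈ A, Δ ≤ 2 * sup (Fac n h j) u - sup (Fac n h₁ j) u - sup (Fac n h₂ j) u := by
    intro j hj
    have hxj : x ∈ Fac n h j := ⟨hx.1, (Finset.mem_filter.1 hj).2⟩
    have h1 : sup (Poly n h) u ≤ sup (Fac n h j) u := by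
      rw [← hxu]
      exact sup_ge (isCompact_Fac hb j) u hxj
    have h2 := sup_mono_set (isCompact_Poly hb₁) (hn₁ j) (Fac_subset n h₁ j) u
    have h3 := sup_mono_set (isCompact_Poly hb₂) (hn₂ j) (Fac_subset n h₂ j) u
    rw [hΔ]
    linarith
  calc (d : ℝ) * Δ ≤ (A.card : ℝ) * Δ := by
        apply mul_le_mul_of_nonneg_right _ hΔ0
        exact_mod_cast hcard
    _ = ∑ _j ∈ A, Δ := by rw [Finset.sum_const, nsmul_eq_mul]
    _ ≤ ∑ j ∈ A, (2 * sup (Fac n h j) u - sup (Fac n h₁ j) u - sup (Fac n h₂ j) u) :=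
        Finset.sum_le_sum hact
    _ ≤ ∑ j, (2 * sup (Fac n h j) u - sup (Fac n h₁ j) u - sup (Fac n h₂ j) u) := by
        apply Finset.sum_le_sum_of_subset_of_nonneg (Finset.subset_univ _)
        intro j _ _
        have := ss_fac_nonneg hb hb₁ hb₂ hs (hn₁ j) (hn₂ j) u
        linarith

lemma ss_int {s : Set (E d)} {f g k : E d → ℝ} (hf : IntegrableOn f s) (hg : IntegrableOn g s)
    (hk : IntegrableOn k s) : ∫ u in s, (2 * f u - g u - k u) =
      2 * (∫ u in s, f u) - (∫ u in s, g u) - ∫ u in s, k u := by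
  have h0 : Integrable (fun u => 2 * f u) (volume.restrict s) := hf.const_mul 2
  have h1 : Integrable (fun u => 2 * f u - g u) (volume.restrict s) := h0.sub hg
  rw [integral_sub h1 hk, integral_sub h0 hg, integral_const_mul]

/-- The integrated form: the second difference of Lam. -/
theorem Lam_second [Fintype ι] {a b : ℝ} (ha : 0 ≤ a) {n : ι → E d} {h h₁ h₂ : ι → ℝ}
    (hg : Good n h) (hg₁ : Good n h₁) (hg₂ : Good n h₂) (hs : ∀ i, h₁ i + h₂ i = 2 * h i) :
    Lam a b n h₁ + Lam a b n h₂ + 2 * (a * d - b) * ∫ u in Metric.ball (0 : E d) 1,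
      (2 * sup (Poly n h) u - sup (Poly n h₁) u - sup (Poly n h₂) u) ≤ 2 * Lam a b n h := by
  have hpne : ∀ {k : ι → ℝ}, Good n k → (Poly n k).Nonempty := by
    intro k hk
    obtain ⟨z, hz⟩ := hk.slater
    exact ⟨z, fun i => (hz i).le⟩
  have hP := hpne hg
  have hP₁ := hpne hg₁
  have hP₂ := hpne hg₂
  have eP : ∀ {k : ι → ℝ}, Good n k → mm (Poly n k) = 2 * ∫ u in Metric.ball (0 : E d) 1,
      sup (Poly n k) u := fun hk => mm_eq (isCompact_Poly hk.bdd) (convex_Poly n _) (hpne hk)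
  have eF : ∀ {k : ι → ℝ}, Good n k → ∀ j, mm (Fac n k j) = 2 * ∫ u in Metric.ball (0 : E d) 1,
      sup (Fac n k j) u :=
    fun hk j => mm_eq (isCompact_Fac hk.bdd j) (convex_Fac n _ j) (hk.nonempty_Fac j)
  have iP : ∀ {k : ι → ℝ}, Good n k → IntegrableOn (sup (Poly n k)) (Metric.ball (0 : E d) 1) :=
    fun hk => integrableOn_sup (isCompact_Poly hk.bdd) (hpne hk)
  have iF : ∀ {k : ι → ℝ}, Good n k → ∀ j,
      IntegrableOn (sup (Fac n k j)) (Metric.ball (0 : E d) 1) :=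
    fun hk j => integrableOn_sup (isCompact_Fac hk.bdd j) (hk.nonempty_Fac j)
  have iPΔ : IntegrableOn (fun u => 2 * sup (Poly n h) u - sup (Poly n h₁) u -
      sup (Poly n h₂) u) (Metric.ball (0 : E d) 1) :=
    (((iP hg).const_mul 2).sub (iP hg₁)).sub (iP hg₂)
  have iFΔ : ∀ j, IntegrableOn (fun u => 2 * sup (Fac n h j) u - sup (Fac n h₁ j) u -
      sup (Fac n h₂ j) u) (Metric.ball (0 : E d) 1) :=
    fun j => (((iF hg j).const_mul 2).sub (iF hg₁ j)).sub (iF hg₂ j)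
  have hPΔ : 2 * mm (Poly n h) - mm (Poly n h₁) - mm (Poly n h₂) =
      2 * ∫ u in Metric.ball (0 : E d) 1,
        (2 * sup (Poly n h) u - sup (Poly n h₁) u - sup (Poly n h₂) u) := by
    rw [ss_int (iP hg) (iP hg₁) (iP hg₂), eP hg, eP hg₁, eP hg₂]
    ring
  have hFΔ : ∀ j, 2 * mm (Fac n h j) - mm (Fac n h₁ j) - mm (Fac n h₂ j) =
      2 * ∫ u in Metric.ball (0 : E d) 1,
        (2 * sup (Fac n h j) u - sup (Fac n h₁ j) u - sup (Fac n h₂ j) u) := by
    intro j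
    rw [ss_int (iF hg j) (iF hg₁ j) (iF hg₂ j), eF hg j, eF hg₁ j, eF hg₂ j]
    ring
  have hmain : (d : ℝ) * ∫ u in Metric.ball (0 : E d) 1,
      (2 * sup (Poly n h) u - sup (Poly n h₁) u - sup (Poly n h₂) u) ≤
      ∑ j, ∫ u in Metric.ball (0 : E d) 1,
        (2 * sup (Fac n h j) u - sup (Fac n h₁ j) u - sup (Fac n h₂ j) u) := by
    rw [← integral_const_mul, ← integral_finsetSum _ (fun j _ => iFΔ j)]
    apply integral_mono (iPΔ.const_mul _) (integrable_finsetSum _ (fun j _ => iFΔ j))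
    intro u
    exact sum_delta hg.bdd hg₁.bdd hg₂.bdd hs hP₁ hP₂ hg₁.nonempty_Fac hg₂.nonempty_Fac u
  have hsum : 2 * ∑ j, mm (Fac n h j) - ∑ j, mm (Fac n h₁ j) - ∑ j, mm (Fac n h₂ j) =
      2 * ∑ j, ∫ u in Metric.ball (0 : E d) 1,
        (2 * sup (Fac n h j) u - sup (Fac n h₁ j) u - sup (Fac n h₂ j) u) := by
    rw [Finset.mul_sum, Finset.mul_sum, ← Finset.sum_sub_distrib, ← Finset.sum_sub_distrib]
    exact Finset.sum_congr rfl fun j _ => hFΔ j
  unfold Lam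
  have h1 := mul_le_mul_of_nonneg_left hmain (by positivity : (0 : ℝ) ≤ 2 * a)
  have h2 : a * (2 * ∑ j, mm (Fac n h j) - ∑ j, mm (Fac n h₁ j) - ∑ j, mm (Fac n h₂ j)) =
      2 * a * ∑ j, ∫ u in Metric.ball (0 : E d) 1,
        (2 * sup (Fac n h j) u - sup (Fac n h₁ j) u - sup (Fac n h₂ j) u) := by
    rw [hsum]; ring
  have h3 : b * (2 * mm (Poly n h) - mm (Poly n h₁) - mm (Poly n h₂)) =
      2 * b * ∫ u in Metric.ball (0 : E d) 1,
        (2 * sup (Poly n h) u - sup (Poly n h₁) u - sup (Poly n h₂) u) := by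
    rw [hPΔ]; ring
  linarith

end SP4
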