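import Pool.Agent.SP4.Supp

/-!
Second names for the lemmas of Supp.lean (supp = sup).
-/

set_option autoImplicit false

open MeasureTheory Set Filter Topology
open scoped ENNReal InnerProductSpace

namespace SP4

open Melzak (E IsPolytope IsKFace zeta)

variable {d : ℕ}

/-- The support function. -/
noncomputable abbrev supp (C : Set (E d)) (u : E d) : ℝ := sup C u

lemma bddAbove_supp {C : Set (E d)} (hc : IsCompact C) (u : E d) :
    BddAbove ((fun x : E d => ⟪x, u⟫_ℝ) '' C) := sup_bddAbove hc u

lemma le_supp {C : Set (E d)} (hc : IsCompact C) (u : E d) {x : E d} (hx : x ∈ C) :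
    ⟪x, u⟫_ℝ ≤ supp C u := sup_ge hc u hx

lemma exists_supp {C : Set (E d)} (hc : IsCompact C) (hne : C.Nonempty) (u : E d) :
    ∃ x ∈ C, ⟪x, u⟫_ℝ = supp C u := sup_attained hc hne u

lemma supp_le {C : Set (E d)} (hne : C.Nonempty) {u : E d} {a : ℝ} (h : ∀ x ∈ C, ⟪x, u⟫_ℝ ≤ a) :
    supp C u ≤ a := sup_le_of hne h

lemma supp_mono {C D : Set (E d)} (hD : IsCompact D) (hne : C.Nonempty) (hCD : C ⊆ D) (u : E d) :
    supp C u ≤ supp D u := sup_mono_set hD hne hCD u

lemma continuous_supp {C : Set (E d)} (hc : IsCompact C) : Continuous (supp C) :=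
  sup_continuous hc

lemma integrableOn_supp {C : Set (E d)} (hc : IsCompact C) :
    IntegrableOn (supp C) (Metric.ball (0 : E d) 1) :=
  ((sup_continuous hc).continuousOn.integrableOn_compact
    (isCompact_closedBall (0 : E d) 1)).mono_set Metric.ball_subset_closedBall

lemma integrableOn_supp_neg {C : Set (E d)} (hc : IsCompact C) :
    IntegrableOn (fun u => supp C (-u)) (Metric.ball (0 : E d) 1) := sup_integrableOn_neg hc

lemma wid_eq_supp {C : Set (E d)} (hc : IsCompact C) (hcv : Convex ℝ C) (hne : C.Nonempty)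
    (u : E d) : wid u C = ENNReal.ofReal (supp C u + supp C (-u)) := sup_wid_eq hc hcv hne u

lemma supp_add_neg_nonneg {C : Set (E d)} (hc : IsCompact C) (hne : C.Nonempty) (u : E d) :
    0 ≤ supp C u + supp C (-u) := sup_add_neg_nonneg hc hne u

/-- The mean width is twice the integral of the support function. -/
lemma MM_toReal {C : Set (E d)} (hc : IsCompact C) (hcv : Convex ℝ C) (hne : C.Nonempty) :
    (MM C).toReal = 2 * ∫ u in Metric.ball (0 : E d) 1, supp C u := mm_eq hc hcv hne

end SP4
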