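import Pool.Agent.SP4.Poly

/-!
The volume under a small parallel move of one facet, in and out (row F3).
-/

set_option autoImplicit false

open MeasureTheory Set Filter Topology
open scoped ENNReal InnerProductSpace Pointwise

namespace SP4

open Melzak (E IsPolytope IsKFace zeta)

variable {d : ℕ} {ι : Type*}

/-! ### Numerical part -/

/-- The second order lower bound for the d-th root. -/
lemma vd_root_num {d : ℕ} (hd : 0 < d) {s : ℝ} (hs : |s| ≤ 1 / 5) :
    1 + s / d - 2 * s ^ 2 ≤ (1 + s) ^ (1 / (d : ℝ)) := by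
  have hd1 : (1 : ℝ) ≤ d := by exact_mod_cast hd
  have hd0 : (0 : ℝ) < d := by linarith
  obtain ⟨h1, h2⟩ := abs_le.1 hs
  have hpos : 0 ≤ 1 + s / d - 2 * s ^ 2 := by
    have h3 : -(1 / 5) ≤ s / d := by
      rw [le_div_iff₀ hd0]
      nlinarith
    nlinarith
  rw [one_div, Real.le_rpow_inv_iff_of_pos hpos (by linarith) hd0, Real.rpow_natCast]
  set y : ℝ := s - 2 * s ^ 2 with hy
  have hyabs : |y| ≤ 1 := by
    rw [abs_le, hy]
    constructor <;> nlinarith
  have e1 : (1 + s / d - 2 * s ^ 2) ^ d ≤ Real.exp y := by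
    have h4 : 1 + s / d - 2 * s ^ 2 ≤ Real.exp (s / d - 2 * s ^ 2) := by
      have := Real.add_one_le_exp (s / d - 2 * s ^ 2)
      linarith
    calc (1 + s / d - 2 * s ^ 2) ^ d ≤ (Real.exp (s / d - 2 * s ^ 2)) ^ d :=
          pow_le_pow_left₀ hpos h4 d
      _ = Real.exp (d * (s / d - 2 * s ^ 2)) := by rw [← Real.exp_nat_mul]
      _ ≤ Real.exp y := by
          apply Real.exp_le_exp.2
          have h5 : (d : ℝ) * (s / d - 2 * s ^ 2) = s - d * (2 * s ^ 2) := by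
            field_simp
          rw [h5, hy]
          nlinarith [sq_nonneg s]
  have e2 : Real.exp y ≤ 1 + y + y ^ 2 := by
    have := Real.abs_exp_sub_one_sub_id_le hyabs
    have := (abs_le.1 this).2
    linarith
  have e3 : y ^ 2 ≤ 2 * s ^ 2 := by
    have : y = s * (1 - 2 * s) := by rw [hy]; ring
    rw [this, mul_pow]
    have h6 : (1 - 2 * s) ^ 2 ≤ 2 := by nlinarith
    nlinarith [sq_nonneg s]
  linarith

/-- The expansion used for a maximiser. -/
lemma vd_root_pair {d : ℕ} (hd : 0 < d) {V K c : ℝ} (hV : 0 < V) (hK : 0 ≤ K) (hc : 0 ≤ c) :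
    ∃ C t₀ : ℝ, 0 < t₀ ∧ ∀ t A V₁ V₂ : ℝ, 0 < t → t ≤ t₀ → 0 ≤ A → A ≤ K * t →
      V + A - c * t ^ 2 ≤ V₁ → V - A ≤ V₂ →
      2 * V ^ (1 / (d : ℝ)) ≤ V₁ ^ (1 / (d : ℝ)) + V₂ ^ (1 / (d : ℝ)) + C * t ^ 2 := by
  have hd1 : (1 : ℝ) ≤ d := by exact_mod_cast hd
  have hd0 : (0 : ℝ) < d := by linarith
  have hr : (0 : ℝ) ≤ 1 / (d : ℝ) := by positivity
  set v : ℝ := V ^ (1 / (d : ℝ)) with hv
  have hv0 : 0 ≤ v := Real.rpow_nonneg hV.le _
  set L : ℝ := (K + c) / V with hL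
  have hL0 : 0 ≤ L := by positivity
  refine ⟨v * (c / V + 4 * L ^ 2), min 1 (1 / (5 * L + 1)), lt_min one_pos (by positivity), ?_⟩
  intro t A V₁ V₂ ht0 ht hA0 hA1 h1 h2
  have ht1 : t ≤ 1 := ht.trans (min_le_left _ _)
  have ht2 : t * (5 * L + 1) ≤ 1 := by
    have := ht.trans (min_le_right _ _)
    rwa [le_div_iff₀ (by positivity)] at this
  have htL : L * t ≤ 1 / 5 := by nlinarith
  set s₁ : ℝ := (A - c * t ^ 2) / V with hs₁
  set s₂ : ℝ := -A / V with hs₂
  have hct : c * t ^ 2 ≤ c * t := by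
    apply mul_le_mul_of_nonneg_left _ hc
    nlinarith
  have hLt : L * t * V = (K + c) * t := by
    rw [hL]; field_simp
  have b1 : |s₁| ≤ L * t := by
    rw [hs₁, abs_div, abs_of_pos hV, div_le_iff₀ hV, hLt, abs_le]
    constructor
    · nlinarith [mul_nonneg hK ht0.le]
    · nlinarith [mul_nonneg hc (sq_nonneg t), mul_nonneg hc ht0.le]
  have b2 : |s₂| ≤ L * t := by
    rw [hs₂, abs_div, abs_of_pos hV, div_le_iff₀ hV, hLt, abs_neg, abs_of_nonneg hA0]
    nlinarith [mul_nonneg hc ht0.le]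
  have sq1 : s₁ ^ 2 ≤ (L * t) ^ 2 := sq_le_sq' (abs_le.1 b1).1 (abs_le.1 b1).2
  have sq2 : s₂ ^ 2 ≤ (L * t) ^ 2 := sq_le_sq' (abs_le.1 b2).1 (abs_le.1 b2).2
  have key : ∀ s W : ℝ, |s| ≤ 1 / 5 → V * (1 + s) ≤ W →
      v * (1 + s / d - 2 * s ^ 2) ≤ W ^ (1 / (d : ℝ)) := by
    intro s W hs hW
    have hs1 : 0 ≤ 1 + s := by
      have := (abs_le.1 hs).1
      linarith
    calc v * (1 + s / d - 2 * s ^ 2) ≤ v * (1 + s) ^ (1 / (d : ℝ)) :=
          mul_le_mul_of_nonneg_left (vd_root_num hd hs) hv0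
      _ = (V * (1 + s)) ^ (1 / (d : ℝ)) := by rw [Real.mul_rpow hV.le hs1]
      _ ≤ W ^ (1 / (d : ℝ)) := Real.rpow_le_rpow (mul_nonneg hV.le hs1) hW hr
  have k1 := key s₁ V₁ (b1.trans htL) (by
    have : V * (1 + s₁) = V + A - c * t ^ 2 := by rw [hs₁]; field_simp; ring
    rw [this]; exact h1)
  have k2 := key s₂ V₂ (b2.trans htL) (by
    have : V * (1 + s₂) = V - A := by rw [hs₂]; field_simp; ring
    rw [this]; exact h2)
  have hsum : s₁ + s₂ = -(c * t ^ 2) / V := by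
    rw [hs₁, hs₂]; field_simp; ring
  have hdiv : -(c / V * t ^ 2) ≤ (s₁ + s₂) / d := by
    rw [hsum, le_div_iff₀ hd0]
    have h3 : 0 ≤ c / V * t ^ 2 := by positivity
    have h4 : -(c * t ^ 2) / V = -(c / V * t ^ 2) := by field_simp
    rw [h4]
    nlinarith
  have : v * (1 + s₁ / d - 2 * s₁ ^ 2) + v * (1 + s₂ / d - 2 * s₂ ^ 2) + v * (c / V + 4 * L ^ 2) * t ^ 2
      = v * (2 + (s₁ + s₂) / d - 2 * (s₁ ^ 2 + s₂ ^ 2) + (c / V * t ^ 2 + 4 * (L * t) ^ 2)) := by
    ring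
  have h5 : v * 2 ≤ v * (2 + (s₁ + s₂) / d - 2 * (s₁ ^ 2 + s₂ ^ 2) +
      (c / V * t ^ 2 + 4 * (L * t) ^ 2)) := by
    apply mul_le_mul_of_nonneg_left _ hv0
    linarith
  linarith

/-! ### Geometric part -/

lemma vd_volume_image (C : Set (E d)) (a b : E d) {r : ℝ} (hr : 0 ≤ r) :
    volume ((fun x : E d => b + r • (x - a)) '' C) = ENNReal.ofReal (r ^ d) * volume C := by
  have h1 : (fun x : E d => b + r • (x - a)) '' C = (b - r • a) +ᵥ (r • C) := by
    ext x
    simp only [mem_image, mem_vadd_set, vadd_eq_add, mem_smul_set]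
    constructor
    · rintro ⟨y, hy, rfl⟩
      exact ⟨r • y, ⟨y, hy, rfl⟩, by rw [smul_sub]; abel⟩
    · rintro ⟨_, ⟨y, hy, rfl⟩, rfl⟩
      exact ⟨y, hy, by rw [smul_sub]; abel⟩
  rw [h1, measure_vadd, Measure.addHaar_smul, finrank_euclideanSpace_fin,
    abs_of_nonneg (pow_nonneg hr d)]

lemma vd_mem_update [DecidableEq ι] {n : ι → E d} {h : ι → ℝ} {i₀ : ι} {c : ℝ} {x : E d} :
    x ∈ Poly n (Function.update h i₀ c) ↔ ⟪n i₀, x⟫_ℝ ≤ c ∧ ∀ j, j ≠ i₀ → ⟪n j, x⟫_ℝ ≤ h j := by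
  constructor
  · intro hx
    refine ⟨by simpa using hx i₀, fun j hj => ?_⟩
    have := hx j
    rwa [Function.update_of_ne hj] at this
  · rintro ⟨h1, h2⟩ j
    by_cases hj : j = i₀
    · subst hj; simpa using h1
    · rw [Function.update_of_ne hj]; exact h2 j hj

/-- Moving one facet outwards keeps the polyhedron bounded. -/
lemma Good.bdd_move [DecidableEq ι] {n : ι → E d} {h : ι → ℝ} (hg : Good n h) (i₀ : ι) {t : ℝ}
    (ht : 0 ≤ t) : Bornology.IsBounded (Poly n (Function.update h i₀ (h i₀ + t))) := by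
  obtain ⟨z, hz⟩ := hg.slater
  set η : ℝ := h i₀ - ⟪n i₀, z⟫_ℝ with hη
  have hη0 : 0 < η := by have := hz i₀; linarith
  set r : ℝ := η / (η + t) with hr
  have hr0 : 0 < r := by positivity
  have hr1 : r ≤ 1 := by rw [hr, div_le_one (by linarith)]; linarith
  have hrt : r * (η + t) = η := by rw [hr]; field_simp
  obtain ⟨R, hR⟩ := hg.bdd.exists_norm_le
  rw [isBounded_iff_forall_norm_le]
  refine ⟨(R + ‖z‖) / r + ‖z‖, fun x hx => ?_⟩
  obtain ⟨h1, h2⟩ := vd_mem_update.1 hx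
  have hmem : z + r • (x - z) ∈ Poly n h := by
    intro j
    rw [inner_add_right, inner_smul_right, inner_sub_right]
    by_cases hj : j = i₀
    · rw [hj]
      have h3 := mul_le_mul_of_nonneg_left h1 hr0.le
      nlinarith
    · have h3 := mul_le_mul_of_nonneg_left (h2 j hj) hr0.le
      have h4 := mul_nonneg (sub_nonneg.2 hr1) (sub_nonneg.2 (hz j).le)
      linarith
  have h3 := hR _ hmem
  have h4 : ‖r • (x - z)‖ ≤ R + ‖z‖ := by
    have := norm_sub_le (z + r • (x - z)) z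
    rw [add_sub_cancel_left] at this
    linarith
  rw [norm_smul, Real.norm_of_nonneg hr0.le] at h4
  have h5 : ‖x - z‖ ≤ (R + ‖z‖) / r := by
    rw [le_div_iff₀ hr0]; linarith
  have h6 : ‖x‖ ≤ ‖x - z‖ + ‖z‖ := by
    have := norm_add_le (x - z) z
    rwa [sub_add_cancel] at this
  linarith

/-- Moving one facet in and out: the core statement with explicit constants. -/
theorem Good.vd_core [Fintype ι] [DecidableEq ι] {n : ι → E d} {h : ι → ℝ}
    (hg : Good n h) (i₀ : ι) :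
    0 < vol n h ∧ ∃ K c t₀ : ℝ, 0 ≤ K ∧ 0 ≤ c ∧ 0 < t₀ ∧ ∀ t, 0 < t → t ≤ t₀ →
      vol n (Function.update h i₀ (h i₀ - t)) ≤ vol n h ∧
      vol n h - vol n (Function.update h i₀ (h i₀ - t)) ≤ K * t ∧
      vol n h + (vol n h - vol n (Function.update h i₀ (h i₀ - t))) - c * t ^ 2 ≤
        vol n (Function.update h i₀ (h i₀ + t)) := by
  classical
  obtain ⟨z, hz⟩ := hg.slater
  obtain ⟨y, hy, hy'⟩ := hg.irr i₀
  have hP : MeasurableSet (Poly n h) := (isClosed_Poly n h).measurableSet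
  have hfin : volume (Poly n h) ≠ ∞ := hg.bdd.measure_lt_top.ne
  -- positivity of the volume
  have hpos : volume (Poly n h) ≠ 0 := by
    have hop : IsOpen {x : E d | ∀ i, ⟪n i, x⟫_ℝ < h i} := by
      rw [ofPred_forall]
      exact isOpen_iInter_of_finite fun i => isOpen_lt (by fun_prop) continuous_const
    have h1 : 0 < volume {x : E d | ∀ i, ⟪n i, x⟫_ℝ < h i} := hop.measure_pos volume ⟨z, hz⟩
    have h2 : volume {x : E d | ∀ i, ⟪n i, x⟫_ℝ < h i} ≤ volume (Poly n h) :=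
      measure_mono fun x hx i => (hx i).le
    exact (h1.trans_le h2).ne'
  set V : ℝ := (volume (Poly n h)).toReal with hV
  have hV0 : 0 < V := ENNReal.toReal_pos hpos hfin
  set η : ℝ := h i₀ - ⟪n i₀, z⟫_ℝ with hη
  have hη0 : 0 < η := by have := hz i₀; linarith
  set K : ℝ := d / η * V with hK
  have hK0 : 0 ≤ K := by positivity
  set C₁ : ℝ := 1 + ∑ j ∈ Finset.univ.erase i₀, 1 / (h j - ⟪n j, y⟫_ℝ) with hC₁
  have hterm : ∀ j ∈ Finset.univ.erase i₀, 0 ≤ 1 / (h j - ⟪n j, y⟫_ℝ) := by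
    intro j hj
    have := hy' j (Finset.ne_of_mem_erase hj)
    apply one_div_nonneg.2
    linarith
  have hC₁1 : 1 ≤ C₁ := by
    rw [hC₁]
    linarith [Finset.sum_nonneg hterm]
  have hC₁j : ∀ j, j ≠ i₀ → 1 ≤ C₁ * (h j - ⟪n j, y⟫_ℝ) := by
    intro j hj
    have h1 := hy' j hj
    have h2 : 0 < h j - ⟪n j, y⟫_ℝ := by linarith
    have h3 : 1 / (h j - ⟪n j, y⟫_ℝ) ≤ C₁ := by
      have := Finset.single_le_sum hterm (Finset.mem_erase.2 ⟨hj, Finset.mem_univ j⟩)
      linarith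
    calc (1 : ℝ) = 1 / (h j - ⟪n j, y⟫_ℝ) * (h j - ⟪n j, y⟫_ℝ) := by field_simp
      _ ≤ C₁ * (h j - ⟪n j, y⟫_ℝ) := mul_le_mul_of_nonneg_right h3 h2.le
  set c : ℝ := d * C₁ * K with hc
  have hc0 : 0 ≤ c := by positivity
  refine ⟨hV0, K, c, min η (1 / C₁), hK0, hc0, lt_min hη0 (by positivity), ?_⟩
  intro t ht0 ht
  have htη : t ≤ η := ht.trans (min_le_left _ _)
  have htC : C₁ * t ≤ 1 := by
    have h1 : t ≤ 1 / C₁ := ht.trans (min_le_right _ _)
    rwa [le_div_iff₀ (by linarith), mul_comm] at h1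
  set P₁ := Poly n (Function.update h i₀ (h i₀ + t)) with hP₁
  set P₂ := Poly n (Function.update h i₀ (h i₀ - t)) with hP₂
  have hfin₁ : volume P₁ ≠ ∞ := (hg.bdd_move i₀ ht0.le).measure_lt_top.ne
  have hsub₂ : P₂ ⊆ Poly n h := by
    intro x hx j
    obtain ⟨h1, h2⟩ := vd_mem_update.1 hx
    by_cases hj : j = i₀
    · rw [hj]; linarith
    · exact h2 j hj
  have hsub₁ : Poly n h ⊆ P₁ := by
    intro x hx
    exact vd_mem_update.2 ⟨by linarith [hx i₀], fun j _ => hx j⟩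
  have hfin₂ : volume P₂ ≠ ∞ := ne_top_of_le_ne_top hfin (measure_mono hsub₂)
  have hmeas₂ : MeasurableSet P₂ := (isClosed_Poly _ _).measurableSet
  -- lower bound for the small one
  have hlow₂ : (1 - t / η) ^ d * V ≤ (volume P₂).toReal := by
    have hr : 0 ≤ 1 - t / η := by
      have : t / η ≤ 1 := (div_le_one hη0).2 htη
      linarith
    have himg : (fun x : E d => z + (1 - t / η) • (x - z)) '' Poly n h ⊆ P₂ := by
      rintro _ ⟨x, hx, rfl⟩
      have key : ∀ j, ⟪n j, z + (1 - t / η) • (x - z)⟫_ℝ ≤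
          h j - t / η * (h j - ⟪n j, z⟫_ℝ) := by
        intro j
        rw [inner_add_right, inner_smul_right, inner_sub_right]
        have := mul_le_mul_of_nonneg_left (hx j) hr
        nlinarith
      refine vd_mem_update.2 ⟨?_, fun j _ => ?_⟩
      · have := key i₀
        rw [← hη, div_mul_cancel₀ _ hη0.ne'] at this
        exact this
      · have h1 := key j
        have h2 := hz j
        have h3 : 0 ≤ t / η * (h j - ⟪n j, z⟫_ℝ) :=
          mul_nonneg (by positivity) (by linarith)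
        linarith
    have h1 := measure_mono (μ := volume) himg
    rw [vd_volume_image _ _ _ hr] at h1
    have h2 := ENNReal.toReal_mono hfin₂ h1
    rwa [ENNReal.toReal_mul, ENNReal.toReal_ofReal (pow_nonneg hr d)] at h2
  set A : ℝ := V - (volume P₂).toReal with hA
  have hA0 : 0 ≤ A := by
    have := ENNReal.toReal_mono hfin (measure_mono (μ := volume) hsub₂)
    rw [hA]; linarith
  have hAK : A ≤ K * t := by
    have h1 : 1 - (d : ℝ) * (t / η) ≤ (1 - t / η) ^ d := by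
      have h2 : (-2 : ℝ) ≤ -(t / η) := by
        have : t / η ≤ 1 := (div_le_one hη0).2 htη
        linarith
      have := one_add_mul_le_pow h2 d
      have e : (1 + -(t / η)) = 1 - t / η := by ring
      rw [e] at this
      linarith
    have h3 : (1 - (d : ℝ) * (t / η)) * V ≤ (volume P₂).toReal :=
      (mul_le_mul_of_nonneg_right h1 hV0.le).trans hlow₂
    have h4 : K * t = (d : ℝ) * (t / η) * V := by rw [hK]; ring
    rw [h4, hA]
    linarith
  -- lower bound for the large one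
  have hr1 : 0 ≤ 1 - C₁ * t := by linarith
  set T : E d → E d := fun x => (y + t • n i₀) + (1 - C₁ * t) • (x - y) with hT
  have hTn : ∀ j x, ⟪n j, T x⟫_ℝ =
      ⟪n j, y⟫_ℝ + t * ⟪n j, n i₀⟫_ℝ + (1 - C₁ * t) * (⟪n j, x⟫_ℝ - ⟪n j, y⟫_ℝ) := by
    intro j x
    simp only [hT]
    rw [inner_add_right, inner_add_right, inner_smul_right, inner_smul_right, inner_sub_right]
  have hi0 : ⟪n i₀, n i₀⟫_ℝ = 1 := by
    rw [real_inner_self_eq_norm_sq, hg.unit i₀]; norm_num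
  have hTsub : T '' (Poly n h \ P₂) ⊆ P₁ \ Poly n h := by
    rintro _ ⟨x, ⟨hx, hx2⟩, rfl⟩
    have hxi : h i₀ - t < ⟪n i₀, x⟫_ℝ := by
      by_contra hcon
      push Not at hcon
      exact hx2 (vd_mem_update.2 ⟨hcon, fun j _ => hx j⟩)
    constructor
    · refine vd_mem_update.2 ⟨?_, fun j hj => ?_⟩
      · rw [hTn, hi0, hy]
        have := mul_nonneg hr1 (sub_nonneg.2 (hx i₀))
        linarith
      · rw [hTn]
        have h1 : ⟪n j, n i₀⟫_ℝ ≤ 1 := by
          have := real_inner_le_norm (n j) (n i₀)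
          rwa [hg.unit j, hg.unit i₀, one_mul] at this
        have h2 := mul_le_mul_of_nonneg_left (hx j) hr1
        have h3 := hC₁j j hj
        have h4 := mul_le_mul_of_nonneg_left h1 ht0.le
        have h5 := mul_le_mul_of_nonneg_left h3 ht0.le
        nlinarith
    · intro hcon
      have h1 := hcon i₀
      rw [hTn, hi0, hy] at h1
      have h2 : -((1 - C₁ * t) * t) ≤ (1 - C₁ * t) * (⟪n i₀, x⟫_ℝ - h i₀) := by
        have := mul_nonneg hr1 (by linarith : (0 : ℝ) ≤ ⟪n i₀, x⟫_ℝ - h i₀ + t)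
        linarith
      have h3 : 0 < C₁ * t * t := by positivity
      nlinarith
  have hlow₁ : V + (1 - C₁ * t) ^ d * A ≤ (volume P₁).toReal := by
    have h1 : volume (Poly n h) + volume (T '' (Poly n h \ P₂)) ≤ volume P₁ := by
      rw [← measure_union' _ hP]
      · exact measure_mono (union_subset hsub₁ (hTsub.trans sdiff_subset))
      · rw [Set.disjoint_left]
        intro x hx hx2
        exact (hTsub hx2).2 hx
    have h2 : volume (T '' (Poly n h \ P₂)) =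
        ENNReal.ofReal ((1 - C₁ * t) ^ d) * volume (Poly n h \ P₂) := by
      simp only [hT]
      exact vd_volume_image _ _ _ hr1
    have h3 : (volume (Poly n h \ P₂)).toReal = A := by
      rw [measure_sdiff hsub₂ hmeas₂.nullMeasurableSet hfin₂,
        ENNReal.toReal_sub_of_le (measure_mono hsub₂) hfin]
    have hfinD : volume (Poly n h \ P₂) ≠ ∞ :=
      ne_top_of_le_ne_top hfin (measure_mono sdiff_subset)
    have h4 := ENNReal.toReal_mono hfin₁ h1
    rw [h2, ENNReal.toReal_add hfin (ENNReal.mul_ne_top ENNReal.ofReal_ne_top hfinD),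
      ENNReal.toReal_mul, ENNReal.toReal_ofReal (pow_nonneg hr1 d), h3] at h4
    exact h4
  have hV₁ : V + A - c * t ^ 2 ≤ (volume P₁).toReal := by
    refine le_trans ?_ hlow₁
    have h1 : 1 - (d : ℝ) * (C₁ * t) ≤ (1 - C₁ * t) ^ d := by
      have h2 : (-2 : ℝ) ≤ -(C₁ * t) := by linarith
      have := one_add_mul_le_pow h2 d
      have e : (1 + -(C₁ * t)) = 1 - C₁ * t := by ring
      rw [e] at this
      linarith
    have h3 := mul_le_mul_of_nonneg_right h1 hA0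
    have h4 : (d : ℝ) * (C₁ * t) * A ≤ (d : ℝ) * (C₁ * t) * (K * t) :=
      mul_le_mul_of_nonneg_left hAK (by positivity)
    have h5 : c * t ^ 2 = (d : ℝ) * (C₁ * t) * (K * t) := by rw [hc]; ring
    rw [h5]
    linarith
  refine ⟨?_, hAK, hV₁⟩
  rw [hA] at hA0
  exact sub_nonneg.1 hA0

open Classical in
/-- Row F3 of the skeleton. -/
theorem vol_diff [Fintype ι] (_hd : 1 ≤ d) {n : ι → E d} {h : ι → ℝ} (hg : Good n h) (i₀ : ι) :
    ∃ C : ℝ, ∀ᶠ δ in 𝓝[>] (0 : ℝ),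
      vol n (Function.update h i₀ (h i₀ - δ)) ≤ vol n h ∧
      vol n h ≤ vol n (Function.update h i₀ (h i₀ - δ)) + C * δ ∧
      2 * vol n h - C * δ ^ 2 ≤
        vol n (Function.update h i₀ (h i₀ + δ)) + vol n (Function.update h i₀ (h i₀ - δ)) := by
  obtain ⟨-, K, c, t₀, hK, hc, ht₀, hmain⟩ := hg.vd_core i₀
  refine ⟨K + c, ?_⟩
  filter_upwards [Ioc_mem_nhdsGT ht₀] with t ht
  obtain ⟨h1, h2, h3⟩ := hmain t ht.1 ht.2
  refine ⟨h1, ?_, ?_⟩
  · nlinarith [mul_nonneg hc ht.1.le]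
  · nlinarith [mul_nonneg hK (sq_nonneg t)]

/-- Moving one facet in and out: the sum of the d-th roots of the volumes loses only second
order. -/
theorem Good.root_vol_diff (hd : 1 ≤ d) [Fintype ι] [DecidableEq ι] {n : ι → E d} {h : ι → ℝ}
    (hg : Good n h) (i₀ : ι) :
    ∃ C t₀ : ℝ, 0 < t₀ ∧ ∀ t, 0 < t → t ≤ t₀ →
      2 * vol n h ^ (1 / (d : ℝ)) ≤ vol n (Function.update h i₀ (h i₀ + t)) ^ (1 / (d : ℝ)) +
        vol n (Function.update h i₀ (h i₀ - t)) ^ (1 / (d : ℝ)) + C * t ^ 2 := by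
  obtain ⟨hV0, K, c, t₀, hK, hc, ht₀, hmain⟩ := hg.vd_core i₀
  obtain ⟨C, t₁, ht₁, hroot⟩ := vd_root_pair (d := d) (by omega) hV0 hK hc
  refine ⟨C, min t₁ t₀, lt_min ht₁ ht₀, fun t ht0 ht => ?_⟩
  obtain ⟨h1, h2, h3⟩ := hmain t ht0 (ht.trans (min_le_right _ _))
  exact hroot t _ _ _ ht0 (ht.trans (min_le_left _ _)) (sub_nonneg.2 h1) h2 h3 (by linarith)

end SP4
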